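import Pool.Agent.Q211.TP.Uni

/-!
# Tychonoff spaces, zero-sets
-/

set_option autoImplicit false
set_option linter.unusedSectionVars false
set_option linter.unreachableTactic false
set_option linter.unusedTactic false

namespace Pool.Agent.Q211.TP

open Pool.Agent.W868 Pool.Agent.W868.PName Pool.Agent.Q211.SY Pool.Agent.Q211.FS
open Pool.Agent.Q211.PA
open ZFSet (pair)

/-- In `M`, where `(R, σ)` is the real line, `(X, τ)` is a Tychonoff space: points are closed, and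
a point `x` and a closed set `F` that does not contain `x` can be separated by a continuous
function with values in `[0, 1]`. -/
def TychIn (M : Set ZFSet.{0}) (R σ X τ : ZFSet.{0}) : Prop :=
  (∀ x ∈ X, X \ {x} ∈ τ) ∧ ∀ F, F ⊆ X → X \ F ∈ τ → ∀ x ∈ X, x ∉ F →
    ∃ f ∈ M, IsCont X τ R σ f ∧ pair x (cutS 0) ∈ f ∧ (∀ y ∈ F, pair y (cutS 1) ∈ f) ∧
      ∀ y e, pair y e ∈ f → ∃ t : ℝ, 0 ≤ t ∧ t ≤ 1 ∧ e = cutS t

/-- In `M`, where `(R, σ)` is the real line, `Z` is a zero-set of the space `(X, τ)`. -/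
def IsZeroSet (M : Set ZFSet.{0}) (R σ X τ Z : ZFSet.{0}) : Prop :=
  ∃ f ∈ M, IsCont X τ R σ f ∧ ∀ z, z ∈ Z ↔ pair z (cutS 0) ∈ f

/-- In `M`, where `(R, σ)` is the real line, the subspace `S` of `(X, τ)` is `z`-embedded. -/
def ZEmb (M : Set ZFSet.{0}) (R σ X τ S : ZFSet.{0}) : Prop :=
  ∀ Z, IsZeroSet M R σ S (subTop τ S) Z → ∃ Z', IsZeroSet M R σ X τ Z' ∧ Z = Z' ∩ S

theorem cut_mem {M : Set ZFSet.{0}} (hM : IsZF M) (hQ : Qc ∈ M) (hL : LQ ∈ M)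
    (t : ℕ × ℕ × ℕ) : cutS (qv t) ∈ M := by
  have hB := hM.base
  have h1 : cutS (qv t) = ZFSet.sep (fun q => pair q (qc t) ∈ LQ) Qc := by
    ext z
    rw [ZFSet.mem_sep, mem_cutS]
    constructor
    · rintro ⟨s, hs, rfl⟩
      exact ⟨mem_Qc.2 ⟨s, rfl⟩, mem_LQ.2 hs⟩
    · rintro ⟨hz, h3⟩
      obtain ⟨s, rfl⟩ := mem_Qc.1 hz
      exact ⟨s, mem_LQ.1 h3, rfl⟩
  rw [h1]
  have h2 : qc t ∈ M := hM.trans _ hQ _ (mem_Qc.2 ⟨_, rfl⟩)
  refine hM.sep_mem (Q := fun q => pair q (qc t) ∈ LQ) ?_ hQ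
  generalize qc t = c at h2
  (repeat' first
    | assumption
    | exact DfnF.proj _
    | exact DfnF.const (by assumption)
    | exact DfnF.const' (by first | assumption | trivial) (by first | assumption | trivial)
    | exact Dfn.prop _
    | apply hB.isFunc' | apply hB.isInj' | apply hB.isBij' | apply hB.isOrdinal'
    | apply hB.subset' | apply hB.pair' | apply hB.insert'
    | apply Dfn.not | apply Dfn.and | apply Dfn.or | apply Dfn.imp | apply Dfn.iff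
    | apply hB.bex | apply hB.ball | apply Dfn.ex | apply Dfn.all
    | apply Dfn.eq | apply Dfn.mem)

theorem cut0_mem {M : Set ZFSet.{0}} (hM : IsZF M) (hQ : Qc ∈ M) (hL : LQ ∈ M) :
    cutS 0 ∈ M := by
  have h := cut_mem hM hQ hL (0, 0, 0)
  have h1 : qv (0, 0, 0) = 0 := by simp [qv]
  rwa [h1] at h

theorem cut1_mem {M : Set ZFSet.{0}} (hM : IsZF M) (hQ : Qc ∈ M) (hL : LQ ∈ M) :
    cutS 1 ∈ M := by
  have h := cut_mem hM hQ hL (1, 0, 0)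
  have h1 : qv (1, 0, 0) = 1 := by simp [qv]
  rwa [h1] at h

/-- Functions with two values. -/
theorem two_val {M : Set ZFSet.{0}} (hM : IsZF M) {X τ E σ V a b : ZFSet.{0}}
    (hτ : IsTopIn M X τ) (hX : X ∈ M) (hE : E ∈ M) (ha : a ∈ E) (hb : b ∈ E)
    (hV : V ∈ τ) (hVM : V ∈ M) (hV' : X \ V ∈ τ) :
    ∃ f ∈ M, IsCont X τ E σ f ∧ ∀ x e, pair x e ∈ f ↔ x ∈ X ∧ ((x ∈ V ∧ e = a) ∨ (x ∉ V ∧ e = b)) := by
  have hB := hM.base
  have haM := hM.trans _ hE _ ha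
  have hbM := hM.trans _ hE _ hb
  have hVX := hτ.sub V hV
  have hfM : ZFSet.sep (fun p => ∃ x ∈ X, ∃ e ∈ E, p = pair x e ∧ ((x ∈ V ∧ e = a) ∨
      (x ∉ V ∧ e = b))) (ZFSet.prod X E) ∈ M := by
    refine hM.sep_mem (Q := fun p => ∃ x ∈ X, ∃ e ∈ E, p = pair x e ∧ ((x ∈ V ∧ e = a) ∨
      (x ∉ V ∧ e = b))) ?_ (hM.prod_mem hX hE)
    (repeat' first
      | assumption
      | exact DfnF.proj _
      | exact DfnF.const (by assumption)
      | exact DfnF.const' (by first | assumption | trivial) (by first | assumption | trivial)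
      | exact Dfn.prop _
      | apply hB.isFunc' | apply hB.isInj' | apply hB.isBij' | apply hB.isOrdinal'
      | apply hB.subset' | apply hB.pair' | apply hB.insert'
      | apply Dfn.not | apply Dfn.and | apply Dfn.or | apply Dfn.imp | apply Dfn.iff
      | apply hB.bex | apply hB.ball | apply Dfn.ex | apply Dfn.all
      | apply Dfn.eq | apply Dfn.mem)
  have hmem : ∀ x e, pair x e ∈ ZFSet.sep (fun p => ∃ x ∈ X, ∃ e ∈ E, p = pair x e ∧
      ((x ∈ V ∧ e = a) ∨ (x ∉ V ∧ e = b))) (ZFSet.prod X E) ↔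
      x ∈ X ∧ ((x ∈ V ∧ e = a) ∨ (x ∉ V ∧ e = b)) := by
    intro x e
    rw [ZFSet.mem_sep, ZFSet.pair_mem_prod]
    constructor
    · rintro ⟨⟨hx, he⟩, x', -, e', -, hp, h1⟩
      obtain ⟨rfl, rfl⟩ := ZFSet.pair_inj.1 hp
      exact ⟨hx, h1⟩
    · rintro ⟨hx, h1⟩
      have he : e ∈ E := by
        rcases h1 with h1 | h1
        · rw [h1.2]
          exact ha
        · rw [h1.2]
          exact hb
      exact ⟨⟨hx, he⟩, x, hx, e, he, rfl, h1⟩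
  refine ⟨_, hfM, ⟨⟨fun q hq => (ZFSet.mem_sep.1 hq).1, fun x hx => ?_⟩, fun W hW => ?_⟩, hmem⟩
  · by_cases hxV : x ∈ V
    · refine ⟨a, (hmem _ _).2 ⟨hx, Or.inl ⟨hxV, rfl⟩⟩, fun e he => ?_⟩
      rcases ((hmem _ _).1 he).2 with h1 | h1
      · exact h1.2
      · exact absurd hxV h1.1
    · refine ⟨b, (hmem _ _).2 ⟨hx, Or.inr ⟨hxV, rfl⟩⟩, fun e he => ?_⟩
      rcases ((hmem _ _).1 he).2 with h1 | h1
      · exact absurd h1.1 hxV
      · exact h1.2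
  · have hpre : ∀ x, x ∈ pre X (ZFSet.sep (fun p => ∃ x ∈ X, ∃ e ∈ E, p = pair x e ∧
        ((x ∈ V ∧ e = a) ∨ (x ∉ V ∧ e = b))) (ZFSet.prod X E)) W ↔
        x ∈ X ∧ ((x ∈ V ∧ a ∈ W) ∨ (x ∉ V ∧ b ∈ W)) := by
      intro x
      rw [mem_pre]
      refine and_congr_right fun hx => ?_
      constructor
      · rintro ⟨e, he, h1⟩
        rcases ((hmem _ _).1 h1).2 with h2 | h2
        · exact Or.inl ⟨h2.1, h2.2 ▸ he⟩
        · exact Or.inr ⟨h2.1, h2.2 ▸ he⟩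
      · rintro (⟨h1, h2⟩ | ⟨h1, h2⟩)
        · exact ⟨a, h2, (hmem _ _).2 ⟨hx, Or.inl ⟨h1, rfl⟩⟩⟩
        · exact ⟨b, h2, (hmem _ _).2 ⟨hx, Or.inr ⟨h1, rfl⟩⟩⟩
    by_cases ha' : a ∈ W
    · by_cases hb' : b ∈ W
      · have h1 : pre X (ZFSet.sep (fun p => ∃ x ∈ X, ∃ e ∈ E, p = pair x e ∧
            ((x ∈ V ∧ e = a) ∨ (x ∉ V ∧ e = b))) (ZFSet.prod X E)) W = X := by
          ext x
          rw [hpre]
          constructor
          · exact fun h2 => h2.1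
          · intro hx
            by_cases hxV : x ∈ V
            · exact ⟨hx, Or.inl ⟨hxV, ha'⟩⟩
            · exact ⟨hx, Or.inr ⟨hxV, hb'⟩⟩
        rw [h1]
        exact hτ.univ
      · have h1 : pre X (ZFSet.sep (fun p => ∃ x ∈ X, ∃ e ∈ E, p = pair x e ∧
            ((x ∈ V ∧ e = a) ∨ (x ∉ V ∧ e = b))) (ZFSet.prod X E)) W = V := by
          ext x
          rw [hpre]
          constructor
          · rintro ⟨-, h2 | h2⟩
            · exact h2.1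
            · exact absurd h2.2 hb'
          · intro hx
            exact ⟨hVX hx, Or.inl ⟨hx, ha'⟩⟩
        rw [h1]
        exact hV
    · by_cases hb' : b ∈ W
      · have h1 : pre X (ZFSet.sep (fun p => ∃ x ∈ X, ∃ e ∈ E, p = pair x e ∧
            ((x ∈ V ∧ e = a) ∨ (x ∉ V ∧ e = b))) (ZFSet.prod X E)) W = X \ V := by
          ext x
          rw [hpre, ZFSet.mem_sdiff]
          constructor
          · rintro ⟨h3, h2 | h2⟩
            · exact absurd h2.2 ha'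
            · exact ⟨h3, h2.1⟩
          · rintro ⟨h2, h3⟩
            exact ⟨h2, Or.inr ⟨h3, hb'⟩⟩
        rw [h1]
        exact hV'
      · have h1 : pre X (ZFSet.sep (fun p => ∃ x ∈ X, ∃ e ∈ E, p = pair x e ∧
            ((x ∈ V ∧ e = a) ∨ (x ∉ V ∧ e = b))) (ZFSet.prod X E)) W =
            (ZFSet.sUnion ∅ : ZFSet.{0}) := by
          ext x
          rw [hpre, ZFSet.mem_sUnion]
          constructor
          · rintro ⟨-, h2 | h2⟩
            · exact absurd h2.2 ha'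
            · exact absurd h2.2 hb'
          · rintro ⟨y, hy, -⟩
            exact absurd hy (ZFSet.notMem_empty _)
        rw [h1]
        exact hτ.union ∅ hM.empty_mem fun y hy => absurd hy (ZFSet.notMem_empty _)

theorem real_mem {M : Set ZFSet.{0}} {R σ : ZFSet.{0}} (h : IsReals M R σ) {x : ℝ} :
    cutS x ∈ R ↔ cutS x ∈ M := by
  rw [h.1]
  exact ⟨fun h => h.1, fun h => ⟨h, x, rfl⟩⟩

/-- Zero-dimensional spaces are Tychonoff spaces. -/
theorem tych_of_zeroDim {M : Set ZFSet.{0}} (hM : IsZF M) (hQ : Qc ∈ M) (hL : LQ ∈ M)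
    {R σ X τ : ZFSet.{0}} (hRM : R ∈ M) (hR : IsReals M R σ) (hX : X ∈ M) (hτM : τ ∈ M)
    (hτ : IsTopIn M X τ) (hz : ZeroDim X τ) : TychIn M R σ X τ := by
  refine ⟨hz.1, fun F hF hFc x hx hxF => ?_⟩
  obtain ⟨V, hV, hV', hxV, hVF⟩ := hz.2 _ hFc x (ZFSet.mem_sdiff.2 ⟨hx, hxF⟩)
  obtain ⟨f, hf, hfc, hfm⟩ := two_val (σ := σ) hM hτ hX hRM
    ((real_mem hR).2 (cut0_mem hM hQ hL)) ((real_mem hR).2 (cut1_mem hM hQ hL)) hV
    (hM.trans _ hτM _ hV) hV'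
  refine ⟨f, hf, hfc, (hfm _ _).2 ⟨hx, Or.inl ⟨hxV, rfl⟩⟩, fun y hy => (hfm _ _).2 ⟨hF hy,
    Or.inr ⟨fun h1 => (ZFSet.mem_sdiff.1 (hVF h1)).2 hy, rfl⟩⟩, fun y e he => ?_⟩
  rcases ((hfm _ _).1 he).2 with h1 | h1
  · exact ⟨0, le_rfl, zero_le_one, h1.2⟩
  · exact ⟨1, zero_le_one, le_rfl, h1.2⟩

theorem zEmb_of {M : Set ZFSet.{0}} {R σ X τ S : ZFSet.{0}} (hSX : S ⊆ X)
    (h : EmbIn M R σ X τ S) : ZEmb M R σ X τ S := by
  rintro Z ⟨f, hf, hfc, hZ⟩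
  obtain ⟨f', hf', hfc', hsub⟩ := h f hf hfc
  refine ⟨ZFSet.sep (fun z => pair z (cutS 0) ∈ f') X, ⟨f', hf', hfc', fun z => ?_⟩, ?_⟩
  · rw [ZFSet.mem_sep]
    exact ⟨fun h1 => h1.2, fun h1 => ⟨(ZFSet.pair_mem_prod.1 (hfc'.1.1 h1)).1, h1⟩⟩
  · ext z
    rw [ZFSet.mem_inter, ZFSet.mem_sep, hZ]
    constructor
    · intro h1
      have h2 := (ZFSet.pair_mem_prod.1 (hfc.1.1 h1)).1
      exact ⟨⟨hSX h2, hsub h1⟩, h2⟩
    · rintro ⟨⟨h1, h2⟩, h3⟩
      obtain ⟨e, he, -⟩ := hfc.1.2 z h3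
      rw [← (hfc'.1.2 z h1).unique (hsub he) h2]
      exact he

/-- The real line of a model. -/
theorem exists_line {M : Set ZFSet.{0}} (hM : IsZF M) (hQ : Qc ∈ M) (hL : LQ ∈ M) :
    ∃ R ∈ M, ∃ σ ∈ M, IsReals M R σ := by
  obtain ⟨R, hR, h1⟩ := exists_reals hM hQ hL
  obtain ⟨σ, hσ, h2⟩ := exists_top hM hQ hL hR fun z hz => ((h1 z).1 hz).2
  exact ⟨R, hR, σ, hσ, h1, h2⟩

theorem isReals_uniq {M : Set ZFSet.{0}} {R σ R' σ' : ZFSet.{0}} (h : IsReals M R σ)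
    (h' : IsReals M R' σ') : R = R' ∧ σ = σ' := by
  have h1 : R = R' := by
    ext z
    rw [h.1, h'.1]
  subst h1
  refine ⟨rfl, ?_⟩
  ext U
  rw [h.2, h'.2]

end Pool.Agent.Q211.TP
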