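import Pool.Agent.Q211.TP.Chf
import Pool.Agent.Q211.TP.Tyc

/-!
# Products of P-spaces
-/

set_option autoImplicit false
set_option linter.unusedSectionVars false
set_option linter.unreachableTactic false
set_option linter.unusedTactic false

namespace Pool.Agent.Q211.TP

open Pool.Agent.W868 Pool.Agent.W868.PName Pool.Agent.Q211.SY Pool.Agent.Q211.FS
open Pool.Agent.Q211.PA
open ZFSet (pair)

/-- In `M`, the space `(X, τ)` is a `P`-space: the intersection of a sequence of open sets is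
open. -/
def IsPSpace (M : Set ZFSet.{0}) (X τ : ZFSet.{0}) : Prop :=
  ∀ s ∈ M, ∀ A : ℕ → ZFSet.{0}, IsSeq s A → (∀ n, A n ∈ τ) →
    ∃ U ∈ τ, ∀ z, z ∈ U ↔ ∀ n, z ∈ A n

/-- In `M`, `T` is the product topology of the spaces `(X, τ)` and `(Y, σ)`. -/
def IsProdTop (M : Set ZFSet.{0}) (X τ Y σ T : ZFSet.{0}) : Prop :=
  ∀ W, W ∈ T ↔ W ∈ M ∧ W ⊆ ZFSet.prod X Y ∧ ∀ x y, pair x y ∈ W →
    ∃ U ∈ τ, ∃ V ∈ σ, x ∈ U ∧ y ∈ V ∧ ∀ x' ∈ U, ∀ y' ∈ V, pair x' y' ∈ W

/-! ### Automorphisms of the order of the rational numbers -/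

theorem rat_up {m w t : ℚ} (hw : m < w) (ht : m < t) :
    ∃ γ : ℚ ≃o ℚ, γ w = t ∧ ∀ x ≤ m, γ x = x := by
  have hk : 0 < (t - m) / (w - m) := div_pos (by linarith) (by linarith)
  have hk' : 0 < (w - m) / (t - m) := div_pos (by linarith) (by linarith)
  have hne1 : w - m ≠ 0 := by linarith [sub_pos.2 hw]
  have hne2 : t - m ≠ 0 := by linarith [sub_pos.2 ht]
  have hkk : (t - m) / (w - m) * ((w - m) / (t - m)) = 1 := by
    field_simp
  have hmono : StrictMono fun x : ℚ => if x ≤ m then x else m + (x - m) * ((t - m) / (w - m)) := by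
    intro x y hxy
    dsimp only
    split_ifs with h1 h2 h2
    · exact hxy
    · have h3 : 0 < (y - m) * ((t - m) / (w - m)) := mul_pos (by linarith [not_le.1 h2]) hk
      linarith
    · exact absurd (hxy.le.trans h2) h1
    · have h3 : (x - m) * ((t - m) / (w - m)) < (y - m) * ((t - m) / (w - m)) :=
        mul_lt_mul_of_pos_right (by linarith) hk
      linarith
  refine ⟨hmono.orderIsoOfRightInverse _ (fun x : ℚ => if x ≤ m then x else
    m + (x - m) * ((w - m) / (t - m))) ?_, ?_, ?_⟩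
  · intro x
    dsimp only
    by_cases h1 : x ≤ m
    · rw [if_pos h1, if_pos h1]
    · have h2 : 0 < (x - m) * ((w - m) / (t - m)) := mul_pos (by linarith [not_le.1 h1]) hk'
      have h3 : ¬ m + (x - m) * ((w - m) / (t - m)) ≤ m := by linarith
      rw [if_neg h1, if_neg h3, add_sub_cancel_left, mul_assoc, mul_comm ((w - m) / (t - m)), hkk]
      ring
  · change (if w ≤ m then w else m + (w - m) * ((t - m) / (w - m))) = t
    rw [if_neg (not_le.2 hw)]
    field_simp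
    ring
  · intro x hx
    change (if x ≤ m then x else m + (x - m) * ((t - m) / (w - m))) = x
    rw [if_pos hx]

theorem rat_down {m w t : ℚ} (hw : w < m) (ht : t < m) :
    ∃ γ : ℚ ≃o ℚ, γ w = t ∧ ∀ x, m ≤ x → γ x = x := by
  obtain ⟨γ, h1, h2⟩ := rat_up (m := -m) (w := -w) (t := -t) (by linarith) (by linarith)
  have hmono : StrictMono fun x : ℚ => -γ (-x) := by
    intro x y hxy
    have h3 : γ (-y) < γ (-x) := γ.lt_iff_lt.2 (by linarith)
    dsimp only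
    linarith
  refine ⟨hmono.orderIsoOfRightInverse _ (fun x : ℚ => -γ.symm (-x)) ?_, ?_, ?_⟩
  · intro x
    dsimp only
    rw [neg_neg, OrderIso.apply_symm_apply, neg_neg]
  · change -γ (-w) = t
    rw [h1, neg_neg]
  · intro x hx
    change -γ (-x) = x
    rw [h2 (-x) (by linarith), neg_neg]

theorem ud_mem3 : UD fun _ (v : Fin 3 → ZFSet.{0}) => v 1 ∈ v 0 := by
  (repeat' first
    | assumption
    | exact UF.proj _
    | exact UF.om
    | exact UD.prop _
    | apply UD.not | apply UD.and | apply UD.or | apply UD.imp | apply UD.iff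
    | apply UD.bex | apply UD.ball | apply UD.ex | apply UD.all
    | apply UD.eq | apply UD.mem | apply UF.pair)

theorem ud_seq3 : UD fun M (v : Fin 3 → ZFSet.{0}) => ∃ S ∈ M, pair (v 2) S ∈ v 0 ∧ v 1 ∈ S := by
  (repeat' first
    | assumption
    | exact UF.proj _
    | exact UF.om
    | exact UD.prop _
    | apply UD.not | apply UD.and | apply UD.or | apply UD.imp | apply UD.iff
    | apply UD.bex | apply UD.ball | apply UD.ex | apply UD.all
    | apply UD.eq | apply UD.mem | apply UF.pair)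

/-- An automorphism of one block. -/
def oneB (n : ℕ) (α : ℚ ≃o ℚ) : GmL ℚ := Function.update (1 : ℕ → (ℚ ≃o ℚ)) n α

theorem oneB_self (n : ℕ) (α : ℚ ≃o ℚ) (a : ℚ) : oneB n α • ((n, a) : ℕ × ℚ) = (n, α a) := by
  rw [smul_def]
  change (n, Function.update (1 : ℕ → (ℚ ≃o ℚ)) n α n a) = (n, α a)
  rw [Function.update_self]

theorem oneB_ne {n : ℕ} {α : ℚ ≃o ℚ} {x : ℕ × ℚ} (h : x.1 ≠ n) : oneB n α • x = x := by
  rw [smul_def]
  change (x.1, Function.update (1 : ℕ → (ℚ ≃o ℚ)) n α x.1 x.2) = x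
  rw [Function.update_of_ne h]
  rfl

theorem oneB_fix {n : ℕ} {α : ℚ ≃o ℚ} {x : ℕ × ℚ} (h : x.1 = n → α x.2 = x.2) :
    oneB n α • x = x := by
  by_cases hx : x.1 = n
  · obtain ⟨m, a⟩ := x
    subst hx
    rw [oneB_self, h rfl]
  · exact oneB_ne hx

namespace ChfM

variable {M : Set ZFSet.{0}} {pt : Pt ℚ → ZFSet.{0}} {X K R BL : ZFSet.{0}}
  (h : ChfM ℚ M pt X K R BL)

include h

theorem R_iff {a : ℕ × ℚ} {p : Pt ℚ} : pair (pt (.atm a)) (pt p) ∈ R ↔ le a p := by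
  rw [h.mR]
  constructor
  · rintro ⟨x, q, h1, h2⟩
    obtain ⟨h3, h4⟩ := ZFSet.pair_inj.1 h2
    have h5 := h.inj h3
    have h6 := h.inj h4
    injection h5 with h5
    rw [h5, h6]
    exact h1
  · intro h1
    exact ⟨a, p, h1, rfl⟩

theorem B_iff {n : ℕ} {a : ℕ × ℚ} : pair (nat n) (pt (.atm a)) ∈ BL ↔ a.1 = n := by
  rw [h.mB]
  constructor
  · rintro ⟨y, hy⟩
    obtain ⟨h1, h2⟩ := ZFSet.pair_inj.1 hy
    have h3 := h.inj h2
    injection h3 with h3
    rw [h3, nat_injective h1]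
  · rintro rfl
    exact ⟨a, rfl⟩

/-- Moving an atom above all atoms of the support in its block. -/
theorem move_up {f : ZFSet.{0}} {e : Finset (ℕ × ℚ)}
    (he : ∀ γ : GmL ℚ, (∀ x ∈ e, γ • x = x) → ∀ p, ∀ r, Cd r →
    ∀ Q : Set ZFSet.{0} → (Fin 3 → ZFSet.{0}) → Prop, UD Q →
      Q M ![f, pt p, r] → Q M ![f, pt (apt γ p), r]) {n : ℕ} {m : ℚ}
    (hm : ∀ x ∈ e, x.1 = n → x.2 ≤ m) {w t : ℚ} (hw : m < w) (ht : m < t) {r : ZFSet.{0}}
    (hr : Cd r) {Q : Set ZFSet.{0} → (Fin 3 → ZFSet.{0}) → Prop} (hQ : UD Q)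
    (hq : Q M ![f, pt (.atm (n, w)), r]) : Q M ![f, pt (.atm (n, t)), r] := by
  obtain ⟨α, h1, h2⟩ := rat_up hw ht
  have h3 := he (oneB n α) (fun x hx => oneB_fix fun hxn => h2 _ (hm x hx hxn)) _ r hr Q hQ hq
  have h4 : apt (oneB n α) (.atm (n, w)) = .atm (n, t) := by
    change Pt.atm (oneB n α • (n, w)) = _
    rw [oneB_self, h1]
  rwa [h4] at h3

/-- Moving an atom below all atoms of the support in its block. -/
theorem move_down {f : ZFSet.{0}} {e : Finset (ℕ × ℚ)}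
    (he : ∀ γ : GmL ℚ, (∀ x ∈ e, γ • x = x) → ∀ p, ∀ r, Cd r →
    ∀ Q : Set ZFSet.{0} → (Fin 3 → ZFSet.{0}) → Prop, UD Q →
      Q M ![f, pt p, r] → Q M ![f, pt (apt γ p), r]) {n : ℕ} {m : ℚ}
    (hm : ∀ x ∈ e, x.1 = n → m ≤ x.2) {w t : ℚ} (hw : w < m) (ht : t < m) {r : ZFSet.{0}}
    (hr : Cd r) {Q : Set ZFSet.{0} → (Fin 3 → ZFSet.{0}) → Prop} (hQ : UD Q)
    (hq : Q M ![f, pt (.atm (n, w)), r]) : Q M ![f, pt (.atm (n, t)), r] := by
  obtain ⟨α, h1, h2⟩ := rat_down hw ht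
  have h3 := he (oneB n α) (fun x hx => oneB_fix fun hxn => h2 _ (hm x hx hxn)) _ r hr Q hQ hq
  have h4 : apt (oneB n α) (.atm (n, w)) = .atm (n, t) := by
    change Pt.atm (oneB n α • (n, w)) = _
    rw [oneB_self, h1]
  rwa [h4] at h3

/-- Moving an atom of a block without atoms of the support. -/
theorem move_any {f : ZFSet.{0}} {e : Finset (ℕ × ℚ)}
    (he : ∀ γ : GmL ℚ, (∀ x ∈ e, γ • x = x) → ∀ p, ∀ r, Cd r →
    ∀ Q : Set ZFSet.{0} → (Fin 3 → ZFSet.{0}) → Prop, UD Q →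
      Q M ![f, pt p, r] → Q M ![f, pt (apt γ p), r]) {n : ℕ}
    (hm : ∀ x ∈ e, x.1 ≠ n) {w t : ℚ} {r : ZFSet.{0}}
    (hr : Cd r) {Q : Set ZFSet.{0} → (Fin 3 → ZFSet.{0}) → Prop} (hQ : UD Q)
    (hq : Q M ![f, pt (.atm (n, w)), r]) : Q M ![f, pt (.atm (n, t)), r] := by
  refine h.move_up he (m := min w t - 1) (fun x hx hxn => absurd hxn (hm x hx)) ?_ ?_ hr hQ hq
  · linarith [min_le_left w t]
  · linarith [min_le_right w t]

end ChfM

end Pool.Agent.Q211.TP
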