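import Pool.Agent.Q211.TP.Tyc

/-!
# Baire sets, and the failure of countable multiple choice
-/

set_option autoImplicit false
set_option linter.unusedSectionVars false
set_option linter.unreachableTactic false
set_option linter.unusedTactic false

namespace Pool.Agent.Q211.TP

open Pool.Agent.W868 Pool.Agent.W868.PName Pool.Agent.Q211.SY Pool.Agent.Q211.FS
open Pool.Agent.Q211.PA
open ZFSet (pair)

/-- The axiom of countable multiple choice holds in `M`. -/
def CMC (M : Set ZFSet.{0}) : Prop :=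
  ∀ s ∈ M, ∀ A : ℕ → ZFSet.{0}, IsSeq s A → (∀ n, ∃ z, z ∈ A n) →
    ∃ t ∈ M, ∃ F : ℕ → ZFSet.{0}, IsSeq t F ∧
      ∀ n, (∃ z, z ∈ F n) ∧ F n ⊆ A n ∧ {z | z ∈ F n}.Finite

/-- In `M`, `𝒮` is a `σ`-algebra of subsets of `X`. -/
structure IsSigmaAlg (M : Set ZFSet.{0}) (X 𝒮 : ZFSet.{0}) : Prop where
  sub : ∀ A ∈ 𝒮, A ⊆ X
  empty : ∅ ∈ 𝒮
  compl : ∀ A ∈ 𝒮, X \ A ∈ 𝒮
  union : ∀ s ∈ M, ∀ A : ℕ → ZFSet.{0}, IsSeq s A → (∀ n, A n ∈ 𝒮) →
    ∃ U ∈ 𝒮, ∀ z, z ∈ U ↔ ∃ n, z ∈ A n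

/-- In `M`, where `(R, σ)` is the real line, `B` is a Baire set of the space `(X, τ)`: it belongs
to all `σ`-algebras of subsets of `X` that contain all zero-sets. -/
def IsBaire (M : Set ZFSet.{0}) (R σ X τ B : ZFSet.{0}) : Prop :=
  B ∈ M ∧ ∀ 𝒮 ∈ M, IsSigmaAlg M X 𝒮 → (∀ Z, IsZeroSet M R σ X τ Z → Z ∈ 𝒮) → B ∈ 𝒮

theorem ud_fin : UD fun M (v : Fin 3 → ZFSet.{0}) => ∃ S ∈ M, pair (v 2) S ∈ v 0 ∧ v 1 ∈ S := by
  (repeat' first
    | assumption
    | exact UF.proj _
    | exact UF.om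
    | exact UD.prop _
    | apply UD.not | apply UD.and | apply UD.or | apply UD.imp | apply UD.iff
    | apply UD.bex | apply UD.ball | apply UD.ex | apply UD.all
    | apply UD.eq | apply UD.mem | apply UF.pair)

/-- Clopen sets are zero-sets. -/
theorem zero_of_clopen {M : Set ZFSet.{0}} (hM : IsZF M) (hQ : Qc ∈ M) (hL : LQ ∈ M)
    {R σ X τ V : ZFSet.{0}} (hRM : R ∈ M) (hR : IsReals M R σ) (hX : X ∈ M)
    (hτ : IsTopIn M X τ) (hV : V ∈ τ) (hVM : V ∈ M) (hV' : X \ V ∈ τ) :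
    IsZeroSet M R σ X τ V := by
  obtain ⟨f, hf, hfc, hfm⟩ := two_val (σ := σ) hM hτ hX hRM
    ((real_mem hR).2 (cut0_mem hM hQ hL)) ((real_mem hR).2 (cut1_mem hM hQ hL)) hV hVM hV'
  refine ⟨f, hf, hfc, fun z => ?_⟩
  rw [hfm]
  constructor
  · intro hz
    exact ⟨hτ.sub V hV hz, Or.inl ⟨hz, rfl⟩⟩
  · rintro ⟨-, h1 | h1⟩
    · exact h1.1
    · exact absurd (cutS_injective h1.2) (by norm_num)

namespace ChnM

variable {L : Type} [LinearOrder L] {Z0 M : Set ZFSet.{0}} {pt : Pt L → ZFSet.{0}}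
  {c : ℕ × L → ℕ} {X K R BL : ZFSet.{0}} (h : ChnM L Z0 M pt c X K R BL)

include h

theorem not_CMC [Nonempty L] [NoMaxOrder L] : ¬ CMC M := by
  intro hcmc
  have hM := h.zf
  have hB := hM.base
  have hKM := h.KM
  have hBM := h.BM
  have hom : ZFSet.omega ∈ M := hM.infinity
  have hPM := PM_mem hM hKM
  have z := Classical.arbitrary L
  -- the sequence of the blocks
  have hsM : ZFSet.sep (fun q => ∃ k ∈ ZFSet.omega, ∃ U ∈ PM M K, q = pair k U ∧
      ∀ z ∈ K, (z ∈ U ↔ pair k z ∈ BL)) (ZFSet.prod ZFSet.omega (PM M K)) ∈ M := by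
    generalize PM M K = P at hPM
    refine hM.sep_mem (Q := fun q => ∃ k ∈ ZFSet.omega, ∃ U ∈ P, q = pair k U ∧
      ∀ z ∈ K, (z ∈ U ↔ pair k z ∈ BL)) ?_ (hM.prod_mem hom hPM)
    (repeat' first
      | assumption
      | exact DfnF.proj _
      | exact DfnF.const (by assumption)
      | exact DfnF.const' (by first | assumption | trivial) (by first | assumption | trivial)
      | exact Dfn.prop _
      | apply hB.isFunc' | apply hB.isInj' | apply hB.isBij' | apply hB.isOrdinal'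
      | apply hB.subset' | apply hB.pair' | apply hB.insert'
      | apply Dfn.not | apply Dfn.and | apply Dfn.or | apply Dfn.imp | apply Dfn.iff
      | apply hB.bex | apply hB.ball | apply Dfn.ex | apply Dfn.all
      | apply Dfn.eq | apply Dfn.mem)
  have hbl : ∀ (n : ℕ) (x : ℕ × L), pair (nat n) (pt (.atm x)) ∈ BL ↔ x.1 = n := by
    intro n x
    rw [h.mB]
    constructor
    · rintro ⟨y, hy⟩
      obtain ⟨h1, h2⟩ := ZFSet.pair_inj.1 hy
      have h3 := h.inj h2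
      injection h3 with h3
      rw [h3, nat_injective h1]
    · rintro rfl
      exact ⟨x, rfl⟩
  have hAM : ∀ n : ℕ, ZFSet.sep (fun z => pair (nat n) z ∈ BL) K ∈ M := by
    intro n
    have hn := hM.nat_mem n
    generalize nat n = m at hn
    refine hM.sep_mem (Q := fun z => pair m z ∈ BL) ?_ hKM
    (repeat' first
      | assumption
      | exact DfnF.proj _
      | exact DfnF.const (by assumption)
      | exact DfnF.const' (by first | assumption | trivial) (by first | assumption | trivial)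
      | exact Dfn.prop _
      | apply hB.isFunc' | apply hB.isInj' | apply hB.isBij' | apply hB.isOrdinal'
      | apply hB.subset' | apply hB.pair' | apply hB.insert'
      | apply Dfn.not | apply Dfn.and | apply Dfn.or | apply Dfn.imp | apply Dfn.iff
      | apply hB.bex | apply hB.ball | apply Dfn.ex | apply Dfn.all
      | apply Dfn.eq | apply Dfn.mem)
  obtain ⟨t, ht, F, hF, hF'⟩ := hcmc _ hsM (fun n => ZFSet.sep (fun z => pair (nat n) z ∈ BL) K)
    (fun q => by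
      rw [ZFSet.mem_sep]
      constructor
      · rintro ⟨-, k, hk, U, hU, rfl, h1⟩
        obtain ⟨k, rfl⟩ := mem_omega_iff.1 hk
        refine ⟨k, ?_⟩
        congr 1
        ext z
        rw [ZFSet.mem_sep]
        exact ⟨fun hz => ⟨(mem_PM.1 hU).2 hz, (h1 z ((mem_PM.1 hU).2 hz)).1 hz⟩,
          fun hz => (h1 z hz.1).2 hz.2⟩
      · rintro ⟨k, rfl⟩
        have hU : ZFSet.sep (fun z => pair (nat k) z ∈ BL) K ∈ PM M K :=
          mem_PM.2 ⟨hAM k, fun z hz => (ZFSet.mem_sep.1 hz).1⟩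
        refine ⟨ZFSet.pair_mem_prod.2 ⟨mem_omega_iff.2 ⟨k, rfl⟩, hU⟩, _,
          mem_omega_iff.2 ⟨k, rfl⟩, _, hU, rfl, fun z hz => ?_⟩
        rw [ZFSet.mem_sep]
        exact ⟨fun h1 => h1.2, fun h1 => ⟨hz, h1⟩⟩)
    (fun n => ⟨pt (.atm (n, z)), ZFSet.mem_sep.2 ⟨(h.mK _).2 ⟨_, rfl⟩, (hbl n _).2 rfl⟩⟩)
  obtain ⟨k, hk⟩ := h.inv t ht
  obtain ⟨⟨x, hx⟩, hsub, hfin⟩ := hF' k
  obtain ⟨hxK, hxB⟩ := ZFSet.mem_sep.1 (hsub hx)
  obtain ⟨⟨k', a⟩, rfl⟩ := (h.mK x).1 hxK
  have hk' : k' = k := (hbl k (k', a)).1 hxB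
  subst hk'
  have htF : pair (nat k') (F k') ∈ t := (hF _).2 ⟨k', rfl⟩
  have hFM : F k' ∈ M := (hM.of_pair_mem (hM.trans _ ht _ htF)).2
  have hall : ∀ b : L, pt (.atm (k', b)) ∈ F k' := by
    intro b
    obtain ⟨S, -, h1, h2⟩ := hk k' le_rfl a b (nat k') (.nat k') _ ud_fin ⟨F k', hFM, htF, hx⟩
    obtain ⟨m, hm⟩ := (hF _).1 h1
    obtain ⟨h3, h4⟩ := ZFSet.pair_inj.1 hm
    rw [h4, ← nat_injective h3] at h2
    exact h2
  have hinf : Infinite L := by infer_instance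
  have hfin' : Finite {z | z ∈ F k'} := hfin.to_subtype
  refine hinf.not_finite (Finite.of_injective
    (fun b : L => (⟨pt (.atm (k', b)), hall b⟩ : {z | z ∈ F k'})) fun b b' hbb => ?_)
  have h1 := h.inj (congrArg Subtype.val hbb)
  injection h1 with h1
  exact (Prod.ext_iff.1 h1).2

/-- The set of all points except the point at infinity is a Baire set of the space of all
points. -/
theorem baire_B [Nonempty L] [NoMaxOrder L] {B τ RR σ : ZFSet.{0}}
    (hBs : h.Sub (fun p => p ≠ .inf) B) (hτM : τ ∈ M) (hτ : GenBy M X τ K R) (hRM : RR ∈ M)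
    (hRR : IsReals M RR σ) : IsBaire M RR σ X τ B := by
  refine ⟨hBs.1, fun 𝒮 hS𝒮 hsig hz => ?_⟩
  have hM := h.zf
  have hB := hM.base
  have hXM := h.XM
  have hKM := h.KM
  have hR := h.RM
  have hom : ZFSet.omega ∈ M := hM.infinity
  have hPM := PM_mem hM hXM
  have z := Classical.arbitrary L
  have htop := hτ.top hM hXM
  obtain ⟨s, hs, A, hA, hsA⟩ := h.exists_seq
  have hAS : ∀ n, A n ∈ 𝒮 := by
    intro n
    obtain ⟨K1, hK1M, hK1, hK1K, -⟩ := h.blocks (n + 1)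
    obtain ⟨K0, hK0M, hK0, hK0K, -⟩ := h.blocks n
    obtain ⟨u, hu, hu'⟩ := h.en (n + 1)
    have hUM : ∀ i : ℕ, ZFSet.sep (fun z => ∃ a ∈ K, a ∉ K0 ∧ pair a (nat i) ∈ u ∧
        pair a z ∈ R) X ∈ M := by
      intro i
      have hi := hM.nat_mem i
      generalize nat i = m at hi
      refine hM.sep_mem (Q := fun z => ∃ a ∈ K, a ∉ K0 ∧ pair a m ∈ u ∧ pair a z ∈ R) ?_ hXM
      (repeat' first
        | assumption
        | exact DfnF.proj _
        | exact DfnF.const (by assumption)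
        | exact DfnF.const' (by first | assumption | trivial) (by first | assumption | trivial)
        | exact Dfn.prop _
        | apply hB.isFunc' | apply hB.isInj' | apply hB.isBij' | apply hB.isOrdinal'
        | apply hB.subset' | apply hB.pair' | apply hB.insert'
        | apply Dfn.not | apply Dfn.and | apply Dfn.or | apply Dfn.imp | apply Dfn.iff
        | apply hB.bex | apply hB.ball | apply Dfn.ex | apply Dfn.all
        | apply Dfn.eq | apply Dfn.mem)
    have htM : ZFSet.sep (fun q => ∃ k ∈ ZFSet.omega, ∃ U ∈ PM M X, q = pair k U ∧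
        ∀ z ∈ X, (z ∈ U ↔ ∃ a ∈ K, a ∉ K0 ∧ pair a k ∈ u ∧ pair a z ∈ R))
        (ZFSet.prod ZFSet.omega (PM M X)) ∈ M := by
      generalize PM M X = P at hPM
      refine hM.sep_mem (Q := fun q => ∃ k ∈ ZFSet.omega, ∃ U ∈ P, q = pair k U ∧
        ∀ z ∈ X, (z ∈ U ↔ ∃ a ∈ K, a ∉ K0 ∧ pair a k ∈ u ∧ pair a z ∈ R)) ?_
        (hM.prod_mem hom hPM)
      (repeat' first
        | assumption
        | exact DfnF.proj _
        | exact DfnF.const (by assumption)
        | exact DfnF.const' (by first | assumption | trivial) (by first | assumption | trivial)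
        | exact Dfn.prop _
        | apply hB.isFunc' | apply hB.isInj' | apply hB.isBij' | apply hB.isOrdinal'
        | apply hB.subset' | apply hB.pair' | apply hB.insert'
        | apply Dfn.not | apply Dfn.and | apply Dfn.or | apply Dfn.imp | apply Dfn.iff
        | apply hB.bex | apply hB.ball | apply Dfn.ex | apply Dfn.all
        | apply Dfn.eq | apply Dfn.mem)
    have hU𝒮 : ∀ i : ℕ, ZFSet.sep (fun z => ∃ a ∈ K, a ∉ K0 ∧ pair a (nat i) ∈ u ∧
        pair a z ∈ R) X ∈ 𝒮 := by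
      intro i
      by_cases hex : ∃ a ∈ K, a ∉ K0 ∧ pair a (nat i) ∈ u
      · obtain ⟨a, haK, ha0, hau⟩ := hex
        have haM := hM.trans _ hKM _ haK
        have h1 : ZFSet.sep (fun z => ∃ a ∈ K, a ∉ K0 ∧ pair a (nat i) ∈ u ∧ pair a z ∈ R) X =
            ZFSet.sep (fun z => pair a z ∈ R) X := by
          ext z
          rw [ZFSet.mem_sep, ZFSet.mem_sep]
          refine and_congr_right fun hz => ?_
          constructor
          · rintro ⟨b, hb, hb0, hbu, h1⟩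
            obtain ⟨x, -, hx⟩ := (hu' _).1 hau
            obtain ⟨y, -, hy⟩ := (hu' _).1 hbu
            obtain ⟨h2, h3⟩ := ZFSet.pair_inj.1 hx
            obtain ⟨h4, h5⟩ := ZFSet.pair_inj.1 hy
            have h6 := h.cinj (nat_injective (h3.symm.trans h5))
            rw [h2, h6, ← h4]
            exact h1
          · intro h1
            exact ⟨a, haK, ha0, hau, h1⟩
        rw [h1]
        have h2 := hτ.pos hM hXM hR haK haM
        refine hz _ (zero_of_clopen hM h.qc h.lq hRM hRR hXM htop h2 (hM.trans _ hτM _ h2) ?_)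
        have h3 : X \ ZFSet.sep (fun z => pair a z ∈ R) X = ZFSet.sep (fun z => pair a z ∉ R) X := by
          ext z
          rw [ZFSet.mem_sdiff, ZFSet.mem_sep, ZFSet.mem_sep]
          exact ⟨fun h4 => ⟨h4.1, fun h5 => h4.2 ⟨h4.1, h5⟩⟩, fun h4 => ⟨h4.1, fun h5 => h4.2 h5.2⟩⟩
        rw [h3]
        exact hτ.neg hM hXM hR haK haM
      · have h1 : ZFSet.sep (fun z => ∃ a ∈ K, a ∉ K0 ∧ pair a (nat i) ∈ u ∧ pair a z ∈ R) X =
            ∅ := by
          ext z
          rw [ZFSet.mem_sep]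
          constructor
          · rintro ⟨-, a, ha, ha0, hau, -⟩
            exact absurd ⟨a, ha, ha0, hau⟩ hex
          · intro h1
            exact absurd h1 (ZFSet.notMem_empty _)
        rw [h1]
        exact hsig.empty
    obtain ⟨U, hU, hUz⟩ := hsig.union _ htM (fun i => ZFSet.sep (fun z => ∃ a ∈ K, a ∉ K0 ∧
      pair a (nat i) ∈ u ∧ pair a z ∈ R) X) (fun q => by
        rw [ZFSet.mem_sep]
        constructor
        · rintro ⟨-, k, hk, U, hU, rfl, h1⟩
          obtain ⟨k, rfl⟩ := mem_omega_iff.1 hk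
          refine ⟨k, ?_⟩
          congr 1
          ext z
          rw [ZFSet.mem_sep]
          exact ⟨fun hz => ⟨(mem_PM.1 hU).2 hz, (h1 z ((mem_PM.1 hU).2 hz)).1 hz⟩,
            fun hz => (h1 z hz.1).2 hz.2⟩
        · rintro ⟨k, rfl⟩
          have hU : ZFSet.sep (fun z => ∃ a ∈ K, a ∉ K0 ∧ pair a (nat k) ∈ u ∧
              pair a z ∈ R) X ∈ PM M X :=
            mem_PM.2 ⟨hUM k, fun z hz => (ZFSet.mem_sep.1 hz).1⟩
          refine ⟨ZFSet.pair_mem_prod.2 ⟨mem_omega_iff.2 ⟨k, rfl⟩, hU⟩, _,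
            mem_omega_iff.2 ⟨k, rfl⟩, _, hU, rfl, fun z hz => ?_⟩
          rw [ZFSet.mem_sep]
          exact ⟨fun h1 => h1.2, fun h1 => ⟨hz, h1⟩⟩) hU𝒮
    have h1 : A n = X \ U := by
      ext z
      rw [ZFSet.mem_sdiff, (hA n).2, hUz]
      constructor
      · rintro ⟨p, hp, rfl⟩
        refine ⟨(h.mX _).2 ⟨p, rfl⟩, ?_⟩
        rintro ⟨i, hi⟩
        obtain ⟨-, a, haK, ha0, hau, h1⟩ := ZFSet.mem_sep.1 hi
        obtain ⟨x, rfl⟩ := (h.mK a).1 haK
        rw [h.R_iff] at h1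
        exact ha0 ((hK0 _).2 ⟨x, Dn_iff.1 hp x h1, rfl⟩)
      · rintro ⟨hz, hno⟩
        obtain ⟨p, rfl⟩ := (h.mX z).1 hz
        refine ⟨p, ?_, rfl⟩
        rw [Dn_iff]
        intro a ha
        by_contra han
        obtain ⟨b, hb1, hb2⟩ : ∃ b : ℕ × L, b.1 = n ∧ le b p := by
          rcases eq_or_lt_of_le (not_lt.1 han) with h1 | h1
          · exact ⟨a, h1.symm, ha⟩
          · exact ⟨(n, a.2), rfl, le_down (Or.inl h1) ha⟩
        refine hno ⟨c b, ZFSet.mem_sep.2 ⟨hz, pt (.atm b), (h.mK _).2 ⟨b, rfl⟩, fun h1 => ?_,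
          (hu' _).2 ⟨b, by omega, rfl⟩, h.R_iff.2 hb2⟩⟩
        obtain ⟨y, hy, h2⟩ := (hK0 _).1 h1
        have h3 := h.inj h2
        injection h3 with h3
        rw [← h3] at hy
        omega
    rw [h1]
    exact hsig.compl _ hU
  obtain ⟨U, hU, hUz⟩ := hsig.union s hs A hsA hAS
  have h1 : B = U := by
    ext z
    rw [hUz, hBs.2]
    constructor
    · rintro ⟨p, hp, rfl⟩
      cases p with
      | atm x => exact ⟨x.1 + 1, (hA _).mem.2 (Nat.lt_succ_self _)⟩
      | nd n => exact ⟨n, (hA _).mem.2 le_rfl⟩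
      | inf => exact absurd rfl hp
    · rintro ⟨n, hn⟩
      obtain ⟨p, hp, rfl⟩ := ((hA n).2 z).1 hn
      refine ⟨p, ?_, rfl⟩
      rintro rfl
      exact hp
  rw [h1]
  exact hU

end ChnM

end Pool.Agent.Q211.TP
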