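import Pool.Agent.Q211.TP.Flt

/-!
# The family of the countable intersections of clopen sets
-/

set_option autoImplicit false
set_option linter.unusedSectionVars false
set_option linter.unreachableTactic false
set_option linter.unusedTactic false

namespace Pool.Agent.Q211.TP

open Pool.Agent.W868 Pool.Agent.W868.PName Pool.Agent.Q211.SY Pool.Agent.Q211.FS
open Pool.Agent.Q211.PA
open ZFSet (pair)

theorem seq_fun {s : ZFSet.{0}} {A : ℕ → ZFSet.{0}} (h : IsSeq s A) {n : ℕ} {B : ZFSet.{0}} :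
    pair (nat n) B ∈ s ↔ B = A n := by
  rw [h]
  constructor
  · rintro ⟨m, hm⟩
    obtain ⟨h1, h2⟩ := ZFSet.pair_inj.1 hm
    rw [h2, nat_injective h1]
  · rintro rfl
    exact ⟨n, rfl⟩

section

variable {M : Set ZFSet.{0}} (hM : IsZF M) {X τ : ZFSet.{0}} (hX : X ∈ M) (hτM : τ ∈ M)
  (hτ : IsTopIn M X τ)

include hM hX hτM hτ

omit hX hτM in
theorem top_union {U V : ZFSet.{0}} (hU : U ∈ τ) (hV : V ∈ τ) (hτM : τ ∈ M) : U ∪ V ∈ τ := by
  have h1 : U ∪ V = (ZFSet.sUnion {U, V} : ZFSet.{0}) := by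
    rw [ZFSet.sUnion_pair]
  rw [h1]
  refine hτ.union _ (hM.pairing _ (hM.trans _ hτM _ hU) _ (hM.trans _ hτM _ hV)) fun z hz => ?_
  rcases ZFSet.mem_pair.1 hz with rfl | rfl
  · exact hU
  · exact hV

/-- The internal form of the definition. -/
theorem cdelta_iff {C : ZFSet.{0}} (hC : C ⊆ X) : IsCdelta M X τ C ↔
    ∃ s ∈ M, ZFSet.IsFunc ZFSet.omega τ s ∧ (∀ n ∈ ZFSet.omega, ∀ U ∈ τ, pair n U ∈ s →
      ∃ V ∈ τ, ∀ z ∈ X, (z ∈ V ↔ z ∉ U)) ∧
      ∀ z ∈ X, (z ∈ C ↔ ∀ n ∈ ZFSet.omega, ∀ U ∈ τ, pair n U ∈ s → z ∈ U) := by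
  have hcompl : ∀ U, X \ U ∈ τ ↔ ∃ V ∈ τ, ∀ z ∈ X, (z ∈ V ↔ z ∉ U) := by
    intro U
    constructor
    · intro h1
      refine ⟨_, h1, fun z hz => ?_⟩
      rw [ZFSet.mem_sdiff]
      exact ⟨fun h2 => h2.2, fun h2 => ⟨hz, h2⟩⟩
    · rintro ⟨V, hV, h1⟩
      have h2 : X \ U = V := by
        ext z
        rw [ZFSet.mem_sdiff]
        constructor
        · rintro ⟨h3, h4⟩
          exact (h1 z h3).2 h4
        · intro h3
          have h4 := hτ.sub V hV h3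
          exact ⟨h4, (h1 z h4).1 h3⟩
      rw [h2]
      exact hV
  constructor
  · rintro ⟨s, hs, A, hA, hcl, hCA⟩
    refine ⟨s, hs, ⟨fun z hz => ?_, fun n hn => ?_⟩, fun n hn U hU hnU => ?_, fun z hz => ?_⟩
    · obtain ⟨n, rfl⟩ := (hA z).1 hz
      exact ZFSet.pair_mem_prod.2 ⟨mem_omega_iff.2 ⟨n, rfl⟩, (hcl n).1⟩
    · obtain ⟨n, rfl⟩ := mem_omega_iff.1 hn
      exact ⟨A n, (hA _).2 ⟨n, rfl⟩, fun y hy => (seq_fun hA).1 hy⟩
    · obtain ⟨n, rfl⟩ := mem_omega_iff.1 hn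
      rw [(seq_fun hA).1 hnU]
      exact (hcompl _).1 (hcl n).2
    · rw [hCA]
      constructor
      · rintro ⟨-, h1⟩ n hn U hU hnU
        obtain ⟨n, rfl⟩ := mem_omega_iff.1 hn
        rw [(seq_fun hA).1 hnU]
        exact h1 n
      · intro h1
        exact ⟨hz, fun n => h1 _ (mem_omega_iff.2 ⟨n, rfl⟩) _ (hcl n).1 ((hA _).2 ⟨n, rfl⟩)⟩
  · rintro ⟨s, hs, hfun, hcl, hCs⟩
    have h1 : ∀ n : ℕ, ∃ U ∈ τ, pair (nat n) U ∈ s ∧ ∀ V, pair (nat n) V ∈ s → V = U := by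
      intro n
      obtain ⟨U, hU, hU'⟩ := hfun.2 (nat n) (mem_omega_iff.2 ⟨n, rfl⟩)
      exact ⟨U, (ZFSet.pair_mem_prod.1 (hfun.1 hU)).2, hU, hU'⟩
    choose A hA1 hA2 hA3 using h1
    refine ⟨s, hs, A, fun z => ?_, fun n => ⟨hA1 n, (hcompl _).2
      (hcl _ (mem_omega_iff.2 ⟨n, rfl⟩) _ (hA1 n) (hA2 n))⟩, fun z => ?_⟩
    · constructor
      · intro hz
        obtain ⟨n, hn, U, -, rfl⟩ := ZFSet.mem_prod.1 (hfun.1 hz)
        obtain ⟨n, rfl⟩ := mem_omega_iff.1 hn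
        exact ⟨n, by rw [hA3 n U hz]⟩
      · rintro ⟨n, rfl⟩
        exact hA2 n
    · constructor
      · intro hz
        exact ⟨hC hz, fun n => (hCs z (hC hz)).1 hz _ (mem_omega_iff.2 ⟨n, rfl⟩) _ (hA1 n)
          (hA2 n)⟩
      · rintro ⟨hz, h2⟩
        refine (hCs z hz).2 fun n hn U hU hnU => ?_
        obtain ⟨n, rfl⟩ := mem_omega_iff.1 hn
        rw [hA3 n U hnU]
        exact h2 n

/-- The sequence of the pairwise intersections. -/
theorem seq_inter {s t : ZFSet.{0}} (hs : s ∈ M) (ht : t ∈ M) {A B : ℕ → ZFSet.{0}}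
    (hA : IsSeq s A) (hB' : IsSeq t B) (hAM : ∀ n, A n ⊆ X) :
    ∃ u ∈ M, IsSeq u fun n => A n ∩ B n := by
  have hB := hM.base
  have hom : ZFSet.omega ∈ M := hM.infinity
  have hPM := PM_mem hM hX
  have hAM' : ∀ n, A n ∈ M := fun n =>
    (hM.of_pair_mem (hM.trans _ hs _ ((hA _).2 ⟨n, rfl⟩))).2
  have hBM' : ∀ n, B n ∈ M := fun n =>
    (hM.of_pair_mem (hM.trans _ ht _ ((hB' _).2 ⟨n, rfl⟩))).2
  have hIM : ∀ n, A n ∩ B n ∈ M := by
    intro n
    have h1 := hAM' n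
    have h2 := hBM' n
    have h8 : A n ∩ B n = ZFSet.sep (fun z => z ∈ B n) (A n) := by
      ext z
      rw [ZFSet.mem_inter, ZFSet.mem_sep]
    rw [h8]
    exact hM.sep_mem (Q := fun z => z ∈ B n) (Dfn.mem (DfnF.proj 0) (DfnF.const h2)) h1
  have huM : ZFSet.sep (fun q => ∃ k ∈ ZFSet.omega, ∃ U ∈ PM M X, q = pair k U ∧
      ∃ V ∈ M, ∃ W ∈ M, pair k V ∈ s ∧ pair k W ∈ t ∧ ∀ z ∈ X, (z ∈ U ↔ (z ∈ V ∧ z ∈ W)))
      (ZFSet.prod ZFSet.omega (PM M X)) ∈ M := by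
    generalize PM M X = P at hPM
    refine hM.sep_mem (Q := fun q => ∃ k ∈ ZFSet.omega, ∃ U ∈ P, q = pair k U ∧
      ∃ V ∈ M, ∃ W ∈ M, pair k V ∈ s ∧ pair k W ∈ t ∧ ∀ z ∈ X, (z ∈ U ↔ (z ∈ V ∧ z ∈ W))) ?_
      (hM.prod_mem hom hPM)
    (repeat' first
      | assumption
      | exact DfnF.proj _
      | exact DfnF.const (by assumption)
      | exact DfnF.const' (by first | assumption | trivial) (by first | assumption | trivial)
      | exact Dfn.prop _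
      | apply hB.isFunc' | apply hB.isInj' | apply hB.isBij' | apply hB.isOrdinal'
      | apply hB.subset' | apply hB.pair' | apply hB.insert'
      | apply Dfn.not | apply Dfn.and | apply Dfn.or | apply Dfn.imp | apply Dfn.iff
      | apply hB.bex | apply hB.ball | apply Dfn.ex | apply Dfn.all
      | apply Dfn.eq | apply Dfn.mem)
  refine ⟨_, huM, fun q => ?_⟩
  rw [ZFSet.mem_sep]
  constructor
  · rintro ⟨-, k, hk, U, hU, rfl, V, -, W, -, h1, h2, h3⟩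
    obtain ⟨k, rfl⟩ := mem_omega_iff.1 hk
    rw [(seq_fun hA).1 h1, (seq_fun hB').1 h2] at h3
    refine ⟨k, ?_⟩
    congr 1
    ext z
    rw [ZFSet.mem_inter]
    exact ⟨fun hz => (h3 z ((mem_PM.1 hU).2 hz)).1 hz, fun hz => (h3 z (hAM k hz.1)).2 hz⟩
  · rintro ⟨k, rfl⟩
    have hU : A k ∩ B k ∈ PM M X :=
      mem_PM.2 ⟨hIM k, fun z hz => hAM k (ZFSet.mem_inter.1 hz).1⟩
    refine ⟨ZFSet.pair_mem_prod.2 ⟨mem_omega_iff.2 ⟨k, rfl⟩, hU⟩, _,
      mem_omega_iff.2 ⟨k, rfl⟩, _, hU, rfl, A k, hAM' k, B k, hBM' k, (hA _).2 ⟨k, rfl⟩,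
      (hB' _).2 ⟨k, rfl⟩, fun z hz => ?_⟩
    rw [ZFSet.mem_inter]

theorem cdelta_closed {C : ZFSet.{0}} (hC : IsCdelta M X τ C) : X \ C ∈ τ := by
  have hB := hM.base
  obtain ⟨s, hs, A, hA, hcl, hCA⟩ := hC
  have h1 : X \ C = (ZFSet.sUnion (ZFSet.sep (fun V => ∃ n ∈ ZFSet.omega, ∃ U ∈ M, pair n U ∈ s ∧
      ∀ z ∈ X, (z ∈ V ↔ z ∉ U)) τ) : ZFSet.{0}) := by
    ext z
    rw [ZFSet.mem_sdiff, ZFSet.mem_sUnion, hCA]
    constructor
    · rintro ⟨hz, h1⟩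
      have h2 : ∃ n, z ∉ A n := by
        by_contra h3
        push Not at h3
        exact h1 ⟨hz, h3⟩
      obtain ⟨n, hn⟩ := h2
      refine ⟨X \ A n, ZFSet.mem_sep.2 ⟨(hcl n).2, nat n, mem_omega_iff.2 ⟨n, rfl⟩, A n,
        hM.trans _ hτM _ (hcl n).1, (hA _).2 ⟨n, rfl⟩, fun w hw => ?_⟩,
        ZFSet.mem_sdiff.2 ⟨hz, hn⟩⟩
      rw [ZFSet.mem_sdiff]
      exact ⟨fun h3 => h3.2, fun h3 => ⟨hw, h3⟩⟩
    · rintro ⟨V, hV, hz⟩
      obtain ⟨hVτ, n, hn, U, -, hnU, h2⟩ := ZFSet.mem_sep.1 hV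
      obtain ⟨n, rfl⟩ := mem_omega_iff.1 hn
      have hzX := hτ.sub V hVτ hz
      rw [(seq_fun hA).1 hnU] at h2
      exact ⟨hzX, fun h3 => (h2 z hzX).1 hz (h3.2 n)⟩
  have hom : ZFSet.omega ∈ M := hM.infinity
  rw [h1]
  refine hτ.union _ (hM.sep_mem (Q := fun V => ∃ n ∈ ZFSet.omega, ∃ U ∈ M, pair n U ∈ s ∧
      ∀ z ∈ X, (z ∈ V ↔ z ∉ U)) ?_ hτM) fun V hV => (ZFSet.mem_sep.1 hV).1
  (repeat' first
    | assumption
    | exact DfnF.proj _
    | exact DfnF.const (by assumption)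
    | exact DfnF.const' (by first | assumption | trivial) (by first | assumption | trivial)
    | exact Dfn.prop _
    | apply hB.isFunc' | apply hB.isInj' | apply hB.isBij' | apply hB.isOrdinal'
    | apply hB.subset' | apply hB.pair' | apply hB.insert'
    | apply Dfn.not | apply Dfn.and | apply Dfn.or | apply Dfn.imp | apply Dfn.iff
    | apply hB.bex | apply hB.ball | apply Dfn.ex | apply Dfn.all
    | apply Dfn.eq | apply Dfn.mem)

theorem fam_cdelta : FamOK M X τ (IsCdelta M X τ) := by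
  have hB := hM.base
  have hom : ZFSet.omega ∈ M := hM.infinity
  refine ⟨?_, ?_, ?_, fun C hC => cdelta_closed hM hX hτM hτ hC, ?_⟩
  · rintro C ⟨s, hs, A, hA, hcl, hCA⟩ z hz
    exact ((hCA z).1 hz).1
  · rintro C D ⟨s, hs, A, hA, hcl, hCA⟩ ⟨t, ht, B, hB', hcl', hCB⟩
    obtain ⟨u, hu, hu'⟩ := seq_inter hM hX hτM hτ hs ht hA hB' fun n => hτ.sub _ (hcl n).1
    refine ⟨u, hu, _, hu', fun n => ⟨hτ.inter _ (hcl n).1 _ (hcl' n).1, ?_⟩, fun z => ?_⟩
    · have h1 : X \ (A n ∩ B n) = (X \ A n) ∪ (X \ B n) := by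
        ext z
        rw [ZFSet.mem_sdiff, ZFSet.mem_inter, ZFSet.mem_union, ZFSet.mem_sdiff, ZFSet.mem_sdiff]
        tauto
      rw [h1]
      exact top_union hM hτ (hcl n).2 (hcl' n).2 hτM
    · rw [ZFSet.mem_inter, hCA, hCB]
      constructor
      · rintro ⟨⟨hz, h1⟩, -, h2⟩
        exact ⟨hz, fun n => ZFSet.mem_inter.2 ⟨h1 n, h2 n⟩⟩
      · rintro ⟨hz, h1⟩
        exact ⟨⟨hz, fun n => (ZFSet.mem_inter.1 (h1 n)).1⟩, hz,
          fun n => (ZFSet.mem_inter.1 (h1 n)).2⟩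
  · intro V hV hV'
    have hVM := hM.trans _ hτM _ hV
    refine ⟨ZFSet.prod ZFSet.omega {V}, hM.prod_mem hom (hM.single_mem hVM), fun _ => V,
      fun z => ?_, fun _ => ⟨hV, hV'⟩, fun z => ?_⟩
    · rw [ZFSet.mem_prod]
      constructor
      · rintro ⟨n, hn, W, hW, rfl⟩
        obtain ⟨n, rfl⟩ := mem_omega_iff.1 hn
        exact ⟨n, by rw [ZFSet.mem_singleton.1 hW]⟩
      · rintro ⟨n, rfl⟩
        exact ⟨_, mem_omega_iff.2 ⟨n, rfl⟩, _, ZFSet.mem_singleton.2 rfl, rfl⟩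
    · constructor
      · intro hz
        exact ⟨hτ.sub V hV hz, fun _ => hz⟩
      · rintro ⟨-, h1⟩
        exact h1 0
  · refine ⟨ZFSet.sep (fun C => ∃ s ∈ M, ZFSet.IsFunc ZFSet.omega τ s ∧
      (∀ n ∈ ZFSet.omega, ∀ U ∈ τ, pair n U ∈ s → ∃ V ∈ τ, ∀ z ∈ X, (z ∈ V ↔ z ∉ U)) ∧
      ∀ z ∈ X, (z ∈ C ↔ ∀ n ∈ ZFSet.omega, ∀ U ∈ τ, pair n U ∈ s → z ∈ U)) (PM M X),
      hM.sep_mem (Q := fun C => ∃ s ∈ M, ZFSet.IsFunc ZFSet.omega τ s ∧
      (∀ n ∈ ZFSet.omega, ∀ U ∈ τ, pair n U ∈ s → ∃ V ∈ τ, ∀ z ∈ X, (z ∈ V ↔ z ∉ U)) ∧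
      ∀ z ∈ X, (z ∈ C ↔ ∀ n ∈ ZFSet.omega, ∀ U ∈ τ, pair n U ∈ s → z ∈ U)) ?_ (PM_mem hM hX),
      fun C => ?_⟩
    · (repeat' first
        | assumption
        | exact DfnF.proj _
        | exact DfnF.const (by assumption)
        | exact DfnF.const' (by first | assumption | trivial) (by first | assumption | trivial)
        | exact Dfn.prop _
        | apply hB.isFunc' | apply hB.isInj' | apply hB.isBij' | apply hB.isOrdinal'
        | apply hB.subset' | apply hB.pair' | apply hB.insert'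
        | apply Dfn.not | apply Dfn.and | apply Dfn.or | apply Dfn.imp | apply Dfn.iff
        | apply hB.bex | apply hB.ball | apply Dfn.ex | apply Dfn.all
        | apply Dfn.eq | apply Dfn.mem)
    · rw [ZFSet.mem_sep, mem_PM]
      constructor
      · rintro ⟨⟨h1, h2⟩, h3⟩
        exact (cdelta_iff hM hX hτM hτ h2).2 h3
      · intro h1
        have hCX : C ⊆ X := by
          obtain ⟨s, hs, A, hA, hcl, hCA⟩ := h1
          exact fun z hz => ((hCA z).1 hz).1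
        obtain ⟨s, hs, h2, h3, h4⟩ := (cdelta_iff hM hX hτM hτ hCX).1 h1
        have hCM : C ∈ M := by
          have h5 : C = ZFSet.sep (fun z => ∀ n ∈ ZFSet.omega, ∀ U ∈ τ, pair n U ∈ s → z ∈ U)
              X := by
            ext z
            rw [ZFSet.mem_sep]
            exact ⟨fun hz => ⟨hCX hz, (h4 z (hCX hz)).1 hz⟩, fun hz => (h4 z hz.1).2 hz.2⟩
          rw [h5]
          refine hM.sep_mem (Q := fun z => ∀ n ∈ ZFSet.omega, ∀ U ∈ τ, pair n U ∈ s → z ∈ U) ?_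
            hX
          (repeat' first
            | assumption
            | exact DfnF.proj _
            | exact DfnF.const (by assumption)
            | exact DfnF.const' (by first | assumption | trivial) (by first | assumption | trivial)
            | exact Dfn.prop _
            | apply hB.isFunc' | apply hB.isInj' | apply hB.isBij' | apply hB.isOrdinal'
            | apply hB.subset' | apply hB.pair' | apply hB.insert'
            | apply Dfn.not | apply Dfn.and | apply Dfn.or | apply Dfn.imp | apply Dfn.iff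
            | apply hB.bex | apply hB.ball | apply Dfn.ex | apply Dfn.all
            | apply Dfn.eq | apply Dfn.mem)
        exact ⟨⟨hCM, hCX⟩, s, hs, h2, h3, h4⟩

end

namespace ChnM

variable {Z0 M : Set ZFSet.{0}} {pt : Pt ℤ → ZFSet.{0}}
  {c : ℕ × ℤ → ℕ} {X K R BL : ZFSet.{0}} (h : ChnM ℤ Z0 M pt c X K R BL)

include h

/-- The final segments are countable intersections of clopen sets. -/
theorem fin_cdelta {D : Pt ℤ → Prop} {S : ZFSet.{0}} (hS : h.Sub D S) {τ : ZFSet.{0}}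
    (hτM : τ ∈ M) (hτ : GenBy M S τ K R) (n : ℕ) {T : ZFSet.{0}}
    (hT : ∀ z, z ∈ T ↔ z ∈ S ∧ ∀ a : ℕ × ℤ, a.1 < n → pair (pt (.atm a)) z ∈ R) :
    IsCdelta M S τ T := by
  have hM := h.zf
  have hB := hM.base
  have hKM := h.KM
  have hRM := h.RM
  have hSM := hS.1
  have hom : ZFSet.omega ∈ M := hM.infinity
  have hPM := PM_mem hM hSM
  have htop := hτ.top hM hSM
  obtain ⟨u, hu, hu'⟩ := h.en n
  have hUM : ∀ i : ℕ, ZFSet.sep (fun z => ∀ a ∈ K, pair a (nat i) ∈ u → pair a z ∈ R) S ∈ M := by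
    intro i
    have hi := hM.nat_mem i
    generalize nat i = m at hi
    refine hM.sep_mem (Q := fun z => ∀ a ∈ K, pair a m ∈ u → pair a z ∈ R) ?_ hSM
    (repeat' first
      | assumption
      | exact DfnF.proj _
      | exact DfnF.const (by assumption)
      | exact DfnF.const' (by first | assumption | trivial) (by first | assumption | trivial)
      | exact Dfn.prop _
      | apply hB.isFunc' | apply hB.isInj' | apply hB.isBij' | apply hB.isOrdinal'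
      | apply hB.subset' | apply hB.pair' | apply hB.insert'
      | apply Dfn.not | apply Dfn.and | apply Dfn.or | apply Dfn.imp | apply Dfn.iff
      | apply hB.bex | apply hB.ball | apply Dfn.ex | apply Dfn.all
      | apply Dfn.eq | apply Dfn.mem)
  have htM : ZFSet.sep (fun q => ∃ k ∈ ZFSet.omega, ∃ U ∈ PM M S, q = pair k U ∧
      ∀ z ∈ S, (z ∈ U ↔ ∀ a ∈ K, pair a k ∈ u → pair a z ∈ R))
      (ZFSet.prod ZFSet.omega (PM M S)) ∈ M := by
    generalize PM M S = P at hPM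
    refine hM.sep_mem (Q := fun q => ∃ k ∈ ZFSet.omega, ∃ U ∈ P, q = pair k U ∧
      ∀ z ∈ S, (z ∈ U ↔ ∀ a ∈ K, pair a k ∈ u → pair a z ∈ R)) ?_ (hM.prod_mem hom hPM)
    (repeat' first
      | assumption
      | exact DfnF.proj _
      | exact DfnF.const (by assumption)
      | exact DfnF.const' (by first | assumption | trivial) (by first | assumption | trivial)
      | exact Dfn.prop _
      | apply hB.isFunc' | apply hB.isInj' | apply hB.isBij' | apply hB.isOrdinal'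
      | apply hB.subset' | apply hB.pair' | apply hB.insert'
      | apply Dfn.not | apply Dfn.and | apply Dfn.or | apply Dfn.imp | apply Dfn.iff
      | apply hB.bex | apply hB.ball | apply Dfn.ex | apply Dfn.all
      | apply Dfn.eq | apply Dfn.mem)
  refine ⟨_, htM, fun i => ZFSet.sep (fun z => ∀ a ∈ K, pair a (nat i) ∈ u → pair a z ∈ R) S,
    fun q => ?_, fun i => ?_, fun z => ?_⟩
  · rw [ZFSet.mem_sep]
    constructor
    · rintro ⟨-, k, hk, U, hU, rfl, h1⟩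
      obtain ⟨k, rfl⟩ := mem_omega_iff.1 hk
      refine ⟨k, ?_⟩
      congr 1
      ext z
      rw [ZFSet.mem_sep]
      exact ⟨fun hz => ⟨(mem_PM.1 hU).2 hz, (h1 z ((mem_PM.1 hU).2 hz)).1 hz⟩,
        fun hz => (h1 z hz.1).2 hz.2⟩
    · rintro ⟨k, rfl⟩
      have hU : ZFSet.sep (fun z => ∀ a ∈ K, pair a (nat k) ∈ u → pair a z ∈ R) S ∈ PM M S :=
        mem_PM.2 ⟨hUM k, fun z hz => (ZFSet.mem_sep.1 hz).1⟩
      refine ⟨ZFSet.pair_mem_prod.2 ⟨mem_omega_iff.2 ⟨k, rfl⟩, hU⟩, _,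
        mem_omega_iff.2 ⟨k, rfl⟩, _, hU, rfl, fun z hz => ?_⟩
      rw [ZFSet.mem_sep]
      exact ⟨fun h1 => h1.2, fun h1 => ⟨hz, h1⟩⟩
  · dsimp only
    by_cases hex : ∃ b : ℕ × ℤ, b.1 < n ∧ c b = i
    · obtain ⟨b, hb, rfl⟩ := hex
      have hbK : pt (.atm b) ∈ K := (h.mK _).2 ⟨b, rfl⟩
      have hbM := hM.trans _ hKM _ hbK
      have h1 : ZFSet.sep (fun z => ∀ a ∈ K, pair a (nat (c b)) ∈ u → pair a z ∈ R) S =
          ZFSet.sep (fun z => pair (pt (.atm b)) z ∈ R) S := by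
        ext z
        rw [ZFSet.mem_sep, ZFSet.mem_sep]
        refine and_congr_right fun hz => ?_
        constructor
        · intro h1
          exact h1 _ hbK ((hu' _).2 ⟨b, hb, rfl⟩)
        · intro h1 a ha hau
          obtain ⟨b', -, h2⟩ := (hu' _).1 hau
          obtain ⟨rfl, h3⟩ := ZFSet.pair_inj.1 h2
          rw [← h.cinj (nat_injective h3)]
          exact h1
      rw [h1]
      refine ⟨hτ.pos hM hSM hRM hbK hbM, ?_⟩
      have h2 : S \ ZFSet.sep (fun z => pair (pt (.atm b)) z ∈ R) S =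
          ZFSet.sep (fun z => pair (pt (.atm b)) z ∉ R) S := by
        ext z
        rw [ZFSet.mem_sdiff, ZFSet.mem_sep, ZFSet.mem_sep]
        exact ⟨fun h1 => ⟨h1.1, fun h2 => h1.2 ⟨h1.1, h2⟩⟩, fun h1 => ⟨h1.1, fun h2 => h1.2 h2.2⟩⟩
      rw [h2]
      exact hτ.neg hM hSM hRM hbK hbM
    · have h1 : ZFSet.sep (fun z => ∀ a ∈ K, pair a (nat i) ∈ u → pair a z ∈ R) S = S := by
        ext z
        rw [ZFSet.mem_sep]
        refine ⟨fun h1 => h1.1, fun hz => ⟨hz, fun a ha hau => ?_⟩⟩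
        obtain ⟨b', hb', h2⟩ := (hu' _).1 hau
        exact absurd ⟨b', hb', (nat_injective (ZFSet.pair_inj.1 h2).2).symm⟩ hex
      rw [h1]
      refine ⟨htop.univ, ?_⟩
      have h2 : S \ S = (ZFSet.sUnion ∅ : ZFSet.{0}) := by
        ext z
        rw [ZFSet.mem_sdiff, ZFSet.mem_sUnion]
        constructor
        · rintro ⟨h1, h2⟩
          exact absurd h1 h2
        · rintro ⟨y, hy, -⟩
          exact absurd hy (ZFSet.notMem_empty _)
      rw [h2]
      exact htop.union ∅ hM.empty_mem fun y hy => absurd hy (ZFSet.notMem_empty _)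
  · rw [hT]
    constructor
    · rintro ⟨hz, h1⟩
      refine ⟨hz, fun i => ZFSet.mem_sep.2 ⟨hz, fun a ha hau => ?_⟩⟩
      obtain ⟨b, hb, h2⟩ := (hu' _).1 hau
      rw [(ZFSet.pair_inj.1 h2).1]
      exact h1 b hb
    · rintro ⟨hz, h1⟩
      exact ⟨hz, fun a ha => (ZFSet.mem_sep.1 (h1 (c a))).2 _ ((h.mK _).2 ⟨a, rfl⟩)
        ((hu' _).2 ⟨a, ha, rfl⟩)⟩

end ChnM

end Pool.Agent.Q211.TP
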