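import Pool.Agent.Q211.TP.Chn2

/-!
# The chain of blocks with finite supports
-/

set_option autoImplicit false
set_option linter.unusedSectionVars false
set_option linter.unreachableTactic false
set_option linter.unusedTactic false

namespace Pool.Agent.Q211.TP

open Pool.Agent.W868 Pool.Agent.W868.PName Pool.Agent.Q211.SY Pool.Agent.Q211.FS
open Pool.Agent.Q211.PA
open ZFSet (pair)

variable {L : Type} [LinearOrder L]

variable (L) in
/-- The stabilizer of a finite set of atoms. -/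
def stF (e : Finset (ℕ × L)) : Subgroup (GmL L) where
  carrier := {γ | ∀ x ∈ e, γ • x = x}
  one_mem' := fun x _ => one_smul _ x
  mul_mem' := by
    intro a b ha hb x hx
    change (a * b) • x = x
    rw [mul_smul, hb x hx, ha x hx]
  inv_mem' := by
    intro a ha x hx
    change a⁻¹ • x = x
    rw [inv_smul_eq_iff, ha x hx]

open Classical in
variable (L) in
/-- The normal filter of the finite supports. -/
noncomputable def NF : NFil (GmL L) where
  F := Set.range (stF L)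
  ne := ⟨_, ∅, rfl⟩
  conj := by
    rintro _ ⟨e, rfl⟩ g
    refine ⟨_, ⟨e.image fun x => g • x, rfl⟩, fun k hk x hx => ?_⟩
    have h1 := hk (g • x) (Finset.mem_image_of_mem _ hx)
    rw [mul_smul, mul_smul, h1, inv_smul_smul]
  dir := by
    rintro _ ⟨e, rfl⟩ _ ⟨f, rfl⟩
    exact ⟨_, ⟨e ∪ f, rfl⟩, fun a ha x hx => ha x (Finset.mem_union_left _ hx),
      fun a ha x hx => ha x (Finset.mem_union_right _ hx)⟩

theorem NF_Pt : (NF L).Pt (ℕ × L) := fun x =>
  ⟨_, ⟨{x}, rfl⟩, fun _ hg => hg x (Finset.mem_singleton_self _)⟩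

theorem hs_nmPF (p : Pt L) : (SX (ℕ × L) (NF L)).HS (nmP p) := by
  cases p with
  | atm x => exact hs_An NF_Pt x
  | nd n => exact Sys.hs_check _ _
  | inf => exact Sys.hs_check _ _

theorem hs_XNF : (SX (ℕ × L) (NF L)).HS (XN L) :=
  hs_mkN (H := stF L ∅) ⟨∅, rfl⟩ (e := ∅) (fx_mkN fun g _ _ => ⟨aptP g.1.1, ax_nmP g⟩) hs_nmPF

theorem hs_KNF : (SX (ℕ × L) (NF L)).HS (KN L) :=
  hs_mkN (H := stF L ∅) ⟨∅, rfl⟩ (e := ∅) (fx_mkN fun g _ _ =>
    ⟨MulAction.toPerm g.1.1, ax_An g⟩) (hs_An NF_Pt)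

theorem hs_RNF : (SX (ℕ × L) (NF L)).HS (RN L) :=
  hs_relN (H := stF L ∅) ⟨∅, rfl⟩ (hs_An NF_Pt) hs_nmPF fun g _ =>
    ⟨MulAction.toPerm g.1.1, aptP g.1.1, ax_An g, ax_nmP g, fun x p => le_apt _ _ _⟩

theorem hs_BNF : (SX (ℕ × L) (NF L)).HS (BN L) :=
  hs_relN (H := stF L ∅) ⟨∅, rfl⟩ (fun _ => Sys.hs_check _ _) (hs_An NF_Pt) fun g _ =>
    ⟨1, MulAction.toPerm g.1.1, fun n => by
      rw [ax_check]
      exact Eqv.refl _, ax_An g, fun n x => Iff.rfl⟩

/-- The properties of the model. -/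
structure ChfM (L : Type) [LinearOrder L] (M : Set ZFSet.{0}) (pt : Pt L → ZFSet.{0})
    (X K R BL : ZFSet.{0}) : Prop where
  zf : IsZF M
  cnt : M.Countable
  qc : Qc ∈ M
  lq : LQ ∈ M
  inj : Function.Injective pt
  nd : ∀ n, pt (.nd n) = nat n
  inf : pt .inf = ZFSet.omega
  mX : ∀ z, z ∈ X ↔ ∃ p, z = pt p
  mK : ∀ z, z ∈ K ↔ ∃ x, z = pt (.atm x)
  mR : ∀ z, z ∈ R ↔ ∃ x p, le x p ∧ z = pair (pt (.atm x)) (pt p)
  mB : ∀ z, z ∈ BL ↔ ∃ x : ℕ × L, z = pair (nat x.1) (pt (.atm x))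
  XM : X ∈ M
  KM : K ∈ M
  RM : R ∈ M
  BM : BL ∈ M
  inv : ∀ f ∈ M, ∃ e : Finset (ℕ × L), ∀ γ : GmL L, (∀ x ∈ e, γ • x = x) → ∀ p, ∀ r, Cd r →
    ∀ Q : Set ZFSet.{0} → (Fin 3 → ZFSet.{0}) → Prop, UD Q →
      Q M ![f, pt p, r] → Q M ![f, pt (apt γ p), r]

theorem fxC_nmP (p : Pt L) (e : Finset ((ℕ × L) × ℕ)) : FxC (GmL L) e (nmP p) := by
  cases p with
  | atm x => exact fxC_An _ _
  | nd n => exact fxC_check _ _
  | inf => exact fxC_check _ _

theorem exists_chf (L : Type) [LinearOrder L] [Countable L] :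
    ∃ M pt X K R BL, ChfM L M pt X K R BL := by
  classical
  obtain ⟨c, hc⟩ := exists_injective_nat (ℕ × L)
  have hptc : Countable (Pt L) := by
    have h1 : Function.Injective (fun p : Pt L => (match p with
      | .atm x => (0, c x)
      | .nd n => (1, n)
      | .inf => (2, 0) : ℕ × ℕ)) := by
      intro p q hpq
      cases p <;> cases q <;> simp at hpq ⊢
      · exact hc hpq
      · exact hpq
    exact h1.countable
  obtain ⟨π, h⟩ := exists_PX (NF L) (Set.range (nmP : Pt L → PName (PL L)) ∪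
    {XN L, KN L, RN L, BN L})
    ((Set.countable_range _).union (Set.toFinite _).countable)
  have hM := h.isZF
  have hat : ∀ z, Cd z → π.val (check z) = z := fun z hz => (hz.hat π).2
  have hnm : ∀ p : Pt L, nmP p ∈ π.N := fun p => h.sub (Or.inl ⟨p, rfl⟩)
  have hXN : XN L ∈ π.N := h.sub (Or.inr (by simp))
  have hKN : KN L ∈ π.N := h.sub (Or.inr (by simp))
  have hRN : RN L ∈ π.N := h.sub (Or.inr (by simp))
  have hBN : BN L ∈ π.N := h.sub (Or.inr (by simp))
  have hnat : ∀ n, (check (nat n) : PName (PL L)) ∈ π.N := fun n => π.nat_Z n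
  have hvn : ∀ n, π.val (check (nat n)) = nat n := fun n => π.hat_nat n
  refine ⟨(SX (ℕ × L) (NF L)).Ms π, fun p => π.val (nmP p), π.val (XN L), π.val (KN L),
    π.val (RN L), π.val (BN L), hM, h.countable, h.Qc_mem, h.LQ_mem, ?_,
    hvn, π.hat_omega, fun z => ?_, fun z => ?_, fun z => ?_, fun z => ?_,
    Sys.mem_Ms hXN hs_XNF, Sys.mem_Ms hKN hs_KNF, Sys.mem_Ms hRN hs_RNF,
    Sys.mem_Ms hBN hs_BNF, ?_⟩
  · intro p q hpq
    have hom : (ZFSet.omega : ZFSet.{0}) = ∅ ∨ ∅ ∈ ZFSet.omega := Or.inr ZFSet.omega_zero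
    have homn : ∀ n, ZFSet.omega ≠ nat n := by
      intro n hn
      have h1 : nat n ∈ ZFSet.omega := mem_omega_iff.2 ⟨n, rfl⟩
      rw [hn] at h1
      exact ZFSet.mem_irrefl _ h1
    cases p with
    | atm x =>
      cases q with
      | atm y => rw [h.An_injective hpq]
      | nd n =>
        have h1 : π.val (An x) = nat n := hpq.trans (hvn n)
        exact absurd h1 (nat_not_An h x (nat_empty n))
      | inf =>
        have h1 : π.val (An x) = ZFSet.omega := hpq.trans π.hat_omega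
        exact absurd h1 (nat_not_An h x hom)
    | nd m =>
      cases q with
      | atm y =>
        have h1 : π.val (An y) = nat m := hpq.symm.trans (hvn m)
        exact absurd h1 (nat_not_An h y (nat_empty m))
      | nd n =>
        have h1 : nat m = nat n := (hvn m).symm.trans (hpq.trans (hvn n))
        rw [nat_injective h1]
      | inf =>
        have h1 : nat m = ZFSet.omega := (hvn m).symm.trans (hpq.trans π.hat_omega)
        exact absurd h1.symm (homn m)
    | inf =>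
      cases q with
      | atm y =>
        have h1 : π.val (An y) = ZFSet.omega := hpq.symm.trans π.hat_omega
        exact absurd h1 (nat_not_An h y hom)
      | nd n =>
        have h1 : ZFSet.omega = nat n := π.hat_omega.symm.trans (hpq.trans (hvn n))
        exact absurd h1 (homn n)
      | inf => rfl
  · unfold XN
    rw [mem_mkN]
    exact ⟨fun ⟨i, _, h1⟩ => ⟨i, h1⟩, fun ⟨i, h1⟩ => ⟨i, hnm i, h1⟩⟩
  · unfold KN
    rw [mem_mkN]
    exact ⟨fun ⟨i, _, h1⟩ => ⟨i, h1⟩, fun ⟨i, h1⟩ => ⟨i, h.an i, h1⟩⟩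
  · unfold RN
    rw [mem_relN h.an hnm]
    rfl
  · unfold BN
    rw [mem_relN (fun n => hnat n) h.an]
    constructor
    · rintro ⟨n, x, h1, h2⟩
      refine ⟨x, ?_⟩
      rw [h2, hvn, h1]
      rfl
    · rintro ⟨x, h2⟩
      refine ⟨x.1, x, rfl, ?_⟩
      rw [h2, hvn]
      rfl
  · rintro _ ⟨x, ⟨hx, hxS⟩, rfl⟩
    obtain ⟨_, ⟨e0, rfl⟩, e, hfx⟩ := sym_iffX.1 hxS.sym
    refine ⟨e0 ∪ e.image Prod.fst, fun γ hγ p r hr Q hQ hqr => ?_⟩
    have hγ0 : γ ∈ stF L e0 := fun x hx => hγ x (Finset.mem_union_left _ hx)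
    have hγe : ∀ d ∈ e, γ • d.1 = d.1 := fun d hd =>
      hγ d.1 (Finset.mem_union_right _ (Finset.mem_image_of_mem _ hd))
    obtain ⟨g, hg1, hg2⟩ := exists_gg_fix γ e hγe
    have t1 : ∀ i, FxC (GmL L) e ((![x, nmP p, check r] : Fin 3 → PName (PL L)) i) := by
      intro i
      refine Fin.cases hfx.fxC (fun i => Fin.cases (fxC_nmP _ _) (fun i => Fin.cases
        (fxC_check _ _) (fun i => i.elim0) i) i) i
    have t2 : ∀ p : Pt L, ∀ i, (![x, nmP p, check r] : Fin 3 → PName (PL L)) i ∈ π.N ∧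
        (SX (ℕ × L) (NF L)).HS ((![x, nmP p, check r] : Fin 3 → PName (PL L)) i) := by
      intro b i
      refine Fin.cases ⟨hx, hxS⟩ (fun i => Fin.cases ⟨hnm _, hs_nmPF _⟩ (fun i =>
        Fin.cases ⟨(hr.hat π).1, Sys.hs_check _ _⟩ (fun i => i.elim0) i) i) i
    have t3 : ∀ i, Eqv (axg g ((![x, nmP p, check r] : Fin 3 → PName (PL L)) i))
        ((![x, nmP (apt γ p), check r] : Fin 3 → PName (PL L)) i) := by
      intro i
      refine Fin.cases ?_ (fun i => Fin.cases ?_ (fun i => Fin.cases ?_ (fun i => i.elim0) i)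
        i) i
      · exact hfx g (by rw [hg1]; exact hγ0) hg2
      · have h2 := ax_nmP g p
        rw [hg1] at h2
        exact h2
      · change Eqv (axg g (check r)) (check r)
        rw [ax_check]
        exact Eqv.refl _
    have t4 : ∀ p : Pt L, (π.val ∘ (![x, nmP p, check r] : Fin 3 → PName (PL L))) =
          ![π.val x, π.val (nmP p), r] := by
      intro b
      funext i
      refine Fin.cases rfl (fun i => Fin.cases rfl (fun i => Fin.cases ?_ (fun i => i.elim0) i)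
        i) i
      exact hat r hr
    have h1 := transfer (N := NF L) h.cl hQ t1 (t2 p) (t2 (apt γ p)) g hg2 t3
      (by rw [t4]; exact hqr)
    rw [t4] at h1
    exact h1

end Pool.Agent.Q211.TP
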