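import Pool.Agent.Q211.PA.Nam

/-!
# A symmetric model with a chain of blocks of atoms

The set of the atoms is `ℕ × L` for a linear order `L`; the group is the product of the groups of
the order automorphisms of the blocks `{n} × L`, and the filter is generated by the pointwise
stabilizers of finitely many blocks.
-/

set_option autoImplicit false
set_option linter.unusedSectionVars false
set_option linter.unreachableTactic false
set_option linter.unusedTactic false

namespace Pool.Agent.Q211.TP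

open Pool.Agent.W868 Pool.Agent.W868.PName Pool.Agent.Q211.SY Pool.Agent.Q211.FS
open Pool.Agent.Q211.PA
open ZFSet (pair)

variable (L : Type) [LinearOrder L]

/-- The points: the atoms, the nodes and the point at infinity. -/
inductive Pt : Type
  | atm (x : ℕ × L)
  | nd (n : ℕ)
  | inf

/-- The group. -/
def GmL : Type := ℕ → (L ≃o L)

noncomputable instance : Group (GmL L) := inferInstanceAs (Group (ℕ → (L ≃o L)))

instance : MulAction (GmL L) (ℕ × L) where
  smul γ x := (x.1, γ x.1 x.2)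
  one_smul _ := rfl
  mul_smul _ _ _ := rfl

variable {L}

theorem smul_def (γ : GmL L) (x : ℕ × L) : γ • x = (x.1, γ x.1 x.2) := rfl

variable (L) in
/-- The stabilizer of the first `k` blocks. -/
def stB (k : ℕ) : Subgroup (GmL L) where
  carrier := {γ | ∀ n < k, γ n = 1}
  one_mem' := fun _ _ => rfl
  mul_mem' := by
    intro a b ha hb n hn
    change a n * b n = 1
    rw [ha n hn, hb n hn, mul_one]
  inv_mem' := by
    intro a ha n hn
    change (a n)⁻¹ = 1
    rw [ha n hn, inv_one]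

theorem mem_stB {k : ℕ} {γ : GmL L} : γ ∈ stB L k ↔ ∀ n < k, γ n = 1 := Iff.rfl

variable (L) in
/-- The normal filter. -/
def NB : NFil (GmL L) where
  F := Set.range (stB L)
  ne := ⟨_, 0, rfl⟩
  conj := by
    rintro _ ⟨k, rfl⟩ g
    refine ⟨_, ⟨k, rfl⟩, fun a ha n hn => ?_⟩
    change (g n)⁻¹ * a n * g n = 1
    rw [ha n hn, mul_one, inv_mul_cancel]
  dir := by
    rintro _ ⟨k, rfl⟩ _ ⟨m, rfl⟩
    exact ⟨_, ⟨max k m, rfl⟩, fun a ha n hn => ha n (hn.trans_le (le_max_left _ _)),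
      fun a ha n hn => ha n (hn.trans_le (le_max_right _ _))⟩

theorem stB_fix {k : ℕ} {γ : GmL L} (h : γ ∈ stB L k) {x : ℕ × L} (hx : x.1 < k) : γ • x = x := by
  rw [smul_def, h _ hx]
  rfl

theorem NB_Pt : (NB L).Pt (ℕ × L) := fun x =>
  ⟨_, ⟨x.1 + 1, rfl⟩, fun _ hg => stB_fix hg (Nat.lt_succ_self _)⟩

/-- The order between atoms and points. -/
def le (x : ℕ × L) : Pt L → Prop
  | .atm y => x.1 < y.1 ∨ (x.1 = y.1 ∧ x.2 ≤ y.2)
  | .nd n => x.1 < n
  | .inf => True

/-- The action on the points. -/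
def apt (γ : GmL L) : Pt L → Pt L
  | .atm y => .atm (γ • y)
  | .nd n => .nd n
  | .inf => .inf

theorem apt_inv (γ : GmL L) (p : Pt L) : apt γ⁻¹ (apt γ p) = p := by
  cases p with
  | atm y =>
    change Pt.atm (γ⁻¹ • γ • y) = _
    rw [inv_smul_smul]
  | nd n => rfl
  | inf => rfl

/-- The action as a permutation. -/
noncomputable def aptP (γ : GmL L) : Equiv.Perm (Pt L) where
  toFun := apt γ
  invFun := apt γ⁻¹
  left_inv := apt_inv γ
  right_inv p := by
    have h := apt_inv γ⁻¹ p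
    rwa [inv_inv] at h

theorem le_apt (γ : GmL L) (x : ℕ × L) (p : Pt L) : le (γ • x) (apt γ p) ↔ le x p := by
  cases p with
  | atm y =>
    obtain ⟨m, a⟩ := x
    obtain ⟨n, b⟩ := y
    change (m < n ∨ (m = n ∧ γ m a ≤ γ n b)) ↔ (m < n ∨ (m = n ∧ a ≤ b))
    refine or_congr Iff.rfl (and_congr_right fun h => ?_)
    subst h
    exact (γ m).le_iff_le
  | nd n => exact Iff.rfl
  | inf => exact Iff.rfl

/-! ### Names -/

variable (L) in
/-- The conditions of the model. -/
abbrev PL : Type := PX (ℕ × L)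

/-- The names of the points. -/
noncomputable def nmP : Pt L → PName (PL L)
  | .atm x => An x
  | .nd n => check (nat n)
  | .inf => check ZFSet.omega

theorem hs_nmP (p : Pt L) : (SX (ℕ × L) (NB L)).HS (nmP p) := by
  cases p with
  | atm x => exact hs_An NB_Pt x
  | nd n => exact Sys.hs_check _ _
  | inf => exact Sys.hs_check _ _

theorem ax_nmP (g : PA.GG (ℕ × L) (GmL L)) (p : Pt L) :
    Eqv (axg g (nmP p)) (nmP (apt g.1.1 p)) := by
  cases p with
  | atm x => exact ax_An g x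
  | nd n =>
    change Eqv (axg g (check (nat n))) (check (nat n))
    rw [ax_check]
    exact Eqv.refl _
  | inf =>
    change Eqv (axg g (check ZFSet.omega)) (check ZFSet.omega)
    rw [ax_check]
    exact Eqv.refl _

/-- The name of a relation between the values of two families. -/
def relN {X : Type} {ι κ : Type} (P : ι → κ → Prop) (f : ι → PName (PX X))
    (h : κ → PName (PX X)) : PName (PX X) :=
  mkN {t : ι × κ // P t.1 t.2} fun t => opN (f t.1.1) (h t.1.2)

theorem hs_relN {X : Type} {Γ : Type} [Group Γ] [MulAction Γ X] {N : NFil Γ} {ι κ : Type}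
    {P : ι → κ → Prop} {f : ι → PName (PX X)}
    {h : κ → PName (PX X)} {H : Subgroup Γ} (hH : H ∈ N.F)
    (hf : ∀ i, (SX X N).HS (f i)) (hh : ∀ j, (SX X N).HS (h j))
    (hs : ∀ g : PA.GG X Γ, g.1.1 ∈ H → ∃ (σ : Equiv.Perm ι) (ρ : Equiv.Perm κ),
      (∀ i, Eqv (axg g (f i)) (f (σ i))) ∧ (∀ j, Eqv (axg g (h j)) (h (ρ j))) ∧
      ∀ i j, P (σ i) (ρ j) ↔ P i j) : (SX X N).HS (relN P f h) := by
  refine hs_mkN hH (e := ∅) (fx_mkN fun g hg _ => ?_) fun t => (SX X N).hs_opN (hf _) (hh _)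
  obtain ⟨σ, ρ, h1, h2, h3⟩ := hs g hg
  refine ⟨{ toFun := fun t => ⟨(σ t.1.1, ρ t.1.2), (h3 _ _).2 t.2⟩
            invFun := fun t => ⟨(σ.symm t.1.1, ρ.symm t.1.2), by
              have h4 := h3 (σ.symm t.1.1) (ρ.symm t.1.2)
              rw [Equiv.apply_symm_apply, Equiv.apply_symm_apply] at h4
              exact h4.1 t.2⟩
            left_inv := fun t => Subtype.ext (Prod.ext (σ.symm_apply_apply _)
              (ρ.symm_apply_apply _))
            right_inv := fun t => Subtype.ext (Prod.ext (σ.apply_symm_apply _)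
              (ρ.apply_symm_apply _)) }, fun t => ?_⟩
  rw [ax_opN]
  exact (h1 _).opN (h2 _)

theorem mem_relN {X : Type} {π : Pkg (PX X)} {ι κ : Type} {P : ι → κ → Prop}
    {f : ι → PName (PX X)} {h : κ → PName (PX X)} (hf : ∀ i, f i ∈ π.N) (hh : ∀ j, h j ∈ π.N)
    {z : ZFSet.{0}} : z ∈ π.val (relN P f h) ↔
      ∃ i j, P i j ∧ z = pair (π.val (f i)) (π.val (h j)) := by
  unfold relN
  rw [mem_mkN]
  constructor
  · rintro ⟨⟨⟨i, j⟩, hij⟩, h1, rfl⟩
    exact ⟨i, j, hij, π.val_opN (hf i) (hh j)⟩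
  · rintro ⟨i, j, hij, rfl⟩
    exact ⟨⟨(i, j), hij⟩, π.opN_mem (hf i) (hh j), (π.val_opN (hf i) (hh j)).symm⟩

variable (L) in
/-- The set of all points. -/
noncomputable def XN : PName (PL L) := mkN (Pt L) nmP

variable (L) in
/-- The set of all atoms. -/
noncomputable def KN : PName (PL L) := mkN (ℕ × L) An

variable (L) in
/-- The order. -/
noncomputable def RN : PName (PL L) := relN (fun (x : ℕ × L) (p : Pt L) => le x p) An nmP

variable (L) in
/-- The blocks. -/
noncomputable def BN : PName (PL L) :=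
  relN (fun (n : ℕ) (x : ℕ × L) => x.1 = n) (fun n => check (nat n)) An

/-- The enumerations of the first `k` blocks. -/
noncomputable def EN (c : ℕ × L → ℕ) (k : ℕ) : PName (PL L) :=
  relN (fun (x : {x : ℕ × L // x.1 < k}) (m : ℕ) => m = c x.1) (fun x => An x.1)
    fun m => check (nat m)

theorem hs_XN : (SX (ℕ × L) (NB L)).HS (XN L) :=
  hs_mkN (H := stB L 0) ⟨0, rfl⟩ (e := ∅) (fx_mkN fun g _ _ => ⟨aptP g.1.1, ax_nmP g⟩) hs_nmP

theorem hs_KN : (SX (ℕ × L) (NB L)).HS (KN L) :=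
  hs_mkN (H := stB L 0) ⟨0, rfl⟩ (e := ∅) (fx_mkN fun g _ _ =>
    ⟨MulAction.toPerm g.1.1, ax_An g⟩) (hs_An NB_Pt)

theorem hs_RN : (SX (ℕ × L) (NB L)).HS (RN L) :=
  hs_relN (H := stB L 0) ⟨0, rfl⟩ (hs_An NB_Pt) hs_nmP fun g _ =>
    ⟨MulAction.toPerm g.1.1, aptP g.1.1, ax_An g, ax_nmP g, fun x p => le_apt _ _ _⟩

theorem hs_BN : (SX (ℕ × L) (NB L)).HS (BN L) :=
  hs_relN (H := stB L 0) ⟨0, rfl⟩ (fun _ => Sys.hs_check _ _) (hs_An NB_Pt) fun g _ =>
    ⟨1, MulAction.toPerm g.1.1, fun n => by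
      rw [ax_check]
      exact Eqv.refl _, ax_An g, fun n x => Iff.rfl⟩

theorem hs_EN (c : ℕ × L → ℕ) (k : ℕ) : (SX (ℕ × L) (NB L)).HS (EN c k) :=
  hs_relN (H := stB L k) ⟨k, rfl⟩ (fun x => hs_An NB_Pt x.1) (fun _ => Sys.hs_check _ _)
    fun g hg => ⟨1, 1, fun x => by
      have h1 := ax_An g x.1
      rwa [stB_fix hg x.2] at h1, fun n => by
      rw [ax_check]
      exact Eqv.refl _, fun x n => Iff.rfl⟩

end Pool.Agent.Q211.TP
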