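import Pool.Agent.Q211.TP.Chn

/-!
# The properties of the model with a chain of blocks
-/

set_option autoImplicit false
set_option linter.unusedSectionVars false
set_option linter.unreachableTactic false
set_option linter.unusedTactic false

namespace Pool.Agent.Q211.TP

open Pool.Agent.W868 Pool.Agent.W868.PName Pool.Agent.Q211.SY Pool.Agent.Q211.FS
open Pool.Agent.Q211.PA
open ZFSet (pair)

/-- The sets that are generated from the natural numbers by pairing. -/
inductive Cd : ZFSet.{0} → Prop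
  | nat (n : ℕ) : Cd (nat n)
  | pair {a b : ZFSet.{0}} : Cd a → Cd b → Cd (pair a b)

theorem Cd.qc (t : ℕ × ℕ × ℕ) : Cd (qc t) := .pair (.pair (.nat _) (.nat _)) (.nat _)

theorem Cd.omega {n : ZFSet.{0}} (h : n ∈ ZFSet.omega) : Cd n := by
  obtain ⟨n, rfl⟩ := mem_omega_iff.1 h
  exact .nat n

theorem Cd.Qc {q : ZFSet.{0}} (h : q ∈ Qc) : Cd q := by
  obtain ⟨t, rfl⟩ := mem_Qc.1 h
  exact .qc t

theorem Cd.hat {P : Type} [Preorder P] [OrderTop P] (π : Pkg P) {z : ZFSet.{0}} (h : Cd z) :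
    z ∈ π.Z ∧ π.hat z = z := by
  induction h with
  | nat n => exact ⟨π.nat_Z n, π.hat_nat n⟩
  | pair _ _ iha ihb =>
    refine ⟨π.pair_mem_Z iha.1 ihb.1, ?_⟩
    rw [π.hat_pair iha.1 ihb.1, iha.2, ihb.2]

/-- The properties of the model. -/
structure ChnM (L : Type) [LinearOrder L] (Z0 M : Set ZFSet.{0}) (pt : Pt L → ZFSet.{0})
    (c : ℕ × L → ℕ) (X K R BL : ZFSet.{0}) : Prop where
  zf : IsZF M
  cnt : M.Countable
  qc : Qc ∈ M
  lq : LQ ∈ M
  gr : ∀ z ∈ Z0, z ∈ M
  inj : Function.Injective pt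
  nd : ∀ n, pt (.nd n) = nat n
  inf : pt .inf = ZFSet.omega
  cinj : Function.Injective c
  mX : ∀ z, z ∈ X ↔ ∃ p, z = pt p
  mK : ∀ z, z ∈ K ↔ ∃ x, z = pt (.atm x)
  mR : ∀ z, z ∈ R ↔ ∃ x p, le x p ∧ z = pair (pt (.atm x)) (pt p)
  mB : ∀ z, z ∈ BL ↔ ∃ x : ℕ × L, z = pair (nat x.1) (pt (.atm x))
  XM : X ∈ M
  KM : K ∈ M
  RM : R ∈ M
  BM : BL ∈ M
  en : ∀ k, ∃ u ∈ M, ∀ z, z ∈ u ↔ ∃ x : ℕ × L, x.1 < k ∧ z = pair (pt (.atm x)) (nat (c x))
  inv : ∀ f ∈ M, ∃ k, ∀ n, k ≤ n → ∀ a b : L, ∀ r, Cd r →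
    ∀ Q : Set ZFSet.{0} → (Fin 3 → ZFSet.{0}) → Prop, UD Q →
      Q M ![f, pt (.atm (n, a)), r] → Q M ![f, pt (.atm (n, b)), r]

theorem nat_not_An {X : Type} {Γ : Type} [Group Γ] [MulAction Γ X] {N : NFil Γ}
    {A : Set (PName (PX X))} {π : Pkg (PX X)} (h : IsPX X N A π) (x : X) {z : ZFSet.{0}}
    (hz : z = ∅ ∨ ∅ ∈ z) : π.val (An x) ≠ z := by
  rintro rfl
  rcases hz with hz | hz
  · exact h.An_ne_empty x hz
  · obtain ⟨i, hi⟩ := h.mem_An.1 hz
    obtain ⟨t, -, h2⟩ := exists_qv_btwn (show cX π (x, i) - 1 < cX π (x, i) by linarith)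
    have h3 := qc_mem_cutS.2 h2
    rw [← hi] at h3
    exact ZFSet.notMem_empty _ h3

theorem nat_empty (n : ℕ) : nat n = ∅ ∨ ∅ ∈ nat n := by
  rcases Nat.eq_zero_or_pos n with rfl | h
  · exact Or.inl rfl
  · exact Or.inr (nat_mem_nat.2 h)

theorem exists_chn (L : Type) [LinearOrder L] [Countable L]
    (hL : ∀ a b : L, ∃ e : L ≃o L, e a = b) (Z0 : Set ZFSet.{0}) (hZ0 : Z0.Countable)
    (hZ : ∀ z ∈ Z0, ∀ y ∈ z, Cd y) :
    ∃ M pt c X K R BL, ChnM L Z0 M pt c X K R BL := by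
  obtain ⟨c, hc⟩ := exists_injective_nat (ℕ × L)
  have hptc : Countable (Pt L) := by
    have h1 : Function.Injective (fun p : Pt L => (match p with
      | .atm x => (0, c x)
      | .nd n => (1, n)
      | .inf => (2, 0) : ℕ × ℕ)) := by
      intro p q hpq
      cases p <;> cases q <;> simp at hpq ⊢
      · exact hc hpq
      · exact hpq
    exact h1.countable
  obtain ⟨π, h⟩ := exists_PX (NB L) ((Set.range (nmP : Pt L → PName (PL L)) ∪
    {XN L, KN L, RN L, BN L}) ∪ (Set.range (EN c) ∪ check '' Z0))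
    (((Set.countable_range _).union (Set.toFinite _).countable).union
      ((Set.countable_range _).union (hZ0.image _)))
  have hM := h.isZF
  have hat : ∀ z, Cd z → π.val (check z) = z := fun z hz => (hz.hat π).2
  have hnm : ∀ p : Pt L, nmP p ∈ π.N := fun p => h.sub (Or.inl (Or.inl ⟨p, rfl⟩))
  have hXN : XN L ∈ π.N := h.sub (Or.inl (Or.inr (by simp)))
  have hKN : KN L ∈ π.N := h.sub (Or.inl (Or.inr (by simp)))
  have hRN : RN L ∈ π.N := h.sub (Or.inl (Or.inr (by simp)))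
  have hBN : BN L ∈ π.N := h.sub (Or.inl (Or.inr (by simp)))
  have hEN : ∀ k, EN c k ∈ π.N := fun k => h.sub (Or.inr (Or.inl ⟨k, rfl⟩))
  have hnat : ∀ n, (check (nat n) : PName (PL L)) ∈ π.N := fun n => π.nat_Z n
  have hvn : ∀ n, π.val (check (nat n)) = nat n := fun n => π.hat_nat n
  refine ⟨(SX (ℕ × L) (NB L)).Ms π, fun p => π.val (nmP p), c, π.val (XN L), π.val (KN L),
    π.val (RN L), π.val (BN L), hM, h.countable, h.Qc_mem, h.LQ_mem, fun z hz => ?_, ?_,
    hvn, π.hat_omega, hc, fun z => ?_, fun z => ?_, fun z => ?_, fun z => ?_,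
    Sys.mem_Ms hXN hs_XN, Sys.mem_Ms hKN hs_KN, Sys.mem_Ms hRN hs_RN, Sys.mem_Ms hBN hs_BN,
    fun k => ⟨π.val (EN c k), Sys.mem_Ms (hEN k) (hs_EN c k), fun z => ?_⟩, ?_⟩
  · have h1 : (check z : PName (PL L)) ∈ π.N := h.sub (Or.inr (Or.inr ⟨z, hz, rfl⟩))
    have h2 : π.hat z = z := by
      refine hat_fix π fun y hy => (hZ z hz y hy).hat π
    rw [← h2]
    exact Sys.mem_Ms h1 (Sys.hs_check _ _)
  · intro p q hpq
    have hom : (ZFSet.omega : ZFSet.{0}) = ∅ ∨ ∅ ∈ ZFSet.omega := Or.inr ZFSet.omega_zero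
    have homn : ∀ n, ZFSet.omega ≠ nat n := by
      intro n hn
      have h1 : nat n ∈ ZFSet.omega := mem_omega_iff.2 ⟨n, rfl⟩
      rw [hn] at h1
      exact ZFSet.mem_irrefl _ h1
    cases p with
    | atm x =>
      cases q with
      | atm y => rw [h.An_injective hpq]
      | nd n =>
        have h1 : π.val (An x) = nat n := hpq.trans (hvn n)
        exact absurd h1 (nat_not_An h x (nat_empty n))
      | inf =>
        have h1 : π.val (An x) = ZFSet.omega := hpq.trans π.hat_omega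
        exact absurd h1 (nat_not_An h x hom)
    | nd m =>
      cases q with
      | atm y =>
        have h1 : π.val (An y) = nat m := hpq.symm.trans (hvn m)
        exact absurd h1 (nat_not_An h y (nat_empty m))
      | nd n =>
        have h1 : nat m = nat n := (hvn m).symm.trans (hpq.trans (hvn n))
        rw [nat_injective h1]
      | inf =>
        have h1 : nat m = ZFSet.omega := (hvn m).symm.trans (hpq.trans π.hat_omega)
        exact absurd h1.symm (homn m)
    | inf =>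
      cases q with
      | atm y =>
        have h1 : π.val (An y) = ZFSet.omega := hpq.symm.trans π.hat_omega
        exact absurd h1 (nat_not_An h y hom)
      | nd n =>
        have h1 : ZFSet.omega = nat n := π.hat_omega.symm.trans (hpq.trans (hvn n))
        exact absurd h1 (homn n)
      | inf => rfl
  · unfold XN
    rw [mem_mkN]
    exact ⟨fun ⟨i, _, h1⟩ => ⟨i, h1⟩, fun ⟨i, h1⟩ => ⟨i, hnm i, h1⟩⟩
  · unfold KN
    rw [mem_mkN]
    exact ⟨fun ⟨i, _, h1⟩ => ⟨i, h1⟩, fun ⟨i, h1⟩ => ⟨i, h.an i, h1⟩⟩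
  · unfold RN
    rw [mem_relN h.an hnm]
    rfl
  · unfold BN
    rw [mem_relN (fun n => hnat n) h.an]
    constructor
    · rintro ⟨n, x, h1, h2⟩
      refine ⟨x, ?_⟩
      rw [h2, hvn, h1]
      rfl
    · rintro ⟨x, h2⟩
      refine ⟨x.1, x, rfl, ?_⟩
      rw [h2, hvn]
      rfl
  · unfold EN
    rw [mem_relN (f := fun x : {x : ℕ × L // x.1 < k} => (An x.1 : PName (PL L)))
      (fun x => h.an x.1) (fun n => hnat n)]
    constructor
    · rintro ⟨x, m, h1, h2⟩
      refine ⟨x.1, x.2, ?_⟩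
      rw [h2, hvn, h1]
      rfl
    · rintro ⟨x, hx, h2⟩
      refine ⟨⟨x, hx⟩, c x, rfl, ?_⟩
      rw [h2, hvn]
      rfl
  · rintro _ ⟨x, ⟨hx, hxS⟩, rfl⟩
    obtain ⟨_, ⟨k0, rfl⟩, e, hfx⟩ := sym_iffX.1 hxS.sym
    refine ⟨max k0 (e.sup fun d => d.1.1 + 1), fun n hn a b r hr Q hQ hqr => ?_⟩
    obtain ⟨α, hα⟩ := hL a b
    let γ : GmL L := Function.update (1 : ℕ → (L ≃o L)) n α
    have hγ : γ ∈ stB L k0 := by
      intro j hj
      have h1 : j ≠ n := by
        have h2 := (le_max_left _ _).trans hn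
        omega
      change Function.update (1 : ℕ → (L ≃o L)) n α j = 1
      rw [Function.update_of_ne h1]
      rfl
    have hγe : ∀ d ∈ e, γ • d.1 = d.1 := by
      intro d hd
      have h1 : d.1.1 ≠ n := by
        have h2 : d.1.1 + 1 ≤ e.sup fun d => d.1.1 + 1 :=
          Finset.le_sup (f := fun d : (ℕ × L) × ℕ => d.1.1 + 1) hd
        have h3 := (le_max_right _ _).trans hn
        omega
      rw [smul_def]
      change (d.1.1, Function.update (1 : ℕ → (L ≃o L)) n α d.1.1 d.1.2) = d.1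
      rw [Function.update_of_ne h1]
      rfl
    have hγn : γ • (n, a) = (n, b) := by
      rw [smul_def]
      change (n, Function.update (1 : ℕ → (L ≃o L)) n α n a) = (n, b)
      rw [Function.update_self, hα]
    obtain ⟨g, hg1, hg2⟩ := exists_gg_fix γ e hγe
    have t1 : ∀ i, FxC (GmL L) e ((![x, An (n, a), check r] : Fin 3 → PName (PL L)) i) := by
      intro i
      refine Fin.cases hfx.fxC (fun i => Fin.cases (fxC_An _ _) (fun i => Fin.cases
        (fxC_check _ _) (fun i => i.elim0) i) i) i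
    have t2 : ∀ b : L, ∀ i, (![x, An (n, b), check r] : Fin 3 → PName (PL L)) i ∈ π.N ∧
        (SX (ℕ × L) (NB L)).HS ((![x, An (n, b), check r] : Fin 3 → PName (PL L)) i) := by
      intro b i
      refine Fin.cases ⟨hx, hxS⟩ (fun i => Fin.cases ⟨h.an _, hs_An NB_Pt _⟩ (fun i =>
        Fin.cases ⟨(hr.hat π).1, Sys.hs_check _ _⟩ (fun i => i.elim0) i) i) i
    have t3 : ∀ i, Eqv (axg g ((![x, An (n, a), check r] : Fin 3 → PName (PL L)) i))
        ((![x, An (n, b), check r] : Fin 3 → PName (PL L)) i) := by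
      intro i
      refine Fin.cases ?_ (fun i => Fin.cases ?_ (fun i => Fin.cases ?_ (fun i => i.elim0) i)
        i) i
      · exact hfx g (by rw [hg1]; exact hγ) hg2
      · have h2 := ax_An g (n, a)
        rw [hg1, hγn] at h2
        exact h2
      · change Eqv (axg g (check r)) (check r)
        rw [ax_check]
        exact Eqv.refl _
    have t4 : ∀ b : L, (π.val ∘ (![x, An (n, b), check r] : Fin 3 → PName (PL L))) =
          ![π.val x, π.val (nmP (.atm (n, b))), r] := by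
      intro b
      funext i
      refine Fin.cases rfl (fun i => Fin.cases rfl (fun i => Fin.cases ?_ (fun i => i.elim0) i)
        i) i
      exact hat r hr
    have h1 := transfer (N := NB L) h.cl hQ t1 (t2 a) (t2 b) g hg2 t3 (by rw [t4]; exact hqr)
    rw [t4] at h1
    exact h1

end Pool.Agent.Q211.TP
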