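import Pool.Agent.Q211.TP.Ecp2
import Pool.Agent.Q211.FS.NCp2

/-!
# The natural numbers and the real line as exponent spaces
-/

set_option autoImplicit false
set_option linter.unusedSectionVars false
set_option linter.unreachableTactic false
set_option linter.unusedTactic false

namespace Pool.Agent.Q211.TP

open Pool.Agent.W868 Pool.Agent.W868.PName Pool.Agent.Q211.SY Pool.Agent.Q211.FS
open ZFSet (pair)

theorem goodE_nat {M : Set ZFSet.{0}} (hM : IsZF M) :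
    GoodE M ZFSet.omega (PM M ZFSet.omega)
      (ZFSet.sep (fun p => ∃ n ∈ ZFSet.omega, p = pair n n) (ZFSet.prod ZFSet.omega ZFSet.omega)) := by
  have hB := hM.base
  have hom : ZFSet.omega ∈ M := hM.infinity
  have hpr := hM.prod_mem hom hom
  have hid : ∀ a b, pair a b ∈ ZFSet.sep (fun p => ∃ n ∈ ZFSet.omega, p = pair n n)
      (ZFSet.prod ZFSet.omega ZFSet.omega) ↔ a ∈ ZFSet.omega ∧ b = a := by
    intro a b
    rw [ZFSet.mem_sep, ZFSet.pair_mem_prod]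
    constructor
    · rintro ⟨-, n, hn, h⟩
      obtain ⟨rfl, rfl⟩ := ZFSet.pair_inj.1 h
      exact ⟨hn, rfl⟩
    · rintro ⟨ha, rfl⟩
      exact ⟨⟨ha, ha⟩, b, ha, rfl⟩
  refine ⟨⟨fun U hU => (mem_PM.1 hU).2, mem_PM.2 ⟨hom, fun _ h => h⟩, fun U hU V hV => ?_,
    fun C hC hCτ => ?_⟩, fun a ha b hb hab => ?_, ⟨⟨fun z hz => (ZFSet.mem_sep.1 hz).1,
    fun x hx => ?_⟩, ?_⟩, fun a ha => ?_, hom, PM_mem hM hom, ?_⟩
  · have h8 : U ∩ V = ZFSet.sep (fun z => z ∈ V) U := by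
      ext z
      rw [ZFSet.mem_inter, ZFSet.mem_sep]
    refine mem_PM.2 ⟨?_, fun z hz => (mem_PM.1 hU).2 (ZFSet.mem_inter.1 hz).1⟩
    rw [h8]
    exact hM.sep_mem (Q := fun z => z ∈ V) (Dfn.mem (DfnF.proj 0)
      (DfnF.const (mem_PM.1 hV).1)) (mem_PM.1 hU).1
  · refine mem_PM.2 ⟨hM.union _ hC, fun z hz => ?_⟩
    obtain ⟨U, hU, hz⟩ := ZFSet.mem_sUnion.1 hz
    exact (mem_PM.1 (hCτ hU)).2 hz
  · refine ⟨{a}, mem_PM.2 ⟨hM.single_mem (hM.trans _ hom _ ha), fun z hz => ?_⟩, {b},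
      mem_PM.2 ⟨hM.single_mem (hM.trans _ hom _ hb), fun z hz => ?_⟩,
      ZFSet.mem_singleton.2 rfl, ZFSet.mem_singleton.2 rfl, fun c hc hc' => ?_⟩
    · rwa [ZFSet.mem_singleton.1 hz]
    · rwa [ZFSet.mem_singleton.1 hz]
    · rw [ZFSet.mem_singleton] at hc hc'
      exact hab (hc.symm.trans hc')
  · exact ⟨x, (hid _ _).2 ⟨hx, rfl⟩, fun y hy => ((hid _ _).1 hy).2⟩
  · intro a b c ha hb
    rw [← ((hid _ _).1 ha).2, ← ((hid _ _).1 hb).2]
  · refine ⟨{a}, mem_PM.2 ⟨hM.single_mem (hM.trans _ hom _ ha), fun z hz => ?_⟩,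
      ZFSet.mem_singleton.2 rfl, fun m n b c hb hc h1 h2 => ?_⟩
    · rwa [ZFSet.mem_singleton.1 hz]
    · rw [ZFSet.mem_singleton] at hb hc
      rw [← ((hid _ _).1 h1).2, ← ((hid _ _).1 h2).2, hb, hc]
  · refine hM.sep_mem (Q := fun p => ∃ n ∈ ZFSet.omega, p = pair n n) ?_ hpr
    (repeat' first
      | assumption
      | exact DfnF.proj _
      | exact DfnF.const (by assumption)
      | exact DfnF.const' (by first | assumption | trivial) (by first | assumption | trivial)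
      | exact Dfn.prop _
      | apply hB.isFunc' | apply hB.isInj' | apply hB.isBij' | apply hB.isOrdinal'
      | apply hB.subset' | apply hB.pair' | apply hB.insert'
      | apply Dfn.not | apply Dfn.and | apply Dfn.or | apply Dfn.imp | apply Dfn.iff
      | apply hB.bex | apply hB.ball | apply Dfn.ex | apply Dfn.all
      | apply Dfn.eq | apply Dfn.mem)

theorem goodE_real {M : Set ZFSet.{0}} (hM : IsZF M) (hQ : Qc ∈ M) (hL : LQ ∈ M)
    {R σ : ZFSet.{0}} (hRM : R ∈ M) (hσM : σ ∈ M) (h : IsReals M R σ) :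
    ∃ i, GoodE M R σ i := by
  have hB := hM.base
  have hom : ZFSet.omega ∈ M := hM.infinity
  obtain ⟨hR, hσ⟩ := h
  have hXr : IsRealSet R := fun z hz => ((hR z).1 hz).2
  have hlt := dfn_LtC hM hQ hL
  have hcut : ∀ n : ℕ, cutS n ∈ R := by
    intro n
    have h1 : cutS n = ZFSet.sep (fun q => pair q (qc (n, 0, 0)) ∈ LQ) Qc := by
      ext z
      rw [ZFSet.mem_sep, mem_cutS]
      constructor
      · rintro ⟨t, ht, rfl⟩
        refine ⟨mem_Qc.2 ⟨t, rfl⟩, mem_LQ.2 ?_⟩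
        have h2 : qv (n, 0, 0) = n := by simp [qv]
        rw [h2]
        exact ht
      · rintro ⟨hz, h3⟩
        obtain ⟨t, rfl⟩ := mem_Qc.1 hz
        refine ⟨t, ?_, rfl⟩
        have h2 : qv (n, 0, 0) = n := by simp [qv]
        rw [← h2]
        exact mem_LQ.1 h3
    refine (hR _).2 ⟨?_, n, rfl⟩
    rw [h1]
    have h2 : qc (n, 0, 0) ∈ M := hM.trans _ hQ _ (mem_Qc.2 ⟨_, rfl⟩)
    refine hM.sep_mem (Q := fun q => pair q (qc (n, 0, 0)) ∈ LQ) ?_ hQ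
    generalize qc (n, 0, 0) = c at h2
    (repeat' first
      | assumption
      | exact DfnF.proj _
      | exact DfnF.const (by assumption)
      | exact DfnF.const' (by first | assumption | trivial) (by first | assumption | trivial)
      | exact Dfn.prop _
      | apply hB.isFunc' | apply hB.isInj' | apply hB.isBij' | apply hB.isOrdinal'
      | apply hB.subset' | apply hB.pair' | apply hB.insert'
      | apply Dfn.not | apply Dfn.and | apply Dfn.or | apply Dfn.imp | apply Dfn.iff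
      | apply hB.bex | apply hB.ball | apply Dfn.ex | apply Dfn.all
      | apply Dfn.eq | apply Dfn.mem)
  have hi : ZFSet.sep (fun p => ∃ n ∈ ZFSet.omega, ∃ z ∈ R, p = pair n z ∧
      (∀ q ∈ z, pair q (pair (pair n ∅) ∅) ∈ LQ) ∧
      ∀ q ∈ Qc, pair q (pair (pair n ∅) ∅) ∈ LQ → q ∈ z) (ZFSet.prod ZFSet.omega R) ∈ M := by
    have he := hM.empty_mem
    refine hM.sep_mem (Q := fun p => ∃ n ∈ ZFSet.omega, ∃ z ∈ R, p = pair n z ∧
      (∀ q ∈ z, pair q (pair (pair n ∅) ∅) ∈ LQ) ∧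
      ∀ q ∈ Qc, pair q (pair (pair n ∅) ∅) ∈ LQ → q ∈ z) ?_ (hM.prod_mem hom hRM)
    (repeat' first
      | assumption
      | exact DfnF.proj _
      | exact DfnF.const (by assumption)
      | exact DfnF.const' (by first | assumption | trivial) (by first | assumption | trivial)
      | exact Dfn.prop _
      | apply hB.isFunc' | apply hB.isInj' | apply hB.isBij' | apply hB.isOrdinal'
      | apply hB.subset' | apply hB.pair' | apply hB.insert'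
      | apply Dfn.not | apply Dfn.and | apply Dfn.or | apply Dfn.imp | apply Dfn.iff
      | apply hB.bex | apply hB.ball | apply Dfn.ex | apply Dfn.all
      | apply Dfn.eq | apply Dfn.mem)
  have hmem : ∀ a b, pair a b ∈ ZFSet.sep (fun p => ∃ n ∈ ZFSet.omega, ∃ z ∈ R, p = pair n z ∧
      (∀ q ∈ z, pair q (pair (pair n ∅) ∅) ∈ LQ) ∧
      ∀ q ∈ Qc, pair q (pair (pair n ∅) ∅) ∈ LQ → q ∈ z) (ZFSet.prod ZFSet.omega R) ↔
      ∃ n : ℕ, a = nat n ∧ b = cutS n := by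
    intro a b
    rw [ZFSet.mem_sep, ZFSet.pair_mem_prod]
    have hqc : ∀ n : ℕ, pair (pair (nat n) ∅) ∅ = qc (n, 0, 0) := fun n => rfl
    have hqv : ∀ n : ℕ, qv (n, 0, 0) = n := fun n => by simp [qv]
    constructor
    · rintro ⟨⟨ha, hb⟩, n, hn, z, hz, hp, h1, h2⟩
      obtain ⟨rfl, rfl⟩ := ZFSet.pair_inj.1 hp
      obtain ⟨n, rfl⟩ := mem_omega_iff.1 hn
      refine ⟨n, rfl, ?_⟩
      obtain ⟨x, rfl⟩ := hXr _ hz
      rw [hqc] at h1 h2
      congr 1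
      rcases lt_trichotomy x n with h3 | h3 | h3
      · obtain ⟨t, h4, h5⟩ := exists_qv_btwn h3
        have h6 := h2 (qc t) (mem_Qc.2 ⟨t, rfl⟩) (mem_LQ.2 (by rw [hqv]; exact h5))
        have h7 := qc_mem_cutS.1 h6
        linarith
      · exact h3
      · obtain ⟨t, h4, h5⟩ := exists_qv_btwn h3
        have h6 := mem_LQ.1 (h1 (qc t) (qc_mem_cutS.2 h5))
        rw [hqv] at h6
        linarith
    · rintro ⟨n, rfl, rfl⟩
      refine ⟨⟨mem_omega_iff.2 ⟨n, rfl⟩, hcut n⟩, nat n, mem_omega_iff.2 ⟨n, rfl⟩, cutS n,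
        hcut n, rfl, ?_, ?_⟩
      · intro q hq
        obtain ⟨t, ht, rfl⟩ := mem_cutS.1 hq
        rw [hqc]
        exact mem_LQ.2 (by rw [hqv]; exact ht)
      · intro q hq h1
        obtain ⟨t, rfl⟩ := mem_Qc.1 hq
        rw [hqc] at h1
        have h2 := mem_LQ.1 h1
        rw [hqv] at h2
        exact qc_mem_cutS.2 h2
  have hlo : ∀ t : ℕ × ℕ × ℕ, ZFSet.sep (fun z => LtC z (qc t)) R ∈ σ := by
    intro t
    have h2 : qc t ∈ M := hM.trans _ hQ _ (mem_Qc.2 ⟨_, rfl⟩)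
    refine open_of hM hRM hXr hσ (P := fun z => LtC z (qc t)) ?_ fun x hx h3 => ?_
    · exact Dfn.comp2 (Q := fun a b => LtC a b) hlt (DfnF.proj 0) (DfnF.const h2)
    · rw [ltC_iff] at h3
      refine ⟨qv t - x, by linarith, fun y hy hxy => ?_⟩
      rw [abs_lt] at hxy
      rw [ltC_iff]
      linarith
  have hup : ∀ t : ℕ × ℕ × ℕ, ZFSet.sep (fun z => qc t ∈ z) R ∈ σ := by
    intro t
    have h2 : qc t ∈ M := hM.trans _ hQ _ (mem_Qc.2 ⟨_, rfl⟩)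
    refine open_of hM hRM hXr hσ (P := fun z => qc t ∈ z) ?_ fun x hx h3 => ?_
    · exact Dfn.mem (DfnF.const h2) (DfnF.proj 0)
    · rw [qc_mem_cutS] at h3
      refine ⟨x - qv t, by linarith, fun y hy hxy => ?_⟩
      rw [abs_lt] at hxy
      rw [qc_mem_cutS]
      linarith
  have hinter : ∀ U ∈ σ, ∀ V ∈ σ, U ∩ V ∈ σ := by
    intro U hU V hV
    obtain ⟨h1, h2, h3⟩ := (hσ U).1 hU
    obtain ⟨h4, h5, h6⟩ := (hσ V).1 hV
    have h8 : U ∩ V = ZFSet.sep (fun z => z ∈ V) U := by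
      ext z
      rw [ZFSet.mem_inter, ZFSet.mem_sep]
    refine (hσ _).2 ⟨?_, fun z hz => h2 (ZFSet.mem_inter.1 hz).1, fun x hx => ?_⟩
    · rw [h8]
      exact hM.sep_mem (Q := fun z => z ∈ V) (Dfn.mem (DfnF.proj 0) (DfnF.const h4)) h1
    · obtain ⟨h9, h10⟩ := ZFSet.mem_inter.1 hx
      obtain ⟨ε, hε, h11⟩ := h3 x h9
      obtain ⟨δ, hδ, h12⟩ := h6 x h10
      refine ⟨min ε δ, lt_min hε hδ, fun y hy hxy => ?_⟩
      rw [lt_min_iff] at hxy
      exact ZFSet.mem_inter.2 ⟨h11 y hy hxy.1, h12 y hy hxy.2⟩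
  refine ⟨_, ⟨⟨fun U hU => ((hσ U).1 hU).2.1, (hσ R).2 ⟨hRM, fun _ h => h, fun x _ =>
    ⟨1, one_pos, fun y hy _ => hy⟩⟩, hinter, fun C hC hCτ => ?_⟩, fun a ha b hb hab => ?_,
    ⟨⟨fun z hz => (ZFSet.mem_sep.1 hz).1, fun x hx => ?_⟩, ?_⟩, fun a ha => ?_, hRM, hσM, hi⟩⟩
  · refine (hσ _).2 ⟨hM.union _ hC, fun z hz => ?_, fun x hx => ?_⟩
    · obtain ⟨U, hU, hz⟩ := ZFSet.mem_sUnion.1 hz
      exact ((hσ U).1 (hCτ hU)).2.1 hz
    · obtain ⟨U, hU, hx⟩ := ZFSet.mem_sUnion.1 hx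
      obtain ⟨ε, hε, h11⟩ := ((hσ U).1 (hCτ hU)).2.2 x hx
      exact ⟨ε, hε, fun y hy hxy => ZFSet.mem_sUnion.2 ⟨U, hU, h11 y hy hxy⟩⟩
  · obtain ⟨x, rfl⟩ := hXr _ ha
    obtain ⟨y, rfl⟩ := hXr _ hb
    have hxy : x ≠ y := fun h => hab (by rw [h])
    rcases lt_or_gt_of_ne hxy with h1 | h1
    · obtain ⟨t, h2, h3⟩ := exists_qv_btwn h1
      refine ⟨_, hlo t, _, hup t, ZFSet.mem_sep.2 ⟨ha, ltC_iff.2 h2⟩,
        ZFSet.mem_sep.2 ⟨hb, qc_mem_cutS.2 h3⟩, fun c hc hc' => ?_⟩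
      obtain ⟨z, rfl⟩ := hXr _ (ZFSet.mem_sep.1 hc).1
      have h4 := ltC_iff.1 (ZFSet.mem_sep.1 hc).2
      have h5 := qc_mem_cutS.1 (ZFSet.mem_sep.1 hc').2
      linarith
    · obtain ⟨t, h2, h3⟩ := exists_qv_btwn h1
      refine ⟨_, hup t, _, hlo t, ZFSet.mem_sep.2 ⟨ha, qc_mem_cutS.2 h3⟩,
        ZFSet.mem_sep.2 ⟨hb, ltC_iff.2 h2⟩, fun c hc hc' => ?_⟩
      obtain ⟨z, rfl⟩ := hXr _ (ZFSet.mem_sep.1 hc).1
      have h4 := ltC_iff.1 (ZFSet.mem_sep.1 hc').2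
      have h5 := qc_mem_cutS.1 (ZFSet.mem_sep.1 hc).2
      linarith
  · obtain ⟨n, rfl⟩ := mem_omega_iff.1 hx
    refine ⟨cutS n, (hmem _ _).2 ⟨n, rfl, rfl⟩, fun y hy => ?_⟩
    obtain ⟨m, h1, h2⟩ := (hmem _ _).1 hy
    rw [h2, nat_injective h1]
  · intro a b c ha hb
    obtain ⟨m, rfl, h1⟩ := (hmem _ _).1 ha
    obtain ⟨n, rfl, h2⟩ := (hmem _ _).1 hb
    have h3 := cutS_injective (h1.symm.trans h2)
    rw [Nat.cast_injective h3]
  · obtain ⟨x, rfl⟩ := hXr _ ha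
    obtain ⟨s, h1, h2⟩ := exists_qv_btwn (show x - 1 / 2 < x by linarith)
    obtain ⟨t, h3, h4⟩ := exists_qv_btwn (show x < x + 1 / 2 by linarith)
    refine ⟨_, hinter _ (hup s) _ (hlo t), ZFSet.mem_inter.2 ⟨ZFSet.mem_sep.2
      ⟨ha, qc_mem_cutS.2 h2⟩, ZFSet.mem_sep.2 ⟨ha, ltC_iff.2 h3⟩⟩,
      fun m n b c hb hc h5 h6 => ?_⟩
    obtain ⟨m, rfl, rfl⟩ := (hmem _ _).1 h5
    obtain ⟨n, rfl, rfl⟩ := (hmem _ _).1 h6
    obtain ⟨hb1, hb2⟩ := ZFSet.mem_inter.1 hb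
    obtain ⟨hc1, hc2⟩ := ZFSet.mem_inter.1 hc
    have g1 := qc_mem_cutS.1 (ZFSet.mem_sep.1 hb1).2
    have g2 := ltC_iff.1 (ZFSet.mem_sep.1 hb2).2
    have g3 := qc_mem_cutS.1 (ZFSet.mem_sep.1 hc1).2
    have g4 := ltC_iff.1 (ZFSet.mem_sep.1 hc2).2
    congr 1
    have g5 : (m : ℝ) < n + 1 := by linarith
    have g6 : (n : ℝ) < m + 1 := by linarith
    have g7 : m < n + 1 := by exact_mod_cast g5
    have g8 : n < m + 1 := by exact_mod_cast g6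
    omega

end Pool.Agent.Q211.TP
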