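import Pool.Agent.Q211.TP.Chn2
import Pool.Agent.Q211.TP.Exp

/-!
# Topology of the chain: separation, saturation, constancy
-/

set_option autoImplicit false
set_option linter.unusedSectionVars false
set_option linter.unreachableTactic false
set_option linter.unusedTactic false

namespace Pool.Agent.Q211.TP

open Pool.Agent.W868 Pool.Agent.W868.PName Pool.Agent.Q211.SY Pool.Agent.Q211.FS
open Pool.Agent.Q211.PA
open ZFSet (pair)

/-- The points below the node `n`. -/
def Dn {L : Type} (n : ℕ) : Pt L → Prop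
  | .atm x => x.1 < n
  | .nd m => m ≤ n
  | .inf => False

theorem exists_above {L : Type} [LinearOrder L] [Nonempty L] (F : Finset L) :
    ∃ z, ∀ a ∈ F, a ≤ z := by
  classical
  refine Finset.induction_on F ⟨Classical.arbitrary L, by simp⟩ ?_
  rintro a s - ⟨z, hz⟩
  refine ⟨max a z, fun b hb => ?_⟩
  rcases Finset.mem_insert.1 hb with rfl | hb
  · exact le_max_left _ _
  · exact (hz b hb).trans (le_max_right _ _)

theorem exists_below {L : Type} [LinearOrder L] [Nonempty L] [NoMinOrder L] (F : Finset L) :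
    ∃ z, ∀ a ∈ F, z < a := by
  classical
  refine Finset.induction_on F ⟨Classical.arbitrary L, by simp⟩ ?_
  rintro a s - ⟨z, hz⟩
  obtain ⟨w, hw⟩ := exists_lt (min a z)
  refine ⟨w, fun b hb => ?_⟩
  rcases Finset.mem_insert.1 hb with rfl | hb
  · exact hw.trans_le (min_le_left _ _)
  · exact (hw.trans_le (min_le_right _ _)).trans (hz b hb)

/-- Points are separated by atoms. -/
theorem pt_sep {L : Type} [LinearOrder L] [Nonempty L] [NoMaxOrder L] {p q : Pt L}
    (h : ∀ a, le a p ↔ le a q) : p = q := by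
  have z := Classical.arbitrary L
  cases p with
  | atm x =>
    cases q with
    | atm y =>
      have h1 := (h x).1 (Or.inr ⟨rfl, le_rfl⟩)
      have h2 := (h y).2 (Or.inr ⟨rfl, le_rfl⟩)
      have h3 : x = y := by
        rcases h1 with h1 | h1
        · rcases h2 with h2 | h2
          · omega
          · have := h2.1
            omega
        · rcases h2 with h2 | h2
          · have := h1.1
            omega
          · exact Prod.ext h1.1 (le_antisymm h1.2 h2.2)
      rw [h3]
    | nd n =>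
      obtain ⟨w, hw⟩ := exists_gt x.2
      have h1 : x.1 < n := (h x).1 (Or.inr ⟨rfl, le_rfl⟩)
      have h2 := (h (x.1, w)).2 h1
      rcases h2 with h2 | h2
      · exact absurd h2 (lt_irrefl _)
      · exact absurd h2.2 (not_le.2 hw)
    | inf =>
      obtain ⟨w, hw⟩ := exists_gt x.2
      have h2 := (h (x.1, w)).2 trivial
      rcases h2 with h2 | h2
      · exact absurd h2 (lt_irrefl _)
      · exact absurd h2.2 (not_le.2 hw)
  | nd m =>
    cases q with
    | atm y =>
      obtain ⟨w, hw⟩ := exists_gt y.2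
      have h1 : y.1 < m := (h y).2 (Or.inr ⟨rfl, le_rfl⟩)
      have h2 := (h (y.1, w)).1 h1
      rcases h2 with h2 | h2
      · exact absurd h2 (lt_irrefl _)
      · exact absurd h2.2 (not_le.2 hw)
    | nd n =>
      rcases lt_trichotomy m n with h1 | h1 | h1
      · have h2 : m < m := (h (m, z)).2 h1
        exact absurd h2 (lt_irrefl _)
      · rw [h1]
      · have h2 : n < n := (h (n, z)).1 h1
        exact absurd h2 (lt_irrefl _)
    | inf =>
      have h2 : m < m := (h (m, z)).2 trivial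
      exact absurd h2 (lt_irrefl _)
  | inf =>
    cases q with
    | atm y =>
      obtain ⟨w, hw⟩ := exists_gt y.2
      have h2 := (h (y.1, w)).1 trivial
      rcases h2 with h2 | h2
      · exact absurd h2 (lt_irrefl _)
      · exact absurd h2.2 (not_le.2 hw)
    | nd n =>
      have h2 : n < n := (h (n, z)).1 trivial
      exact absurd h2 (lt_irrefl _)
    | inf => rfl

theorem le_down {L : Type} [LinearOrder L] {a b : ℕ × L} (hab : le a (.atm b)) {p : Pt L}
    (h : le b p) : le a p := by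
  cases p with
  | atm y =>
    rcases hab with hab | ⟨h1, h2⟩
    · rcases h with h | h
      · exact Or.inl (hab.trans h)
      · exact Or.inl (h.1 ▸ hab)
    · rcases h with h | h
      · exact Or.inl (h1 ▸ h)
      · exact Or.inr ⟨h1.trans h.1, h2.trans h.2⟩
  | nd n =>
    have h1 : b.1 < n := h
    change a.1 < n
    rcases hab with hab | hab
    · exact hab.trans h1
    · exact hab.1 ▸ h1
  | inf => trivial

theorem le_total' {L : Type} [LinearOrder L] (a b : ℕ × L) : le a (.atm b) ∨ le b (.atm a) := by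
  rcases lt_trichotomy a.1 b.1 with h | h | h
  · exact Or.inl (Or.inl h)
  · rcases le_total a.2 b.2 with h1 | h1
    · exact Or.inl (Or.inr ⟨h, h1⟩)
    · exact Or.inr (Or.inr ⟨h.symm, h1⟩)
  · exact Or.inr (Or.inl h)

theorem Dn_iff {L : Type} [LinearOrder L] [Nonempty L] {n : ℕ} {p : Pt L} :
    Dn n p ↔ ∀ a, le a p → a.1 < n := by
  have z := Classical.arbitrary L
  cases p with
  | atm x =>
    constructor
    · rintro (h : x.1 < n) a (h1 | h1)
      · exact h1.trans h
      · exact h1.1 ▸ h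
    · intro h
      exact h x (Or.inr ⟨rfl, le_rfl⟩)
  | nd m =>
    constructor
    · rintro (h : m ≤ n) a (h1 : a.1 < m)
      exact h1.trans_le h
    · intro h
      change m ≤ n
      by_contra h1
      exact absurd (h (n, z) (not_le.1 h1)) (lt_irrefl _)
  | inf =>
    constructor
    · rintro ⟨⟩
    · intro h
      exact absurd (h (n, z) trivial) (lt_irrefl _)

namespace ChnM

variable {L : Type} [LinearOrder L] {Z0 M : Set ZFSet.{0}} {pt : Pt L → ZFSet.{0}}
  {c : ℕ × L → ℕ} {X K R BL : ZFSet.{0}} (h : ChnM L Z0 M pt c X K R BL)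

include h

theorem R_iff {a : ℕ × L} {p : Pt L} : pair (pt (.atm a)) (pt p) ∈ R ↔ le a p := by
  rw [h.mR]
  constructor
  · rintro ⟨x, q, h1, h2⟩
    obtain ⟨h3, h4⟩ := ZFSet.pair_inj.1 h2
    have h5 := h.inj h3
    have h6 := h.inj h4
    injection h5 with h5
    rw [h5, h6]
    exact h1
  · intro h1
    exact ⟨a, p, h1, rfl⟩

/-- The set `S` is the set of the points with the property `D`. -/
def Sub (_ : ChnM L Z0 M pt c X K R BL) (D : Pt L → Prop) (S : ZFSet.{0}) : Prop :=
  S ∈ M ∧ ∀ z, z ∈ S ↔ ∃ p, D p ∧ z = pt p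

omit h in
theorem Sub.mem {h : ChnM L Z0 M pt c X K R BL} {D : Pt L → Prop} {S : ZFSet.{0}}
    (hS : h.Sub D S) {p : Pt L} : pt p ∈ S ↔ D p := by
  rw [hS.2]
  constructor
  · rintro ⟨q, hq, h1⟩
    rw [h.inj h1]
    exact hq
  · intro h1
    exact ⟨p, h1, rfl⟩

theorem subX : h.Sub (fun _ => True) X := by
  refine ⟨h.XM, fun z => ?_⟩
  rw [h.mX]
  simp

theorem hsep [Nonempty L] [NoMaxOrder L] {D : Pt L → Prop} {S : ZFSet.{0}} (hS : h.Sub D S) :
    ∀ x ∈ S, ∀ y ∈ S, (∀ k ∈ K, (pair k x ∈ R ↔ pair k y ∈ R)) → x = y := by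
  intro x hx y hy h1
  obtain ⟨p, -, rfl⟩ := (hS.2 x).1 hx
  obtain ⟨q, -, rfl⟩ := (hS.2 y).1 hy
  congr 1
  refine pt_sep fun a => ?_
  rw [← h.R_iff, ← h.R_iff]
  exact h1 _ ((h.mK _).2 ⟨a, rfl⟩)

theorem nr_pt {D : Pt L → Prop} {S : ZFSet.{0}} (hS : h.Sub D S) {p : Pt L} {U : ZFSet.{0}} :
    Nr S K R (pt p) U ↔ ∃ F : Finset (ℕ × L), ∀ q, D q → (∀ a ∈ F, (le a p ↔ le a q)) →
      pt q ∈ U := by
  classical
  constructor
  · rintro ⟨F, hF, h1⟩
    have h2 : ∀ k : {k // k ∈ F}, ∃ a : ℕ × L, k.1 = pt (.atm a) :=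
      fun k => (h.mK k.1).1 (hF k.1 k.2)
    choose a ha using h2
    refine ⟨F.attach.image a, fun q hq h3 => h1 _ (hS.mem.2 hq) fun k hk => ?_⟩
    have h4 := h3 (a ⟨k, hk⟩) (Finset.mem_image_of_mem _ (Finset.mem_attach _ _))
    have h5 : k = pt (.atm (a ⟨k, hk⟩)) := ha ⟨k, hk⟩
    rw [h5, h.R_iff, h.R_iff]
    exact h4
  · rintro ⟨F, hF⟩
    refine ⟨F.image fun a => pt (.atm a), fun k hk => ?_, fun y hy h1 => ?_⟩
    · obtain ⟨a, -, rfl⟩ := Finset.mem_image.1 hk
      exact (h.mK _).2 ⟨a, rfl⟩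
    · obtain ⟨q, hq, rfl⟩ := (hS.2 y).1 hy
      refine hF q hq fun a ha => ?_
      rw [← h.R_iff, ← h.R_iff]
      exact h1 _ (Finset.mem_image_of_mem _ ha)

end ChnM

end Pool.Agent.Q211.TP
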