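import Pool.Agent.Q211.TP.Chn3

/-!
# The chain: embeddings and eventual constancy
-/

set_option autoImplicit false
set_option linter.unusedSectionVars false
set_option linter.unreachableTactic false
set_option linter.unusedTactic false

namespace Pool.Agent.Q211.TP

open Pool.Agent.W868 Pool.Agent.W868.PName Pool.Agent.Q211.SY Pool.Agent.Q211.FS
open Pool.Agent.Q211.PA
open ZFSet (pair)

namespace ChnM

variable {L : Type} [LinearOrder L] {Z0 M : Set ZFSet.{0}} {pt : Pt L → ZFSet.{0}}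
  {c : ℕ × L → ℕ} {X K R BL : ZFSet.{0}} (h : ChnM L Z0 M pt c X K R BL)

include h

/-- The set of the atoms of the first `k` blocks is countable in the model. -/
theorem blocks (k : ℕ) : ∃ K' ∈ M, (∀ z, z ∈ K' ↔ ∃ a : ℕ × L, a.1 < k ∧ z = pt (.atm a)) ∧
    K' ⊆ K ∧ CntIn M K' := by
  have hM := h.zf
  have hB := hM.base
  have hKM := h.KM
  have hom : ZFSet.omega ∈ M := hM.infinity
  obtain ⟨u, hu, hu'⟩ := h.en k
  have h1 : ∀ z, z ∈ ZFSet.sep (fun z => ∃ n ∈ ZFSet.omega, pair z n ∈ u) K ↔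
      ∃ a : ℕ × L, a.1 < k ∧ z = pt (.atm a) := by
    intro z
    rw [ZFSet.mem_sep]
    constructor
    · rintro ⟨-, n, -, h1⟩
      obtain ⟨a, ha, h2⟩ := (hu' _).1 h1
      exact ⟨a, ha, (ZFSet.pair_inj.1 h2).1⟩
    · rintro ⟨a, ha, rfl⟩
      exact ⟨(h.mK _).2 ⟨a, rfl⟩, nat (c a), mem_omega_iff.2 ⟨_, rfl⟩, (hu' _).2 ⟨a, ha, rfl⟩⟩
  refine ⟨_, ?_, h1, fun z hz => (ZFSet.mem_sep.1 hz).1, u, hu, ⟨⟨fun z hz => ?_,
    fun x hx => ?_⟩, ?_⟩⟩
  · refine hM.sep_mem (Q := fun z => ∃ n ∈ ZFSet.omega, pair z n ∈ u) ?_ hKM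
    (repeat' first
      | assumption
      | exact DfnF.proj _
      | exact DfnF.const (by assumption)
      | exact DfnF.const' (by first | assumption | trivial) (by first | assumption | trivial)
      | exact Dfn.prop _
      | apply hB.isFunc' | apply hB.isInj' | apply hB.isBij' | apply hB.isOrdinal'
      | apply hB.subset' | apply hB.pair' | apply hB.insert'
      | apply Dfn.not | apply Dfn.and | apply Dfn.or | apply Dfn.imp | apply Dfn.iff
      | apply hB.bex | apply hB.ball | apply Dfn.ex | apply Dfn.all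
      | apply Dfn.eq | apply Dfn.mem)
  · obtain ⟨a, ha, rfl⟩ := (hu' _).1 hz
    exact ZFSet.pair_mem_prod.2 ⟨(h1 _).2 ⟨a, ha, rfl⟩, mem_omega_iff.2 ⟨_, rfl⟩⟩
  · obtain ⟨a, ha, rfl⟩ := (h1 _).1 hx
    refine ⟨_, (hu' _).2 ⟨a, ha, rfl⟩, fun y hy => ?_⟩
    obtain ⟨b, hb, h2⟩ := (hu' _).1 hy
    obtain ⟨h3, h4⟩ := ZFSet.pair_inj.1 h2
    have h5 := h.inj h3
    injection h5 with h5
    rw [h4, h5]
  · intro x y n hx hy
    obtain ⟨a, ha, h2⟩ := (hu' _).1 hx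
    obtain ⟨b, hb, h3⟩ := (hu' _).1 hy
    obtain ⟨h4, h5⟩ := ZFSet.pair_inj.1 h2
    obtain ⟨h6, h7⟩ := ZFSet.pair_inj.1 h3
    have h8 := h.cinj (nat_injective (h5.symm.trans h7))
    rw [h4, h6, h8]

/-- Countably realized traces are realized. -/
theorem hsat [Nonempty L] {D : Pt L → Prop} {S : ZFSet.{0}} (hS : h.Sub D S)
    (hD : D .inf ∨ ∃ n, ∀ p, D p → Dn n p) :
    ∀ T ∈ M, T ⊆ K → (∀ K' ∈ M, K' ⊆ K → CntIn M K' →
      ∃ y ∈ S, ∀ k ∈ K', (k ∈ T ↔ pair k y ∈ R)) → ∃ x ∈ S, ∀ k ∈ K, (k ∈ T ↔ pair k x ∈ R) := by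
  intro T hT hTK hc
  have z := Classical.arbitrary L
  have hb : ∀ k : ℕ, ∃ p, D p ∧ ∀ a : ℕ × L, a.1 < k → (pt (.atm a) ∈ T ↔ le a p) := by
    intro k
    obtain ⟨K', hK', h1, h2, h3⟩ := h.blocks k
    obtain ⟨y, hy, h4⟩ := hc K' hK' h2 h3
    obtain ⟨p, hp, rfl⟩ := (hS.2 y).1 hy
    refine ⟨p, hp, fun a ha => ?_⟩
    rw [h4 _ ((h1 _).2 ⟨a, ha, rfl⟩), h.R_iff]
  have hdown : ∀ a b : ℕ × L, le a (.atm b) → pt (.atm b) ∈ T → pt (.atm a) ∈ T := by
    intro a b hab hbT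
    obtain ⟨p, -, h1⟩ := hb (max a.1 b.1 + 1)
    rw [h1 a (by omega)]
    rw [h1 b (by omega)] at hbT
    exact le_down hab hbT
  suffices hsuff : ∃ p, D p ∧ ∀ a : ℕ × L, (pt (.atm a) ∈ T ↔ le a p) by
    obtain ⟨p, hp, h1⟩ := hsuff
    refine ⟨pt p, hS.mem.2 hp, fun k hk => ?_⟩
    obtain ⟨a, rfl⟩ := (h.mK k).1 hk
    rw [h1, h.R_iff]
  by_cases hall : ∀ a : ℕ × L, pt (.atm a) ∈ T
  · rcases hD with hD | ⟨n, hD⟩
    · exact ⟨.inf, hD, fun a => ⟨fun _ => trivial, fun _ => hall a⟩⟩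
    · exfalso
      obtain ⟨p, hp, h1⟩ := hb (n + 1)
      have h2 := (h1 (n, z) (Nat.lt_succ_self _)).1 (hall _)
      exact absurd (Dn_iff.1 (hD p hp) _ h2) (lt_irrefl _)
  · push Not at hall
    obtain ⟨b, hbT⟩ := hall
    obtain ⟨p, hp, h1⟩ := hb (b.1 + 1)
    refine ⟨p, hp, fun a => ?_⟩
    by_cases ha : a.1 < b.1 + 1
    · exact h1 a ha
    · have hba : le b (.atm a) := Or.inl (by omega)
      constructor
      · intro h2
        exact absurd (hdown b a hba h2) hbT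
      · intro h2
        exact absurd ((h1 b (Nat.lt_succ_self _)).2 (le_down hba h2)) hbT

/-- Bounded subspaces and the whole space are closed subspaces of powers. -/
theorem ecompact [Nonempty L] [NoMaxOrder L] {D : Pt L → Prop} {S : ZFSet.{0}} (hS : h.Sub D S)
    (hD : D .inf ∨ ∃ n, ∀ p, D p → Dn n p) {τ : ZFSet.{0}} (hτM : τ ∈ M)
    (hτ : GenBy M S τ K R) {E σ i : ZFSet.{0}} (hE : GoodE M E σ i) : ECompactIn M E σ S τ :=
  ecompact_of h.zf hE hS.1 hτM h.KM h.RM hτ (h.hsep hS) (h.hsat hS hD)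

/-- The elements of the elements of `E` are generated from the natural numbers by pairing. -/
def Flat (E : ZFSet.{0}) : Prop := ∀ e ∈ E, ∀ r ∈ e, Cd r

/-- Limits of values. -/
theorem val_limit {D : Pt L → Prop} {S : ZFSet.{0}} (hS : h.Sub D S) {τ E σ f : ZFSet.{0}}
    (hτ : GenBy M S τ K R)
    (haus : ∀ a ∈ E, ∀ b ∈ E, a ≠ b → ∃ V ∈ σ, ∃ W ∈ σ, a ∈ V ∧ b ∈ W ∧ ∀ c ∈ V, c ∉ W)
    (hf : IsCont S τ E σ f) {p : Pt L} (hp : D p) {e : ZFSet.{0}} (he : e ∈ E)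
    (hlim : ∀ F : Finset (ℕ × L), ∃ q, D q ∧ (∀ a ∈ F, (le a p ↔ le a q)) ∧ pair (pt q) e ∈ f) :
    pair (pt p) e ∈ f := by
  obtain ⟨v, hv, hv'⟩ := hf.1.2 (pt p) (hS.mem.2 hp)
  have hvE := (ZFSet.pair_mem_prod.1 (hf.1.1 hv)).2
  by_cases hve : v = e
  · rw [← hve]
    exact hv
  · exfalso
    obtain ⟨V, hV, W, hW, h1, h2, h3⟩ := haus v hvE e he hve
    have h4 := ((hτ _).1 (hf.2 V hV)).2.2 (pt p) (mem_pre.2 ⟨hS.mem.2 hp, v, h1, hv⟩)
    obtain ⟨F, hF⟩ := (h.nr_pt hS).1 h4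
    obtain ⟨q, hq, h5, h6⟩ := hlim F
    obtain ⟨-, w, hw, h7⟩ := mem_pre.1 (hF q hq h5)
    have h8 := (hf.1.2 (pt q) (hS.mem.2 hq)).unique h7 h6
    rw [h8] at hw
    exact h3 _ hw h2

theorem Q_ud : UD fun M (v : Fin 3 → ZFSet.{0}) => ∃ e ∈ M, pair (v 1) e ∈ v 0 ∧ v 2 ∈ e := by
  (repeat' first
    | assumption
    | exact UF.proj _
    | exact UF.om
    | exact UD.prop _
    | apply UD.not | apply UD.and | apply UD.or | apply UD.imp | apply UD.iff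
    | apply UD.bex | apply UD.ball | apply UD.ex | apply UD.all
    | apply UD.eq | apply UD.mem | apply UF.pair)

/-- Functions are constant on all blocks except finitely many. -/
theorem block_const {f : ZFSet.{0}} (hf : f ∈ M) : ∃ k, ∀ n, k ≤ n → ∀ a b : L,
    ∀ E, Flat E → (∀ x e e', pair x e ∈ f → pair x e' ∈ f → e = e') →
    ∀ e e', e ∈ E → e' ∈ E → pair (pt (.atm (n, a))) e ∈ f →
      pair (pt (.atm (n, b))) e' ∈ f → e = e' := by
  have hM := h.zf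
  obtain ⟨k, hk⟩ := h.inv f hf
  refine ⟨k, fun n hn a b E hE hfun e e' he he' h1 h2 => ?_⟩
  have h3 : ∀ a b : L, ∀ e e', e ∈ E → e' ∈ E → pair (pt (.atm (n, a))) e ∈ f →
      pair (pt (.atm (n, b))) e' ∈ f → e ⊆ e' := by
    intro a b e e' he he' h1 h2 r hr
    have heM : e ∈ M := (hM.of_pair_mem (hM.trans _ hf _ h1)).2
    obtain ⟨e'', -, h4, h5⟩ := hk n hn a b r (hE e he r hr) _ (Q_ud h) ⟨e, heM, h1, hr⟩
    have h6 := hfun _ _ _ h4 h2
    rw [← h6]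
    exact h5
  ext r
  exact ⟨fun hr => h3 a b e e' he he' h1 h2 hr, fun hr => h3 b a e' e he' he h2 h1 hr⟩

/-- Continuous functions are eventually constant. -/
theorem ev_const [Nonempty L] [NoMaxOrder L] [NoMinOrder L] {D : Pt L → Prop} {S : ZFSet.{0}}
    (hS : h.Sub D S) (hD : ∀ p, p ≠ .inf → D p) {τ E σ f : ZFSet.{0}}
    (hτ : GenBy M S τ K R) (hE : Flat E)
    (haus : ∀ a ∈ E, ∀ b ∈ E, a ≠ b → ∃ V ∈ σ, ∃ W ∈ σ, a ∈ V ∧ b ∈ W ∧ ∀ c ∈ V, c ∉ W)
    (hfM : f ∈ M) (hf : IsCont S τ E σ f) :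
    ∃ k, ∃ e ∈ E, ∀ p, D p → ¬ Dn k p → pair (pt p) e ∈ f := by
  classical
  have hfun : ∀ x e e', pair x e ∈ f → pair x e' ∈ f → e = e' := by
    intro x e e' h1 h2
    exact (hf.1.2 x (ZFSet.pair_mem_prod.1 (hf.1.1 h1)).1).unique h1 h2
  obtain ⟨k, hk⟩ := h.block_const hfM
  have z := Classical.arbitrary L
  have hval : ∀ p, D p → ∃ e ∈ E, pair (pt p) e ∈ f := by
    intro p hp
    obtain ⟨e, he, -⟩ := hf.1.2 (pt p) (hS.mem.2 hp)
    exact ⟨e, (ZFSet.pair_mem_prod.1 (hf.1.1 he)).2, he⟩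
  have hDa : ∀ x, D (.atm x) := fun x => hD _ (by simp)
  have hDn : ∀ n, D (.nd n) := fun n => hD _ (by simp)
  have hblk : ∀ n, k ≤ n → ∃ e ∈ E, (∀ a, pair (pt (.atm (n, a))) e ∈ f) ∧
      pair (pt (.nd n)) e ∈ f ∧ pair (pt (.nd (n + 1))) e ∈ f := by
    intro n hn
    obtain ⟨e, he, h1⟩ := hval (.atm (n, z)) (hDa _)
    have h2 : ∀ a, pair (pt (.atm (n, a))) e ∈ f := by
      intro a
      obtain ⟨e', he', h3⟩ := hval (.atm (n, a)) (hDa _)
      rw [hk n hn z a E hE hfun e e' he he' h1 h3]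
      exact h3
    refine ⟨e, he, h2, ?_, ?_⟩
    · refine h.val_limit hS hτ haus hf (hDn n) he fun F => ?_
      obtain ⟨w, hw⟩ := exists_below (F.image Prod.snd)
      refine ⟨.atm (n, w), hDa _, fun a ha => ?_, h2 w⟩
      have h3 := hw a.2 (Finset.mem_image_of_mem _ ha)
      constructor
      · intro h4
        exact Or.inl h4
      · rintro (h4 | h4)
        · exact h4
        · exact absurd h4.2 (not_le.2 h3)
    · refine h.val_limit hS hτ haus hf (hDn (n + 1)) he fun F => ?_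
      obtain ⟨w, hw⟩ := exists_above (F.image Prod.snd)
      refine ⟨.atm (n, w), hDa _, fun a ha => ?_, h2 w⟩
      have h3 := hw a.2 (Finset.mem_image_of_mem _ ha)
      constructor
      · intro h4
        have h5 : a.1 < n + 1 := h4
        rcases Nat.lt_succ_iff_lt_or_eq.1 h5 with h6 | h6
        · exact Or.inl h6
        · exact Or.inr ⟨h6, h3⟩
      · rintro (h4 | h4)
        · exact h4.trans (Nat.lt_succ_self _)
        · change a.1 < n + 1
          rw [h4.1]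
          exact Nat.lt_succ_self _
  obtain ⟨e, he, hek, hek1, -⟩ := hblk k le_rfl
  have hall : ∀ n, k ≤ n → pair (pt (.nd n)) e ∈ f ∧ ∀ a, pair (pt (.atm (n, a))) e ∈ f := by
    intro n hn
    induction n, hn using Nat.le_induction with
    | base => exact ⟨hek1, hek⟩
    | succ n hn ih =>
      obtain ⟨e1, he1, h1, h2, h3⟩ := hblk n hn
      have h4 := hfun _ _ _ h2 ih.1
      rw [h4] at h3
      obtain ⟨e2, he2, h5, h6, h7⟩ := hblk (n + 1) (hn.trans (Nat.le_succ _))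
      have h8 := hfun _ _ _ h6 h3
      rw [h8] at h5
      exact ⟨h3, h5⟩
  refine ⟨k, e, he, fun p hp hpk => ?_⟩
  cases p with
  | atm x =>
    have h1 : ¬ x.1 < k := hpk
    exact (hall x.1 (not_lt.1 h1)).2 x.2
  | nd n =>
    have h1 : ¬ n ≤ k := hpk
    exact (hall n (not_le.1 h1).le).1
  | inf =>
    refine h.val_limit hS hτ haus hf hp he fun F => ?_
    refine ⟨.nd (max k (F.sup fun a => a.1 + 1)), hDn _, fun a ha => ?_,
      (hall _ (le_max_left _ _)).1⟩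
    have h1 : a.1 + 1 ≤ F.sup fun a => a.1 + 1 := Finset.le_sup (f := fun a : ℕ × L => a.1 + 1) ha
    constructor
    · intro _
      change a.1 < _
      have h2 := le_max_right k (F.sup fun a => a.1 + 1)
      omega
    · intro _
      trivial

end ChnM

end Pool.Agent.Q211.TP
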