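import Pool.Agent.Q211.TP.Chn4

/-!
# The chain is not a closed subspace of a power
-/

set_option autoImplicit false
set_option linter.unusedSectionVars false
set_option linter.unreachableTactic false
set_option linter.unusedTactic false

namespace Pool.Agent.Q211.TP

open Pool.Agent.W868 Pool.Agent.W868.PName Pool.Agent.Q211.SY Pool.Agent.Q211.FS
open Pool.Agent.Q211.PA
open ZFSet (pair)

theorem flat_omega : ChnM.Flat ZFSet.omega := by
  intro e he r hr
  obtain ⟨n, rfl⟩ := mem_omega_iff.1 he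
  obtain ⟨i, -, rfl⟩ := mem_nat_iff.1 hr
  exact .nat i

theorem flat_nat (m : ℕ) : ChnM.Flat (nat m) := by
  intro e he r hr
  obtain ⟨n, -, rfl⟩ := mem_nat_iff.1 he
  obtain ⟨i, -, rfl⟩ := mem_nat_iff.1 hr
  exact .nat i

theorem flat_real {M : Set ZFSet.{0}} {R σ : ZFSet.{0}} (h : IsReals M R σ) : ChnM.Flat R := by
  intro e he r hr
  obtain ⟨-, x, rfl⟩ := (h.1 e).1 he
  obtain ⟨t, -, rfl⟩ := mem_cutS.1 hr
  exact .qc t

namespace ChnM

variable {L : Type} [LinearOrder L] {Z0 M : Set ZFSet.{0}} {pt : Pt L → ZFSet.{0}}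
  {c : ℕ × L → ℕ} {X K R BL : ZFSet.{0}} (h : ChnM L Z0 M pt c X K R BL)

include h

/-- The space of all points except the point at infinity is not a closed subspace of a power. -/
theorem not_ecompact [Nonempty L] [NoMaxOrder L] [NoMinOrder L] {S : ZFSet.{0}}
    (hS : h.Sub (fun p => p ≠ .inf) S) {τ E σ i : ZFSet.{0}} (hτM : τ ∈ M)
    (hτ : GenBy M S τ K R) (hfl : Flat E) (hE : GoodE M E σ i) : ¬ ECompactIn M E σ S τ := by
  classical
  rintro ⟨J, hJ, N, hN, ν, hν, C, hC, u, hu, hfun, hpow, hCN, hNC, hbij, hhom⟩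
  have hM := h.zf
  have hB := hM.base
  have hSM := hS.1
  have hEM := hE.EM
  have hσM := hE.σM
  have hKM := h.KM
  have hRM := h.RM
  have hom : ZFSet.omega ∈ M := hM.infinity
  have z := Classical.arbitrary L
  have huf : ∀ x g g', pair x g ∈ u → pair x g' ∈ u → g = g' := by
    intro x g g' h1 h2
    exact (hbij.1.1.2 x (ZFSet.pair_mem_prod.1 (hbij.1.1.1 h1)).1).unique h1 h2
  have huS : ∀ x g, pair x g ∈ u → x ∈ S ∧ g ∈ C := fun x g h1 =>
    ZFSet.pair_mem_prod.1 (hbij.1.1.1 h1)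
  have hgf : ∀ g ∈ N, ∀ j e e', pair j e ∈ g → pair j e' ∈ g → e = e' := by
    intro g hg j e e' h1 h2
    obtain ⟨-, h3⟩ := (hfun g).1 hg
    exact (h3.2 j (ZFSet.pair_mem_prod.1 (h3.1 h1)).1).unique h1 h2
  -- the coordinates are eventually constant
  have hcoord : ∀ j ∈ J, ∃ k, ∃ e ∈ E, ∀ p, p ≠ .inf → ¬ Dn k p → ∀ g, pair (pt p) g ∈ u →
      pair j e ∈ g := by
    intro j hj
    have hjM := hM.trans _ hJ _ hj
    have hfM : ZFSet.sep (fun q => ∃ x ∈ S, ∃ e ∈ E, q = pair x e ∧ ∃ g ∈ C, pair x g ∈ u ∧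
        pair j e ∈ g) (ZFSet.prod S E) ∈ M := by
      refine hM.sep_mem (Q := fun q => ∃ x ∈ S, ∃ e ∈ E, q = pair x e ∧ ∃ g ∈ C, pair x g ∈ u ∧
        pair j e ∈ g) ?_ (hM.prod_mem hSM hEM)
      (repeat' first
        | assumption
        | exact DfnF.proj _
        | exact DfnF.const (by assumption)
        | exact DfnF.const' (by first | assumption | trivial) (by first | assumption | trivial)
        | exact Dfn.prop _
        | apply hB.isFunc' | apply hB.isInj' | apply hB.isBij' | apply hB.isOrdinal'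
        | apply hB.subset' | apply hB.pair' | apply hB.insert'
        | apply Dfn.not | apply Dfn.and | apply Dfn.or | apply Dfn.imp | apply Dfn.iff
        | apply hB.bex | apply hB.ball | apply Dfn.ex | apply Dfn.all
        | apply Dfn.eq | apply Dfn.mem)
    have hmem : ∀ x e, pair x e ∈ ZFSet.sep (fun q => ∃ x ∈ S, ∃ e ∈ E, q = pair x e ∧
        ∃ g ∈ C, pair x g ∈ u ∧ pair j e ∈ g) (ZFSet.prod S E) ↔
        x ∈ S ∧ e ∈ E ∧ ∃ g ∈ C, pair x g ∈ u ∧ pair j e ∈ g := by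
      intro x e
      rw [ZFSet.mem_sep, ZFSet.pair_mem_prod]
      constructor
      · rintro ⟨⟨hx, he⟩, x', -, e', -, hp, h1⟩
        obtain ⟨rfl, rfl⟩ := ZFSet.pair_inj.1 hp
        exact ⟨hx, he, h1⟩
      · rintro ⟨hx, he, h1⟩
        exact ⟨⟨hx, he⟩, x, hx, e, he, rfl, h1⟩
    obtain ⟨f, hf⟩ : ∃ f, f = ZFSet.sep (fun q => ∃ x ∈ S, ∃ e ∈ E, q = pair x e ∧
        ∃ g ∈ C, pair x g ∈ u ∧ pair j e ∈ g) (ZFSet.prod S E) := ⟨_, rfl⟩
    rw [← hf] at hfM hmem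
    have hcont : IsCont S τ E σ f := by
      refine ⟨⟨fun q hq => ?_, fun x hx => ?_⟩, fun V hV => ?_⟩
      · rw [hf] at hq
        exact (ZFSet.mem_sep.1 hq).1
      · obtain ⟨g, hg, -⟩ := hbij.1.1.2 x hx
        have hgC := (huS _ _ hg).2
        obtain ⟨e, he, he'⟩ := ((hfun g).1 (hCN hgC)).2.2 j hj
        have heE := (ZFSet.pair_mem_prod.1 (((hfun g).1 (hCN hgC)).2.1 he)).2
        refine ⟨e, (hmem _ _).2 ⟨hx, heE, g, hgC, hg, he⟩, fun e' h1 => ?_⟩
        obtain ⟨-, -, g', -, h2, h3⟩ := (hmem _ _).1 h1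
        rw [huf _ _ _ h2 hg] at h3
        exact he' e' h3
      · have hVM := hM.trans _ hσM _ hV
        rw [hhom _ (fun z hz => (mem_pre.1 hz).1), sub_pow hM hσM hJ hN hpow hC hCN]
        have h1 : ∀ g, g ∈ ZFSet.sep (fun y => ∃ x ∈ pre S f V, pair x y ∈ u) C ↔
            g ∈ C ∧ ∃ e ∈ V, pair j e ∈ g := by
          intro g
          rw [ZFSet.mem_sep]
          refine and_congr_right fun hg => ?_
          constructor
          · rintro ⟨x, hx, h1⟩
            obtain ⟨hx, e, he, h2⟩ := mem_pre.1 hx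
            obtain ⟨-, -, g', -, h3, h4⟩ := (hmem _ _).1 h2
            rw [huf _ _ _ h3 h1] at h4
            exact ⟨e, he, h4⟩
          · rintro ⟨e, he, h1⟩
            obtain ⟨x, hx, h2⟩ := hbij.2 g hg
            have heE := (ZFSet.pair_mem_prod.1 (((hfun g).1 (hCN hg)).2.1 h1)).2
            exact ⟨x, mem_pre.2 ⟨hx, e, he, (hmem _ _).2 ⟨hx, heE, g, hg, h2, h1⟩⟩, h2⟩
        have h2 : ZFSet.sep (fun y => ∃ x ∈ pre S f V, pair x y ∈ u) C =
            ZFSet.sep (fun g => ∃ e ∈ V, pair j e ∈ g) C := by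
          ext g
          rw [h1, ZFSet.mem_sep]
        refine ⟨?_, fun g hg => ((h1 g).1 hg).1, fun g hg => ?_⟩
        · rw [h2]
          refine hM.sep_mem (Q := fun g => ∃ e ∈ V, pair j e ∈ g) ?_ hC
          (repeat' first
            | assumption
            | exact DfnF.proj _
            | exact DfnF.const (by assumption)
            | exact DfnF.const' (by first | assumption | trivial) (by first | assumption | trivial)
            | exact Dfn.prop _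
            | apply hB.isFunc' | apply hB.isInj' | apply hB.isBij' | apply hB.isOrdinal'
            | apply hB.subset' | apply hB.pair' | apply hB.insert'
            | apply Dfn.not | apply Dfn.and | apply Dfn.or | apply Dfn.imp | apply Dfn.iff
            | apply hB.bex | apply hB.ball | apply Dfn.ex | apply Dfn.all
            | apply Dfn.eq | apply Dfn.mem)
        · obtain ⟨hgC, e, he, h3⟩ := (h1 g).1 hg
          refine ⟨{(j, V)}, fun d hd => ?_, fun g' hg' h4 => (h1 g').2 ⟨hg', ?_⟩⟩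
          · rw [Finset.mem_singleton.1 hd]
            exact ⟨hj, hV, e, he, h3⟩
          · exact h4 (j, V) (Finset.mem_singleton_self _)
    obtain ⟨k, e, he, h1⟩ := h.ev_const hS (fun p hp => hp) hτ hfl hE.haus hfM hcont
    refine ⟨k, e, he, fun p hp hpk g hg => ?_⟩
    obtain ⟨-, -, g', -, h2, h3⟩ := (hmem _ _).1 (h1 p hp hpk)
    rw [huf _ _ _ h2 hg] at h3
    exact h3
  have hnode : ∀ n, ∃ g ∈ C, pair (pt (.nd n)) g ∈ u := by
    intro n
    obtain ⟨g, hg, -⟩ := hbij.1.1.2 (pt (.nd n)) (hS.mem.2 (by simp))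
    exact ⟨g, (huS _ _ hg).2, hg⟩
  -- the limit point
  have hGM : ZFSet.sep (fun q => ∃ j ∈ J, ∃ e ∈ E, q = pair j e ∧ ∃ k ∈ ZFSet.omega,
      ∀ n ∈ ZFSet.omega, n ∉ k → ∀ y ∈ N, pair n y ∈ u → pair j e ∈ y) (ZFSet.prod J E) ∈ M := by
    refine hM.sep_mem (Q := fun q => ∃ j ∈ J, ∃ e ∈ E, q = pair j e ∧ ∃ k ∈ ZFSet.omega,
      ∀ n ∈ ZFSet.omega, n ∉ k → ∀ y ∈ N, pair n y ∈ u → pair j e ∈ y) ?_ (hM.prod_mem hJ hEM)
    (repeat' first
      | assumption
      | exact DfnF.proj _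
      | exact DfnF.const (by assumption)
      | exact DfnF.const' (by first | assumption | trivial) (by first | assumption | trivial)
      | exact Dfn.prop _
      | apply hB.isFunc' | apply hB.isInj' | apply hB.isBij' | apply hB.isOrdinal'
      | apply hB.subset' | apply hB.pair' | apply hB.insert'
      | apply Dfn.not | apply Dfn.and | apply Dfn.or | apply Dfn.imp | apply Dfn.iff
      | apply hB.bex | apply hB.ball | apply Dfn.ex | apply Dfn.all
      | apply Dfn.eq | apply Dfn.mem)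
  have hGmem : ∀ j e, pair j e ∈ ZFSet.sep (fun q => ∃ j ∈ J, ∃ e ∈ E, q = pair j e ∧
      ∃ k ∈ ZFSet.omega, ∀ n ∈ ZFSet.omega, n ∉ k → ∀ y ∈ N, pair n y ∈ u → pair j e ∈ y)
      (ZFSet.prod J E) ↔ j ∈ J ∧ e ∈ E ∧ ∃ k : ℕ, ∀ n : ℕ, k ≤ n → ∀ y ∈ C,
        pair (pt (.nd n)) y ∈ u → pair j e ∈ y := by
    intro j e
    rw [ZFSet.mem_sep, ZFSet.pair_mem_prod]
    constructor
    · rintro ⟨⟨hj, he⟩, j', -, e', -, hp, k, hk, h1⟩
      obtain ⟨rfl, rfl⟩ := ZFSet.pair_inj.1 hp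
      obtain ⟨k, rfl⟩ := mem_omega_iff.1 hk
      refine ⟨hj, he, k, fun n hn y hy h2 => ?_⟩
      rw [h.nd] at h2
      exact h1 _ (mem_omega_iff.2 ⟨n, rfl⟩) (fun h3 => absurd (nat_mem_nat.1 h3) (not_lt.2 hn))
        y (hCN hy) h2
    · rintro ⟨hj, he, k, h1⟩
      refine ⟨⟨hj, he⟩, j, hj, e, he, rfl, nat k, mem_omega_iff.2 ⟨k, rfl⟩,
        fun n hn hnk y hy h2 => ?_⟩
      obtain ⟨n, rfl⟩ := mem_omega_iff.1 hn
      rw [← h.nd] at h2
      exact h1 n (not_lt.1 fun h3 => hnk (nat_mem_nat.2 h3)) y (huS _ _ h2).2 h2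
  obtain ⟨G, hG⟩ : ∃ G, G = ZFSet.sep (fun q => ∃ j ∈ J, ∃ e ∈ E, q = pair j e ∧
      ∃ k ∈ ZFSet.omega, ∀ n ∈ ZFSet.omega, n ∉ k → ∀ y ∈ N, pair n y ∈ u → pair j e ∈ y)
      (ZFSet.prod J E) := ⟨_, rfl⟩
  rw [← hG] at hGM hGmem
  have hDnn : ∀ k n : ℕ, k + 1 ≤ n → ¬ Dn k (Pt.nd n : Pt L) := by
    intro k n hkn (h1 : n ≤ k)
    omega
  have hGN : G ∈ N := by
    refine (hfun G).2 ⟨hGM, fun q hq => ?_, fun j hj => ?_⟩
    · rw [hG] at hq
      exact (ZFSet.mem_sep.1 hq).1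
    · obtain ⟨k, e, he, h1⟩ := hcoord j hj
      refine ⟨e, (hGmem _ _).2 ⟨hj, he, k + 1, fun n hn y hy h2 => h1 (.nd n) (by simp)
        (hDnn k n hn) y h2⟩, fun e' he' => ?_⟩
      obtain ⟨-, -, k', h2⟩ := (hGmem _ _).1 he'
      obtain ⟨g, hgC, hg⟩ := hnode (max (k + 1) k')
      exact hgf g (hCN hgC) j _ _ (h2 _ (le_max_right _ _) g hgC hg)
        (h1 (.nd _) (by simp) (hDnn _ _ (le_max_left _ _)) g hg)
  -- the images of the late nodes satisfy the conditions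
  have hlate : ∀ F : Finset (ZFSet.{0} × ZFSet.{0}),
      (∀ d ∈ F, d.1 ∈ J ∧ d.2 ∈ σ ∧ ∃ y ∈ d.2, pair d.1 y ∈ G) →
      ∃ k : ℕ, ∀ n, k ≤ n → ∀ g, pair (pt (.nd n)) g ∈ u → ∀ d ∈ F, ∃ y ∈ d.2, pair d.1 y ∈ g := by
    intro F
    refine Finset.induction_on F (fun _ => ⟨0, fun n _ g _ d hd => absurd hd (by simp)⟩) ?_
    intro d F _ ih hF
    obtain ⟨k, hk⟩ := ih fun d' hd' => hF d' (Finset.mem_insert_of_mem hd')
    obtain ⟨-, -, y, hy, h1⟩ := hF d (Finset.mem_insert_self _ _)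
    obtain ⟨-, -, k', h2⟩ := (hGmem _ _).1 h1
    refine ⟨max k k', fun n hn g hg d' hd' => ?_⟩
    rcases Finset.mem_insert.1 hd' with rfl | hd'
    · exact ⟨y, hy, h2 n ((le_max_right _ _).trans hn) g (huS _ _ hg).2 hg⟩
    · exact hk n ((le_max_left _ _).trans hn) g hg d' hd'
  have hGC : G ∈ C := by
    by_contra hno
    obtain ⟨F, hF, h1⟩ := ((hpow _).1 hNC).2.2 G (ZFSet.mem_sdiff.2 ⟨hGN, hno⟩)
    obtain ⟨k, hk⟩ := hlate F hF
    obtain ⟨g, hgC, hg⟩ := hnode k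
    exact (ZFSet.mem_sdiff.1 (h1 g (hCN hgC) (hk k le_rfl g hg))).2 hgC
  obtain ⟨x0, hx0, hx0G⟩ := hbij.2 G hGC
  obtain ⟨p0, hp0, rfl⟩ := (hS.2 x0).1 hx0
  obtain ⟨a, ha⟩ : ∃ a, ¬ le a p0 := by
    cases p0 with
    | atm x => exact ⟨(x.1 + 1, x.2), by
        rintro (h1 | h1)
        · exact absurd h1 (by simp)
        · exact absurd h1.1 (by simp)⟩
    | nd n => exact ⟨(n, z), fun h1 => absurd (show n < n from h1) (lt_irrefl _)⟩
    | inf => exact absurd rfl hp0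
  have haM : pt (.atm a) ∈ M := hM.trans _ hKM _ ((h.mK _).2 ⟨a, rfl⟩)
  have hU := hτ.neg hM hSM hRM ((h.mK _).2 ⟨a, rfl⟩) haM
  rw [hhom _ (fun z hz => (ZFSet.mem_sep.1 hz).1), sub_pow hM hσM hJ hN hpow hC hCN] at hU
  obtain ⟨F, hF, h1⟩ := hU.2.2 G (ZFSet.mem_sep.2 ⟨hGC, pt p0, ZFSet.mem_sep.2 ⟨hx0, by
    rw [h.R_iff]
    exact ha⟩, hx0G⟩)
  obtain ⟨k, hk⟩ := hlate F hF
  obtain ⟨g, hgC, hg⟩ := hnode (max k (a.1 + 1))
  obtain ⟨-, x, hx, h2⟩ := ZFSet.mem_sep.1 (h1 g hgC (hk _ (le_max_left _ _) g hg))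
  have h3 := hbij.1.2 _ _ _ h2 hg
  obtain ⟨-, h4⟩ := ZFSet.mem_sep.1 hx
  rw [h3, h.R_iff] at h4
  exact h4 (lt_of_lt_of_le (Nat.lt_succ_self _) (le_max_right _ _))

/-! ### The subspaces -/

theorem exists_B : h.Sub (fun p => p ≠ .inf) (ZFSet.sep (fun z => z ≠ ZFSet.omega) X) := by
  have hM := h.zf
  have hom : ZFSet.omega ∈ M := hM.infinity
  refine ⟨hM.sep_mem (Q := fun z => z ≠ ZFSet.omega)
    (Dfn.not (Dfn.eq (DfnF.proj 0) (DfnF.const hom))) h.XM, fun z => ?_⟩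
  rw [ZFSet.mem_sep, h.mX, ← h.inf]
  constructor
  · rintro ⟨⟨p, rfl⟩, hp⟩
    exact ⟨p, fun h1 => hp (by rw [h1]), rfl⟩
  · rintro ⟨p, hp, rfl⟩
    exact ⟨⟨p, rfl⟩, fun h1 => hp (h.inj h1)⟩

/-- The initial segments: membership. -/
def InS (BL n z : ZFSet.{0}) : Prop := z ∈ n ∨ z = n ∨ ∃ m ∈ n, pair m z ∈ BL

theorem inS_iff {n : ℕ} {p : Pt L} : InS BL (nat n) (pt p) ↔ Dn n p := by
  have hbl : ∀ m : ZFSet.{0}, ∀ p, pair m (pt p) ∈ BL ↔ ∃ x : ℕ × L, m = nat x.1 ∧ p = .atm x := by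
    intro m p
    rw [h.mB]
    constructor
    · rintro ⟨x, hx⟩
      obtain ⟨h1, h2⟩ := ZFSet.pair_inj.1 hx
      exact ⟨x, h1, h.inj h2⟩
    · rintro ⟨x, rfl, rfl⟩
      exact ⟨x, rfl⟩
  unfold InS
  cases p with
  | atm x =>
    constructor
    · rintro (h1 | h1 | ⟨m, hm, h1⟩)
      · obtain ⟨j, -, h2⟩ := mem_nat_iff.1 h1
        rw [← h.nd] at h2
        exact absurd (h.inj h2) (by simp)
      · rw [← h.nd] at h1
        exact absurd (h.inj h1) (by simp)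
      · obtain ⟨y, rfl, h2⟩ := (hbl _ _).1 h1
        injection h2 with h2
        rw [h2]
        exact nat_mem_nat.1 hm
    · intro h1
      exact Or.inr (Or.inr ⟨nat x.1, nat_mem_nat.2 h1, (hbl _ _).2 ⟨x, rfl, rfl⟩⟩)
  | nd m =>
    rw [h.nd]
    constructor
    · rintro (h1 | h1 | ⟨j, hj, h1⟩)
      · exact (nat_mem_nat.1 h1).le
      · exact (nat_injective h1).le
      · rw [← h.nd] at h1
        obtain ⟨y, rfl, h2⟩ := (hbl _ _).1 h1
        exact absurd h2 (by simp)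
    · intro h1
      rcases lt_or_eq_of_le (show m ≤ n from h1) with h2 | h2
      · exact Or.inl (nat_mem_nat.2 h2)
      · exact Or.inr (Or.inl (by rw [h2]))
  | inf =>
    constructor
    · rintro (h1 | h1 | ⟨j, hj, h1⟩)
      · obtain ⟨j, -, h2⟩ := mem_nat_iff.1 h1
        rw [← h.nd] at h2
        exact absurd (h.inj h2) (by simp)
      · rw [← h.nd] at h1
        exact absurd (h.inj h1) (by simp)
      · obtain ⟨y, rfl, h2⟩ := (hbl _ _).1 h1
        exact absurd h2 (by simp)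
    · rintro ⟨⟩

/-- The sequence of the initial segments is in the model. -/
theorem exists_seq : ∃ s ∈ M, ∃ Sg : ℕ → ZFSet.{0}, (∀ n, h.Sub (Dn n) (Sg n)) ∧
    ∀ z, z ∈ s ↔ ∃ n : ℕ, z = pair (nat n) (Sg n) := by
  have hM := h.zf
  have hB := hM.base
  have hXM := h.XM
  have hBM := h.BM
  have hom : ZFSet.omega ∈ M := hM.infinity
  have hSg : ∀ n : ℕ, h.Sub (Dn n) (ZFSet.sep (fun z => InS BL (nat n) z) X) := by
    intro n
    have hn : nat n ∈ M := hM.nat_mem n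
    refine ⟨hM.sep_mem (Q := fun z => InS BL (nat n) z) ?_ hXM, fun z => ?_⟩
    · unfold InS
      generalize nat n = m at hn
      (repeat' first
        | assumption
        | exact DfnF.proj _
        | exact DfnF.const (by assumption)
        | exact DfnF.const' (by first | assumption | trivial) (by first | assumption | trivial)
        | exact Dfn.prop _
        | apply hB.isFunc' | apply hB.isInj' | apply hB.isBij' | apply hB.isOrdinal'
        | apply hB.subset' | apply hB.pair' | apply hB.insert'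
        | apply Dfn.not | apply Dfn.and | apply Dfn.or | apply Dfn.imp | apply Dfn.iff
        | apply hB.bex | apply hB.ball | apply Dfn.ex | apply Dfn.all
        | apply Dfn.eq | apply Dfn.mem)
    · rw [ZFSet.mem_sep, h.mX]
      constructor
      · rintro ⟨⟨p, rfl⟩, hp⟩
        exact ⟨p, h.inS_iff.1 hp, rfl⟩
      · rintro ⟨p, hp, rfl⟩
        exact ⟨⟨p, rfl⟩, h.inS_iff.2 hp⟩
  have hsM : ZFSet.sep (fun q => ∃ n ∈ ZFSet.omega, ∃ S ∈ PM M X, q = pair n S ∧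
      ∀ z ∈ X, (z ∈ S ↔ (z ∈ n ∨ z = n ∨ ∃ m ∈ n, pair m z ∈ BL)))
      (ZFSet.prod ZFSet.omega (PM M X)) ∈ M := by
    have hP := PM_mem hM hXM
    refine hM.sep_mem (Q := fun q => ∃ n ∈ ZFSet.omega, ∃ S ∈ PM M X, q = pair n S ∧
      ∀ z ∈ X, (z ∈ S ↔ (z ∈ n ∨ z = n ∨ ∃ m ∈ n, pair m z ∈ BL))) ?_ (hM.prod_mem hom hP)
    generalize PM M X = P at hP
    (repeat' first
      | assumption
      | exact DfnF.proj _
      | exact DfnF.const (by assumption)
      | exact DfnF.const' (by first | assumption | trivial) (by first | assumption | trivial)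
      | exact Dfn.prop _
      | apply hB.isFunc' | apply hB.isInj' | apply hB.isBij' | apply hB.isOrdinal'
      | apply hB.subset' | apply hB.pair' | apply hB.insert'
      | apply Dfn.not | apply Dfn.and | apply Dfn.or | apply Dfn.imp | apply Dfn.iff
      | apply hB.bex | apply hB.ball | apply Dfn.ex | apply Dfn.all
      | apply Dfn.eq | apply Dfn.mem)
  refine ⟨_, hsM, _, hSg, fun q => ?_⟩
  rw [ZFSet.mem_sep]
  constructor
  · rintro ⟨-, n, hn, S, hS, rfl, h1⟩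
    obtain ⟨n, rfl⟩ := mem_omega_iff.1 hn
    refine ⟨n, ?_⟩
    congr 1
    ext z
    rw [ZFSet.mem_sep]
    constructor
    · intro hz
      exact ⟨(mem_PM.1 hS).2 hz, (h1 z ((mem_PM.1 hS).2 hz)).1 hz⟩
    · rintro ⟨hz, hz'⟩
      exact (h1 z hz).2 hz'
  · rintro ⟨n, rfl⟩
    have hS : ZFSet.sep (fun z => InS BL (nat n) z) X ∈ PM M X :=
      mem_PM.2 ⟨(hSg n).1, fun z hz => (ZFSet.mem_sep.1 hz).1⟩
    refine ⟨ZFSet.pair_mem_prod.2 ⟨mem_omega_iff.2 ⟨n, rfl⟩, hS⟩, _, mem_omega_iff.2 ⟨n, rfl⟩,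
      _, hS, rfl, fun z hz => ?_⟩
    rw [ZFSet.mem_sep]
    exact ⟨fun h1 => h1.2, fun h1 => ⟨hz, h1⟩⟩

end ChnM

end Pool.Agent.Q211.TP
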