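import Pool.Agent.Q211.TP.Chn5

/-!
# Extensions from initial segments of the chain
-/

set_option autoImplicit false
set_option linter.unusedSectionVars false
set_option linter.unreachableTactic false
set_option linter.unusedTactic false

namespace Pool.Agent.Q211.TP

open Pool.Agent.W868 Pool.Agent.W868.PName Pool.Agent.Q211.SY Pool.Agent.Q211.FS
open Pool.Agent.Q211.PA
open ZFSet (pair)

/-- In `M`, the subspace `A` of `(X, τ)` has the extension property for continuous functions to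
the space `(E, σ)`. -/
def EmbIn (M : Set ZFSet.{0}) (E σ X τ A : ZFSet.{0}) : Prop :=
  ∀ f ∈ M, IsCont A (subTop τ A) E σ f → ∃ f' ∈ M, IsCont X τ E σ f' ∧ f ⊆ f'

/-- `s` is the sequence of the sets `A n`. -/
def IsSeq (s : ZFSet.{0}) (A : ℕ → ZFSet.{0}) : Prop :=
  ∀ z, z ∈ s ↔ ∃ n : ℕ, z = pair (nat n) (A n)

/-- In `M`, `C` is the intersection of a sequence of clopen subsets of the space `(X, τ)`. -/
def IsCdelta (M : Set ZFSet.{0}) (X τ C : ZFSet.{0}) : Prop :=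
  ∃ s ∈ M, ∃ A : ℕ → ZFSet.{0}, IsSeq s A ∧ (∀ n, A n ∈ τ ∧ X \ A n ∈ τ) ∧
    ∀ z, z ∈ C ↔ z ∈ X ∧ ∀ n, z ∈ A n

/-- In `M`, the subspace `S` of `(X, τ)` is `c_δ`-embedded. -/
def CdeltaEmb (M : Set ZFSet.{0}) (X τ S : ZFSet.{0}) : Prop :=
  ∀ C, IsCdelta M S (subTop τ S) C → ∃ D, IsCdelta M X τ D ∧ C = D ∩ S

namespace ChnM

variable {L : Type} [LinearOrder L] {Z0 M : Set ZFSet.{0}} {pt : Pt L → ZFSet.{0}}
  {c : ℕ × L → ℕ} {X K R BL : ZFSet.{0}} (h : ChnM L Z0 M pt c X K R BL)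

/-- The extension of a subset of the initial segment by its value at the node `n`. -/
noncomputable def ext (S Sn : ZFSet.{0}) (n : ℕ) (A : ZFSet.{0}) : ZFSet.{0} :=
  ZFSet.sep (fun z => z ∈ A ∨ (z ∉ Sn ∧ nat n ∈ A)) S

include h

theorem ext_mem {S Sn A : ZFSet.{0}} (hS : S ∈ M) (hSn : Sn ∈ M) (hA : A ∈ M) (n : ℕ) :
    ext S Sn n A ∈ M := by
  have hM := h.zf
  have hB := hM.base
  have hn := hM.nat_mem n
  unfold ext
  generalize nat n = m at hn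
  refine hM.sep_mem (Q := fun z => z ∈ A ∨ (z ∉ Sn ∧ m ∈ A)) ?_ hS
  (repeat' first
    | assumption
    | exact DfnF.proj _
    | exact DfnF.const (by assumption)
    | exact DfnF.const' (by first | assumption | trivial) (by first | assumption | trivial)
    | exact Dfn.prop _
    | apply hB.isFunc' | apply hB.isInj' | apply hB.isBij' | apply hB.isOrdinal'
    | apply hB.subset' | apply hB.pair' | apply hB.insert'
    | apply Dfn.not | apply Dfn.and | apply Dfn.or | apply Dfn.imp | apply Dfn.iff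
    | apply hB.bex | apply hB.ball | apply Dfn.ex | apply Dfn.all
    | apply Dfn.eq | apply Dfn.mem)

theorem ext_open [Nonempty L] [NoMaxOrder L] {D : Pt L → Prop} {S : ZFSet.{0}} (hS : h.Sub D S)
    {n : ℕ} (hD : ∀ p, Dn n p → D p) {Sn : ZFSet.{0}} (hSn : h.Sub (Dn n) Sn) {τ τn : ZFSet.{0}}
    (hτ : GenBy M S τ K R) (hτn : GenBy M Sn τn K R) {A : ZFSet.{0}} (hA : A ∈ τn) :
    ext S Sn n A ∈ τ := by
  classical
  obtain ⟨hAM, hASn, hAn⟩ := (hτn A).1 hA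
  refine (hτ _).2 ⟨h.ext_mem hS.1 hSn.1 hAM n, fun z hz => (ZFSet.mem_sep.1 hz).1,
    fun x hx => ?_⟩
  obtain ⟨hxS, hx⟩ := ZFSet.mem_sep.1 hx
  obtain ⟨p, hp, rfl⟩ := (hS.2 x).1 hxS
  rw [h.nr_pt hS]
  by_cases hpn : Dn n p
  · have hxA : pt p ∈ A := by
      rcases hx with hx | hx
      · exact hx
      · exact absurd (hSn.mem.2 hpn) hx.1
    obtain ⟨F, hF⟩ := (h.nr_pt hSn).1 (hAn _ hxA)
    by_cases hpe : p = .nd n
    · refine ⟨F, fun q hq h1 => ZFSet.mem_sep.2 ⟨hS.mem.2 hq, ?_⟩⟩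
      by_cases hqn : Dn n q
      · exact Or.inl (hF q hqn h1)
      · refine Or.inr ⟨fun h2 => hqn (hSn.mem.1 h2), ?_⟩
        rw [hpe, h.nd] at hxA
        exact hxA
    · obtain ⟨a, ha1, ha2⟩ : ∃ a : ℕ × L, a.1 < n ∧ ¬ le a p := by
        by_contra hno
        push Not at hno
        refine hpe (pt_sep fun a => ⟨fun h1 => Dn_iff.1 hpn a h1, fun h1 => hno a h1⟩)
      refine ⟨insert a F, fun q hq h1 => ZFSet.mem_sep.2 ⟨hS.mem.2 hq, Or.inl (hF q ?_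
        fun b hb => h1 b (Finset.mem_insert_of_mem hb))⟩⟩
      rw [Dn_iff]
      intro b hb
      by_contra hbn
      have h2 : le a (.atm b) := Or.inl (ha1.trans_le (not_lt.1 hbn))
      exact ha2 ((h1 a (Finset.mem_insert_self _ _)).2 (le_down h2 hb))
  · have hnA : nat n ∈ A := by
      rcases hx with hx | hx
      · exact absurd (hSn.mem.1 (hASn hx)) hpn
      · exact hx.2
    obtain ⟨b, hb1, hb2⟩ : ∃ b : ℕ × L, le b p ∧ ¬ b.1 < n := by
      by_contra hno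
      push Not at hno
      exact hpn (Dn_iff.2 hno)
    refine ⟨{b}, fun q hq h1 => ZFSet.mem_sep.2 ⟨hS.mem.2 hq, Or.inr ⟨fun h2 => ?_, hnA⟩⟩⟩
    exact hb2 (Dn_iff.1 (hSn.mem.1 h2) b ((h1 b (Finset.mem_singleton_self _)).1 hb1))

/-- Continuous functions on the initial segments extend. -/
theorem extend [Nonempty L] [NoMaxOrder L] {D : Pt L → Prop} {S : ZFSet.{0}} (hS : h.Sub D S)
    {n : ℕ} (hD : ∀ p, Dn n p → D p) {Sn : ZFSet.{0}} (hSn : h.Sub (Dn n) Sn) {τ : ZFSet.{0}}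
    (hτ : GenBy M S τ K R) {E σ : ZFSet.{0}} (hE : E ∈ M) :
    EmbIn M E σ S τ Sn := by
  intro f hf hc
  have hM := h.zf
  have hB := hM.base
  have hSM := hS.1
  have hSnM := hSn.1
  have hn := hM.nat_mem n
  have hsub : Sn ⊆ S := by
    intro z hz
    obtain ⟨p, hp, rfl⟩ := (hSn.2 z).1 hz
    exact hS.mem.2 (hD p hp)
  have hτn := hτ.sub hM hSM h.KM h.RM hSnM hsub
  have hnS : nat n ∈ Sn := by
    rw [← h.nd, hSn.mem]
    exact le_rfl
  obtain ⟨f', hf'⟩ : ∃ f', f' = ZFSet.sep (fun q => ∃ x ∈ S, ∃ e ∈ E, q = pair x e ∧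
      (pair x e ∈ f ∨ (x ∉ Sn ∧ pair (nat n) e ∈ f))) (ZFSet.prod S E) := ⟨_, rfl⟩
  have hf'M : f' ∈ M := by
    rw [hf']
    generalize nat n = m at hn
    refine hM.sep_mem (Q := fun q => ∃ x ∈ S, ∃ e ∈ E, q = pair x e ∧
      (pair x e ∈ f ∨ (x ∉ Sn ∧ pair m e ∈ f))) ?_ (hM.prod_mem hSM hE)
    (repeat' first
      | assumption
      | exact DfnF.proj _
      | exact DfnF.const (by assumption)
      | exact DfnF.const' (by first | assumption | trivial) (by first | assumption | trivial)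
      | exact Dfn.prop _
      | apply hB.isFunc' | apply hB.isInj' | apply hB.isBij' | apply hB.isOrdinal'
      | apply hB.subset' | apply hB.pair' | apply hB.insert'
      | apply Dfn.not | apply Dfn.and | apply Dfn.or | apply Dfn.imp | apply Dfn.iff
      | apply hB.bex | apply hB.ball | apply Dfn.ex | apply Dfn.all
      | apply Dfn.eq | apply Dfn.mem)
  have hmem : ∀ x e, pair x e ∈ f' ↔ x ∈ S ∧ e ∈ E ∧
      (pair x e ∈ f ∨ (x ∉ Sn ∧ pair (nat n) e ∈ f)) := by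
    intro x e
    rw [hf', ZFSet.mem_sep, ZFSet.pair_mem_prod]
    constructor
    · rintro ⟨⟨hx, he⟩, x', -, e', -, hp, h1⟩
      obtain ⟨rfl, rfl⟩ := ZFSet.pair_inj.1 hp
      exact ⟨hx, he, h1⟩
    · rintro ⟨hx, he, h1⟩
      exact ⟨⟨hx, he⟩, x, hx, e, he, rfl, h1⟩
  have hfs : ∀ x e, pair x e ∈ f → x ∈ Sn ∧ e ∈ E := fun x e h1 =>
    ZFSet.pair_mem_prod.1 (hc.1.1 h1)
  refine ⟨f', hf'M, ⟨⟨fun q hq => ?_, fun x hx => ?_⟩, fun V hV => ?_⟩, fun q hq => ?_⟩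
  · rw [hf'] at hq
    exact (ZFSet.mem_sep.1 hq).1
  · by_cases hxn : x ∈ Sn
    · obtain ⟨e, he, he'⟩ := hc.1.2 x hxn
      refine ⟨e, (hmem _ _).2 ⟨hx, (hfs _ _ he).2, Or.inl he⟩, fun e' h1 => ?_⟩
      rcases ((hmem _ _).1 h1).2.2 with h2 | h2
      · exact he' e' h2
      · exact absurd hxn h2.1
    · obtain ⟨e, he, he'⟩ := hc.1.2 (nat n) hnS
      refine ⟨e, (hmem _ _).2 ⟨hx, (hfs _ _ he).2, Or.inr ⟨hxn, he⟩⟩, fun e' h1 => ?_⟩
      rcases ((hmem _ _).1 h1).2.2 with h2 | h2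
      · exact absurd (hfs _ _ h2).1 hxn
      · exact he' e' h2.2
  · have h1 : pre S f' V = ext S Sn n (pre Sn f V) := by
      ext x
      rw [mem_pre, ext, ZFSet.mem_sep, mem_pre, mem_pre]
      refine and_congr_right fun hx => ?_
      constructor
      · rintro ⟨e, he, h1⟩
        obtain ⟨-, -, h2 | h2⟩ := (hmem _ _).1 h1
        · exact Or.inl ⟨(hfs _ _ h2).1, e, he, h2⟩
        · exact Or.inr ⟨h2.1, hnS, e, he, h2.2⟩
      · rintro (⟨h1, e, he, h2⟩ | ⟨h1, -, e, he, h2⟩)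
        · exact ⟨e, he, (hmem _ _).2 ⟨hx, (hfs _ _ h2).2, Or.inl h2⟩⟩
        · exact ⟨e, he, (hmem _ _).2 ⟨hx, (hfs _ _ h2).2, Or.inr ⟨h1, h2⟩⟩⟩
    rw [h1]
    exact h.ext_open hS hD hSn hτ hτn (hc.2 V hV)
  · obtain ⟨x, hx, e, he, rfl⟩ := ZFSet.mem_prod.1 (hc.1.1 hq)
    exact (hmem _ _).2 ⟨hsub hx, he, Or.inl hq⟩

/-- The initial segments are `c_δ`-embedded. -/
theorem cdeltaEmb [Nonempty L] [NoMaxOrder L] {D : Pt L → Prop} {S : ZFSet.{0}}
    (hS : h.Sub D S) {n : ℕ} (hD : ∀ p, Dn n p → D p) {Sn : ZFSet.{0}} (hSn : h.Sub (Dn n) Sn)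
    {τ : ZFSet.{0}} (hτ : GenBy M S τ K R) : CdeltaEmb M S τ Sn := by
  rintro C ⟨s, hs, A, hA, hcl, hC⟩
  have hM := h.zf
  have hB := hM.base
  have hSM := hS.1
  have hSnM := hSn.1
  have hom : ZFSet.omega ∈ M := hM.infinity
  have hn := hM.nat_mem n
  have hsub : Sn ⊆ S := by
    intro z hz
    obtain ⟨p, hp, rfl⟩ := (hSn.2 z).1 hz
    exact hS.mem.2 (hD p hp)
  have hτn := hτ.sub hM hSM h.KM h.RM hSnM hsub
  have hnS : nat n ∈ Sn := by
    rw [← h.nd, hSn.mem]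
    exact le_rfl
  have hAM : ∀ k, A k ∈ M := fun k => ((hτn _).1 (hcl k).1).1
  have hAS : ∀ k, A k ⊆ Sn := fun k => ((hτn _).1 (hcl k).1).2.1
  have hPM := PM_mem hM hSM
  have hs'M : ZFSet.sep (fun q => ∃ k ∈ ZFSet.omega, ∃ U ∈ PM M S, q = pair k U ∧ ∃ B ∈ M,
      pair k B ∈ s ∧ ∀ z ∈ S, (z ∈ U ↔ (z ∈ B ∨ (z ∉ Sn ∧ nat n ∈ B))))
      (ZFSet.prod ZFSet.omega (PM M S)) ∈ M := by
    generalize PM M S = P at hPM
    generalize nat n = m at hn
    refine hM.sep_mem (Q := fun q => ∃ k ∈ ZFSet.omega, ∃ U ∈ P, q = pair k U ∧ ∃ B ∈ M,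
      pair k B ∈ s ∧ ∀ z ∈ S, (z ∈ U ↔ (z ∈ B ∨ (z ∉ Sn ∧ m ∈ B)))) ?_ (hM.prod_mem hom hPM)
    (repeat' first
      | assumption
      | exact DfnF.proj _
      | exact DfnF.const (by assumption)
      | exact DfnF.const' (by first | assumption | trivial) (by first | assumption | trivial)
      | exact Dfn.prop _
      | apply hB.isFunc' | apply hB.isInj' | apply hB.isBij' | apply hB.isOrdinal'
      | apply hB.subset' | apply hB.pair' | apply hB.insert'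
      | apply Dfn.not | apply Dfn.and | apply Dfn.or | apply Dfn.imp | apply Dfn.iff
      | apply hB.bex | apply hB.ball | apply Dfn.ex | apply Dfn.all
      | apply Dfn.eq | apply Dfn.mem)
  refine ⟨ZFSet.sep (fun z => ∀ k, z ∈ ext S Sn n (A k)) S, ⟨_, hs'M, fun k => ext S Sn n (A k),
    fun z => ?_, fun k => ⟨h.ext_open hS hD hSn hτ hτn (hcl k).1, ?_⟩, fun z => ?_⟩, ?_⟩
  · rw [ZFSet.mem_sep]
    constructor
    · rintro ⟨-, k, hk, U, hU, rfl, B, -, hBs, h1⟩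
      obtain ⟨k, rfl⟩ := mem_omega_iff.1 hk
      obtain ⟨k', h2⟩ := (hA _).1 hBs
      obtain ⟨h3, h4⟩ := ZFSet.pair_inj.1 h2
      have h5 := nat_injective h3
      subst h5
      refine ⟨k, ?_⟩
      congr 1
      ext z
      change _ ↔ z ∈ ZFSet.sep _ _
      rw [ZFSet.mem_sep]
      constructor
      · intro hz
        have hzS := (mem_PM.1 hU).2 hz
        rw [← h4]
        exact ⟨hzS, (h1 z hzS).1 hz⟩
      · rintro ⟨hz, h6⟩
        rw [← h4] at h6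
        exact (h1 z hz).2 h6
    · rintro ⟨k, rfl⟩
      have hU : ext S Sn n (A k) ∈ PM M S :=
        mem_PM.2 ⟨h.ext_mem hSM hSnM (hAM k) n, fun z hz => (ZFSet.mem_sep.1 hz).1⟩
      refine ⟨ZFSet.pair_mem_prod.2 ⟨mem_omega_iff.2 ⟨k, rfl⟩, hU⟩, nat k,
        mem_omega_iff.2 ⟨k, rfl⟩, _, hU, rfl, A k, hAM k, (hA _).2 ⟨k, rfl⟩, fun z hz => ?_⟩
      change z ∈ ZFSet.sep _ _ ↔ _
      rw [ZFSet.mem_sep]
      exact ⟨fun h1 => h1.2, fun h1 => ⟨hz, h1⟩⟩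
  · have h1 : S \ ext S Sn n (A k) = ext S Sn n (Sn \ A k) := by
      ext z
      unfold ext
      rw [ZFSet.mem_sdiff, ZFSet.mem_sep, ZFSet.mem_sep, ZFSet.mem_sdiff, ZFSet.mem_sdiff]
      constructor
      · rintro ⟨hz, h1⟩
        refine ⟨hz, ?_⟩
        by_cases hzn : z ∈ Sn
        · exact Or.inl ⟨hzn, fun h2 => h1 ⟨hz, Or.inl h2⟩⟩
        · exact Or.inr ⟨hzn, hnS, fun h2 => h1 ⟨hz, Or.inr ⟨hzn, h2⟩⟩⟩
      · rintro ⟨hz, h1⟩
        refine ⟨hz, ?_⟩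
        rintro ⟨-, h2⟩
        rcases h1 with h1 | h1
        · rcases h2 with h2 | h2
          · exact h1.2 h2
          · exact h2.1 h1.1
        · rcases h2 with h2 | h2
          · exact h1.1 (hAS k h2)
          · exact h1.2.2 h2.2
    rw [h1]
    exact h.ext_open hS hD hSn hτ hτn (hcl k).2
  · rw [ZFSet.mem_sep]
  · ext z
    rw [ZFSet.mem_inter, ZFSet.mem_sep, hC]
    constructor
    · rintro ⟨hz, h1⟩
      exact ⟨⟨hsub hz, fun k => ZFSet.mem_sep.2 ⟨hsub hz, Or.inl (h1 k)⟩⟩, hz⟩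
    · rintro ⟨⟨-, h1⟩, hz⟩
      refine ⟨hz, fun k => ?_⟩
      rcases (ZFSet.mem_sep.1 (h1 k)).2 with h2 | h2
      · exact h2
      · exact absurd hz h2.1

end ChnM

end Pool.Agent.Q211.TP
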