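import Pool.Agent.Q211.TP.Zer

/-!
# The rational numbers are countable in every model; the discrete space of the real numbers
-/

set_option autoImplicit false
set_option linter.unusedSectionVars false
set_option linter.unreachableTactic false
set_option linter.unusedTactic false

namespace Pool.Agent.Q211.TP

open Pool.Agent.W868 Pool.Agent.W868.PName Pool.Agent.Q211.SY Pool.Agent.Q211.FS
open ZFSet (pair)

theorem nat_subset {m n : ℕ} : nat m ⊆ nat n ↔ m ≤ n := by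
  constructor
  · intro h
    by_contra h1
    have h2 : nat n ∈ nat m := nat_mem_nat.2 (not_le.1 h1)
    exact ZFSet.mem_irrefl _ (h h2)
  · intro h z hz
    obtain ⟨i, hi, rfl⟩ := mem_nat_iff.1 hz
    exact nat_mem_nat.2 (hi.trans_le h)

/-- `m` is the maximum. -/
def Mx (a b c m : ZFSet.{0}) : Prop := (m = a ∨ m = b ∨ m = c) ∧ a ⊆ m ∧ b ⊆ m ∧ c ⊆ m

theorem mx_iff {a b c m : ℕ} : Mx (nat a) (nat b) (nat c) (nat m) ↔ m = max a (max b c) := by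
  unfold Mx
  rw [nat_subset, nat_subset, nat_subset, nat_injective.eq_iff, nat_injective.eq_iff,
    nat_injective.eq_iff]
  omega

/-- An order of the codes of the rational numbers. -/
def QO (x y : ZFSet.{0}) : Prop :=
  ∃ a ∈ ZFSet.omega, ∃ b ∈ ZFSet.omega, ∃ c ∈ ZFSet.omega, ∃ m ∈ ZFSet.omega,
  ∃ a' ∈ ZFSet.omega, ∃ b' ∈ ZFSet.omega, ∃ c' ∈ ZFSet.omega, ∃ m' ∈ ZFSet.omega,
    x = pair (pair a b) c ∧ y = pair (pair a' b') c' ∧ Mx a b c m ∧ Mx a' b' c' m' ∧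
    (m ∈ m' ∨ (m = m' ∧ (a ∈ a' ∨ (a = a' ∧ (b ∈ b' ∨ (b = b' ∧ c ∈ c'))))))

/-- The external form of the order. -/
def qo (t t' : ℕ × ℕ × ℕ) : Prop :=
  max t.1 (max t.2.1 t.2.2) < max t'.1 (max t'.2.1 t'.2.2) ∨
    (max t.1 (max t.2.1 t.2.2) = max t'.1 (max t'.2.1 t'.2.2) ∧
      (t.1 < t'.1 ∨ (t.1 = t'.1 ∧ (t.2.1 < t'.2.1 ∨ (t.2.1 = t'.2.1 ∧ t.2.2 < t'.2.2)))))

theorem QO_iff {t t' : ℕ × ℕ × ℕ} : QO (qc t) (qc t') ↔ qo t t' := by
  obtain ⟨a, b, c⟩ := t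
  obtain ⟨a', b', c'⟩ := t'
  constructor
  · rintro ⟨x, hx, y, hy, z, hz, m, hm, x', hx', y', hy', z', hz', m', hm', h1, h2, h3, h4, h5⟩
    obtain ⟨x, rfl⟩ := mem_omega_iff.1 hx
    obtain ⟨y, rfl⟩ := mem_omega_iff.1 hy
    obtain ⟨z, rfl⟩ := mem_omega_iff.1 hz
    obtain ⟨m, rfl⟩ := mem_omega_iff.1 hm
    obtain ⟨x', rfl⟩ := mem_omega_iff.1 hx'
    obtain ⟨y', rfl⟩ := mem_omega_iff.1 hy'
    obtain ⟨z', rfl⟩ := mem_omega_iff.1 hz'
    obtain ⟨m', rfl⟩ := mem_omega_iff.1 hm'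
    have h6 : ((a, b, c) : ℕ × ℕ × ℕ) = (x, y, z) := qc_injective h1
    have h7 : ((a', b', c') : ℕ × ℕ × ℕ) = (x', y', z') := qc_injective h2
    rw [mx_iff] at h3 h4
    simp only [nat_mem_nat, nat_injective.eq_iff] at h5
    subst h3
    subst h4
    rw [h6, h7]
    exact h5
  · intro h
    refine ⟨nat a, mem_omega_iff.2 ⟨_, rfl⟩, nat b, mem_omega_iff.2 ⟨_, rfl⟩, nat c,
      mem_omega_iff.2 ⟨_, rfl⟩, nat (max a (max b c)), mem_omega_iff.2 ⟨_, rfl⟩, nat a',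
      mem_omega_iff.2 ⟨_, rfl⟩, nat b', mem_omega_iff.2 ⟨_, rfl⟩, nat c',
      mem_omega_iff.2 ⟨_, rfl⟩, nat (max a' (max b' c')), mem_omega_iff.2 ⟨_, rfl⟩, rfl, rfl,
      mx_iff.2 rfl, mx_iff.2 rfl, ?_⟩
    simp only [nat_mem_nat, nat_injective.eq_iff]
    exact h

section

variable {M : Set ZFSet.{0}} (hM : IsZF M)

include hM

theorem dfn_QO : Dfn M M fun w : Fin 2 → ZFSet.{0} => QO (w 0) (w 1) := by
  have hB := hM.base
  have hom : ZFSet.omega ∈ M := hM.infinity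
  unfold QO Mx
  (repeat' first
    | assumption
    | exact DfnF.proj _
    | exact DfnF.const (by assumption)
    | exact DfnF.const' (by first | assumption | trivial) (by first | assumption | trivial)
    | exact Dfn.prop _
    | apply hB.isFunc' | apply hB.isInj' | apply hB.isBij' | apply hB.isOrdinal'
    | apply hB.subset' | apply hB.pair' | apply hB.insert'
    | apply Dfn.not | apply Dfn.and | apply Dfn.or | apply Dfn.imp | apply Dfn.iff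
    | apply hB.bex | apply hB.ball | apply Dfn.ex | apply Dfn.all
    | apply Dfn.eq | apply Dfn.mem)

theorem cnt_Qc (hQ : Qc ∈ M) : CntIn M Qc := by
  refine cnt_of_order hM hQ (dfn_QO hM) ?_ ?_ ?_ ?_
  · intro x hx
    obtain ⟨t, rfl⟩ := mem_Qc.1 hx
    rw [QO_iff]
    unfold qo
    omega
  · intro x hx y hy z hz
    obtain ⟨t, rfl⟩ := mem_Qc.1 hx
    obtain ⟨s, rfl⟩ := mem_Qc.1 hy
    obtain ⟨r, rfl⟩ := mem_Qc.1 hz
    rw [QO_iff, QO_iff, QO_iff]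
    unfold qo
    omega
  · intro x hx y hy
    obtain ⟨⟨a, b, c⟩, rfl⟩ := mem_Qc.1 hx
    obtain ⟨⟨a', b', c'⟩, rfl⟩ := mem_Qc.1 hy
    rw [QO_iff, QO_iff]
    by_cases h : ((a, b, c) : ℕ × ℕ × ℕ) = (a', b', c')
    · exact Or.inl (by rw [h])
    · refine Or.inr ?_
      have h1 : ¬ (a = a' ∧ b = b' ∧ c = c') := by
        rintro ⟨rfl, rfl, rfl⟩
        exact h rfl
      unfold qo
      dsimp only
      omega
  · intro x hx
    obtain ⟨⟨a', b', c'⟩, rfl⟩ := mem_Qc.1 hx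
    have h1 : Set.Finite ((fun t : ℕ × ℕ × ℕ => qc t) '' ((Set.Iic (max a' (max b' c'))) ×ˢ
        ((Set.Iic (max a' (max b' c'))) ×ˢ (Set.Iic (max a' (max b' c')))))) :=
      (((Set.finite_Iic _).prod ((Set.finite_Iic _).prod (Set.finite_Iic _)))).image _
    refine h1.subset ?_
    rintro y ⟨hy, h2⟩
    obtain ⟨⟨a, b, c⟩, rfl⟩ := mem_Qc.1 hy
    rw [QO_iff] at h2
    refine ⟨(a, b, c), ?_, rfl⟩
    unfold qo at h2
    simp only [Set.mem_prod, Set.mem_Iic]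
    dsimp only at h2
    omega

theorem cnt_insert {A a : ZFSet.{0}} (hA : CntIn M A) (hAM : A ∈ M) (ha : a ∈ M) :
    CntIn M (insert a A) := by
  have hB := hM.base
  have hom : ZFSet.omega ∈ M := hM.infinity
  have he := hM.empty_mem
  have hi := hM.insert_mem ha hAM
  obtain ⟨f, hf, hfi⟩ := hA
  have hfM : ZFSet.sep (fun p => ∃ x ∈ insert a A, ∃ m ∈ ZFSet.omega, p = pair x m ∧
      ((x = a ∧ m = ∅) ∨ (x ≠ a ∧ ∃ n ∈ ZFSet.omega, pair x n ∈ f ∧ m = insert n n)))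
      (ZFSet.prod (insert a A) ZFSet.omega) ∈ M := by
    generalize insert a A = B at hi
    refine hM.sep_mem (Q := fun p => ∃ x ∈ B, ∃ m ∈ ZFSet.omega, p = pair x m ∧
      ((x = a ∧ m = ∅) ∨ (x ≠ a ∧ ∃ n ∈ ZFSet.omega, pair x n ∈ f ∧ m = insert n n))) ?_
      (hM.prod_mem hi hom)
    (repeat' first
      | assumption
      | exact DfnF.proj _
      | exact DfnF.const (by assumption)
      | exact DfnF.const' (by first | assumption | trivial) (by first | assumption | trivial)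
      | exact Dfn.prop _
      | apply hB.isFunc' | apply hB.isInj' | apply hB.isBij' | apply hB.isOrdinal'
      | apply hB.subset' | apply hB.pair' | apply hB.insert'
      | apply Dfn.not | apply Dfn.and | apply Dfn.or | apply Dfn.imp | apply Dfn.iff
      | apply hB.bex | apply hB.ball | apply Dfn.ex | apply Dfn.all
      | apply Dfn.eq | apply Dfn.mem)
  have hmem : ∀ x m, pair x m ∈ ZFSet.sep (fun p => ∃ x ∈ insert a A, ∃ m ∈ ZFSet.omega,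
      p = pair x m ∧ ((x = a ∧ m = ∅) ∨ (x ≠ a ∧ ∃ n ∈ ZFSet.omega, pair x n ∈ f ∧
      m = insert n n))) (ZFSet.prod (insert a A) ZFSet.omega) ↔ x ∈ insert a A ∧
      ((x = a ∧ m = nat 0) ∨ (x ≠ a ∧ ∃ n : ℕ, pair x (nat n) ∈ f ∧ m = nat (n + 1))) := by
    intro x m
    rw [ZFSet.mem_sep, ZFSet.pair_mem_prod]
    constructor
    · rintro ⟨⟨hx, hm⟩, x', -, m', -, hp, h1⟩
      obtain ⟨rfl, rfl⟩ := ZFSet.pair_inj.1 hp
      refine ⟨hx, ?_⟩
      rcases h1 with h1 | ⟨h1, n, hn, h2, h3⟩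
      · exact Or.inl h1
      · obtain ⟨n, rfl⟩ := mem_omega_iff.1 hn
        exact Or.inr ⟨h1, n, h2, h3⟩
    · rintro ⟨hx, h1⟩
      rcases h1 with h1 | ⟨h1, n, h2, h3⟩
      · exact ⟨⟨hx, h1.2 ▸ mem_omega_iff.2 ⟨0, rfl⟩⟩, x, hx, m, h1.2 ▸ mem_omega_iff.2 ⟨0, rfl⟩,
          rfl, Or.inl h1⟩
      · exact ⟨⟨hx, h3 ▸ mem_omega_iff.2 ⟨_, rfl⟩⟩, x, hx, m, h3 ▸ mem_omega_iff.2 ⟨_, rfl⟩,
          rfl, Or.inr ⟨h1, nat n, mem_omega_iff.2 ⟨n, rfl⟩, h2, h3⟩⟩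
  refine ⟨_, hfM, ⟨⟨fun z hz => (ZFSet.mem_sep.1 hz).1, fun x hx => ?_⟩, ?_⟩⟩
  · by_cases hxa : x = a
    · refine ⟨nat 0, (hmem _ _).2 ⟨hx, Or.inl ⟨hxa, rfl⟩⟩, fun y hy => ?_⟩
      rcases ((hmem _ _).1 hy).2 with h1 | h1
      · exact h1.2
      · exact absurd hxa h1.1
    · have hxA : x ∈ A := (ZFSet.mem_insert_iff.1 hx).resolve_left hxa
      obtain ⟨n, hn, hn'⟩ := hfi.1.2 x hxA
      obtain ⟨n, rfl⟩ := mem_omega_iff.1 (ZFSet.pair_mem_prod.1 (hfi.1.1 hn)).2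
      refine ⟨nat (n + 1), (hmem _ _).2 ⟨hx, Or.inr ⟨hxa, n, hn, rfl⟩⟩, fun y hy => ?_⟩
      rcases ((hmem _ _).1 hy).2 with h1 | ⟨-, m, h1, rfl⟩
      · exact absurd h1.1 hxa
      · rw [nat_injective (hn' _ h1)]
  · intro x y m hx hy
    rcases ((hmem _ _).1 hx).2 with h1 | ⟨h1, n, h2, h3⟩
    · rcases ((hmem _ _).1 hy).2 with h4 | ⟨h4, n', h5, h6⟩
      · rw [h1.1, h4.1]
      · have h7 := nat_injective (h1.2.symm.trans h6)
        omega
    · rcases ((hmem _ _).1 hy).2 with h4 | ⟨h4, n', h5, h6⟩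
      · have h7 := nat_injective (h3.symm.trans h4.2)
        omega
      · have h7 := nat_injective (h3.symm.trans h6)
        have h8 : n = n' := by omega
        rw [h8] at h2
        exact hfi.2 _ _ _ h2 h5

/-- The discrete space of the real numbers is a closed subspace of a power of every space that
has the properties that we use. -/
theorem rdisc_compact (hQ : Qc ∈ M) (hL : LQ ∈ M) {RR σ : ZFSet.{0}} (hRRM : RR ∈ M)
    (hRR : IsReals M RR σ) {E ρ i : ZFSet.{0}} (hE : GoodE M E ρ i) :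
    ECompactIn M E ρ RR (PM M RR) := by
  have hB := hM.base
  have h0 := hM.nat_mem 0
  have h1 := hM.nat_mem 1
  have h01 : nat 0 ≠ nat 1 := fun h => absurd (nat_injective h) (by norm_num)
  have hK0 : ZFSet.prod {nat 0} Qc ∈ M := hM.prod_mem (hM.single_mem h0) hQ
  have hK1 : ZFSet.prod {nat 1} RR ∈ M := hM.prod_mem (hM.single_mem h1) hRRM
  have hK : ZFSet.prod {nat 0} Qc ∪ ZFSet.prod {nat 1} RR ∈ M := hM.union_mem hK0 hK1
  have hmK : ∀ z, z ∈ ZFSet.prod {nat 0} Qc ∪ ZFSet.prod {nat 1} RR ↔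
      (∃ q ∈ Qc, z = pair (nat 0) q) ∨ ∃ r ∈ RR, z = pair (nat 1) r := by
    intro z
    rw [ZFSet.mem_union, ZFSet.mem_prod, ZFSet.mem_prod]
    constructor
    · rintro (⟨a, ha, b, hb, rfl⟩ | ⟨a, ha, b, hb, rfl⟩)
      · exact Or.inl ⟨b, hb, by rw [ZFSet.mem_singleton.1 ha]⟩
      · exact Or.inr ⟨b, hb, by rw [ZFSet.mem_singleton.1 ha]⟩
    · rintro (⟨b, hb, rfl⟩ | ⟨b, hb, rfl⟩)
      · exact Or.inl ⟨_, ZFSet.mem_singleton.2 rfl, b, hb, rfl⟩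
      · exact Or.inr ⟨_, ZFSet.mem_singleton.2 rfl, b, hb, rfl⟩
  have hRM : ZFSet.sep (fun p => ∃ x ∈ RR, (∃ q ∈ Qc, p = pair (pair (nat 0) q) x ∧ q ∈ x) ∨
      p = pair (pair (nat 1) x) x)
      (ZFSet.prod (ZFSet.prod {nat 0} Qc ∪ ZFSet.prod {nat 1} RR) RR) ∈ M := by
    generalize ZFSet.prod {nat 0} Qc ∪ ZFSet.prod {nat 1} RR = K at hK
    generalize nat 0 = n0 at h0
    generalize nat 1 = n1 at h1
    refine hM.sep_mem (Q := fun p => ∃ x ∈ RR, (∃ q ∈ Qc, p = pair (pair n0 q) x ∧ q ∈ x) ∨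
      p = pair (pair n1 x) x) ?_ (hM.prod_mem hK hRRM)
    (repeat' first
      | assumption
      | exact DfnF.proj _
      | exact DfnF.const (by assumption)
      | exact DfnF.const' (by first | assumption | trivial) (by first | assumption | trivial)
      | exact Dfn.prop _
      | apply hB.isFunc' | apply hB.isInj' | apply hB.isBij' | apply hB.isOrdinal'
      | apply hB.subset' | apply hB.pair' | apply hB.insert'
      | apply Dfn.not | apply Dfn.and | apply Dfn.or | apply Dfn.imp | apply Dfn.iff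
      | apply hB.bex | apply hB.ball | apply Dfn.ex | apply Dfn.all
      | apply Dfn.eq | apply Dfn.mem)
  obtain ⟨R, hR⟩ : ∃ R, R = ZFSet.sep (fun p => ∃ x ∈ RR,
      (∃ q ∈ Qc, p = pair (pair (nat 0) q) x ∧ q ∈ x) ∨ p = pair (pair (nat 1) x) x)
      (ZFSet.prod (ZFSet.prod {nat 0} Qc ∪ ZFSet.prod {nat 1} RR) RR) := ⟨_, rfl⟩
  rw [← hR] at hRM
  have hm0 : ∀ q ∈ Qc, ∀ x ∈ RR, (pair (pair (nat 0) q) x ∈ R ↔ q ∈ x) := by
    intro q hq x hx
    rw [hR, ZFSet.mem_sep, ZFSet.pair_mem_prod]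
    constructor
    · rintro ⟨-, x', -, ⟨q', -, h2, h3⟩ | h2⟩
      · obtain ⟨h4, rfl⟩ := ZFSet.pair_inj.1 h2
        rw [(ZFSet.pair_inj.1 h4).2]
        exact h3
      · obtain ⟨h4, rfl⟩ := ZFSet.pair_inj.1 h2
        exact absurd (ZFSet.pair_inj.1 h4).1 h01
    · intro h2
      exact ⟨⟨(hmK _).2 (Or.inl ⟨q, hq, rfl⟩), hx⟩, x, hx, Or.inl ⟨q, hq, rfl, h2⟩⟩
  have hm1 : ∀ r ∈ RR, ∀ x ∈ RR, (pair (pair (nat 1) r) x ∈ R ↔ x = r) := by
    intro r hr x hx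
    rw [hR, ZFSet.mem_sep, ZFSet.pair_mem_prod]
    constructor
    · rintro ⟨-, x', -, ⟨q', -, h2, h3⟩ | h2⟩
      · obtain ⟨h4, rfl⟩ := ZFSet.pair_inj.1 h2
        exact absurd (ZFSet.pair_inj.1 h4).1.symm h01
      · obtain ⟨h4, rfl⟩ := ZFSet.pair_inj.1 h2
        exact (ZFSet.pair_inj.1 h4).2.symm
    · rintro rfl
      exact ⟨⟨(hmK _).2 (Or.inr ⟨x, hx, rfl⟩), hx⟩, x, hx, Or.inr rfl⟩
  have hext : ∀ x ∈ RR, ∀ y ∈ RR, (∀ q ∈ Qc, q ∈ x ↔ q ∈ y) → x = y := by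
    intro x hx y hy h2
    obtain ⟨-, s, rfl⟩ := (hRR.1 x).1 hx
    obtain ⟨-, t, rfl⟩ := (hRR.1 y).1 hy
    ext q
    constructor
    · intro hq
      obtain ⟨w, -, rfl⟩ := mem_cutS.1 hq
      exact (h2 _ (mem_Qc.2 ⟨w, rfl⟩)).1 hq
    · intro hq
      obtain ⟨w, -, rfl⟩ := mem_cutS.1 hq
      exact (h2 _ (mem_Qc.2 ⟨w, rfl⟩)).2 hq
  refine ecompact_of hM hE hRRM (PM_mem hM hRRM) hK hRM (fun U => ?_) ?_ ?_
  · rw [mem_PM]
    constructor
    · rintro ⟨h2, h3⟩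
      refine ⟨h2, h3, fun x hx => ⟨{pair (nat 1) x}, fun k hk => ?_, fun y hy h4 => ?_⟩⟩
      · rw [Finset.mem_singleton.1 hk]
        exact (hmK _).2 (Or.inr ⟨x, h3 hx, rfl⟩)
      · have h5 := h4 _ (Finset.mem_singleton_self _)
        rw [hm1 x (h3 hx) x (h3 hx), hm1 x (h3 hx) y hy] at h5
        rw [h5.1 rfl]
        exact hx
    · rintro ⟨h2, h3, -⟩
      exact ⟨h2, h3⟩
  · intro x hx y hy h2
    refine hext x hx y hy fun q hq => ?_
    rw [← hm0 q hq x hx, ← hm0 q hq y hy]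
    exact h2 _ ((hmK _).2 (Or.inl ⟨q, hq, rfl⟩))
  · intro S hS hSK hc
    have hcnt0 : CntIn M (ZFSet.prod {nat 0} Qc) := by
      refine cnt_image hM (cnt_Qc hM hQ) hQ hK0 (G := fun q z => z = pair (nat 0) q) ?_ ?_ ?_
      · exact Dfn.eq (DfnF.proj 1) (hB.pair' (DfnF.const h0) (DfnF.proj 0))
      · rintro q hq x hx y hy rfl rfl
        rfl
      · intro x hx
        obtain ⟨a, ha, b, hb, rfl⟩ := ZFSet.mem_prod.1 hx
        exact ⟨b, hb, by rw [ZFSet.mem_singleton.1 ha]⟩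
    obtain ⟨y, hy, hyS⟩ := hc _ hK0 (fun z hz => ZFSet.mem_union.2 (Or.inl hz)) hcnt0
    refine ⟨y, hy, fun k hk => ?_⟩
    have hkM := hM.trans _ hK _ hk
    obtain ⟨w, hw, hwS⟩ := hc (insert k (ZFSet.prod {nat 0} Qc)) (hM.insert_mem hkM hK0)
      (fun z hz => by
        rcases ZFSet.mem_insert_iff.1 hz with rfl | hz
        · exact hk
        · exact ZFSet.mem_union.2 (Or.inl hz)) (cnt_insert hM hcnt0 hK0 hkM)
    have h2 : w = y := by
      refine hext w hw y hy fun q hq => ?_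
      have h3 : pair (nat 0) q ∈ ZFSet.prod {nat 0} Qc :=
        ZFSet.pair_mem_prod.2 ⟨ZFSet.mem_singleton.2 rfl, hq⟩
      rw [← hm0 q hq w hw, ← hm0 q hq y hy, ← hyS _ h3,
        hwS _ (ZFSet.mem_insert_iff.2 (Or.inr h3))]
    rw [← h2]
    exact hwS k (ZFSet.mem_insert_iff.2 (Or.inl rfl))

end

end Pool.Agent.Q211.TP
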