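import Pool.Agent.Q211.FS.NCp

/-!
# Topological notions in transitive models
-/

set_option autoImplicit false
set_option linter.unusedSectionVars false
set_option linter.unreachableTactic false
set_option linter.unusedTactic false

namespace Pool.Agent.Q211.TP

open Pool.Agent.W868 Pool.Agent.W868.PName Pool.Agent.Q211.SY Pool.Agent.Q211.FS
open ZFSet (pair)

/-- In `M`, `τ` is a topology on the set `X`. -/
structure IsTopIn (M : Set ZFSet.{0}) (X τ : ZFSet.{0}) : Prop where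
  sub : ∀ U ∈ τ, U ⊆ X
  univ : X ∈ τ
  inter : ∀ U ∈ τ, ∀ V ∈ τ, U ∩ V ∈ τ
  union : ∀ C ∈ M, C ⊆ τ → (ZFSet.sUnion C : ZFSet.{0}) ∈ τ

/-- The preimage of `V` under the function `f` on `X`. -/
noncomputable def pre (X f V : ZFSet.{0}) : ZFSet.{0} :=
  ZFSet.sep (fun x => ∃ y ∈ V, pair x y ∈ f) X

theorem mem_pre {X f V x : ZFSet.{0}} : x ∈ pre X f V ↔ x ∈ X ∧ ∃ y ∈ V, pair x y ∈ f := by
  rw [pre, ZFSet.mem_sep]

/-- `f` is a continuous function from `(X, τ)` to `(Y, σ)`. -/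
def IsCont (X τ Y σ f : ZFSet.{0}) : Prop := ZFSet.IsFunc X Y f ∧ ∀ V ∈ σ, pre X f V ∈ τ

/-- In `M`, `ν` is the product topology on the set `N` of all functions from `J` to the
space `(E, σ)`: a set `W` is open if every `g` in `W` satisfies finitely many conditions
`g j ∈ V`, with `V` open in `E`, such that all elements of `N` with these conditions are
in `W`. -/
def IsPowTop (M : Set ZFSet.{0}) (σ J N ν : ZFSet.{0}) : Prop :=
  ∀ W, W ∈ ν ↔ W ∈ M ∧ W ⊆ N ∧ ∀ g ∈ W, ∃ F : Finset (ZFSet.{0} × ZFSet.{0}),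
    (∀ c ∈ F, c.1 ∈ J ∧ c.2 ∈ σ ∧ ∃ y ∈ c.2, pair c.1 y ∈ g) ∧
    ∀ g' ∈ N, (∀ c ∈ F, ∃ y ∈ c.2, pair c.1 y ∈ g') → g' ∈ W

/-- In `M`, the space `(X, τ)` is homeomorphic to a closed subspace `C` of the power with
exponent `J` of the space `(E, σ)`, for some set `J`. -/
def ECompactIn (M : Set ZFSet.{0}) (E σ X τ : ZFSet.{0}) : Prop :=
  ∃ J ∈ M, ∃ N ∈ M, ∃ ν ∈ M, ∃ C ∈ M, ∃ h ∈ M, (∀ g, g ∈ N ↔ g ∈ M ∧ ZFSet.IsFunc J E g) ∧
    IsPowTop M σ J N ν ∧ C ⊆ N ∧ N \ C ∈ ν ∧ IsHomeo X τ C (subTop ν C) h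

/-- In `M`, the space `(X, τ)` is `ℕ`-compact. -/
def NatCompactIn (M : Set ZFSet.{0}) (X τ : ZFSet.{0}) : Prop :=
  ECompactIn M ZFSet.omega (PM M ZFSet.omega) X τ

/-- `R` is the set of all real numbers of `M`, with its usual topology `σ`. -/
def IsReals (M : Set ZFSet.{0}) (R σ : ZFSet.{0}) : Prop :=
  (∀ z, z ∈ R ↔ z ∈ M ∧ ∃ x : ℝ, z = cutS x) ∧ IsUsualTop M R σ

/-- In `M`, the space `(X, τ)` is realcompact: it is homeomorphic to a closed subspace of a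
power of the real line. -/
def RealcompactIn (M : Set ZFSet.{0}) (X τ : ZFSet.{0}) : Prop :=
  ∃ R σ, IsReals M R σ ∧ ECompactIn M R σ X τ

/-! ### Finite sets as finite sequences -/

theorem finset_seq {M : Set ZFSet.{0}} (hM : IsZF M) {Y : ZFSet.{0}} (hY : Y ∈ M)
    (F : Finset ZFSet.{0}) (hF : ∀ z ∈ F, z ∈ Y) :
    ∃ n ∈ ZFSet.omega, ∃ s ∈ M, ZFSet.IsFunc n Y s ∧ ∀ z, (∃ i, pair i z ∈ s) ↔ z ∈ F := by
  classical
  let a : ℕ → ZFSet.{0} := fun i => F.toList.getD i ∅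
  have ha : ∀ i < F.toList.length, a i ∈ F := by
    intro i hi
    have h1 : a i = F.toList[i] := by
      simp only [a]
      rw [List.getD_eq_getElem _ _ hi]
    rw [h1]
    exact Finset.mem_toList.1 (List.getElem_mem hi)
  refine ⟨nat F.toList.length, mem_omega_iff.2 ⟨_, rfl⟩, fseq a F.toList.length,
    fseq_mem hM fun i hi => hM.trans _ hY _ (hF _ (ha i hi)),
    isFunc_fseq fun i hi => hF _ (ha i hi), fun z => ?_⟩
  constructor
  · rintro ⟨i, hi⟩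
    obtain ⟨j, hj, h1⟩ := mem_fseq.1 hi
    rw [(ZFSet.pair_inj.1 h1).2]
    exact ha j hj
  · intro hz
    obtain ⟨i, hi, h1⟩ := List.getElem_of_mem (Finset.mem_toList.2 hz)
    refine ⟨nat i, pair_mem_fseq.2 ⟨hi, ?_⟩⟩
    simp only [a]
    rw [List.getD_eq_getElem _ _ hi, h1]

theorem seq_finset {n Y s : ZFSet.{0}} (hn : n ∈ ZFSet.omega) (hs : ZFSet.IsFunc n Y s) :
    ∃ F : Finset ZFSet.{0}, ∀ z, z ∈ F ↔ ∃ i, pair i z ∈ s := by
  classical
  obtain ⟨n, rfl⟩ := mem_omega_iff.1 hn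
  have h1 : ∀ i : ℕ, ∃ z, i < n → pair (nat i) z ∈ s := by
    intro i
    by_cases hi : i < n
    · obtain ⟨z, hz, -⟩ := hs.2 _ (nat_mem_nat.2 hi)
      exact ⟨z, fun _ => hz⟩
    · exact ⟨∅, fun h => absurd h hi⟩
  choose a ha using h1
  refine ⟨(Finset.range n).image a, fun z => ?_⟩
  rw [Finset.mem_image]
  constructor
  · rintro ⟨i, hi, rfl⟩
    exact ⟨nat i, ha i (Finset.mem_range.1 hi)⟩
  · rintro ⟨i, hi⟩
    obtain ⟨j, hj, rfl⟩ := mem_nat_iff.1 (ZFSet.pair_mem_prod.1 (hs.1 hi)).1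
    exact ⟨j, Finset.mem_range.2 hj, (hs.2 _ (nat_mem_nat.2 hj)).unique (ha j hj) hi⟩

end Pool.Agent.Q211.TP
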