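import Pool.Agent.Q211.TP.Gen

/-!
# A criterion for closed embeddings into powers
-/

set_option autoImplicit false
set_option linter.unusedSectionVars false
set_option linter.unreachableTactic false
set_option linter.unusedTactic false

namespace Pool.Agent.Q211.TP

open Pool.Agent.W868 Pool.Agent.W868.PName Pool.Agent.Q211.SY Pool.Agent.Q211.FS
open ZFSet (pair)

/-- The properties of the exponent space that we use. -/
structure GoodE (M : Set ZFSet.{0}) (E σ i : ZFSet.{0}) : Prop where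
  top : IsTopIn M E σ
  haus : ∀ a ∈ E, ∀ b ∈ E, a ≠ b → ∃ V ∈ σ, ∃ W ∈ σ, a ∈ V ∧ b ∈ W ∧ ∀ c ∈ V, c ∉ W
  inj : IsInj ZFSet.omega E i
  disc : ∀ a ∈ E, ∃ V ∈ σ, a ∈ V ∧ ∀ m n b c, b ∈ V → c ∈ V → pair m b ∈ i → pair n c ∈ i → m = n
  EM : E ∈ M
  σM : σ ∈ M
  iM : i ∈ M

/-- The element `g` of the power satisfies finitely many conditions that imply membership
in `W`. -/
def NrP (σ J N g W : ZFSet.{0}) : Prop := ∃ F : Finset (ZFSet.{0} × ZFSet.{0}),
  (∀ c ∈ F, c.1 ∈ J ∧ c.2 ∈ σ ∧ ∃ y ∈ c.2, pair c.1 y ∈ g) ∧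
    ∀ g' ∈ N, (∀ c ∈ F, ∃ y ∈ c.2, pair c.1 y ∈ g') → g' ∈ W

section

variable {M : Set ZFSet.{0}} (hM : IsZF M)

include hM

theorem nrP_iff {σ J N g W : ZFSet.{0}} (hσ : σ ∈ M) (hJ : J ∈ M) : NrP σ J N g W ↔
    ∃ c ∈ M, {z | z ∈ c}.Finite ∧
      (∀ p ∈ c, ∃ j ∈ J, ∃ V ∈ σ, p = pair j V ∧ ∃ y ∈ V, pair j y ∈ g) ∧
      ∀ g' ∈ N, (∀ p ∈ c, ∀ j ∈ J, ∀ V ∈ σ, p = pair j V → ∃ y ∈ V, pair j y ∈ g') → g' ∈ W := by
  classical
  constructor
  · rintro ⟨F, hF, h⟩
    obtain ⟨c, hc, hc'⟩ := exists_fin_mem hM (F.image fun t => pair t.1 t.2) (by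
      intro z hz
      obtain ⟨t, ht, rfl⟩ := Finset.mem_image.1 hz
      exact hM.pair_mem (hM.trans _ hJ _ (hF t ht).1) (hM.trans _ hσ _ (hF t ht).2.1))
    refine ⟨c, hc, (F.image fun t => pair t.1 t.2).finite_toSet.subset fun z hz => (hc' z).1 hz,
      fun p hp => ?_, fun g' hg' h1 => h g' hg' fun t ht => ?_⟩
    · obtain ⟨t, ht, rfl⟩ := Finset.mem_image.1 ((hc' p).1 hp)
      exact ⟨t.1, (hF t ht).1, t.2, (hF t ht).2.1, rfl, (hF t ht).2.2⟩
    · exact h1 _ ((hc' _).2 (Finset.mem_image_of_mem _ ht)) _ (hF t ht).1 _ (hF t ht).2.1 rfl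
  · rintro ⟨c, hc, hf, h1, h2⟩
    have h3 : ∀ p, ∃ t : ZFSet.{0} × ZFSet.{0}, p ∈ c → p = pair t.1 t.2 ∧ t.1 ∈ J ∧ t.2 ∈ σ ∧
        ∃ y ∈ t.2, pair t.1 y ∈ g := by
      intro p
      by_cases hp : p ∈ c
      · obtain ⟨j, hj, V, hV, h4, h5⟩ := h1 p hp
        exact ⟨(j, V), fun _ => ⟨h4, hj, hV, h5⟩⟩
      · exact ⟨(∅, ∅), fun h => absurd h hp⟩
    choose t ht using h3
    refine ⟨hf.toFinset.image t, fun s hs => ?_, fun g' hg' h4 => h2 g' hg'
      fun p hp j hj V hV hpe => ?_⟩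
    · obtain ⟨p, hp, rfl⟩ := Finset.mem_image.1 hs
      exact (ht p (hf.mem_toFinset.1 hp)).2
    · obtain ⟨h5, h6, h7, h8⟩ := ht p hp
      rw [hpe] at h5
      obtain ⟨h9, h10⟩ := ZFSet.pair_inj.1 h5
      have h11 := h4 (t p) (Finset.mem_image_of_mem _ (hf.mem_toFinset.2 hp))
      rw [hpe, ← h9, ← h10] at h11
      exact h11

theorem dfn_NrP {σ J N : ZFSet.{0}} (hσ : σ ∈ M) (hJ : J ∈ M) (hN : N ∈ M) :
    Dfn M M fun w : Fin 2 → ZFSet.{0} => NrP σ J N (w 0) (w 1) := by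
  have hB := hM.base
  have hf := dfn_fin hM
  refine Dfn.congr (R := fun w : Fin 2 → ZFSet.{0} => ∃ c ∈ M, {z | z ∈ c}.Finite ∧
      (∀ p ∈ c, ∃ j ∈ J, ∃ V ∈ σ, p = pair j V ∧ ∃ y ∈ V, pair j y ∈ w 0) ∧
      ∀ g' ∈ N, (∀ p ∈ c, ∀ j ∈ J, ∀ V ∈ σ, p = pair j V → ∃ y ∈ V, pair j y ∈ g') → g' ∈ w 1) ?_
      fun v _ => (nrP_iff hM hσ hJ).symm
  (repeat' first
    | first | apply Dfn.comp1 (Q := fun a : ZFSet.{0} => {z | z ∈ a}.Finite) hf
    | assumption
    | exact DfnF.proj _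
    | exact DfnF.const (by assumption)
    | exact DfnF.const' (by first | assumption | trivial) (by first | assumption | trivial)
    | exact Dfn.prop _
    | apply hB.isFunc' | apply hB.isInj' | apply hB.isBij' | apply hB.isOrdinal'
    | apply hB.subset' | apply hB.pair' | apply hB.insert'
    | apply Dfn.not | apply Dfn.and | apply Dfn.or | apply Dfn.imp | apply Dfn.iff
    | apply hB.bex | apply hB.ball | apply Dfn.ex | apply Dfn.all
    | apply Dfn.eq | apply Dfn.mem)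

theorem exists_power {E σ J : ZFSet.{0}} (hE : E ∈ M) (hσ : σ ∈ M) (hJ : J ∈ M) :
    ∃ N ∈ M, ∃ ν ∈ M, (∀ g, g ∈ N ↔ g ∈ M ∧ ZFSet.IsFunc J E g) ∧ IsPowTop M σ J N ν := by
  have hB := hM.base
  have hN : ZFSet.sep (fun g => ZFSet.IsFunc J E g) (PM M (ZFSet.prod J E)) ∈ M := by
    refine hM.sep_mem (Q := fun g => ZFSet.IsFunc J E g) ?_ (PM_mem hM (hM.prod_mem hJ hE))
    (repeat' first
      | assumption
      | exact DfnF.proj _
      | exact DfnF.const (by assumption)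
      | exact DfnF.const' (by first | assumption | trivial) (by first | assumption | trivial)
      | exact Dfn.prop _
      | apply hB.isFunc' | apply hB.isInj' | apply hB.isBij' | apply hB.isOrdinal'
      | apply hB.subset' | apply hB.pair' | apply hB.insert'
      | apply Dfn.not | apply Dfn.and | apply Dfn.or | apply Dfn.imp | apply Dfn.iff
      | apply hB.bex | apply hB.ball | apply Dfn.ex | apply Dfn.all
      | apply Dfn.eq | apply Dfn.mem)
  have hn := dfn_NrP hM hσ hJ hN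
  refine ⟨_, hN, ZFSet.sep (fun W => ∀ g ∈ W, NrP σ J (ZFSet.sep (fun g => ZFSet.IsFunc J E g)
    (PM M (ZFSet.prod J E))) g W) (PM M (ZFSet.sep (fun g => ZFSet.IsFunc J E g)
    (PM M (ZFSet.prod J E)))), ?_, fun g => ?_, fun W => ?_⟩
  · refine hM.sep_mem (Q := fun W => ∀ g ∈ W, NrP σ J (ZFSet.sep (fun g => ZFSet.IsFunc J E g)
      (PM M (ZFSet.prod J E))) g W) ?_ (PM_mem hM hN)
    (repeat' first
      | first | apply Dfn.comp2 (Q := fun a b => NrP σ J (ZFSet.sep (fun g => ZFSet.IsFunc J E g) (PM M (ZFSet.prod J E))) a b) hn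
      | assumption
      | exact DfnF.proj _
      | exact DfnF.const (by assumption)
      | exact DfnF.const' (by first | assumption | trivial) (by first | assumption | trivial)
      | exact Dfn.prop _
      | apply hB.isFunc' | apply hB.isInj' | apply hB.isBij' | apply hB.isOrdinal'
      | apply hB.subset' | apply hB.pair' | apply hB.insert'
      | apply Dfn.not | apply Dfn.and | apply Dfn.or | apply Dfn.imp | apply Dfn.iff
      | apply hB.bex | apply hB.ball | apply Dfn.ex | apply Dfn.all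
      | apply Dfn.eq | apply Dfn.mem)
  · rw [ZFSet.mem_sep, mem_PM]
    exact ⟨fun h => ⟨h.1.1, h.2⟩, fun h => ⟨⟨h.1, h.2.1⟩, h.2⟩⟩
  · rw [ZFSet.mem_sep, mem_PM, and_assoc]
    rfl

/-- The subspace topology of a subset of a power. -/
theorem sub_pow {σ J N ν C : ZFSet.{0}} (hσ : σ ∈ M) (hJ : J ∈ M) (hN : N ∈ M)
    (hν : IsPowTop M σ J N ν) (hC : C ∈ M) (hCN : C ⊆ N) {A : ZFSet.{0}} :
    A ∈ subTop ν C ↔ A ∈ M ∧ A ⊆ C ∧ ∀ g ∈ A, NrP σ J C g A := by
  have hB := hM.base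
  have hn := dfn_NrP hM hσ hJ hC
  rw [mem_subTop]
  constructor
  · rintro ⟨W, hW, rfl⟩
    obtain ⟨h1, h2, h3⟩ := (hν W).1 hW
    refine ⟨?_, fun z hz => (ZFSet.mem_inter.1 hz).2, fun g hg => ?_⟩
    · have h8 : W ∩ C = ZFSet.sep (fun z => z ∈ C) W := by
        ext z
        rw [ZFSet.mem_inter, ZFSet.mem_sep]
      rw [h8]
      exact hM.sep_mem (Q := fun z => z ∈ C) (Dfn.mem (DfnF.proj 0) (DfnF.const hC)) h1
    · obtain ⟨F, hF, h4⟩ := h3 g (ZFSet.mem_inter.1 hg).1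
      exact ⟨F, hF, fun g' hg' h5 => ZFSet.mem_inter.2 ⟨h4 g' (hCN hg') h5, hg'⟩⟩
  · rintro ⟨h1, h2, h3⟩
    have hW : ZFSet.sep (fun g => NrP σ J C g A) N ∈ M := by
      refine hM.sep_mem (Q := fun g => NrP σ J C g A) ?_ hN
      (repeat' first
        | first | apply Dfn.comp2 (Q := fun a b => NrP σ J C a b) hn
        | assumption
        | exact DfnF.proj _
        | exact DfnF.const (by assumption)
        | exact DfnF.const' (by first | assumption | trivial) (by first | assumption | trivial)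
        | exact Dfn.prop _
        | apply hB.isFunc' | apply hB.isInj' | apply hB.isBij' | apply hB.isOrdinal'
        | apply hB.subset' | apply hB.pair' | apply hB.insert'
        | apply Dfn.not | apply Dfn.and | apply Dfn.or | apply Dfn.imp | apply Dfn.iff
        | apply hB.bex | apply hB.ball | apply Dfn.ex | apply Dfn.all
        | apply Dfn.eq | apply Dfn.mem)
    refine ⟨_, (hν _).2 ⟨hW, fun z hz => (ZFSet.mem_sep.1 hz).1, fun g hg => ?_⟩, ?_⟩
    · obtain ⟨-, F, hF, h4⟩ := ZFSet.mem_sep.1 hg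
      refine ⟨F, hF, fun g' hg' h5 => ZFSet.mem_sep.2 ⟨hg', F, fun c hc =>
        ⟨(hF c hc).1, (hF c hc).2.1, h5 c hc⟩, h4⟩⟩
    · ext g
      rw [ZFSet.mem_inter, ZFSet.mem_sep]
      constructor
      · intro hg
        exact ⟨⟨hCN (h2 hg), h3 g hg⟩, h2 hg⟩
      · rintro ⟨⟨-, F, hF, h4⟩, hg⟩
        exact h4 g hg fun c hc => (hF c hc).2.2

end

section

variable {M : Set ZFSet.{0}} (hM : IsZF M) {E σ i : ZFSet.{0}} (hE : GoodE M E σ i)
  {X τ K R : ZFSet.{0}} (hX : X ∈ M) (hK : K ∈ M) (hR : R ∈ M) (hgen : GenBy M X τ K R)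

include hM hE hX hK hR hgen

/-- Locally constant functions with countably many values. -/
theorem lc_fun {Φ : ZFSet.{0} → ZFSet.{0} → Prop}
    (hΦ : Dfn M M fun w : Fin 2 → ZFSet.{0} => Φ (w 0) (w 1))
    (hex : ∀ x ∈ X, ∃ n ∈ ZFSet.omega, Φ x n ∧ ∀ m ∈ ZFSet.omega, Φ x m → m = n)
    (hloc : ∀ x ∈ X, ∀ n ∈ ZFSet.omega, Φ x n → Nr X K R x (ZFSet.sep (fun y => Φ y n) X)) :
    ∃ f ∈ M, IsCont X τ E σ f ∧ ∀ x ∈ X, ∀ n ∈ ZFSet.omega, ∀ e, pair n e ∈ i →
      (pair x e ∈ f ↔ Φ x n) := by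
  have hB := hM.base
  have hEM := hE.EM
  have hiM := hE.iM
  have hσM := hE.σM
  have hom : ZFSet.omega ∈ M := hM.infinity
  set f := ZFSet.sep (fun p => ∃ x ∈ X, ∃ e ∈ E, p = pair x e ∧ ∃ n ∈ ZFSet.omega,
    Φ x n ∧ pair n e ∈ i) (ZFSet.prod X E) with hf
  have hfM : f ∈ M := by
    rw [hf]
    refine hM.sep_mem (Q := fun p => ∃ x ∈ X, ∃ e ∈ E, p = pair x e ∧ ∃ n ∈ ZFSet.omega,
      Φ x n ∧ pair n e ∈ i) ?_ (hM.prod_mem hX hEM)
    (repeat' first
      | first | apply Dfn.comp2 (Q := fun a b => Φ a b) hΦ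
      | assumption
      | exact DfnF.proj _
      | exact DfnF.const (by assumption)
      | exact DfnF.const' (by first | assumption | trivial) (by first | assumption | trivial)
      | exact Dfn.prop _
      | apply hB.isFunc' | apply hB.isInj' | apply hB.isBij' | apply hB.isOrdinal'
      | apply hB.subset' | apply hB.pair' | apply hB.insert'
      | apply Dfn.not | apply Dfn.and | apply Dfn.or | apply Dfn.imp | apply Dfn.iff
      | apply hB.bex | apply hB.ball | apply Dfn.ex | apply Dfn.all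
      | apply Dfn.eq | apply Dfn.mem)
  have hmem : ∀ x e, pair x e ∈ f ↔ x ∈ X ∧ e ∈ E ∧ ∃ n ∈ ZFSet.omega, Φ x n ∧ pair n e ∈ i := by
    intro x e
    rw [hf, ZFSet.mem_sep, ZFSet.pair_mem_prod]
    constructor
    · rintro ⟨⟨hx, he⟩, x', -, e', -, hp, h⟩
      obtain ⟨rfl, rfl⟩ := ZFSet.pair_inj.1 hp
      exact ⟨hx, he, h⟩
    · rintro ⟨hx, he, h⟩
      exact ⟨⟨hx, he⟩, x, hx, e, he, rfl, h⟩
  have hfun : ZFSet.IsFunc X E f := by
    refine ⟨fun z hz => (ZFSet.mem_sep.1 hz).1, fun x hx => ?_⟩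
    obtain ⟨n, hn, h1, h2⟩ := hex x hx
    obtain ⟨e, he, he'⟩ := hE.inj.1.2 n hn
    refine ⟨e, (hmem _ _).2 ⟨hx, (ZFSet.pair_mem_prod.1 (hE.inj.1.1 he)).2, n, hn, h1, he⟩, ?_⟩
    intro e' h3
    obtain ⟨-, -, m, hm, h4, h5⟩ := (hmem _ _).1 h3
    rw [h2 m hm h4] at h5
    exact he' e' h5
  refine ⟨f, hfM, ⟨hfun, fun V hV => ?_⟩, fun x hx n hn e he => ?_⟩
  · have hVM := hM.trans _ hσM _ hV
    refine (hgen _).2 ⟨hM.sep_mem (Q := fun x => ∃ y ∈ V, pair x y ∈ f) ?_ hX, fun z hz =>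
      (mem_pre.1 hz).1, fun x hx => ?_⟩
    · (repeat' first
        | assumption
        | exact DfnF.proj _
        | exact DfnF.const (by assumption)
        | exact DfnF.const' (by first | assumption | trivial) (by first | assumption | trivial)
        | exact Dfn.prop _
        | apply hB.isFunc' | apply hB.isInj' | apply hB.isBij' | apply hB.isOrdinal'
        | apply hB.subset' | apply hB.pair' | apply hB.insert'
        | apply Dfn.not | apply Dfn.and | apply Dfn.or | apply Dfn.imp | apply Dfn.iff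
        | apply hB.bex | apply hB.ball | apply Dfn.ex | apply Dfn.all
        | apply Dfn.eq | apply Dfn.mem)
    · obtain ⟨hx, e, he, h1⟩ := mem_pre.1 hx
      obtain ⟨-, heE, n, hn, h2, h3⟩ := (hmem _ _).1 h1
      refine (hloc x hx n hn h2).mono fun y hy h4 => mem_pre.2 ⟨hy, e, he, ?_⟩
      exact (hmem _ _).2 ⟨hy, heE, n, hn, (ZFSet.mem_sep.1 h4).2, h3⟩
  · rw [hmem]
    constructor
    · rintro ⟨-, -, m, hm, h1, h2⟩
      rwa [← hE.inj.2 _ _ _ h2 he]
    · intro h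
      exact ⟨hx, (ZFSet.pair_mem_prod.1 (hE.inj.1.1 he)).2, n, hn, h, he⟩

/-- The characteristic functions of the clopen sets. -/
theorem chi_fun {k : ZFSet.{0}} (hk : k ∈ K) : ∃ f ∈ M, IsCont X τ E σ f ∧
    ∀ x ∈ X, (∀ e, pair (nat 1) e ∈ i → (pair x e ∈ f ↔ pair k x ∈ R)) ∧
      ∀ e, pair (nat 0) e ∈ i → (pair x e ∈ f ↔ pair k x ∉ R) := by
  have hB := hM.base
  have h0 : nat 0 ∈ M := hM.nat_mem 0
  have h1 : nat 1 ∈ M := hM.nat_mem 1
  have h01 : nat 0 ≠ nat 1 := fun h => absurd (nat_injective h) (by norm_num)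
  have hkM := hM.trans _ hK _ hk
  obtain ⟨f, hf, hc, h⟩ := lc_fun hM hE hX hK hR hgen
    (Φ := fun x n => (n = nat 1 ∧ pair k x ∈ R) ∨ (n = nat 0 ∧ pair k x ∉ R)) (by
      (repeat' first
        | assumption
        | exact DfnF.proj _
        | exact DfnF.const (by assumption)
        | exact DfnF.const' (by first | assumption | trivial) (by first | assumption | trivial)
        | exact Dfn.prop _
        | apply hB.isFunc' | apply hB.isInj' | apply hB.isBij' | apply hB.isOrdinal'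
        | apply hB.subset' | apply hB.pair' | apply hB.insert'
        | apply Dfn.not | apply Dfn.and | apply Dfn.or | apply Dfn.imp | apply Dfn.iff
        | apply hB.bex | apply hB.ball | apply Dfn.ex | apply Dfn.all
        | apply Dfn.eq | apply Dfn.mem)) (by
      intro x hx
      by_cases hkx : pair k x ∈ R
      · refine ⟨nat 1, mem_omega_iff.2 ⟨1, rfl⟩, Or.inl ⟨rfl, hkx⟩, fun m _ hm => ?_⟩
        rcases hm with hm | hm
        · exact hm.1
        · exact absurd hkx hm.2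
      · refine ⟨nat 0, mem_omega_iff.2 ⟨0, rfl⟩, Or.inr ⟨rfl, hkx⟩, fun m _ hm => ?_⟩
        rcases hm with hm | hm
        · exact absurd hm.2 hkx
        · exact hm.1) (by
      intro x hx n hn hxn
      refine ⟨{k}, fun l hl => by rwa [Finset.mem_singleton.1 hl], fun y hy h2 =>
        ZFSet.mem_sep.2 ⟨hy, ?_⟩⟩
      have h3 := h2 k (Finset.mem_singleton_self _)
      rcases hxn with hxn | hxn
      · exact Or.inl ⟨hxn.1, h3.1 hxn.2⟩
      · exact Or.inr ⟨hxn.1, fun h4 => hxn.2 (h3.2 h4)⟩)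
  refine ⟨f, hf, hc, fun x hx => ⟨fun e he => ?_, fun e he => ?_⟩⟩
  · rw [h x hx _ (mem_omega_iff.2 ⟨1, rfl⟩) e he]
    constructor
    · rintro (h2 | h2)
      · exact h2.2
      · exact absurd h2.1.symm h01
    · intro h2
      exact Or.inl ⟨rfl, h2⟩
  · rw [h x hx _ (mem_omega_iff.2 ⟨0, rfl⟩) e he]
    constructor
    · rintro (h2 | h2)
      · exact absurd h2.1 h01
      · exact h2.2
    · intro h2
      exact Or.inr ⟨rfl, h2⟩

end

end Pool.Agent.Q211.TP
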