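import Pool.Agent.Q211.TP.Ecp

/-!
# A criterion for closed embeddings into powers: the proof
-/

set_option autoImplicit false
set_option linter.unusedSectionVars false
set_option linter.unreachableTactic false
set_option linter.unusedTactic false

namespace Pool.Agent.Q211.TP

open Pool.Agent.W868 Pool.Agent.W868.PName Pool.Agent.Q211.SY Pool.Agent.Q211.FS
open ZFSet (pair)

section

variable {M : Set ZFSet.{0}} (hM : IsZF M) {E σ i : ZFSet.{0}} (hE : GoodE M E σ i)
  {X τ K R : ZFSet.{0}} (hX : X ∈ M) (hτ : τ ∈ M) (hK : K ∈ M) (hR : R ∈ M)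
  (hgen : GenBy M X τ K R)

include hM hE hX hτ hK hR hgen

theorem exists_funs : ∃ J ∈ M, ∀ f, f ∈ J ↔ f ∈ M ∧ IsCont X τ E σ f := by
  have hB := hM.base
  have hEM := hE.EM
  have hσM := hE.σM
  have hp : DfnF M M fun w : Fin 2 → ZFSet.{0} => pre X (w 0) (w 1) := by
    refine hM.sep' (Q := fun x (v : Fin 2 → ZFSet.{0}) => ∃ y ∈ v 1, pair x y ∈ v 0)
      (DfnF.const hX) ?_
    change Dfn M M fun w : Fin 3 → ZFSet.{0} => ∃ y ∈ w 2, pair (w 0) y ∈ w 1
    (repeat' first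
      | assumption
      | exact DfnF.proj _
      | exact DfnF.const (by assumption)
      | exact DfnF.const' (by first | assumption | trivial) (by first | assumption | trivial)
      | exact Dfn.prop _
      | apply hB.isFunc' | apply hB.isInj' | apply hB.isBij' | apply hB.isOrdinal'
      | apply hB.subset' | apply hB.pair' | apply hB.insert'
      | apply Dfn.not | apply Dfn.and | apply Dfn.or | apply Dfn.imp | apply Dfn.iff
      | apply hB.bex | apply hB.ball | apply Dfn.ex | apply Dfn.all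
      | apply Dfn.eq | apply Dfn.mem)
  refine ⟨ZFSet.sep (fun f => ZFSet.IsFunc X E f ∧ ∀ V ∈ σ, pre X f V ∈ τ)
    (PM M (ZFSet.prod X E)), ?_, fun f => ?_⟩
  · refine hM.sep_mem (Q := fun f => ZFSet.IsFunc X E f ∧ ∀ V ∈ σ, pre X f V ∈ τ) ?_
      (PM_mem hM (hM.prod_mem hX hEM))
    (repeat' first
      | first | apply DfnF.comp2 (f := fun a b => pre X a b) hp
      | assumption
      | exact DfnF.proj _
      | exact DfnF.const (by assumption)
      | exact DfnF.const' (by first | assumption | trivial) (by first | assumption | trivial)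
      | exact Dfn.prop _
      | apply hB.isFunc' | apply hB.isInj' | apply hB.isBij' | apply hB.isOrdinal'
      | apply hB.subset' | apply hB.pair' | apply hB.insert'
      | apply Dfn.not | apply Dfn.and | apply Dfn.or | apply Dfn.imp | apply Dfn.iff
      | apply hB.bex | apply hB.ball | apply Dfn.ex | apply Dfn.all
      | apply Dfn.eq | apply Dfn.mem)
  · rw [ZFSet.mem_sep, mem_PM]
    exact ⟨fun h => ⟨h.1.1, h.2⟩, fun h => ⟨⟨h.1, h.2.1.1⟩, h.2⟩⟩

/-- A space whose topology is generated by a family of clopen sets is homeomorphic to a closed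
subspace of a power of `E` if every trace that is countably realized is realized. -/
theorem ecompact_of
    (hsep : ∀ x ∈ X, ∀ y ∈ X, (∀ k ∈ K, (pair k x ∈ R ↔ pair k y ∈ R)) → x = y)
    (hsat : ∀ S ∈ M, S ⊆ K → (∀ K' ∈ M, K' ⊆ K → CntIn M K' →
      ∃ y ∈ X, ∀ k ∈ K', (k ∈ S ↔ pair k y ∈ R)) → ∃ x ∈ X, ∀ k ∈ K, (k ∈ S ↔ pair k x ∈ R)) :
    ECompactIn M E σ X τ := by
  classical
  have hB := hM.base
  have hEM := hE.EM
  have hiM := hE.iM
  have hσM := hE.σM
  have hom : ZFSet.omega ∈ M := hM.infinity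
  have h0 : nat 0 ∈ M := hM.nat_mem 0
  have h1 : nat 1 ∈ M := hM.nat_mem 1
  obtain ⟨J, hJM, hJ⟩ := exists_funs hM hE hX hτ hK hR hgen
  obtain ⟨N, hNM, ν, hνM, hN, hν⟩ := exists_power hM hEM hσM hJM
  obtain ⟨e0, he0, he0'⟩ := hE.inj.1.2 (nat 0) (mem_omega_iff.2 ⟨0, rfl⟩)
  obtain ⟨e1, he1, he1'⟩ := hE.inj.1.2 (nat 1) (mem_omega_iff.2 ⟨1, rfl⟩)
  have he0E : e0 ∈ E := (ZFSet.pair_mem_prod.1 (hE.inj.1.1 he0)).2
  have he1E : e1 ∈ E := (ZFSet.pair_mem_prod.1 (hE.inj.1.1 he1)).2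
  have hne : e0 ≠ e1 := by
    rintro h2
    have h3 := hE.inj.2 _ _ _ (h2 ▸ he0) he1
    exact absurd (nat_injective h3) (by norm_num)
  obtain ⟨V0, hV0, V1, hV1, heV0, heV1, hV01⟩ := hE.haus e0 he0E e1 he1E hne
  have hval : ∀ f ∈ J, ∀ x ∈ X, ∃ e ∈ E, pair x e ∈ f ∧ ∀ e', pair x e' ∈ f → e' = e := by
    intro f hf x hx
    obtain ⟨e, he, he'⟩ := ((hJ f).1 hf).2.1.2 x hx
    exact ⟨e, (ZFSet.pair_mem_prod.1 (((hJ f).1 hf).2.1.1 he)).2, he, he'⟩
  -- the evaluation
  let ev : ZFSet.{0} → ZFSet.{0} := fun x =>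
    ZFSet.sep (fun p => ∃ f ∈ J, ∃ e ∈ E, p = pair f e ∧ pair x e ∈ f) (ZFSet.prod J E)
  have mem_ev : ∀ {x f e}, pair f e ∈ ev x ↔ f ∈ J ∧ e ∈ E ∧ pair x e ∈ f := by
    intro x f e
    simp only [ev]
    rw [ZFSet.mem_sep, ZFSet.pair_mem_prod]
    constructor
    · rintro ⟨⟨hf, he⟩, f', -, e', -, hp, h⟩
      obtain ⟨rfl, rfl⟩ := ZFSet.pair_inj.1 hp
      exact ⟨hf, he, h⟩
    · rintro ⟨hf, he, h⟩
      exact ⟨⟨hf, he⟩, f, hf, e, he, rfl, h⟩
  have ev_N : ∀ x ∈ X, ev x ∈ N := by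
    intro x hx
    have hxM := hM.trans _ hX _ hx
    refine (hN _).2 ⟨?_, fun z hz => (ZFSet.mem_sep.1 hz).1, fun f hf => ?_⟩
    · refine hM.sep_mem (Q := fun p => ∃ f ∈ J, ∃ e ∈ E, p = pair f e ∧ pair x e ∈ f) ?_
        (hM.prod_mem hJM hEM)
      (repeat' first
        | assumption
        | exact DfnF.proj _
        | exact DfnF.const (by assumption)
        | exact DfnF.const' (by first | assumption | trivial) (by first | assumption | trivial)
        | exact Dfn.prop _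
        | apply hB.isFunc' | apply hB.isInj' | apply hB.isBij' | apply hB.isOrdinal'
        | apply hB.subset' | apply hB.pair' | apply hB.insert'
        | apply Dfn.not | apply Dfn.and | apply Dfn.or | apply Dfn.imp | apply Dfn.iff
        | apply hB.bex | apply hB.ball | apply Dfn.ex | apply Dfn.all
        | apply Dfn.eq | apply Dfn.mem)
    · obtain ⟨e, he, h2, h3⟩ := hval f hf x hx
      exact ⟨e, mem_ev.2 ⟨hf, he, h2⟩, fun e' he' => h3 e' (mem_ev.1 he').2.2⟩
  -- characteristic functions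
  have hchi : ∀ k ∈ K, ∃ f ∈ J, ∀ x ∈ X, (pair x e1 ∈ f ↔ pair k x ∈ R) ∧
      (pair x e0 ∈ f ↔ pair k x ∉ R) := by
    intro k hk
    obtain ⟨f, hf, hc, h2⟩ := chi_fun hM hE hX hK hR hgen hk
    exact ⟨f, (hJ f).2 ⟨hf, hc⟩, fun x hx => ⟨(h2 x hx).1 e1 he1, (h2 x hx).2 e0 he0⟩⟩
  choose! χ hχJ hχ using hchi
  have hχ1 : ∀ k ∈ K, ∀ x ∈ X, ∀ e, e ∈ V1 → pair x e ∈ χ k → pair k x ∈ R := by
    intro k hk x hx e heV he
    by_contra hno
    have h2 := (hχ k hk x hx).2.2 hno
    obtain ⟨e', -, h3, h4⟩ := hval _ (hχJ k hk) x hx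
    rw [h4 e he, ← h4 e0 h2] at heV
    exact hV01 e0 heV0 heV
  have hχ0 : ∀ k ∈ K, ∀ x ∈ X, ∀ e, e ∈ V0 → pair x e ∈ χ k → pair k x ∉ R := by
    intro k hk x hx e heV he hno
    have h2 := (hχ k hk x hx).1.2 hno
    obtain ⟨e', -, h3, h4⟩ := hval _ (hχJ k hk) x hx
    rw [h4 e he, ← h4 e1 h2] at heV
    exact hV01 e1 heV heV1
  -- the graph of the evaluation
  obtain ⟨h, hhM, hh⟩ : ∃ h ∈ M, ∀ p, p ∈ h ↔ ∃ x ∈ X, p = pair x (ev x) := by
    have h2 : ZFSet.sep (fun p => ∃ x ∈ X, ∃ g ∈ N, p = pair x g ∧ ∀ f ∈ J, ∀ e ∈ E,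
        pair f e ∈ g → pair x e ∈ f) (ZFSet.prod X N) ∈ M := by
      refine hM.sep_mem (Q := fun p => ∃ x ∈ X, ∃ g ∈ N, p = pair x g ∧ ∀ f ∈ J, ∀ e ∈ E,
        pair f e ∈ g → pair x e ∈ f) ?_ (hM.prod_mem hX hNM)
      (repeat' first
        | assumption
        | exact DfnF.proj _
        | exact DfnF.const (by assumption)
        | exact DfnF.const' (by first | assumption | trivial) (by first | assumption | trivial)
        | exact Dfn.prop _
        | apply hB.isFunc' | apply hB.isInj' | apply hB.isBij' | apply hB.isOrdinal'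
        | apply hB.subset' | apply hB.pair' | apply hB.insert'
        | apply Dfn.not | apply Dfn.and | apply Dfn.or | apply Dfn.imp | apply Dfn.iff
        | apply hB.bex | apply hB.ball | apply Dfn.ex | apply Dfn.all
        | apply Dfn.eq | apply Dfn.mem)
    refine ⟨_, h2, fun p => ?_⟩
    rw [ZFSet.mem_sep]
    constructor
    · rintro ⟨-, x, hx, g, hg, rfl, h3⟩
      refine ⟨x, hx, ?_⟩
      have h4 : g = ev x := by
        obtain ⟨-, h5, h6⟩ := (hN g).1 hg
        ext z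
        constructor
        · intro hz
          obtain ⟨f, hf, e, he, rfl⟩ := ZFSet.mem_prod.1 (h5 hz)
          exact mem_ev.2 ⟨hf, he, h3 f hf e he hz⟩
        · intro hz
          obtain ⟨f, hf, e, he, rfl⟩ := ZFSet.mem_prod.1 (((hN _).1 (ev_N x hx)).2.1 hz)
          obtain ⟨e', h7, -⟩ := h6 f hf
          have h8 := (ZFSet.pair_mem_prod.1 (h5 h7)).2
          obtain ⟨e'', -, h9, h10⟩ := hval f hf x hx
          rw [h10 e (mem_ev.1 hz).2.2, ← h10 e' (h3 f hf e' h8 h7)]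
          exact h7
      rw [h4]
    · rintro ⟨x, hx, rfl⟩
      exact ⟨ZFSet.pair_mem_prod.2 ⟨hx, ev_N x hx⟩, x, hx, _, ev_N x hx, rfl,
        fun f _ e _ h3 => (mem_ev.1 h3).2.2⟩
  have hpair : ∀ x g, pair x g ∈ h ↔ x ∈ X ∧ g = ev x := by
    intro x g
    rw [hh]
    constructor
    · rintro ⟨x', hx', hp⟩
      obtain ⟨rfl, rfl⟩ := ZFSet.pair_inj.1 hp
      exact ⟨hx', rfl⟩
    · rintro ⟨hx, rfl⟩
      exact ⟨x, hx, rfl⟩
  have ev_inj : ∀ x ∈ X, ∀ y ∈ X, ev x = ev y → x = y := by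
    intro x hx y hy hxy
    refine hsep x hx y hy fun k hk => ?_
    rw [← (hχ k hk x hx).1, ← (hχ k hk y hy).1]
    have h2 : pair (χ k) e1 ∈ ev x ↔ pair (χ k) e1 ∈ ev y := by rw [hxy]
    rw [mem_ev, mem_ev] at h2
    exact ⟨fun h3 => (h2.1 ⟨hχJ k hk, he1E, h3⟩).2.2, fun h3 => (h2.2 ⟨hχJ k hk, he1E, h3⟩).2.2⟩
  -- the image
  obtain ⟨C, hCM, hC⟩ : ∃ C ∈ M, ∀ g, g ∈ C ↔ ∃ x ∈ X, g = ev x := by
    have h2 : ZFSet.sep (fun g => ∃ x ∈ X, pair x g ∈ h) N ∈ M := by
      refine hM.sep_mem (Q := fun g => ∃ x ∈ X, pair x g ∈ h) ?_ hNM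
      (repeat' first
        | assumption
        | exact DfnF.proj _
        | exact DfnF.const (by assumption)
        | exact DfnF.const' (by first | assumption | trivial) (by first | assumption | trivial)
        | exact Dfn.prop _
        | apply hB.isFunc' | apply hB.isInj' | apply hB.isBij' | apply hB.isOrdinal'
        | apply hB.subset' | apply hB.pair' | apply hB.insert'
        | apply Dfn.not | apply Dfn.and | apply Dfn.or | apply Dfn.imp | apply Dfn.iff
        | apply hB.bex | apply hB.ball | apply Dfn.ex | apply Dfn.all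
        | apply Dfn.eq | apply Dfn.mem)
    refine ⟨_, h2, fun g => ?_⟩
    rw [ZFSet.mem_sep]
    constructor
    · rintro ⟨-, x, hx, h3⟩
      exact ⟨x, hx, ((hpair x g).1 h3).2⟩
    · rintro ⟨x, hx, rfl⟩
      exact ⟨ev_N x hx, x, hx, (hpair x _).2 ⟨hx, rfl⟩⟩
  have hCN : C ⊆ N := by
    intro g hg
    obtain ⟨x, hx, rfl⟩ := (hC g).1 hg
    exact ev_N x hx
  -- the image is closed
  have hclosed : ∀ g ∈ N, (∀ F : Finset (ZFSet.{0} × ZFSet.{0}),
      (∀ c ∈ F, c.1 ∈ J ∧ c.2 ∈ σ ∧ ∃ y ∈ c.2, pair c.1 y ∈ g) →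
      ∃ x ∈ X, ∀ c ∈ F, ∃ y ∈ c.2, pair x y ∈ c.1) → g ∈ C := by
    intro g hg hcl
    obtain ⟨hgM, hgf⟩ := (hN g).1 hg
    have hgv : ∀ f ∈ J, ∃ e ∈ E, pair f e ∈ g ∧ ∀ e', pair f e' ∈ g → e' = e := by
      intro f hf
      obtain ⟨e, he, he'⟩ := hgf.2 f hf
      exact ⟨e, (ZFSet.pair_mem_prod.1 (hgf.1 he)).2, he, he'⟩
    -- the values at the characteristic functions
    have hg01 : ∀ k ∈ K, pair (χ k) e1 ∈ g ∨ pair (χ k) e0 ∈ g := by
      intro k hk
      obtain ⟨e, he, h2, h3⟩ := hgv _ (hχJ k hk)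
      by_contra hno
      push Not at hno
      obtain ⟨W1, hW1, W1', hW1', h4, h5, h6⟩ := hE.haus e he e1 he1E (by
        rintro rfl
        exact hno.1 h2)
      obtain ⟨W0, hW0, W0', hW0', h7, h8, h9⟩ := hE.haus e he e0 he0E (by
        rintro rfl
        exact hno.2 h2)
      obtain ⟨x, hx, h10⟩ := hcl {(χ k, W1 ∩ W0)} (by
        intro c hc
        rw [Finset.mem_singleton.1 hc]
        exact ⟨hχJ k hk, hE.top.inter _ hW1 _ hW0, e, ZFSet.mem_inter.2 ⟨h4, h7⟩, h2⟩)
      obtain ⟨y, hy, h11⟩ := h10 _ (Finset.mem_singleton_self _)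
      obtain ⟨hy1, hy0⟩ := ZFSet.mem_inter.1 hy
      obtain ⟨e', -, h12, h13⟩ := hval _ (hχJ k hk) x hx
      by_cases hkx : pair k x ∈ R
      · have h14 := (hχ k hk x hx).1.2 hkx
        rw [h13 y h11, ← h13 e1 h14] at hy1
        exact h6 _ hy1 h5
      · have h14 := (hχ k hk x hx).2.2 hkx
        rw [h13 y h11, ← h13 e0 h14] at hy0
        exact h9 _ hy0 h8
    -- the trace
    obtain ⟨S, hSM, hS⟩ : ∃ S ∈ M, ∀ k, k ∈ S ↔ k ∈ K ∧ pair (χ k) e1 ∈ g := by
      have he1M := hM.trans _ hEM _ he1E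
      have he0M := hM.trans _ hEM _ he0E
      have h2 : ZFSet.sep (fun k => ∃ f ∈ J, pair f e1 ∈ g ∧ ∀ x ∈ X,
          (pair x e1 ∈ f ↔ pair k x ∈ R) ∧ (pair x e0 ∈ f ↔ pair k x ∉ R)) K ∈ M := by
        refine hM.sep_mem (Q := fun k => ∃ f ∈ J, pair f e1 ∈ g ∧ ∀ x ∈ X,
          (pair x e1 ∈ f ↔ pair k x ∈ R) ∧ (pair x e0 ∈ f ↔ pair k x ∉ R)) ?_ hK
        (repeat' first
          | assumption
          | exact DfnF.proj _
          | exact DfnF.const (by assumption)
          | exact DfnF.const' (by first | assumption | trivial) (by first | assumption | trivial)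
          | exact Dfn.prop _
          | apply hB.isFunc' | apply hB.isInj' | apply hB.isBij' | apply hB.isOrdinal'
          | apply hB.subset' | apply hB.pair' | apply hB.insert'
          | apply Dfn.not | apply Dfn.and | apply Dfn.or | apply Dfn.imp | apply Dfn.iff
          | apply hB.bex | apply hB.ball | apply Dfn.ex | apply Dfn.all
          | apply Dfn.eq | apply Dfn.mem)
      refine ⟨_, h2, fun k => ?_⟩
      rw [ZFSet.mem_sep]
      refine and_congr_right fun hk => ⟨?_, fun h3 => ⟨χ k, hχJ k hk, h3, hχ k hk⟩⟩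
      rintro ⟨f, hf, h3, h4⟩
      have h5 : f = χ k := by
        have h6 : ∀ f f', f ∈ J → f' ∈ J → (∀ x ∈ X, (pair x e1 ∈ f ↔ pair k x ∈ R) ∧
            (pair x e0 ∈ f ↔ pair k x ∉ R)) → (∀ x ∈ X, (pair x e1 ∈ f' ↔ pair k x ∈ R) ∧
            (pair x e0 ∈ f' ↔ pair k x ∉ R)) → f ⊆ f' := by
          intro f f' hf hf' h7 h8 z hz
          obtain ⟨x, hx, e, he, rfl⟩ := ZFSet.mem_prod.1 (((hJ f).1 hf).2.1.1 hz)
          obtain ⟨e', -, h9, h10⟩ := hval f hf x hx
          by_cases hkx : pair k x ∈ R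
          · have h11 := (h7 x hx).1.2 hkx
            have h12 := (h8 x hx).1.2 hkx
            rw [h10 e hz, ← h10 _ h11]
            exact h12
          · have h11 := (h7 x hx).2.2 hkx
            have h12 := (h8 x hx).2.2 hkx
            rw [h10 e hz, ← h10 _ h11]
            exact h12
        ext z
        exact ⟨fun hz => h6 _ _ hf (hχJ k hk) h4 (hχ k hk) hz,
          fun hz => h6 _ _ (hχJ k hk) hf (hχ k hk) h4 hz⟩
      rw [← h5]
      exact h3
    -- conditions that fix finitely many members of the trace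
    have hcond : ∀ F : Finset ZFSet.{0}, (∀ k ∈ F, k ∈ K) →
        ∀ G : Finset (ZFSet.{0} × ZFSet.{0}),
        (∀ c ∈ G, c.1 ∈ J ∧ c.2 ∈ σ ∧ ∃ y ∈ c.2, pair c.1 y ∈ g) →
        ∃ x ∈ X, (∀ k ∈ F, (k ∈ S ↔ pair k x ∈ R)) ∧ ∀ c ∈ G, ∃ y ∈ c.2, pair x y ∈ c.1 := by
      intro F hF G hG
      obtain ⟨x, hx, h2⟩ := hcl (G ∪ F.image fun k => (χ k, if k ∈ S then V1 else V0)) (by
        intro c hc
        rcases Finset.mem_union.1 hc with hc | hc
        · exact hG c hc
        · obtain ⟨k, hk, rfl⟩ := Finset.mem_image.1 hc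
          have hkK := hF k hk
          refine ⟨hχJ k hkK, ?_, ?_⟩
          · dsimp only
            split_ifs
            · exact hV1
            · exact hV0
          · dsimp only
            split_ifs with hkS
            · exact ⟨e1, heV1, ((hS k).1 hkS).2⟩
            · refine ⟨e0, heV0, ?_⟩
              rcases hg01 k hkK with h3 | h3
              · exact absurd ((hS k).2 ⟨hkK, h3⟩) hkS
              · exact h3)
      refine ⟨x, hx, fun k hk => ?_, fun c hc => h2 c (Finset.mem_union_left _ hc)⟩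
      obtain ⟨y, hy, h3⟩ := h2 _ (Finset.mem_union_right _ (Finset.mem_image_of_mem _ hk))
      dsimp only at hy h3
      by_cases hkS : k ∈ S
      · rw [if_pos hkS] at hy
        exact ⟨fun _ => hχ1 k (hF k hk) x hx y hy h3, fun _ => hkS⟩
      · rw [if_neg hkS] at hy
        exact ⟨fun h4 => absurd h4 hkS, fun h4 => absurd h4 (hχ0 k (hF k hk) x hx y hy h3)⟩
    -- the trace is countably realized
    obtain ⟨x, hx, hxS⟩ := hsat S hSM (fun k hk => ((hS k).1 hk).1) (by
      intro K' hK'M hK'K hcnt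
      obtain ⟨u, huM, hu⟩ := hcnt
      by_contra hno
      push Not at hno
      -- the relation of the first mismatch
      let Ms : ZFSet.{0} → ZFSet.{0} → Prop := fun x n =>
        ∃ k ∈ K', pair k n ∈ u ∧ ¬ (k ∈ S ↔ pair k x ∈ R)
      let Φ : ZFSet.{0} → ZFSet.{0} → Prop := fun x n => (∃ k ∈ K', pair k n ∈ u ∧
        ¬ (k ∈ S ↔ pair k x ∈ R)) ∧ ∀ m ∈ n, ¬ ∃ k ∈ K', pair k m ∈ u ∧
        ¬ (k ∈ S ↔ pair k x ∈ R)
      have hΦ : Dfn M M fun w : Fin 2 → ZFSet.{0} => Φ (w 0) (w 1) := by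
        simp only [Φ]
        (repeat' first
          | assumption
          | exact DfnF.proj _
          | exact DfnF.const (by assumption)
          | exact DfnF.const' (by first | assumption | trivial) (by first | assumption | trivial)
          | exact Dfn.prop _
          | apply hB.isFunc' | apply hB.isInj' | apply hB.isBij' | apply hB.isOrdinal'
          | apply hB.subset' | apply hB.pair' | apply hB.insert'
          | apply Dfn.not | apply Dfn.and | apply Dfn.or | apply Dfn.imp | apply Dfn.iff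
          | apply hB.bex | apply hB.ball | apply Dfn.ex | apply Dfn.all
          | apply Dfn.eq | apply Dfn.mem)
      have huu : ∀ {k n}, pair k n ∈ u → n ∈ ZFSet.omega := fun h2 =>
        (ZFSet.pair_mem_prod.1 (hu.1.1 h2)).2
      obtain ⟨f, hfM, hfc, hf⟩ := lc_fun hM hE hX hK hR hgen hΦ (by
        intro x hx
        obtain ⟨k, hk, h2⟩ := hno x hx
        obtain ⟨n, hn, -⟩ := hu.1.2 k hk
        have hex : ∃ n : ℕ, Ms x (nat n) := by
          obtain ⟨n', rfl⟩ := mem_omega_iff.1 (huu hn)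
          exact ⟨n', k, hk, hn, by
            rcases h2 with h2 | h2
            · exact fun h3 => h2.2 (h3.1 h2.1)
            · exact fun h3 => h2.1 (h3.2 h2.2)⟩
        refine ⟨nat (Nat.find hex), mem_omega_iff.2 ⟨_, rfl⟩, ⟨Nat.find_spec hex, ?_⟩, ?_⟩
        · intro m hm h3
          obtain ⟨j, hj, rfl⟩ := mem_nat_iff.1 hm
          exact Nat.find_min hex hj h3
        · rintro m hm ⟨h3, h4⟩
          obtain ⟨m', rfl⟩ := mem_omega_iff.1 hm
          rcases lt_trichotomy m' (Nat.find hex) with h5 | h5 | h5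
          · exact absurd h3 (Nat.find_min hex h5)
          · rw [h5]
          · exact absurd (Nat.find_spec hex) (h4 _ (nat_mem_nat.2 h5))) (by
        intro x hx n hn h2
        obtain ⟨n', rfl⟩ := mem_omega_iff.1 hn
        -- the finite set of the members of `K'` with index at most `n'`
        have hfin : {k | k ∈ K' ∧ ∃ m ≤ n', pair k (nat m) ∈ u}.Finite := by
          refine Set.Finite.subset (Set.Finite.biUnion (Set.finite_Iic n')
            (t := fun m => {k | pair k (nat m) ∈ u}) fun m _ => ?_) fun k hk => ?_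
          · exact Set.Subsingleton.finite fun a ha b hb => hu.2 _ _ _ ha hb
          · obtain ⟨-, m, hm, h3⟩ := hk
            exact Set.mem_biUnion (Set.mem_Iic.2 hm) h3
        refine ⟨hfin.toFinset, fun k hk => hK'K ((hfin.mem_toFinset.1 hk).1), fun y hy h3 =>
          ZFSet.mem_sep.2 ⟨hy, ?_⟩⟩
        have h4 : ∀ m ≤ n', Ms x (nat m) ↔ Ms y (nat m) := by
          intro m hm
          constructor
          · rintro ⟨k, hk, h5, h6⟩
            have h7 := h3 k (hfin.mem_toFinset.2 ⟨hk, m, hm, h5⟩)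
            exact ⟨k, hk, h5, fun h8 => h6 (h8.trans h7.symm)⟩
          · rintro ⟨k, hk, h5, h6⟩
            have h7 := h3 k (hfin.mem_toFinset.2 ⟨hk, m, hm, h5⟩)
            exact ⟨k, hk, h5, fun h8 => h6 (h8.trans h7)⟩
        refine ⟨(h4 n' le_rfl).1 h2.1, fun m hm h5 => ?_⟩
        obtain ⟨j, hj, rfl⟩ := mem_nat_iff.1 hm
        exact h2.2 _ hm ((h4 j hj.le).2 h5))
      have hfJ : f ∈ J := (hJ f).2 ⟨hfM, hfc⟩
      obtain ⟨e, he, h2, h3⟩ := hgv f hfJ
      obtain ⟨V, hV, heV, hVd⟩ := hE.disc e he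
      -- a point with value in `V`
      obtain ⟨x1, hx1, -, h4⟩ := hcond ∅ (by simp) {(f, V)} (by
        intro c hc
        rw [Finset.mem_singleton.1 hc]
        exact ⟨hfJ, hV, e, heV, h2⟩)
      obtain ⟨y1, hy1, h5⟩ := h4 _ (Finset.mem_singleton_self _)
      have hidx : ∀ x ∈ X, ∀ y, pair x y ∈ f → ∃ n : ℕ, pair (nat n) y ∈ i ∧ Φ x (nat n) := by
        intro x hx y hy
        obtain ⟨k, hk, h6⟩ := hno x hx
        obtain ⟨n, hn, -⟩ := hu.1.2 k hk
        have hex : ∃ n : ℕ, Ms x (nat n) := by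
          obtain ⟨n', rfl⟩ := mem_omega_iff.1 (huu hn)
          exact ⟨n', k, hk, hn, by
            rcases h6 with h6 | h6
            · exact fun h7 => h6.2 (h7.1 h6.1)
            · exact fun h7 => h6.1 (h7.2 h6.2)⟩
        have h7 : Φ x (nat (Nat.find hex)) := by
          refine ⟨Nat.find_spec hex, ?_⟩
          intro m hm h3
          obtain ⟨j, hj, rfl⟩ := mem_nat_iff.1 hm
          exact Nat.find_min hex hj h3
        obtain ⟨e', he', -⟩ := hE.inj.1.2 _ (mem_omega_iff.2 ⟨Nat.find hex, rfl⟩)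
        have h8 := (hf x hx _ (mem_omega_iff.2 ⟨_, rfl⟩) e' he').2 h7
        obtain ⟨e'', -, h9, h10⟩ := hval f hfJ x hx
        rw [h10 y hy, ← h10 e' h8]
        exact ⟨_, he', h7⟩
      obtain ⟨n1, hn1, hΦ1⟩ := hidx x1 hx1 y1 h5
      have hfin : {k | k ∈ K' ∧ ∃ m ≤ n1, pair k (nat m) ∈ u}.Finite := by
        refine Set.Finite.subset (Set.Finite.biUnion (Set.finite_Iic n1)
          (t := fun m => {k | pair k (nat m) ∈ u}) fun m _ => ?_) fun k hk => ?_
        · exact Set.Subsingleton.finite fun a ha b hb => hu.2 _ _ _ ha hb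
        · obtain ⟨-, m, hm, h3⟩ := hk
          exact Set.mem_biUnion (Set.mem_Iic.2 hm) h3
      obtain ⟨x2, hx2, h6, h7⟩ := hcond hfin.toFinset
        (fun k hk => hK'K (hfin.mem_toFinset.1 hk).1) {(f, V)} (by
        intro c hc
        rw [Finset.mem_singleton.1 hc]
        exact ⟨hfJ, hV, e, heV, h2⟩)
      obtain ⟨y2, hy2, h8⟩ := h7 _ (Finset.mem_singleton_self _)
      obtain ⟨n2, hn2, hΦ2⟩ := hidx x2 hx2 y2 h8
      have h9 : n1 = n2 := nat_injective (hVd _ _ _ _ hy1 hy2 hn1 hn2)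
      subst h9
      obtain ⟨k, hk, h10, h11⟩ := hΦ2.1
      exact h11 (h6 k (hfin.mem_toFinset.2 ⟨hk, n1, le_rfl, h10⟩)))
    -- the point of the trace
    refine (hC g).2 ⟨x, hx, ?_⟩
    ext z
    have hsub : ∀ f ∈ J, ∀ e e', pair f e ∈ g → pair x e' ∈ f → e = e' := by
      intro f hf e e' h2 h3
      by_contra hne
      have heE := (ZFSet.pair_mem_prod.1 (hgf.1 h2)).2
      have he'E := (ZFSet.pair_mem_prod.1 (((hJ f).1 hf).2.1.1 h3)).2
      obtain ⟨V, hV, W, hW, h4, h5, h6⟩ := hE.haus e heE e' he'E hne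
      have h7 := ((hJ f).1 hf).2.2 W hW
      obtain ⟨F, hF, h8⟩ := ((hgen _).1 h7).2.2 x (mem_pre.2 ⟨hx, e', h5, h3⟩)
      obtain ⟨y, hy, h9, h10⟩ := hcond F hF {(f, V)} (by
        intro c hc
        rw [Finset.mem_singleton.1 hc]
        exact ⟨hf, hV, e, h4, h2⟩)
      obtain ⟨v, hv, h11⟩ := h10 _ (Finset.mem_singleton_self _)
      obtain ⟨-, w, hw, h12⟩ := mem_pre.1 (h8 y hy fun k hk =>
        (hxS k (hF k hk)).symm.trans (h9 k hk))
      obtain ⟨e'', -, h13, h14⟩ := hval f hf y hy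
      dsimp only at hv h11
      rw [h14 v h11] at hv
      rw [h14 w h12] at hw
      exact h6 _ hv hw
    constructor
    · intro hz
      obtain ⟨f, hf, e, he, rfl⟩ := ZFSet.mem_prod.1 (hgf.1 hz)
      obtain ⟨e', -, h2, -⟩ := hval f hf x hx
      have h3 := hsub f hf e e' hz h2
      exact mem_ev.2 ⟨hf, he, h3 ▸ h2⟩
    · intro hz
      obtain ⟨f, hf, e, he, rfl⟩ := ZFSet.mem_prod.1 (((hN _).1 (ev_N x hx)).2.1 hz)
      obtain ⟨e', -, h2, -⟩ := hgv f hf
      have h3 := hsub f hf e' e h2 (mem_ev.1 hz).2.2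
      exact h3 ▸ h2
  -- conclusion
  refine ⟨J, hJM, N, hNM, ν, hνM, C, hCM, h, hhM, hN, hν, hCN, ?_, ⟨⟨⟨⟨?_, ?_⟩, ?_⟩, ?_⟩, ?_⟩⟩
  · have h2 : N \ C ∈ M := by
      have h8 : N \ C = ZFSet.sep (fun z => z ∉ C) N := by
        ext z
        rw [ZFSet.mem_sdiff, ZFSet.mem_sep]
      rw [h8]
      exact hM.sep_mem (Q := fun z => z ∉ C)
        (Dfn.not (Dfn.mem (DfnF.proj 0) (DfnF.const hCM))) hNM
    refine (hν _).2 ⟨h2, fun z hz => (ZFSet.mem_sdiff.1 hz).1, fun g hg => ?_⟩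
    obtain ⟨hgN, hgC⟩ := ZFSet.mem_sdiff.1 hg
    by_contra hno
    refine hgC (hclosed g hgN fun F hF => ?_)
    by_contra hno'
    refine hno ⟨F, hF, fun g' hg' h3 => ZFSet.mem_sdiff.2 ⟨hg', fun hg'C => ?_⟩⟩
    obtain ⟨x, hx, rfl⟩ := (hC g').1 hg'C
    refine hno' ⟨x, hx, fun c hc => ?_⟩
    obtain ⟨y, hy, h4⟩ := h3 c hc
    exact ⟨y, hy, (mem_ev.1 h4).2.2⟩
  · intro z hz
    obtain ⟨x, hx, rfl⟩ := (hh z).1 hz
    exact ZFSet.pair_mem_prod.2 ⟨hx, (hC _).2 ⟨x, hx, rfl⟩⟩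
  · intro x hx
    exact ⟨ev x, (hpair _ _).2 ⟨hx, rfl⟩, fun g hg => ((hpair _ _).1 hg).2⟩
  · intro a b c ha hb
    obtain ⟨ha1, ha2⟩ := (hpair _ _).1 ha
    obtain ⟨hb1, hb2⟩ := (hpair _ _).1 hb
    exact ev_inj a ha1 b hb1 (ha2.symm.trans hb2)
  · intro g hg
    obtain ⟨x, hx, rfl⟩ := (hC g).1 hg
    exact ⟨x, hx, (hpair _ _).2 ⟨hx, rfl⟩⟩
  · intro U hUX
    rw [sub_pow hM hσM hJM hNM hν hCM hCN]
    have hmemA : ∀ g, g ∈ ZFSet.sep (fun y => ∃ x ∈ U, pair x y ∈ h) C ↔
        ∃ x ∈ U, g = ev x := by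
      intro g
      rw [ZFSet.mem_sep]
      constructor
      · rintro ⟨-, x, hx, h2⟩
        exact ⟨x, hx, ((hpair _ _).1 h2).2⟩
      · rintro ⟨x, hx, rfl⟩
        exact ⟨(hC _).2 ⟨x, hUX hx, rfl⟩, x, hx, (hpair _ _).2 ⟨hUX hx, rfl⟩⟩
    constructor
    · intro hU
      obtain ⟨hUM, -, hUn⟩ := (hgen U).1 hU
      refine ⟨?_, fun z hz => (ZFSet.mem_sep.1 hz).1, fun g hg => ?_⟩
      · refine hM.sep_mem (Q := fun y => ∃ x ∈ U, pair x y ∈ h) ?_ hCM
        (repeat' first
          | assumption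
          | exact DfnF.proj _
          | exact DfnF.const (by assumption)
          | exact DfnF.const' (by first | assumption | trivial) (by first | assumption | trivial)
          | exact Dfn.prop _
          | apply hB.isFunc' | apply hB.isInj' | apply hB.isBij' | apply hB.isOrdinal'
          | apply hB.subset' | apply hB.pair' | apply hB.insert'
          | apply Dfn.not | apply Dfn.and | apply Dfn.or | apply Dfn.imp | apply Dfn.iff
          | apply hB.bex | apply hB.ball | apply Dfn.ex | apply Dfn.all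
          | apply Dfn.eq | apply Dfn.mem)
      · obtain ⟨x, hx, rfl⟩ := (hmemA g).1 hg
        obtain ⟨F, hF, h2⟩ := hUn x hx
        refine ⟨F.image fun k => (χ k, if pair k x ∈ R then V1 else V0), fun c hc => ?_,
          fun g' hg' h3 => ?_⟩
        · obtain ⟨k, hk, rfl⟩ := Finset.mem_image.1 hc
          have hkK := hF k hk
          refine ⟨hχJ k hkK, ?_, ?_⟩
          · dsimp only
            split_ifs
            · exact hV1
            · exact hV0
          · dsimp only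
            split_ifs with hkS
            · exact ⟨e1, heV1, mem_ev.2 ⟨hχJ k hkK, he1E, (hχ k hkK x (hUX hx)).1.2 hkS⟩⟩
            · exact ⟨e0, heV0, mem_ev.2 ⟨hχJ k hkK, he0E, (hχ k hkK x (hUX hx)).2.2 hkS⟩⟩
        · obtain ⟨y, hy, rfl⟩ := (hC g').1 hg'
          refine (hmemA _).2 ⟨y, h2 y hy fun k hk => ?_, rfl⟩
          obtain ⟨e, he, h4⟩ := h3 _ (Finset.mem_image_of_mem _ hk)
          dsimp only at he h4
          have h5 := (mem_ev.1 h4).2.2
          by_cases hkS : pair k x ∈ R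
          · rw [if_pos hkS] at he
            exact ⟨fun _ => hχ1 k (hF k hk) y hy e he h5, fun _ => hkS⟩
          · rw [if_neg hkS] at he
            exact ⟨fun h6 => absurd h6 hkS, fun h6 => absurd h6 (hχ0 k (hF k hk) y hy e he h5)⟩
    · rintro ⟨hAM, -, hAn⟩
      have hUM : U ∈ M := by
        have h8 : U = ZFSet.sep (fun x => ∃ g ∈ ZFSet.sep (fun y => ∃ x ∈ U, pair x y ∈ h) C,
            pair x g ∈ h) X := by
          ext x
          rw [ZFSet.mem_sep]
          constructor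
          · intro hx
            exact ⟨hUX hx, ev x, (hmemA _).2 ⟨x, hx, rfl⟩, (hpair _ _).2 ⟨hUX hx, rfl⟩⟩
          · rintro ⟨hx, g, hg, h2⟩
            obtain ⟨x', hx', rfl⟩ := (hmemA g).1 hg
            rw [ev_inj x hx x' (hUX hx') ((hpair _ _).1 h2).2.symm]
            exact hx'
        rw [h8]
        generalize ZFSet.sep (fun y => ∃ x ∈ U, pair x y ∈ h) C = A at hAM
        refine hM.sep_mem (Q := fun x => ∃ g ∈ A, pair x g ∈ h) ?_ hX
        (repeat' first
          | assumption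
          | exact DfnF.proj _
          | exact DfnF.const (by assumption)
          | exact DfnF.const' (by first | assumption | trivial) (by first | assumption | trivial)
          | exact Dfn.prop _
          | apply hB.isFunc' | apply hB.isInj' | apply hB.isBij' | apply hB.isOrdinal'
          | apply hB.subset' | apply hB.pair' | apply hB.insert'
          | apply Dfn.not | apply Dfn.and | apply Dfn.or | apply Dfn.imp | apply Dfn.iff
          | apply hB.bex | apply hB.ball | apply Dfn.ex | apply Dfn.all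
          | apply Dfn.eq | apply Dfn.mem)
      refine (hgen U).2 ⟨hUM, hUX, fun x hx => ?_⟩
      obtain ⟨F, hF, h2⟩ := hAn (ev x) ((hmemA _).2 ⟨x, hx, rfl⟩)
      -- the intersection of finitely many preimages
      have h3 : ∀ G : Finset (ZFSet.{0} × ZFSet.{0}), G ⊆ F →
          ∃ U' , (∀ y ∈ X, y ∈ U' → ∀ c ∈ G, ∃ e ∈ c.2, pair c.1 e ∈ ev y) ∧ Nr X K R x U' := by
        intro G
        refine Finset.induction_on G (fun _ => ⟨X, fun y _ _ c hc => absurd hc (by simp), ∅,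
          by simp, fun y hy _ => hy⟩) ?_
        intro c G _ ih hG
        obtain ⟨U', h4, h5⟩ := ih fun c hc => hG (Finset.mem_insert_of_mem hc)
        obtain ⟨hc1, hc2, e, he, h6⟩ := hF c (hG (Finset.mem_insert_self _ _))
        have h7 := ((hJ _).1 hc1).2.2 _ hc2
        have h8 := ((hgen _).1 h7).2.2 x (mem_pre.2 ⟨hUX hx, e, he, (mem_ev.1 h6).2.2⟩)
        refine ⟨_, fun y hy hy' d hd => ?_, h5.inter h8⟩
        obtain ⟨h9, h10⟩ := ZFSet.mem_inter.1 hy'
        rcases Finset.mem_insert.1 hd with rfl | hd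
        · obtain ⟨-, v, hv, h11⟩ := mem_pre.1 h10
          exact ⟨v, hv, mem_ev.2 ⟨hc1, (ZFSet.pair_mem_prod.1 (((hJ _).1 hc1).2.1.1 h11)).2, h11⟩⟩
        · exact h4 y hy h9 d hd
      obtain ⟨U', h4, h5⟩ := h3 F (Finset.Subset.refl _)
      refine h5.mono fun y hy hy' => ?_
      obtain ⟨x', hx', h6⟩ := (hmemA _).1 (h2 (ev y) ((hC _).2 ⟨y, hy, rfl⟩) (h4 y hy hy'))
      rw [ev_inj y hy x' (hUX hx') h6]
      exact hx'

end

end Pool.Agent.Q211.TP
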