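import Pool.Agent.Q211.TP.Cqc

/-!
# Evaluations and Hewitt extensions
-/

set_option autoImplicit false
set_option linter.unusedSectionVars false
set_option linter.unreachableTactic false
set_option linter.unusedTactic false

namespace Pool.Agent.Q211.TP

open Pool.Agent.W868 Pool.Agent.W868.PName Pool.Agent.Q211.SY Pool.Agent.Q211.FS
open ZFSet (pair)

/-- The element `g` of the power with exponent `J` is the evaluation at the point `x`. -/
def IsEval (J x g : ZFSet.{0}) : Prop :=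
  ∀ z, z ∈ g ↔ ∃ f ∈ J, ∃ e, pair x e ∈ f ∧ z = pair f e

/-- In `M`, the space `(X, τ)` is `E`-completely regular: it is homeomorphic to a subspace `C` of
the power with exponent `J` of the space `(E, σ)`, for some set `J`. -/
def ERegIn (M : Set ZFSet.{0}) (E σ X τ : ZFSet.{0}) : Prop :=
  ∃ J ∈ M, ∃ N ∈ M, ∃ ν ∈ M, ∃ C ∈ M, ∃ h ∈ M, (∀ g, g ∈ N ↔ g ∈ M ∧ ZFSet.IsFunc J E g) ∧
    IsPowTop M σ J N ν ∧ C ⊆ N ∧ IsHomeo X τ C (subTop ν C) h

/-- In `M`, the space `(V, υ)` is the Hewitt `E`-compact extension of `(X, τ)`: the closure of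
the set of the evaluations in the power of `(E, σ)` whose exponent `J` is the set of all
continuous functions from `X` to `E`. -/
def IsHewitt (M : Set ZFSet.{0}) (E σ X τ V υ : ZFSet.{0}) : Prop :=
  ∃ J ∈ M, ∃ N ∈ M, ∃ ν ∈ M, (∀ f, f ∈ J ↔ f ∈ M ∧ IsCont X τ E σ f) ∧
    (∀ g, g ∈ N ↔ g ∈ M ∧ ZFSet.IsFunc J E g) ∧ IsPowTop M σ J N ν ∧
    (∀ g, g ∈ V ↔ g ∈ N ∧ ∀ W ∈ ν, g ∈ W → ∃ g' ∈ W, ∃ x ∈ X, IsEval J x g') ∧
    υ = subTop ν V

section

variable {M : Set ZFSet.{0}} (hM : IsZF M) {E σ i : ZFSet.{0}} (hE : GoodE M E σ i)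
  {X τ K R : ZFSet.{0}} (hX : X ∈ M) (hτ : τ ∈ M) (hK : K ∈ M) (hR : R ∈ M)
  (hgen : GenBy M X τ K R)

include hM hE hX hτ hK hR hgen

/-- The evaluations embed the space into the power. -/
theorem exists_eval
    (hsep : ∀ x ∈ X, ∀ y ∈ X, (∀ k ∈ K, (pair k x ∈ R ↔ pair k y ∈ R)) → x = y) :
    ∃ J ∈ M, ∃ N ∈ M, ∃ ν ∈ M, ∃ C ∈ M, ∃ h ∈ M, (∀ f, f ∈ J ↔ f ∈ M ∧ IsCont X τ E σ f) ∧
      (∀ g, g ∈ N ↔ g ∈ M ∧ ZFSet.IsFunc J E g) ∧ IsPowTop M σ J N ν ∧ C ⊆ N ∧
      (∀ g, g ∈ C ↔ ∃ x ∈ X, IsEval J x g) ∧ IsHomeo X τ C (subTop ν C) h := by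
  classical
  have hB := hM.base
  have hEM := hE.EM
  have hiM := hE.iM
  have hσM := hE.σM
  have hom : ZFSet.omega ∈ M := hM.infinity
  have h0 : nat 0 ∈ M := hM.nat_mem 0
  have h1 : nat 1 ∈ M := hM.nat_mem 1
  obtain ⟨J, hJM, hJ⟩ := exists_funs hM hE hX hτ hK hR hgen
  obtain ⟨N, hNM, ν, hνM, hN, hν⟩ := exists_power hM hEM hσM hJM
  obtain ⟨e0, he0, he0'⟩ := hE.inj.1.2 (nat 0) (mem_omega_iff.2 ⟨0, rfl⟩)
  obtain ⟨e1, he1, he1'⟩ := hE.inj.1.2 (nat 1) (mem_omega_iff.2 ⟨1, rfl⟩)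
  have he0E : e0 ∈ E := (ZFSet.pair_mem_prod.1 (hE.inj.1.1 he0)).2
  have he1E : e1 ∈ E := (ZFSet.pair_mem_prod.1 (hE.inj.1.1 he1)).2
  have hne : e0 ≠ e1 := by
    rintro h2
    have h3 := hE.inj.2 _ _ _ (h2 ▸ he0) he1
    exact absurd (nat_injective h3) (by norm_num)
  obtain ⟨V0, hV0, V1, hV1, heV0, heV1, hV01⟩ := hE.haus e0 he0E e1 he1E hne
  have hval : ∀ f ∈ J, ∀ x ∈ X, ∃ e ∈ E, pair x e ∈ f ∧ ∀ e', pair x e' ∈ f → e' = e := by
    intro f hf x hx
    obtain ⟨e, he, he'⟩ := ((hJ f).1 hf).2.1.2 x hx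
    exact ⟨e, (ZFSet.pair_mem_prod.1 (((hJ f).1 hf).2.1.1 he)).2, he, he'⟩
  -- the evaluation
  let ev : ZFSet.{0} → ZFSet.{0} := fun x =>
    ZFSet.sep (fun p => ∃ f ∈ J, ∃ e ∈ E, p = pair f e ∧ pair x e ∈ f) (ZFSet.prod J E)
  have mem_ev : ∀ {x f e}, pair f e ∈ ev x ↔ f ∈ J ∧ e ∈ E ∧ pair x e ∈ f := by
    intro x f e
    simp only [ev]
    rw [ZFSet.mem_sep, ZFSet.pair_mem_prod]
    constructor
    · rintro ⟨⟨hf, he⟩, f', -, e', -, hp, h⟩
      obtain ⟨rfl, rfl⟩ := ZFSet.pair_inj.1 hp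
      exact ⟨hf, he, h⟩
    · rintro ⟨hf, he, h⟩
      exact ⟨⟨hf, he⟩, f, hf, e, he, rfl, h⟩
  have ev_N : ∀ x ∈ X, ev x ∈ N := by
    intro x hx
    have hxM := hM.trans _ hX _ hx
    refine (hN _).2 ⟨?_, fun z hz => (ZFSet.mem_sep.1 hz).1, fun f hf => ?_⟩
    · refine hM.sep_mem (Q := fun p => ∃ f ∈ J, ∃ e ∈ E, p = pair f e ∧ pair x e ∈ f) ?_
        (hM.prod_mem hJM hEM)
      (repeat' first
        | assumption
        | exact DfnF.proj _
        | exact DfnF.const (by assumption)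
        | exact DfnF.const' (by first | assumption | trivial) (by first | assumption | trivial)
        | exact Dfn.prop _
        | apply hB.isFunc' | apply hB.isInj' | apply hB.isBij' | apply hB.isOrdinal'
        | apply hB.subset' | apply hB.pair' | apply hB.insert'
        | apply Dfn.not | apply Dfn.and | apply Dfn.or | apply Dfn.imp | apply Dfn.iff
        | apply hB.bex | apply hB.ball | apply Dfn.ex | apply Dfn.all
        | apply Dfn.eq | apply Dfn.mem)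
    · obtain ⟨e, he, h2, h3⟩ := hval f hf x hx
      exact ⟨e, mem_ev.2 ⟨hf, he, h2⟩, fun e' he' => h3 e' (mem_ev.1 he').2.2⟩
  -- characteristic functions
  have hchi : ∀ k ∈ K, ∃ f ∈ J, ∀ x ∈ X, (pair x e1 ∈ f ↔ pair k x ∈ R) ∧
      (pair x e0 ∈ f ↔ pair k x ∉ R) := by
    intro k hk
    obtain ⟨f, hf, hc, h2⟩ := chi_fun hM hE hX hK hR hgen hk
    exact ⟨f, (hJ f).2 ⟨hf, hc⟩, fun x hx => ⟨(h2 x hx).1 e1 he1, (h2 x hx).2 e0 he0⟩⟩
  choose! χ hχJ hχ using hchi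
  have hχ1 : ∀ k ∈ K, ∀ x ∈ X, ∀ e, e ∈ V1 → pair x e ∈ χ k → pair k x ∈ R := by
    intro k hk x hx e heV he
    by_contra hno
    have h2 := (hχ k hk x hx).2.2 hno
    obtain ⟨e', -, h3, h4⟩ := hval _ (hχJ k hk) x hx
    rw [h4 e he, ← h4 e0 h2] at heV
    exact hV01 e0 heV0 heV
  have hχ0 : ∀ k ∈ K, ∀ x ∈ X, ∀ e, e ∈ V0 → pair x e ∈ χ k → pair k x ∉ R := by
    intro k hk x hx e heV he hno
    have h2 := (hχ k hk x hx).1.2 hno
    obtain ⟨e', -, h3, h4⟩ := hval _ (hχJ k hk) x hx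
    rw [h4 e he, ← h4 e1 h2] at heV
    exact hV01 e1 heV heV1
  -- the graph of the evaluation
  obtain ⟨h, hhM, hh⟩ : ∃ h ∈ M, ∀ p, p ∈ h ↔ ∃ x ∈ X, p = pair x (ev x) := by
    have h2 : ZFSet.sep (fun p => ∃ x ∈ X, ∃ g ∈ N, p = pair x g ∧ ∀ f ∈ J, ∀ e ∈ E,
        pair f e ∈ g → pair x e ∈ f) (ZFSet.prod X N) ∈ M := by
      refine hM.sep_mem (Q := fun p => ∃ x ∈ X, ∃ g ∈ N, p = pair x g ∧ ∀ f ∈ J, ∀ e ∈ E,
        pair f e ∈ g → pair x e ∈ f) ?_ (hM.prod_mem hX hNM)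
      (repeat' first
        | assumption
        | exact DfnF.proj _
        | exact DfnF.const (by assumption)
        | exact DfnF.const' (by first | assumption | trivial) (by first | assumption | trivial)
        | exact Dfn.prop _
        | apply hB.isFunc' | apply hB.isInj' | apply hB.isBij' | apply hB.isOrdinal'
        | apply hB.subset' | apply hB.pair' | apply hB.insert'
        | apply Dfn.not | apply Dfn.and | apply Dfn.or | apply Dfn.imp | apply Dfn.iff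
        | apply hB.bex | apply hB.ball | apply Dfn.ex | apply Dfn.all
        | apply Dfn.eq | apply Dfn.mem)
    refine ⟨_, h2, fun p => ?_⟩
    rw [ZFSet.mem_sep]
    constructor
    · rintro ⟨-, x, hx, g, hg, rfl, h3⟩
      refine ⟨x, hx, ?_⟩
      have h4 : g = ev x := by
        obtain ⟨-, h5, h6⟩ := (hN g).1 hg
        ext z
        constructor
        · intro hz
          obtain ⟨f, hf, e, he, rfl⟩ := ZFSet.mem_prod.1 (h5 hz)
          exact mem_ev.2 ⟨hf, he, h3 f hf e he hz⟩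
        · intro hz
          obtain ⟨f, hf, e, he, rfl⟩ := ZFSet.mem_prod.1 (((hN _).1 (ev_N x hx)).2.1 hz)
          obtain ⟨e', h7, -⟩ := h6 f hf
          have h8 := (ZFSet.pair_mem_prod.1 (h5 h7)).2
          obtain ⟨e'', -, h9, h10⟩ := hval f hf x hx
          rw [h10 e (mem_ev.1 hz).2.2, ← h10 e' (h3 f hf e' h8 h7)]
          exact h7
      rw [h4]
    · rintro ⟨x, hx, rfl⟩
      exact ⟨ZFSet.pair_mem_prod.2 ⟨hx, ev_N x hx⟩, x, hx, _, ev_N x hx, rfl,
        fun f _ e _ h3 => (mem_ev.1 h3).2.2⟩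
  have hpair : ∀ x g, pair x g ∈ h ↔ x ∈ X ∧ g = ev x := by
    intro x g
    rw [hh]
    constructor
    · rintro ⟨x', hx', hp⟩
      obtain ⟨rfl, rfl⟩ := ZFSet.pair_inj.1 hp
      exact ⟨hx', rfl⟩
    · rintro ⟨hx, rfl⟩
      exact ⟨x, hx, rfl⟩
  have ev_inj : ∀ x ∈ X, ∀ y ∈ X, ev x = ev y → x = y := by
    intro x hx y hy hxy
    refine hsep x hx y hy fun k hk => ?_
    rw [← (hχ k hk x hx).1, ← (hχ k hk y hy).1]
    have h2 : pair (χ k) e1 ∈ ev x ↔ pair (χ k) e1 ∈ ev y := by rw [hxy]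
    rw [mem_ev, mem_ev] at h2
    exact ⟨fun h3 => (h2.1 ⟨hχJ k hk, he1E, h3⟩).2.2, fun h3 => (h2.2 ⟨hχJ k hk, he1E, h3⟩).2.2⟩
  -- the image
  obtain ⟨C, hCM, hC⟩ : ∃ C ∈ M, ∀ g, g ∈ C ↔ ∃ x ∈ X, g = ev x := by
    have h2 : ZFSet.sep (fun g => ∃ x ∈ X, pair x g ∈ h) N ∈ M := by
      refine hM.sep_mem (Q := fun g => ∃ x ∈ X, pair x g ∈ h) ?_ hNM
      (repeat' first
        | assumption
        | exact DfnF.proj _
        | exact DfnF.const (by assumption)
        | exact DfnF.const' (by first | assumption | trivial) (by first | assumption | trivial)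
        | exact Dfn.prop _
        | apply hB.isFunc' | apply hB.isInj' | apply hB.isBij' | apply hB.isOrdinal'
        | apply hB.subset' | apply hB.pair' | apply hB.insert'
        | apply Dfn.not | apply Dfn.and | apply Dfn.or | apply Dfn.imp | apply Dfn.iff
        | apply hB.bex | apply hB.ball | apply Dfn.ex | apply Dfn.all
        | apply Dfn.eq | apply Dfn.mem)
    refine ⟨_, h2, fun g => ?_⟩
    rw [ZFSet.mem_sep]
    constructor
    · rintro ⟨-, x, hx, h3⟩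
      exact ⟨x, hx, ((hpair x g).1 h3).2⟩
    · rintro ⟨x, hx, rfl⟩
      exact ⟨ev_N x hx, x, hx, (hpair x _).2 ⟨hx, rfl⟩⟩
  have hCN : C ⊆ N := by
    intro g hg
    obtain ⟨x, hx, rfl⟩ := (hC g).1 hg
    exact ev_N x hx
  have hEval : ∀ x ∈ X, ∀ g, IsEval J x g ↔ g = ev x := by
    intro x hx g
    have h2 : ∀ z, z ∈ ev x ↔ ∃ f ∈ J, ∃ e, pair x e ∈ f ∧ z = pair f e := by
      intro z
      constructor
      · intro hz
        obtain ⟨f, hf, e, he, rfl⟩ := ZFSet.mem_prod.1 (((hN _).1 (ev_N x hx)).2.1 hz)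
        exact ⟨f, hf, e, (mem_ev.1 hz).2.2, rfl⟩
      · rintro ⟨f, hf, e, h3, rfl⟩
        exact mem_ev.2 ⟨hf, (ZFSet.pair_mem_prod.1 (((hJ f).1 hf).2.1.1 h3)).2, h3⟩
    constructor
    · intro h3
      ext z
      rw [h3 z, h2 z]
    · rintro rfl
      exact h2
  -- conclusion
  refine ⟨J, hJM, N, hNM, ν, hνM, C, hCM, h, hhM, hJ, hN, hν, hCN, fun g => ?_,
    ⟨⟨⟨⟨?_, ?_⟩, ?_⟩, ?_⟩, ?_⟩⟩
  · rw [hC]
    constructor
    · rintro ⟨x, hx, h2⟩
      exact ⟨x, hx, (hEval x hx g).2 h2⟩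
    · rintro ⟨x, hx, h2⟩
      exact ⟨x, hx, (hEval x hx g).1 h2⟩
  · intro z hz
    obtain ⟨x, hx, rfl⟩ := (hh z).1 hz
    exact ZFSet.pair_mem_prod.2 ⟨hx, (hC _).2 ⟨x, hx, rfl⟩⟩
  · intro x hx
    exact ⟨ev x, (hpair _ _).2 ⟨hx, rfl⟩, fun g hg => ((hpair _ _).1 hg).2⟩
  · intro a b c ha hb
    obtain ⟨ha1, ha2⟩ := (hpair _ _).1 ha
    obtain ⟨hb1, hb2⟩ := (hpair _ _).1 hb
    exact ev_inj a ha1 b hb1 (ha2.symm.trans hb2)
  · intro g hg
    obtain ⟨x, hx, rfl⟩ := (hC g).1 hg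
    exact ⟨x, hx, (hpair _ _).2 ⟨hx, rfl⟩⟩
  · intro U hUX
    rw [sub_pow hM hσM hJM hNM hν hCM hCN]
    have hmemA : ∀ g, g ∈ ZFSet.sep (fun y => ∃ x ∈ U, pair x y ∈ h) C ↔
        ∃ x ∈ U, g = ev x := by
      intro g
      rw [ZFSet.mem_sep]
      constructor
      · rintro ⟨-, x, hx, h2⟩
        exact ⟨x, hx, ((hpair _ _).1 h2).2⟩
      · rintro ⟨x, hx, rfl⟩
        exact ⟨(hC _).2 ⟨x, hUX hx, rfl⟩, x, hx, (hpair _ _).2 ⟨hUX hx, rfl⟩⟩
    constructor
    · intro hU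
      obtain ⟨hUM, -, hUn⟩ := (hgen U).1 hU
      refine ⟨?_, fun z hz => (ZFSet.mem_sep.1 hz).1, fun g hg => ?_⟩
      · refine hM.sep_mem (Q := fun y => ∃ x ∈ U, pair x y ∈ h) ?_ hCM
        (repeat' first
          | assumption
          | exact DfnF.proj _
          | exact DfnF.const (by assumption)
          | exact DfnF.const' (by first | assumption | trivial) (by first | assumption | trivial)
          | exact Dfn.prop _
          | apply hB.isFunc' | apply hB.isInj' | apply hB.isBij' | apply hB.isOrdinal'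
          | apply hB.subset' | apply hB.pair' | apply hB.insert'
          | apply Dfn.not | apply Dfn.and | apply Dfn.or | apply Dfn.imp | apply Dfn.iff
          | apply hB.bex | apply hB.ball | apply Dfn.ex | apply Dfn.all
          | apply Dfn.eq | apply Dfn.mem)
      · obtain ⟨x, hx, rfl⟩ := (hmemA g).1 hg
        obtain ⟨F, hF, h2⟩ := hUn x hx
        refine ⟨F.image fun k => (χ k, if pair k x ∈ R then V1 else V0), fun c hc => ?_,
          fun g' hg' h3 => ?_⟩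
        · obtain ⟨k, hk, rfl⟩ := Finset.mem_image.1 hc
          have hkK := hF k hk
          refine ⟨hχJ k hkK, ?_, ?_⟩
          · dsimp only
            split_ifs
            · exact hV1
            · exact hV0
          · dsimp only
            split_ifs with hkS
            · exact ⟨e1, heV1, mem_ev.2 ⟨hχJ k hkK, he1E, (hχ k hkK x (hUX hx)).1.2 hkS⟩⟩
            · exact ⟨e0, heV0, mem_ev.2 ⟨hχJ k hkK, he0E, (hχ k hkK x (hUX hx)).2.2 hkS⟩⟩
        · obtain ⟨y, hy, rfl⟩ := (hC g').1 hg'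
          refine (hmemA _).2 ⟨y, h2 y hy fun k hk => ?_, rfl⟩
          obtain ⟨e, he, h4⟩ := h3 _ (Finset.mem_image_of_mem _ hk)
          dsimp only at he h4
          have h5 := (mem_ev.1 h4).2.2
          by_cases hkS : pair k x ∈ R
          · rw [if_pos hkS] at he
            exact ⟨fun _ => hχ1 k (hF k hk) y hy e he h5, fun _ => hkS⟩
          · rw [if_neg hkS] at he
            exact ⟨fun h6 => absurd h6 hkS, fun h6 => absurd h6 (hχ0 k (hF k hk) y hy e he h5)⟩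
    · rintro ⟨hAM, -, hAn⟩
      have hUM : U ∈ M := by
        have h8 : U = ZFSet.sep (fun x => ∃ g ∈ ZFSet.sep (fun y => ∃ x ∈ U, pair x y ∈ h) C,
            pair x g ∈ h) X := by
          ext x
          rw [ZFSet.mem_sep]
          constructor
          · intro hx
            exact ⟨hUX hx, ev x, (hmemA _).2 ⟨x, hx, rfl⟩, (hpair _ _).2 ⟨hUX hx, rfl⟩⟩
          · rintro ⟨hx, g, hg, h2⟩
            obtain ⟨x', hx', rfl⟩ := (hmemA g).1 hg
            rw [ev_inj x hx x' (hUX hx') ((hpair _ _).1 h2).2.symm]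
            exact hx'
        rw [h8]
        generalize ZFSet.sep (fun y => ∃ x ∈ U, pair x y ∈ h) C = A at hAM
        refine hM.sep_mem (Q := fun x => ∃ g ∈ A, pair x g ∈ h) ?_ hX
        (repeat' first
          | assumption
          | exact DfnF.proj _
          | exact DfnF.const (by assumption)
          | exact DfnF.const' (by first | assumption | trivial) (by first | assumption | trivial)
          | exact Dfn.prop _
          | apply hB.isFunc' | apply hB.isInj' | apply hB.isBij' | apply hB.isOrdinal'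
          | apply hB.subset' | apply hB.pair' | apply hB.insert'
          | apply Dfn.not | apply Dfn.and | apply Dfn.or | apply Dfn.imp | apply Dfn.iff
          | apply hB.bex | apply hB.ball | apply Dfn.ex | apply Dfn.all
          | apply Dfn.eq | apply Dfn.mem)
      refine (hgen U).2 ⟨hUM, hUX, fun x hx => ?_⟩
      obtain ⟨F, hF, h2⟩ := hAn (ev x) ((hmemA _).2 ⟨x, hx, rfl⟩)
      -- the intersection of finitely many preimages
      have h3 : ∀ G : Finset (ZFSet.{0} × ZFSet.{0}), G ⊆ F →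
          ∃ U' , (∀ y ∈ X, y ∈ U' → ∀ c ∈ G, ∃ e ∈ c.2, pair c.1 e ∈ ev y) ∧ Nr X K R x U' := by
        intro G
        refine Finset.induction_on G (fun _ => ⟨X, fun y _ _ c hc => absurd hc (by simp), ∅,
          by simp, fun y hy _ => hy⟩) ?_
        intro c G _ ih hG
        obtain ⟨U', h4, h5⟩ := ih fun c hc => hG (Finset.mem_insert_of_mem hc)
        obtain ⟨hc1, hc2, e, he, h6⟩ := hF c (hG (Finset.mem_insert_self _ _))
        have h7 := ((hJ _).1 hc1).2.2 _ hc2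
        have h8 := ((hgen _).1 h7).2.2 x (mem_pre.2 ⟨hUX hx, e, he, (mem_ev.1 h6).2.2⟩)
        refine ⟨_, fun y hy hy' d hd => ?_, h5.inter h8⟩
        obtain ⟨h9, h10⟩ := ZFSet.mem_inter.1 hy'
        rcases Finset.mem_insert.1 hd with rfl | hd
        · obtain ⟨-, v, hv, h11⟩ := mem_pre.1 h10
          exact ⟨v, hv, mem_ev.2 ⟨hc1, (ZFSet.pair_mem_prod.1 (((hJ _).1 hc1).2.1.1 h11)).2, h11⟩⟩
        · exact h4 y hy h9 d hd
      obtain ⟨U', h4, h5⟩ := h3 F (Finset.Subset.refl _)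
      refine h5.mono fun y hy hy' => ?_
      obtain ⟨x', hx', h6⟩ := (hmemA _).1 (h2 (ev y) ((hC _).2 ⟨y, hy, rfl⟩) (h4 y hy hy'))
      rw [ev_inj y hy x' (hUX hx') h6]
      exact hx'

end

end Pool.Agent.Q211.TP
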