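import Pool.Agent.Q211.TP.Psc

/-!
# Ultrafilters in families of closed sets, on the chain
-/

set_option autoImplicit false
set_option linter.unusedSectionVars false
set_option linter.unreachableTactic false
set_option linter.unusedTactic false

namespace Pool.Agent.Q211.TP

open Pool.Agent.W868 Pool.Agent.W868.PName Pool.Agent.Q211.SY Pool.Agent.Q211.FS
open Pool.Agent.Q211.PA
open ZFSet (pair)

/-- In `M`, `F` is a filter in the family of the sets with the property `Fam`. -/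
structure IsFilt (M : Set ZFSet.{0}) (Fam : ZFSet.{0} → Prop) (F : ZFSet.{0}) : Prop where
  mem : F ∈ M
  fam : ∀ C ∈ F, Fam C
  ne : ∃ C, C ∈ F
  empty : ∅ ∉ F
  inter : ∀ A ∈ F, ∀ B ∈ F, A ∩ B ∈ F
  up : ∀ A ∈ F, ∀ B, Fam B → A ⊆ B → B ∈ F

/-- In `M`, `F` is a maximal filter in the family of the sets with the property `Fam`. -/
def IsUltra (M : Set ZFSet.{0}) (Fam : ZFSet.{0} → Prop) (F : ZFSet.{0}) : Prop :=
  IsFilt M Fam F ∧ ∀ G, IsFilt M Fam G → F ⊆ G → G = F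

/-- In `M`, the family `F` has the countable intersection property. -/
def HasCIP (M : Set ZFSet.{0}) (F : ZFSet.{0}) : Prop :=
  ∀ s ∈ M, ∀ A : ℕ → ZFSet.{0}, IsSeq s A → (∀ n, A n ∈ F) → ∃ z, ∀ n, z ∈ A n

/-- The family `F` has a common element. -/
def Fixed (F : ZFSet.{0}) : Prop := ∃ x, ∀ C ∈ F, x ∈ C

/-- The properties of the family that we use. -/
structure FamOK (M : Set ZFSet.{0}) (X τ : ZFSet.{0}) (Fam : ZFSet.{0} → Prop) : Prop where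
  sub : ∀ C, Fam C → C ⊆ X
  inter : ∀ C D, Fam C → Fam D → Fam (C ∩ D)
  clopen : ∀ V ∈ τ, X \ V ∈ τ → Fam V
  closed : ∀ C, Fam C → X \ C ∈ τ
  set : ∃ 𝒮 ∈ M, ∀ C, C ∈ 𝒮 ↔ Fam C

theorem ultra_dich {M : Set ZFSet.{0}} (hM : IsZF M) {X τ : ZFSet.{0}} {Fam : ZFSet.{0} → Prop}
    (hf : FamOK M X τ Fam) (hτM : τ ∈ M) {F : ZFSet.{0}} (hF : IsUltra M Fam F) {V : ZFSet.{0}}
    (hV : V ∈ τ) (hV' : X \ V ∈ τ) : V ∈ F ∨ X \ V ∈ F := by
  by_contra hno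
  push Not at hno
  have hB := hM.base
  obtain ⟨𝒮, h𝒮M, h𝒮⟩ := hf.set
  have hFM := hF.1.mem
  have hVM := hM.trans _ hτM _ hV
  have hVX : X \ (X \ V) = V := by
    have h2 := hf.sub V (hf.clopen V hV hV')
    ext z
    rw [ZFSet.mem_sdiff, ZFSet.mem_sdiff]
    constructor
    · rintro ⟨h3, h4⟩
      by_contra h5
      exact h4 ⟨h3, h5⟩
    · intro h3
      exact ⟨h2 h3, fun h4 => h4.2 h3⟩
  have hGM : ZFSet.sep (fun Z => ∃ C ∈ F, ∀ z ∈ C, z ∈ V → z ∈ Z) 𝒮 ∈ M := by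
    refine hM.sep_mem (Q := fun Z => ∃ C ∈ F, ∀ z ∈ C, z ∈ V → z ∈ Z) ?_ h𝒮M
    (repeat' first
      | assumption
      | exact DfnF.proj _
      | exact DfnF.const (by assumption)
      | exact DfnF.const' (by first | assumption | trivial) (by first | assumption | trivial)
      | exact Dfn.prop _
      | apply hB.isFunc' | apply hB.isInj' | apply hB.isBij' | apply hB.isOrdinal'
      | apply hB.subset' | apply hB.pair' | apply hB.insert'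
      | apply Dfn.not | apply Dfn.and | apply Dfn.or | apply Dfn.imp | apply Dfn.iff
      | apply hB.bex | apply hB.ball | apply Dfn.ex | apply Dfn.all
      | apply Dfn.eq | apply Dfn.mem)
  obtain ⟨C0, hC0⟩ := hF.1.ne
  have hG : IsFilt M Fam (ZFSet.sep (fun Z => ∃ C ∈ F, ∀ z ∈ C, z ∈ V → z ∈ Z) 𝒮) := by
    refine ⟨hGM, fun C hC => (h𝒮 C).1 (ZFSet.mem_sep.1 hC).1, ⟨C0, ZFSet.mem_sep.2
      ⟨(h𝒮 _).2 (hF.1.fam _ hC0), C0, hC0, fun z hz _ => hz⟩⟩, fun h1 => ?_,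
      fun A hA B hB' => ?_, fun A hA B hB' hAB => ?_⟩
    · obtain ⟨-, C, hC, h2⟩ := ZFSet.mem_sep.1 h1
      refine hno.2 (hF.1.up C hC _ (hf.clopen _ hV' (by rw [hVX]; exact hV)) fun z hz => ?_)
      refine ZFSet.mem_sdiff.2 ⟨hf.sub C (hF.1.fam C hC) hz, fun h3 => ?_⟩
      exact ZFSet.notMem_empty _ (h2 z hz h3)
    · obtain ⟨hA1, C, hC, h2⟩ := ZFSet.mem_sep.1 hA
      obtain ⟨hB1, D, hD, h3⟩ := ZFSet.mem_sep.1 hB'
      refine ZFSet.mem_sep.2 ⟨(h𝒮 _).2 (hf.inter _ _ ((h𝒮 _).1 hA1) ((h𝒮 _).1 hB1)), C ∩ D,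
        hF.1.inter C hC D hD, fun z hz hzV => ?_⟩
      obtain ⟨h4, h5⟩ := ZFSet.mem_inter.1 hz
      exact ZFSet.mem_inter.2 ⟨h2 z h4 hzV, h3 z h5 hzV⟩
    · obtain ⟨-, C, hC, h2⟩ := ZFSet.mem_sep.1 hA
      exact ZFSet.mem_sep.2 ⟨(h𝒮 _).2 hB', C, hC, fun z hz hzV => hAB (h2 z hz hzV)⟩
  have h1 := hF.2 _ hG fun C hC => ZFSet.mem_sep.2 ⟨(h𝒮 _).2 (hF.1.fam C hC), C, hC,
    fun z hz _ => hz⟩
  refine hno.1 ?_
  rw [← h1]
  exact ZFSet.mem_sep.2 ⟨(h𝒮 _).2 (hf.clopen V hV hV'), C0, hC0, fun z _ hz => hz⟩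

/-- Proper initial segments of the atoms are given by points. -/
theorem exists_pt {T : ℕ × ℤ → Prop} (hdown : ∀ a b, le a (.atm b) → T b → T a)
    (hno : ∃ b, ¬ T b) : ∃ p : Pt ℤ, p ≠ .inf ∧ ∀ a, T a ↔ le a p := by
  classical
  have hex : ∃ n : ℕ, ∃ z : ℤ, ¬ T (n, z) := by
    obtain ⟨b, hb⟩ := hno
    exact ⟨b.1, b.2, hb⟩
  obtain ⟨z0, hz0⟩ := Nat.find_spec hex
  have hlt : ∀ a : ℕ × ℤ, a.1 < Nat.find hex → T a := by
    intro a ha
    by_contra h1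
    exact Nat.find_min hex ha ⟨a.2, h1⟩
  by_cases hT : ∃ z, T (Nat.find hex, z)
  · have hbd : ∀ z, T (Nat.find hex, z) → z ≤ z0 := by
      intro z hz
      by_contra h1
      exact hz0 (hdown (Nat.find hex, z0) (Nat.find hex, z) (Or.inr ⟨rfl, (not_le.1 h1).le⟩) hz)
    obtain ⟨m, hm, hmax⟩ := Int.exists_greatest_of_bdd (P := fun z => T (Nat.find hex, z))
      ⟨z0, hbd⟩ hT
    refine ⟨.atm (Nat.find hex, m), by simp, fun a => ⟨fun ha => ?_, fun ha => hdown _ _ ha hm⟩⟩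
    rcases lt_trichotomy a.1 (Nat.find hex) with h1 | h1 | h1
    · exact Or.inl h1
    · refine Or.inr ⟨h1, hmax a.2 ?_⟩
      rw [← h1]
      exact ha
    · exact absurd (hdown _ _ (Or.inl h1) ha) hz0
  · push Not at hT
    refine ⟨.nd (Nat.find hex), by simp, fun a => ⟨fun ha => ?_, fun ha => hlt a ha⟩⟩
    change a.1 < Nat.find hex
    rcases lt_trichotomy a.1 (Nat.find hex) with h1 | h1 | h1
    · exact h1
    · exact absurd ha (by
        have h2 := hT a.2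
        rw [← h1] at h2
        exact h2)
    · exact absurd (hdown (Nat.find hex, z0) a (Or.inl h1) ha) hz0

namespace ChnM

variable {Z0 M : Set ZFSet.{0}} {pt : Pt ℤ → ZFSet.{0}}
  {c : ℕ × ℤ → ℕ} {X K R BL : ZFSet.{0}} (h : ChnM ℤ Z0 M pt c X K R BL)

include h

/-- The sequence of the final segments. -/
theorem exists_fin {S : ZFSet.{0}} (hS : S ∈ M) : ∃ s ∈ M, ∃ T : ℕ → ZFSet.{0}, IsSeq s T ∧
    ∀ n z, z ∈ T n ↔ z ∈ S ∧ ∀ a : ℕ × ℤ, a.1 < n → pair (pt (.atm a)) z ∈ R := by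
  have hM := h.zf
  have hB := hM.base
  have hKM := h.KM
  have hBM := h.BM
  have hRM := h.RM
  have hom : ZFSet.omega ∈ M := hM.infinity
  have hPM := PM_mem hM hS
  have hT : ∀ n : ℕ, ∀ z, (∀ m ∈ nat n, ∀ a ∈ K, pair m a ∈ BL → pair a z ∈ R) ↔
      ∀ a : ℕ × ℤ, a.1 < n → pair (pt (.atm a)) z ∈ R := by
    intro n z
    constructor
    · intro h1 a ha
      exact h1 (nat a.1) (nat_mem_nat.2 ha) _ ((h.mK _).2 ⟨a, rfl⟩) ((h.mB _).2 ⟨a, rfl⟩)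
    · intro h1 m hm a ha hma
      obtain ⟨x, hx⟩ := (h.mB _).1 hma
      obtain ⟨rfl, rfl⟩ := ZFSet.pair_inj.1 hx
      exact h1 x (nat_mem_nat.1 hm)
  have hTM : ∀ n : ℕ, ZFSet.sep (fun z => ∀ m ∈ nat n, ∀ a ∈ K, pair m a ∈ BL →
      pair a z ∈ R) S ∈ M := by
    intro n
    have hn := hM.nat_mem n
    generalize nat n = m at hn
    refine hM.sep_mem (Q := fun z => ∀ m' ∈ m, ∀ a ∈ K, pair m' a ∈ BL → pair a z ∈ R) ?_ hS
    (repeat' first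
      | assumption
      | exact DfnF.proj _
      | exact DfnF.const (by assumption)
      | exact DfnF.const' (by first | assumption | trivial) (by first | assumption | trivial)
      | exact Dfn.prop _
      | apply hB.isFunc' | apply hB.isInj' | apply hB.isBij' | apply hB.isOrdinal'
      | apply hB.subset' | apply hB.pair' | apply hB.insert'
      | apply Dfn.not | apply Dfn.and | apply Dfn.or | apply Dfn.imp | apply Dfn.iff
      | apply hB.bex | apply hB.ball | apply Dfn.ex | apply Dfn.all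
      | apply Dfn.eq | apply Dfn.mem)
  have hsM : ZFSet.sep (fun q => ∃ k ∈ ZFSet.omega, ∃ U ∈ PM M S, q = pair k U ∧
      ∀ z ∈ S, (z ∈ U ↔ ∀ m ∈ k, ∀ a ∈ K, pair m a ∈ BL → pair a z ∈ R))
      (ZFSet.prod ZFSet.omega (PM M S)) ∈ M := by
    generalize PM M S = P at hPM
    refine hM.sep_mem (Q := fun q => ∃ k ∈ ZFSet.omega, ∃ U ∈ P, q = pair k U ∧
      ∀ z ∈ S, (z ∈ U ↔ ∀ m ∈ k, ∀ a ∈ K, pair m a ∈ BL → pair a z ∈ R)) ?_
      (hM.prod_mem hom hPM)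
    (repeat' first
      | assumption
      | exact DfnF.proj _
      | exact DfnF.const (by assumption)
      | exact DfnF.const' (by first | assumption | trivial) (by first | assumption | trivial)
      | exact Dfn.prop _
      | apply hB.isFunc' | apply hB.isInj' | apply hB.isBij' | apply hB.isOrdinal'
      | apply hB.subset' | apply hB.pair' | apply hB.insert'
      | apply Dfn.not | apply Dfn.and | apply Dfn.or | apply Dfn.imp | apply Dfn.iff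
      | apply hB.bex | apply hB.ball | apply Dfn.ex | apply Dfn.all
      | apply Dfn.eq | apply Dfn.mem)
  refine ⟨_, hsM, fun n => ZFSet.sep (fun z => ∀ m ∈ nat n, ∀ a ∈ K, pair m a ∈ BL →
      pair a z ∈ R) S, fun q => ?_, fun n z => ?_⟩
  · rw [ZFSet.mem_sep]
    constructor
    · rintro ⟨-, k, hk, U, hU, rfl, h1⟩
      obtain ⟨k, rfl⟩ := mem_omega_iff.1 hk
      refine ⟨k, ?_⟩
      congr 1
      ext z
      rw [ZFSet.mem_sep]
      exact ⟨fun hz => ⟨(mem_PM.1 hU).2 hz, (h1 z ((mem_PM.1 hU).2 hz)).1 hz⟩,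
        fun hz => (h1 z hz.1).2 hz.2⟩
    · rintro ⟨k, rfl⟩
      have hU : ZFSet.sep (fun z => ∀ m ∈ nat k, ∀ a ∈ K, pair m a ∈ BL →
          pair a z ∈ R) S ∈ PM M S := mem_PM.2 ⟨hTM k, fun z hz => (ZFSet.mem_sep.1 hz).1⟩
      refine ⟨ZFSet.pair_mem_prod.2 ⟨mem_omega_iff.2 ⟨k, rfl⟩, hU⟩, _,
        mem_omega_iff.2 ⟨k, rfl⟩, _, hU, rfl, fun z hz => ?_⟩
      rw [ZFSet.mem_sep]
      exact ⟨fun h1 => h1.2, fun h1 => ⟨hz, h1⟩⟩
  · rw [ZFSet.mem_sep, hT]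

/-- Ultrafilters with the countable intersection property are fixed. -/
theorem ultra_fixed {S : ZFSet.{0}} (hS : h.Sub (fun p => p ≠ .inf) S) {τ : ZFSet.{0}}
    (hτM : τ ∈ M) (hτ : GenBy M S τ K R) {Fam : ZFSet.{0} → Prop} (hf : FamOK M S τ Fam)
    (hT : ∀ n : ℕ, ∀ T, (∀ z, z ∈ T ↔ z ∈ S ∧ ∀ a : ℕ × ℤ, a.1 < n →
      pair (pt (.atm a)) z ∈ R) → Fam T) {F : ZFSet.{0}} (hF : IsUltra M Fam F)
    (hcip : HasCIP M F) : Fixed F := by
  classical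
  have hM := h.zf
  have hRM := h.RM
  have hSM := hS.1
  let Qa : ℕ × ℤ → ZFSet.{0} := fun a => ZFSet.sep (fun z => pair (pt (.atm a)) z ∈ R) S
  have haK : ∀ a : ℕ × ℤ, pt (.atm a) ∈ K := fun a => (h.mK _).2 ⟨a, rfl⟩
  have haM : ∀ a : ℕ × ℤ, pt (.atm a) ∈ M := fun a => hM.trans _ h.KM _ (haK a)
  have hQ : ∀ a, Qa a ∈ τ := fun a => hτ.pos hM hSM hRM (haK a) (haM a)
  have hQc : ∀ a, S \ Qa a = ZFSet.sep (fun z => pair (pt (.atm a)) z ∉ R) S := by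
    intro a
    ext z
    rw [ZFSet.mem_sdiff, ZFSet.mem_sep, ZFSet.mem_sep]
    exact ⟨fun h1 => ⟨h1.1, fun h2 => h1.2 ⟨h1.1, h2⟩⟩, fun h1 => ⟨h1.1, fun h2 => h1.2 h2.2⟩⟩
  have hQ' : ∀ a, S \ Qa a ∈ τ := by
    intro a
    rw [hQc]
    exact hτ.neg hM hSM hRM (haK a) (haM a)
  have hdich : ∀ a, Qa a ∈ F ∨ S \ Qa a ∈ F := fun a => ultra_dich hM hf hτM hF (hQ a) (hQ' a)
  have hdown : ∀ a b, le a (.atm b) → Qa b ∈ F → Qa a ∈ F := by
    intro a b hab hb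
    refine hF.1.up _ hb _ (hf.clopen _ (hQ a) (hQ' a)) fun z hz => ?_
    obtain ⟨hz1, hz2⟩ := ZFSet.mem_sep.1 hz
    obtain ⟨p, hp, rfl⟩ := (hS.2 z).1 hz1
    rw [h.R_iff] at hz2
    exact ZFSet.mem_sep.2 ⟨hz1, h.R_iff.2 (le_down hab hz2)⟩
  have hnall : ∃ b, ¬ Qa b ∈ F := by
    by_contra hall
    push Not at hall
    obtain ⟨s, hs, T, hsT, hTz⟩ := h.exists_fin hSM
    obtain ⟨z, hz⟩ := hcip s hs T hsT fun n => by
      refine hF.1.up _ (hall (n, 0)) _ (hT n _ (hTz n)) fun z hz => ?_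
      obtain ⟨hz1, hz2⟩ := ZFSet.mem_sep.1 hz
      obtain ⟨p, hp, rfl⟩ := (hS.2 z).1 hz1
      rw [h.R_iff] at hz2
      refine (hTz n _).2 ⟨hz1, fun a ha => h.R_iff.2 (le_down (Or.inl ha) hz2)⟩
    obtain ⟨p, hp, rfl⟩ := (hS.2 z).1 ((hTz 0 z).1 (hz 0)).1
    refine hp (pt_sep fun a => ⟨fun _ => trivial, fun _ => ?_⟩)
    exact h.R_iff.1 (((hTz (a.1 + 1) _).1 (hz (a.1 + 1))).2 a (Nat.lt_succ_self _))
  obtain ⟨p, hp, hpT⟩ := exists_pt (T := fun a => Qa a ∈ F) hdown hnall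
  refine ⟨pt p, fun C hC => ?_⟩
  by_contra hpC
  have h1 := ((hτ _).1 (hf.closed C (hF.1.fam C hC))).2.2 (pt p)
    (ZFSet.mem_sdiff.2 ⟨hS.mem.2 hp, hpC⟩)
  obtain ⟨F0, hF0⟩ := (h.nr_pt hS).1 h1
  have h2 : ∀ G : Finset (ℕ × ℤ), ∃ D ∈ F, ∀ q, q ≠ .inf → pt q ∈ D →
      ∀ a ∈ G, (le a p ↔ le a q) := by
    intro G
    refine Finset.induction_on G ⟨C, hC, fun q _ _ a ha => absurd ha (by simp)⟩ ?_
    rintro a G - ⟨D, hD, h3⟩
    by_cases hap : le a p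
    · refine ⟨D ∩ Qa a, hF.1.inter _ hD _ ((hpT a).2 hap), fun q hq hqD b hb => ?_⟩
      obtain ⟨h4, h5⟩ := ZFSet.mem_inter.1 hqD
      rcases Finset.mem_insert.1 hb with rfl | hb
      · exact ⟨fun _ => h.R_iff.1 (ZFSet.mem_sep.1 h5).2, fun _ => hap⟩
      · exact h3 q hq h4 b hb
    · have h6 : S \ Qa a ∈ F := (hdich a).resolve_left fun h7 => hap ((hpT a).1 h7)
      refine ⟨D ∩ (S \ Qa a), hF.1.inter _ hD _ h6, fun q hq hqD b hb => ?_⟩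
      obtain ⟨h4, h5⟩ := ZFSet.mem_inter.1 hqD
      rcases Finset.mem_insert.1 hb with rfl | hb
      · rw [hQc] at h5
        exact ⟨fun h7 => absurd h7 hap, fun h7 => absurd (h.R_iff.2 h7) (ZFSet.mem_sep.1 h5).2⟩
      · exact h3 q hq h4 b hb
  obtain ⟨D, hD, h3⟩ := h2 F0
  have h4 := hF.1.inter _ hD _ hC
  have h5 : ∃ z, z ∈ D ∩ C := by
    by_contra h6
    push Not at h6
    have h7 : D ∩ C = ∅ := by
      ext z
      exact ⟨fun hz => absurd hz (h6 z), fun hz => absurd hz (ZFSet.notMem_empty _)⟩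
    rw [h7] at h4
    exact hF.1.empty h4
  obtain ⟨z, hz⟩ := h5
  obtain ⟨hzD, hzC⟩ := ZFSet.mem_inter.1 hz
  obtain ⟨q, hq, rfl⟩ := (hS.2 z).1 (hf.sub C (hF.1.fam C hC) hzC)
  exact (ZFSet.mem_sdiff.1 (hF0 q hq (h3 q hq hzD))).2 hzC

end ChnM

end Pool.Agent.Q211.TP
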