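import Pool.Agent.Q211.TP.Defs

/-!
# Topologies generated by a family of clopen sets
-/

set_option autoImplicit false
set_option linter.unusedSectionVars false
set_option linter.unreachableTactic false
set_option linter.unusedTactic false

namespace Pool.Agent.Q211.TP

open Pool.Agent.W868 Pool.Agent.W868.PName Pool.Agent.Q211.SY Pool.Agent.Q211.FS
open ZFSet (pair)

theorem exists_fin_mem {M : Set ZFSet.{0}} (hM : IsZF M) (F : Finset ZFSet.{0}) :
    (∀ z ∈ F, z ∈ M) → ∃ c ∈ M, ∀ z, z ∈ c ↔ z ∈ F := by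
  classical
  refine Finset.induction_on F (fun _ => ⟨∅, hM.empty_mem, fun z => ?_⟩) ?_
  · constructor
    · intro h
      exact absurd h (ZFSet.notMem_empty _)
    · intro h
      exact absurd h (Finset.notMem_empty _)
  · intro a s _ ih h
    obtain ⟨c, hc, hc'⟩ := ih fun z hz => h z (Finset.mem_insert_of_mem hz)
    refine ⟨insert a c, hM.insert_mem (h a (Finset.mem_insert_self _ _)) hc, fun z => ?_⟩
    rw [ZFSet.mem_insert_iff, Finset.mem_insert, hc']

theorem dfn_fin {M : Set ZFSet.{0}} (hM : IsZF M) :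
    Dfn M M fun w : Fin 1 → ZFSet.{0} => {z | z ∈ w 0}.Finite := by
  have hB := hM.base
  have hom : ZFSet.omega ∈ M := hM.infinity
  refine Dfn.congr (R := fun w : Fin 1 → ZFSet.{0} => ∃ m ∈ ZFSet.omega, ∃ g ∈ M,
    IsBij m (w 0) g) ?_ fun v hv => (finite_iff hM (hv 0)).symm
  (repeat' first
    | assumption
    | exact DfnF.proj _
    | exact DfnF.const (by assumption)
    | exact DfnF.const' (by first | assumption | trivial) (by first | assumption | trivial)
    | exact Dfn.prop _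
    | apply hB.isFunc' | apply hB.isInj' | apply hB.isBij' | apply hB.isOrdinal'
    | apply hB.subset' | apply hB.pair' | apply hB.insert'
    | apply Dfn.not | apply Dfn.and | apply Dfn.or | apply Dfn.imp | apply Dfn.iff
    | apply hB.bex | apply hB.ball | apply Dfn.ex | apply Dfn.all
    | apply Dfn.eq | apply Dfn.mem)

/-- The set `U` contains all elements of `X` that agree with `x` on finitely many of the
relations given by `R` and the elements of `K`. -/
def Nr (X K R x U : ZFSet.{0}) : Prop := ∃ F : Finset ZFSet.{0}, (∀ k ∈ F, k ∈ K) ∧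
  ∀ y ∈ X, (∀ k ∈ F, (pair k x ∈ R ↔ pair k y ∈ R)) → y ∈ U

/-- In `M`, the topology `τ` of `X` is generated by the sets `{x | pair k x ∈ R}` and
their complements, for `k` in `K`. -/
def GenBy (M : Set ZFSet.{0}) (X τ K R : ZFSet.{0}) : Prop :=
  ∀ U, U ∈ τ ↔ U ∈ M ∧ U ⊆ X ∧ ∀ x ∈ U, Nr X K R x U

section

variable {M : Set ZFSet.{0}} (hM : IsZF M) {X τ K R : ZFSet.{0}}

include hM

theorem nr_iff (hK : K ∈ M) {x U : ZFSet.{0}} : Nr X K R x U ↔
    ∃ c ∈ M, c ⊆ K ∧ {z | z ∈ c}.Finite ∧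
      ∀ y ∈ X, (∀ k ∈ c, (pair k x ∈ R ↔ pair k y ∈ R)) → y ∈ U := by
  constructor
  · rintro ⟨F, hF, h⟩
    obtain ⟨c, hc, hc'⟩ := exists_fin_mem hM F fun z hz => hM.trans _ hK _ (hF z hz)
    refine ⟨c, hc, fun z hz => hF z ((hc' z).1 hz), ?_, fun y hy h1 => h y hy fun k hk =>
      h1 k ((hc' k).2 hk)⟩
    refine F.finite_toSet.subset fun z hz => (hc' z).1 hz
  · rintro ⟨c, hc, hcK, hf, h⟩
    refine ⟨hf.toFinset, fun k hk => hcK (hf.mem_toFinset.1 hk), fun y hy h1 =>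
      h y hy fun k hk => h1 k (hf.mem_toFinset.2 hk)⟩

theorem dfn_Nr (hX : X ∈ M) (hK : K ∈ M) (hR : R ∈ M) :
    Dfn M M fun w : Fin 2 → ZFSet.{0} => Nr X K R (w 0) (w 1) := by
  have hB := hM.base
  have hf := dfn_fin hM
  refine Dfn.congr (R := fun w : Fin 2 → ZFSet.{0} => ∃ c ∈ M, c ⊆ K ∧ {z | z ∈ c}.Finite ∧
      ∀ y ∈ X, (∀ k ∈ c, (pair k (w 0) ∈ R ↔ pair k y ∈ R)) → y ∈ w 1) ?_
      fun v _ => (nr_iff hM hK).symm
  (repeat' first
    | first | apply Dfn.comp1 (Q := fun a : ZFSet.{0} => {z | z ∈ a}.Finite) hf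
    | assumption
    | exact DfnF.proj _
    | exact DfnF.const (by assumption)
    | exact DfnF.const' (by first | assumption | trivial) (by first | assumption | trivial)
    | exact Dfn.prop _
    | apply hB.isFunc' | apply hB.isInj' | apply hB.isBij' | apply hB.isOrdinal'
    | apply hB.subset' | apply hB.pair' | apply hB.insert'
    | apply Dfn.not | apply Dfn.and | apply Dfn.or | apply Dfn.imp | apply Dfn.iff
    | apply hB.bex | apply hB.ball | apply Dfn.ex | apply Dfn.all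
    | apply Dfn.eq | apply Dfn.mem)

theorem exists_gen (hX : X ∈ M) (hK : K ∈ M) (hR : R ∈ M) : ∃ τ ∈ M, GenBy M X τ K R := by
  have hB := hM.base
  have hn := dfn_Nr hM hX hK hR
  refine ⟨ZFSet.sep (fun U => ∀ x ∈ U, Nr X K R x U) (PM M X), hM.sep_mem
    (Q := fun U => ∀ x ∈ U, Nr X K R x U) ?_ (PM_mem hM hX), fun U => ?_⟩
  · (repeat' first
      | first | apply Dfn.comp2 (Q := fun a b => Nr X K R a b) hn
      | assumption
      | exact DfnF.proj _
      | exact DfnF.const (by assumption)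
      | exact DfnF.const' (by first | assumption | trivial) (by first | assumption | trivial)
      | exact Dfn.prop _
      | apply hB.isFunc' | apply hB.isInj' | apply hB.isBij' | apply hB.isOrdinal'
      | apply hB.subset' | apply hB.pair' | apply hB.insert'
      | apply Dfn.not | apply Dfn.and | apply Dfn.or | apply Dfn.imp | apply Dfn.iff
      | apply hB.bex | apply hB.ball | apply Dfn.ex | apply Dfn.all
      | apply Dfn.eq | apply Dfn.mem)
  · rw [ZFSet.mem_sep, mem_PM, and_assoc]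

end

theorem Nr.mono {X K R x U V : ZFSet.{0}} (h : Nr X K R x U) (hUV : ∀ y ∈ X, y ∈ U → y ∈ V) :
    Nr X K R x V := by
  obtain ⟨F, hF, h⟩ := h
  exact ⟨F, hF, fun y hy h1 => hUV y hy (h y hy h1)⟩

theorem Nr.inter {X K R x U V : ZFSet.{0}} (h : Nr X K R x U) (h' : Nr X K R x V) :
    Nr X K R x (U ∩ V) := by
  classical
  obtain ⟨F, hF, h⟩ := h
  obtain ⟨G, hG, h'⟩ := h'
  refine ⟨F ∪ G, fun k hk => ?_, fun y hy h1 => ZFSet.mem_inter.2 ⟨h y hy fun k hk =>
    h1 k (Finset.mem_union_left _ hk), h' y hy fun k hk => h1 k (Finset.mem_union_right _ hk)⟩⟩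
  rcases Finset.mem_union.1 hk with hk | hk
  · exact hF k hk
  · exact hG k hk

namespace GenBy

variable {M : Set ZFSet.{0}} {X τ K R : ZFSet.{0}}

theorem uniq {τ' : ZFSet.{0}} (h : GenBy M X τ K R) (h' : GenBy M X τ' K R) : τ = τ' := by
  ext U
  rw [h, h']

theorem mem_iff (h : GenBy M X τ K R) {U : ZFSet.{0}} (hU : U ∈ M) (hUX : U ⊆ X) :
    U ∈ τ ↔ ∀ x ∈ U, Nr X K R x U := by
  rw [h]
  exact ⟨fun h => h.2.2, fun h => ⟨hU, hUX, h⟩⟩

theorem top (hM : IsZF M) (h : GenBy M X τ K R) (hX : X ∈ M) : IsTopIn M X τ := by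
  refine ⟨fun U hU => ((h U).1 hU).2.1, (h X).2 ⟨hX, fun _ h => h, fun x _ =>
    ⟨∅, by simp, fun y hy _ => hy⟩⟩, fun U hU V hV => ?_, fun C hC hCτ => ?_⟩
  · obtain ⟨h1, h2, h3⟩ := (h U).1 hU
    obtain ⟨h4, h5, h6⟩ := (h V).1 hV
    have h7 : U ∩ V ∈ M := by
      have hB := hM.base
      have h8 : U ∩ V = ZFSet.sep (fun z => z ∈ V) U := by
        ext z
        rw [ZFSet.mem_inter, ZFSet.mem_sep]
      rw [h8]
      exact hM.sep_mem (Q := fun z => z ∈ V) (Dfn.mem (DfnF.proj 0) (DfnF.const h4)) h1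
    exact (h _).2 ⟨h7, fun z hz => h2 (ZFSet.mem_inter.1 hz).1, fun x hx =>
      (h3 x (ZFSet.mem_inter.1 hx).1).inter (h6 x (ZFSet.mem_inter.1 hx).2)⟩
  · refine (h _).2 ⟨hM.union _ hC, fun z hz => ?_, fun x hx => ?_⟩
    · obtain ⟨U, hU, hz⟩ := ZFSet.mem_sUnion.1 hz
      exact ((h U).1 (hCτ hU)).2.1 hz
    · obtain ⟨U, hU, hx⟩ := ZFSet.mem_sUnion.1 hx
      exact (((h U).1 (hCτ hU)).2.2 x hx).mono fun y _ hy => ZFSet.mem_sUnion.2 ⟨U, hU, hy⟩

theorem pos (hM : IsZF M) (h : GenBy M X τ K R) (hX : X ∈ M) (hR : R ∈ M) {k : ZFSet.{0}}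
    (hk : k ∈ K) (hkM : k ∈ M) : ZFSet.sep (fun x => pair k x ∈ R) X ∈ τ := by
  have hB := hM.base
  refine (h _).2 ⟨hM.sep_mem (Q := fun x => pair k x ∈ R) ?_ hX, fun z hz =>
    (ZFSet.mem_sep.1 hz).1, fun x hx => ⟨{k}, ?_, fun y hy h1 => ?_⟩⟩
  · (repeat' first
      | assumption
      | exact DfnF.proj _
      | exact DfnF.const (by assumption)
      | exact DfnF.const' (by first | assumption | trivial) (by first | assumption | trivial)
      | exact Dfn.prop _
      | apply hB.isFunc' | apply hB.isInj' | apply hB.isBij' | apply hB.isOrdinal'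
      | apply hB.subset' | apply hB.pair' | apply hB.insert'
      | apply Dfn.not | apply Dfn.and | apply Dfn.or | apply Dfn.imp | apply Dfn.iff
      | apply hB.bex | apply hB.ball | apply Dfn.ex | apply Dfn.all
      | apply Dfn.eq | apply Dfn.mem)
  · intro l hl
    rw [Finset.mem_singleton.1 hl]
    exact hk
  · exact ZFSet.mem_sep.2 ⟨hy, (h1 k (Finset.mem_singleton_self _)).1 (ZFSet.mem_sep.1 hx).2⟩

theorem neg (hM : IsZF M) (h : GenBy M X τ K R) (hX : X ∈ M) (hR : R ∈ M) {k : ZFSet.{0}}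
    (hk : k ∈ K) (hkM : k ∈ M) : ZFSet.sep (fun x => pair k x ∉ R) X ∈ τ := by
  have hB := hM.base
  refine (h _).2 ⟨hM.sep_mem (Q := fun x => pair k x ∉ R) ?_ hX, fun z hz =>
    (ZFSet.mem_sep.1 hz).1, fun x hx => ⟨{k}, ?_, fun y hy h1 => ?_⟩⟩
  · (repeat' first
      | assumption
      | exact DfnF.proj _
      | exact DfnF.const (by assumption)
      | exact DfnF.const' (by first | assumption | trivial) (by first | assumption | trivial)
      | exact Dfn.prop _
      | apply hB.isFunc' | apply hB.isInj' | apply hB.isBij' | apply hB.isOrdinal'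
      | apply hB.subset' | apply hB.pair' | apply hB.insert'
      | apply Dfn.not | apply Dfn.and | apply Dfn.or | apply Dfn.imp | apply Dfn.iff
      | apply hB.bex | apply hB.ball | apply Dfn.ex | apply Dfn.all
      | apply Dfn.eq | apply Dfn.mem)
  · intro l hl
    rw [Finset.mem_singleton.1 hl]
    exact hk
  · exact ZFSet.mem_sep.2 ⟨hy, fun h2 => (ZFSet.mem_sep.1 hx).2
      ((h1 k (Finset.mem_singleton_self _)).2 h2)⟩

/-- The subspace topology. -/
theorem sub (hM : IsZF M) (h : GenBy M X τ K R) (hX : X ∈ M) (hK : K ∈ M) (hR : R ∈ M)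
    {S : ZFSet.{0}} (hS : S ∈ M) (hSX : S ⊆ X) : GenBy M S (subTop τ S) K R := by
  have hB := hM.base
  intro U
  rw [mem_subTop]
  constructor
  · rintro ⟨V, hV, rfl⟩
    obtain ⟨h1, h2, h3⟩ := (h V).1 hV
    refine ⟨?_, fun z hz => (ZFSet.mem_inter.1 hz).2, fun x hx => ?_⟩
    · have h8 : V ∩ S = ZFSet.sep (fun z => z ∈ S) V := by
        ext z
        rw [ZFSet.mem_inter, ZFSet.mem_sep]
      rw [h8]
      exact hM.sep_mem (Q := fun z => z ∈ S) (Dfn.mem (DfnF.proj 0) (DfnF.const hS)) h1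
    · obtain ⟨F, hF, h4⟩ := h3 x (ZFSet.mem_inter.1 hx).1
      exact ⟨F, hF, fun y hy h5 => ZFSet.mem_inter.2 ⟨h4 y (hSX hy) h5, hy⟩⟩
  · rintro ⟨h1, h2, h3⟩
    have hf := dfn_fin hM
    have hVM : ZFSet.sep (fun y => ∃ x ∈ U, ∃ c ∈ M, c ⊆ K ∧ {z | z ∈ c}.Finite ∧
      (∀ k ∈ c, (pair k x ∈ R ↔ pair k y ∈ R)) ∧
      ∀ y' ∈ S, (∀ k ∈ c, (pair k x ∈ R ↔ pair k y' ∈ R)) → y' ∈ U) X ∈ M := by
      refine hM.sep_mem (Q := fun y => ∃ x ∈ U, ∃ c ∈ M, c ⊆ K ∧ {z | z ∈ c}.Finite ∧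
        (∀ k ∈ c, (pair k x ∈ R ↔ pair k y ∈ R)) ∧
        ∀ y' ∈ S, (∀ k ∈ c, (pair k x ∈ R ↔ pair k y' ∈ R)) → y' ∈ U) ?_ hX
      (repeat' first
        | first | apply Dfn.comp1 (Q := fun a : ZFSet.{0} => {z | z ∈ a}.Finite) hf
        | assumption
        | exact DfnF.proj _
        | exact DfnF.const (by assumption)
        | exact DfnF.const' (by first | assumption | trivial) (by first | assumption | trivial)
        | exact Dfn.prop _
        | apply hB.isFunc' | apply hB.isInj' | apply hB.isBij' | apply hB.isOrdinal'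
        | apply hB.subset' | apply hB.pair' | apply hB.insert'
        | apply Dfn.not | apply Dfn.and | apply Dfn.or | apply Dfn.imp | apply Dfn.iff
        | apply hB.bex | apply hB.ball | apply Dfn.ex | apply Dfn.all
        | apply Dfn.eq | apply Dfn.mem)
    refine ⟨_, (h _).2 ⟨hVM, fun z hz => (ZFSet.mem_sep.1 hz).1, fun y hy => ?_⟩, ?_⟩
    · obtain ⟨-, x, hx, c, hc, hcK, hfin, h4, h5⟩ := ZFSet.mem_sep.1 hy
      refine ⟨hfin.toFinset, fun k hk => hcK (hfin.mem_toFinset.1 hk), fun y' hy' h6 =>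
        ZFSet.mem_sep.2 ⟨hy', x, hx, c, hc, hcK, hfin, fun k hk => ?_, h5⟩⟩
      exact (h4 k hk).trans (h6 k (hfin.mem_toFinset.2 hk))
    · ext y
      rw [ZFSet.mem_inter, ZFSet.mem_sep]
      constructor
      · intro hy
        obtain ⟨c, hc, hcK, hfin, h4⟩ := (nr_iff hM hK).1 (h3 y hy)
        exact ⟨⟨hSX (h2 hy), y, hy, c, hc, hcK, hfin, fun _ _ => Iff.rfl, h4⟩, h2 hy⟩
      · rintro ⟨⟨-, x, hx, c, hc, hcK, hfin, h4, h5⟩, hy⟩
        exact h5 y hy h4

/-- Separated points: the space is a zero-dimensional `T₁` space. -/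
theorem zeroDim (hM : IsZF M) (h : GenBy M X τ K R) (hX : X ∈ M) (hK : K ∈ M) (hR : R ∈ M)
    (hsep : ∀ x ∈ X, ∀ y ∈ X, (∀ k ∈ K, (pair k x ∈ R ↔ pair k y ∈ R)) → x = y) :
    ZeroDim X τ := by
  have hB := hM.base
  constructor
  · intro x hx
    have hxM := hM.trans _ hX _ hx
    have h8 : X \ {x} = ZFSet.sep (fun z => z ≠ x) X := by
      ext z
      rw [ZFSet.mem_sep, ZFSet.mem_sdiff, ZFSet.mem_singleton]
    rw [h8]
    refine (h _).2 ⟨hM.sep_mem (Q := fun z => z ≠ x) ?_ hX, fun z hz =>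
      (ZFSet.mem_sep.1 hz).1, fun y hy => ?_⟩
    · exact Dfn.not (Dfn.eq (DfnF.proj 0) (DfnF.const hxM))
    · obtain ⟨hy, hyx⟩ := ZFSet.mem_sep.1 hy
      obtain ⟨k, hk, h1⟩ : ∃ k ∈ K, ¬ (pair k y ∈ R ↔ pair k x ∈ R) := by
        by_contra hno
        push Not at hno
        exact hyx (hsep y hy x hx fun k hk => hno k hk)
      refine ⟨{k}, ?_, fun z hz h2 => ZFSet.mem_sep.2 ⟨hz, ?_⟩⟩
      · intro l hl
        rw [Finset.mem_singleton.1 hl]
        exact hk
      · rintro rfl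
        exact h1 (h2 k (Finset.mem_singleton_self _))
  · intro U hU x hx
    obtain ⟨hUM, hUX, h1⟩ := (h U).1 hU
    obtain ⟨c, hc, hcK, hfin, h2⟩ := (nr_iff hM hK).1 (h1 x hx)
    have hxM := hM.trans _ hUM _ hx
    have hV : ZFSet.sep (fun y => ∀ k ∈ c, (pair k x ∈ R ↔ pair k y ∈ R)) X ∈ M := by
      refine hM.sep_mem (Q := fun y => ∀ k ∈ c, (pair k x ∈ R ↔ pair k y ∈ R)) ?_ hX
      (repeat' first
        | assumption
        | exact DfnF.proj _
        | exact DfnF.const (by assumption)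
        | exact DfnF.const' (by first | assumption | trivial) (by first | assumption | trivial)
        | exact Dfn.prop _
        | apply hB.isFunc' | apply hB.isInj' | apply hB.isBij' | apply hB.isOrdinal'
        | apply hB.subset' | apply hB.pair' | apply hB.insert'
        | apply Dfn.not | apply Dfn.and | apply Dfn.or | apply Dfn.imp | apply Dfn.iff
        | apply hB.bex | apply hB.ball | apply Dfn.ex | apply Dfn.all
        | apply Dfn.eq | apply Dfn.mem)
    refine ⟨_, (h _).2 ⟨hV, fun z hz => (ZFSet.mem_sep.1 hz).1, fun y hy => ?_⟩, ?_,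
      ZFSet.mem_sep.2 ⟨hUX hx, fun _ _ => Iff.rfl⟩, fun y hy => ?_⟩
    · refine ⟨hfin.toFinset, fun k hk => hcK (hfin.mem_toFinset.1 hk), fun z hz h3 =>
        ZFSet.mem_sep.2 ⟨hz, fun k hk => ?_⟩⟩
      exact ((ZFSet.mem_sep.1 hy).2 k hk).trans (h3 k (hfin.mem_toFinset.2 hk))
    · have h8 : X \ ZFSet.sep (fun y => ∀ k ∈ c, (pair k x ∈ R ↔ pair k y ∈ R)) X =
          ZFSet.sep (fun y => ¬ ∀ k ∈ c, (pair k x ∈ R ↔ pair k y ∈ R)) X := by
        ext z
        rw [ZFSet.mem_sep, ZFSet.mem_sdiff, ZFSet.mem_sep]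
        constructor
        · rintro ⟨h3, h4⟩
          exact ⟨h3, fun h5 => h4 ⟨h3, h5⟩⟩
        · rintro ⟨h3, h4⟩
          exact ⟨h3, fun h5 => h4 h5.2⟩
      rw [h8]
      refine (h _).2 ⟨hM.sep_mem (Q := fun y => ¬ ∀ k ∈ c, (pair k x ∈ R ↔ pair k y ∈ R)) ?_ hX,
        fun z hz => (ZFSet.mem_sep.1 hz).1, fun y hy => ?_⟩
      · (repeat' first
          | assumption
          | exact DfnF.proj _
          | exact DfnF.const (by assumption)
          | exact DfnF.const' (by first | assumption | trivial) (by first | assumption | trivial)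
          | exact Dfn.prop _
          | apply hB.isFunc' | apply hB.isInj' | apply hB.isBij' | apply hB.isOrdinal'
          | apply hB.subset' | apply hB.pair' | apply hB.insert'
          | apply Dfn.not | apply Dfn.and | apply Dfn.or | apply Dfn.imp | apply Dfn.iff
          | apply hB.bex | apply hB.ball | apply Dfn.ex | apply Dfn.all
          | apply Dfn.eq | apply Dfn.mem)
      · refine ⟨hfin.toFinset, fun k hk => hcK (hfin.mem_toFinset.1 hk), fun z hz h3 =>
          ZFSet.mem_sep.2 ⟨hz, fun h4 => (ZFSet.mem_sep.1 hy).2 fun k hk => ?_⟩⟩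
        exact (h4 k hk).trans (h3 k (hfin.mem_toFinset.2 hk)).symm
    · obtain ⟨hy1, hy2⟩ := ZFSet.mem_sep.1 hy
      exact h2 y hy1 hy2

end GenBy

end Pool.Agent.Q211.TP
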