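import Pool.Agent.Q211.TP.Ppp
import Pool.Agent.Q211.TP.Cdl

/-!
# Two P-spaces whose product is not a P-space
-/

set_option autoImplicit false
set_option linter.unusedSectionVars false
set_option linter.unreachableTactic false
set_option linter.unusedTactic false

namespace Pool.Agent.Q211.TP

open Pool.Agent.W868 Pool.Agent.W868.PName Pool.Agent.Q211.SY Pool.Agent.Q211.FS
open Pool.Agent.Q211.PA
open ZFSet (pair)

/-- The intersection of a sequence. -/
noncomputable def seqInter (M : Set ZFSet.{0}) (X s : ZFSet.{0}) : ZFSet.{0} :=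
  ZFSet.sep (fun z => ∀ n ∈ ZFSet.omega, ∀ V ∈ M, pair n V ∈ s → z ∈ V) X

theorem seqInter_mem {M : Set ZFSet.{0}} (hM : IsZF M) {X s : ZFSet.{0}} (hX : X ∈ M)
    (hs : s ∈ M) : seqInter M X s ∈ M := by
  have hB := hM.base
  have hom : ZFSet.omega ∈ M := hM.infinity
  unfold seqInter
  refine hM.sep_mem (Q := fun z => ∀ n ∈ ZFSet.omega, ∀ V ∈ M, pair n V ∈ s → z ∈ V) ?_ hX
  (repeat' first
    | assumption
    | exact DfnF.proj _
    | exact DfnF.const (by assumption)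
    | exact DfnF.const' (by first | assumption | trivial) (by first | assumption | trivial)
    | exact Dfn.prop _
    | apply hB.isFunc' | apply hB.isInj' | apply hB.isBij' | apply hB.isOrdinal'
    | apply hB.subset' | apply hB.pair' | apply hB.insert'
    | apply Dfn.not | apply Dfn.and | apply Dfn.or | apply Dfn.imp | apply Dfn.iff
    | apply hB.bex | apply hB.ball | apply Dfn.ex | apply Dfn.all
    | apply Dfn.eq | apply Dfn.mem)

theorem mem_seqInter {M : Set ZFSet.{0}} (hM : IsZF M) {X s : ZFSet.{0}} (hs : s ∈ M)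
    {A : ℕ → ZFSet.{0}} (hA : IsSeq s A) (hAX : ∀ n, A n ⊆ X) {z : ZFSet.{0}} :
    z ∈ seqInter M X s ↔ ∀ n, z ∈ A n := by
  unfold seqInter
  rw [ZFSet.mem_sep]
  constructor
  · rintro ⟨-, h1⟩ n
    exact h1 _ (mem_omega_iff.2 ⟨n, rfl⟩) _
      (hM.of_pair_mem (hM.trans _ hs _ ((hA _).2 ⟨n, rfl⟩))).2 ((hA _).2 ⟨n, rfl⟩)
  · intro h1
    refine ⟨hAX 0 (h1 0), fun n hn V _ hV => ?_⟩
    obtain ⟨n, rfl⟩ := mem_omega_iff.1 hn
    rw [(seq_fun hA).1 hV]
    exact h1 n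

namespace ChfM

variable {M : Set ZFSet.{0}} {pt : Pt ℚ → ZFSet.{0}} {X K R BL : ZFSet.{0}}
  (h : ChfM ℚ M pt X K R BL)

/-- The set of the atoms and the point at infinity. -/
noncomputable def X1 (X : ZFSet.{0}) : ZFSet.{0} :=
  ZFSet.sep (fun z => z ∉ ZFSet.omega) X

include h

theorem X1_mem : X1 X ∈ M := by
  have hM := h.zf
  have hom : ZFSet.omega ∈ M := hM.infinity
  exact hM.sep_mem (Q := fun z => z ∉ ZFSet.omega)
    (Dfn.not (Dfn.mem (DfnF.proj 0) (DfnF.const hom))) h.XM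

theorem mem_X1 {z : ZFSet.{0}} : z ∈ X1 X ↔ (∃ a, z = pt (.atm a)) ∨ z = pt .inf := by
  unfold X1
  rw [ZFSet.mem_sep, h.mX]
  constructor
  · rintro ⟨⟨p, rfl⟩, h1⟩
    cases p with
    | atm a => exact Or.inl ⟨a, rfl⟩
    | nd n =>
      rw [h.nd] at h1
      exact absurd (mem_omega_iff.2 ⟨n, rfl⟩) h1
    | inf => exact Or.inr rfl
  · have h2 : ∀ p : Pt ℚ, (∀ n, p ≠ .nd n) → pt p ∉ ZFSet.omega := by
      intro p hp h1
      obtain ⟨n, hn⟩ := mem_omega_iff.1 h1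
      rw [← h.nd] at hn
      exact hp n (h.inj hn)
    rintro (⟨a, rfl⟩ | rfl)
    · exact ⟨⟨_, rfl⟩, h2 _ (by simp)⟩
    · exact ⟨⟨_, rfl⟩, h2 _ (by simp)⟩

/-- The topology given by a filter of sets of rational numbers. -/
def FT (_ : ChfM ℚ M pt X K R BL) (F : Filter ℚ) (τ : ZFSet.{0}) : Prop :=
  ∀ U, U ∈ τ ↔ U ∈ M ∧ U ⊆ X1 X ∧ (pt .inf ∈ U → ∀ n : ℕ, {t : ℚ | pt (.atm (n, t)) ∈ U} ∈ F)

theorem ft_top {F : Filter ℚ} {τ : ZFSet.{0}} (hτ : h.FT F τ) : IsTopIn M (X1 X) τ := by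
  have hM := h.zf
  have hX := h.X1_mem
  refine ⟨fun U hU => ((hτ U).1 hU).2.1, (hτ _).2 ⟨hX, fun _ h => h, fun _ n => ?_⟩,
    fun U hU V hV => ?_, fun C hC hCτ => ?_⟩
  · refine Filter.mem_of_superset Filter.univ_mem fun t _ => ?_
    exact h.mem_X1.2 (Or.inl ⟨_, rfl⟩)
  · obtain ⟨h1, h2, h3⟩ := (hτ U).1 hU
    obtain ⟨h4, h5, h6⟩ := (hτ V).1 hV
    have h8 : U ∩ V = ZFSet.sep (fun z => z ∈ V) U := by
      ext z
      rw [ZFSet.mem_inter, ZFSet.mem_sep]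
    refine (hτ _).2 ⟨?_, fun z hz => h2 (ZFSet.mem_inter.1 hz).1, fun hz n => ?_⟩
    · rw [h8]
      exact hM.sep_mem (Q := fun z => z ∈ V) (Dfn.mem (DfnF.proj 0) (DfnF.const h4)) h1
    · obtain ⟨h9, h10⟩ := ZFSet.mem_inter.1 hz
      filter_upwards [h3 h9 n, h6 h10 n] with t h11 h12
      exact ZFSet.mem_inter.2 ⟨h11, h12⟩
  · refine (hτ _).2 ⟨hM.union _ hC, fun z hz => ?_, fun hz n => ?_⟩
    · obtain ⟨U, hU, hz⟩ := ZFSet.mem_sUnion.1 hz
      exact ((hτ U).1 (hCτ hU)).2.1 hz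
    · obtain ⟨U, hU, hz⟩ := ZFSet.mem_sUnion.1 hz
      filter_upwards [((hτ U).1 (hCτ hU)).2.2 hz n] with t h11
      exact ZFSet.mem_sUnion.2 ⟨U, hU, h11⟩

/-- The topologies are `P`-topologies. -/
theorem ft_P {F : Filter ℚ} [F.NeBot] {τ : ZFSet.{0}} (hτ : h.FT F τ)
    (hF : ∀ f ∈ M, ∀ n : ℕ, ∃ S ∈ F, ∀ r, Cd r →
      ∀ Q : Set ZFSet.{0} → (Fin 3 → ZFSet.{0}) → Prop, UD Q → ∀ w ∈ S, ∀ t ∈ S,
      Q M ![f, pt (.atm (n, w)), r] → Q M ![f, pt (.atm (n, t)), r]) :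
    IsPSpace M (X1 X) τ := by
  intro s hs A hA hAτ
  have hM := h.zf
  have hX := h.X1_mem
  have hAX : ∀ n, A n ⊆ X1 X := fun n => ((hτ _).1 (hAτ n)).2.1
  refine ⟨seqInter M (X1 X) s, (hτ _).2 ⟨seqInter_mem hM hX hs, fun z hz =>
    (ZFSet.mem_sep.1 hz).1, fun hz n => ?_⟩, fun z => mem_seqInter hM hs hA hAX⟩
  rw [mem_seqInter hM hs hA hAX] at hz
  obtain ⟨S, hSF, hS⟩ := hF s hs n
  refine Filter.mem_of_superset hSF fun t ht => ?_
  change pt (.atm (n, t)) ∈ seqInter M (X1 X) s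
  rw [mem_seqInter hM hs hA hAX]
  intro i
  obtain ⟨w, hw, hwS⟩ := Filter.nonempty_of_mem (Filter.inter_mem
    (((hτ _).1 (hAτ i)).2.2 (hz i) n) hSF)
  have hAiM : A i ∈ M := ((hτ _).1 (hAτ i)).1
  obtain ⟨V, -, h1, h2⟩ := hS (nat i) (.nat i) _ ud_seq3 w hwS t ht
    ⟨A i, hAiM, (hA _).2 ⟨i, rfl⟩, hw⟩
  rw [← (seq_fun hA).1 h1]
  exact h2

theorem homog_top (f : ZFSet.{0}) (hf : f ∈ M) (n : ℕ) : ∃ S ∈ (Filter.atTop : Filter ℚ), ∀ r,
    Cd r → ∀ Q : Set ZFSet.{0} → (Fin 3 → ZFSet.{0}) → Prop, UD Q → ∀ w ∈ S, ∀ t ∈ S,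
      Q M ![f, pt (.atm (n, w)), r] → Q M ![f, pt (.atm (n, t)), r] := by
  classical
  obtain ⟨e, he⟩ := h.inv f hf
  obtain ⟨m, hm⟩ : ∃ m : ℚ, ∀ x ∈ e, x.2 ≤ m := by
    obtain ⟨m, hm⟩ := (e.image Prod.snd).bddAbove
    exact ⟨m, fun x hx => hm (Finset.mem_coe.2 (Finset.mem_image_of_mem _ hx))⟩
  refine ⟨Set.Ioi m, Filter.Ioi_mem_atTop m, fun r hr Q hQ w hw t ht hq => ?_⟩
  exact h.move_up he (fun x hx _ => hm x hx) hw ht hr hQ hq

theorem homog_bot (f : ZFSet.{0}) (hf : f ∈ M) (n : ℕ) : ∃ S ∈ (Filter.atBot : Filter ℚ), ∀ r,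
    Cd r → ∀ Q : Set ZFSet.{0} → (Fin 3 → ZFSet.{0}) → Prop, UD Q → ∀ w ∈ S, ∀ t ∈ S,
      Q M ![f, pt (.atm (n, w)), r] → Q M ![f, pt (.atm (n, t)), r] := by
  classical
  obtain ⟨e, he⟩ := h.inv f hf
  obtain ⟨m, hm⟩ : ∃ m : ℚ, ∀ x ∈ e, m ≤ x.2 := by
    obtain ⟨m, hm⟩ := (e.image Prod.snd).bddBelow
    exact ⟨m, fun x hx => hm (Finset.mem_coe.2 (Finset.mem_image_of_mem _ hx))⟩
  refine ⟨Set.Iio m, Filter.Iio_mem_atBot m, fun r hr Q hQ w hw t ht hq => ?_⟩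
  exact h.move_down he (fun x hx _ => hm x hx) hw ht hr hQ hq

theorem exists_ft_top : ∃ τ ∈ M, h.FT Filter.atTop τ := by
  have hM := h.zf
  have hB := hM.base
  have hom : ZFSet.omega ∈ M := hM.infinity
  have hX := h.X1_mem
  have hKM := h.KM
  have hBM := h.BM
  have hRM := h.RM
  refine ⟨ZFSet.sep (fun U => ZFSet.omega ∈ U → ∀ n ∈ ZFSet.omega, ∃ c ∈ K, pair n c ∈ BL ∧
    ∀ t ∈ K, pair n t ∈ BL → pair c t ∈ R → t ∈ U) (PM M (X1 X)), hM.sep_mem
    (Q := fun U => ZFSet.omega ∈ U → ∀ n ∈ ZFSet.omega, ∃ c ∈ K, pair n c ∈ BL ∧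
    ∀ t ∈ K, pair n t ∈ BL → pair c t ∈ R → t ∈ U) ?_ (PM_mem hM hX), fun U => ?_⟩
  · (repeat' first
      | assumption
      | exact DfnF.proj _
      | exact DfnF.const (by assumption)
      | exact DfnF.const' (by first | assumption | trivial) (by first | assumption | trivial)
      | exact Dfn.prop _
      | apply hB.isFunc' | apply hB.isInj' | apply hB.isBij' | apply hB.isOrdinal'
      | apply hB.subset' | apply hB.pair' | apply hB.insert'
      | apply Dfn.not | apply Dfn.and | apply Dfn.or | apply Dfn.imp | apply Dfn.iff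
      | apply hB.bex | apply hB.ball | apply Dfn.ex | apply Dfn.all
      | apply Dfn.eq | apply Dfn.mem)
  · rw [ZFSet.mem_sep, mem_PM, and_assoc]
    refine and_congr_right fun _ => and_congr_right fun _ => ?_
    rw [h.inf]
    refine imp_congr_right fun _ => ?_
    constructor
    · intro h1 n
      obtain ⟨c, hc, hcn, h2⟩ := h1 (nat n) (mem_omega_iff.2 ⟨n, rfl⟩)
      obtain ⟨⟨m, c⟩, rfl⟩ := (h.mK c).1 hc
      rw [h.B_iff] at hcn
      dsimp only at hcn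
      subst hcn
      refine Filter.mem_of_superset (Filter.Ici_mem_atTop c) fun t ht => ?_
      exact h2 _ ((h.mK _).2 ⟨_, rfl⟩) (h.B_iff.2 rfl) (h.R_iff.2 (Or.inr ⟨rfl, ht⟩))
    · intro h1 n hn
      obtain ⟨n, rfl⟩ := mem_omega_iff.1 hn
      obtain ⟨c, hc⟩ := Filter.mem_atTop_sets.1 (h1 n)
      refine ⟨pt (.atm (n, c)), (h.mK _).2 ⟨_, rfl⟩, h.B_iff.2 rfl, fun t ht htn hct => ?_⟩
      obtain ⟨⟨m, t⟩, rfl⟩ := (h.mK t).1 ht
      rw [h.B_iff] at htn
      dsimp only at htn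
      subst htn
      rw [h.R_iff] at hct
      refine hc t ?_
      rcases hct with h3 | h3
      · exact absurd h3 (lt_irrefl _)
      · exact h3.2

theorem exists_ft_bot : ∃ τ ∈ M, h.FT Filter.atBot τ := by
  have hM := h.zf
  have hB := hM.base
  have hom : ZFSet.omega ∈ M := hM.infinity
  have hX := h.X1_mem
  have hKM := h.KM
  have hBM := h.BM
  have hRM := h.RM
  refine ⟨ZFSet.sep (fun U => ZFSet.omega ∈ U → ∀ n ∈ ZFSet.omega, ∃ c ∈ K, pair n c ∈ BL ∧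
    ∀ t ∈ K, pair n t ∈ BL → pair t c ∈ R → t ∈ U) (PM M (X1 X)), hM.sep_mem
    (Q := fun U => ZFSet.omega ∈ U → ∀ n ∈ ZFSet.omega, ∃ c ∈ K, pair n c ∈ BL ∧
    ∀ t ∈ K, pair n t ∈ BL → pair t c ∈ R → t ∈ U) ?_ (PM_mem hM hX), fun U => ?_⟩
  · (repeat' first
      | assumption
      | exact DfnF.proj _
      | exact DfnF.const (by assumption)
      | exact DfnF.const' (by first | assumption | trivial) (by first | assumption | trivial)
      | exact Dfn.prop _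
      | apply hB.isFunc' | apply hB.isInj' | apply hB.isBij' | apply hB.isOrdinal'
      | apply hB.subset' | apply hB.pair' | apply hB.insert'
      | apply Dfn.not | apply Dfn.and | apply Dfn.or | apply Dfn.imp | apply Dfn.iff
      | apply hB.bex | apply hB.ball | apply Dfn.ex | apply Dfn.all
      | apply Dfn.eq | apply Dfn.mem)
  · rw [ZFSet.mem_sep, mem_PM, and_assoc]
    refine and_congr_right fun _ => and_congr_right fun _ => ?_
    rw [h.inf]
    refine imp_congr_right fun _ => ?_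
    constructor
    · intro h1 n
      obtain ⟨c, hc, hcn, h2⟩ := h1 (nat n) (mem_omega_iff.2 ⟨n, rfl⟩)
      obtain ⟨⟨m, c⟩, rfl⟩ := (h.mK c).1 hc
      rw [h.B_iff] at hcn
      dsimp only at hcn
      subst hcn
      refine Filter.mem_of_superset (Filter.Iic_mem_atBot c) fun t ht => ?_
      exact h2 _ ((h.mK _).2 ⟨_, rfl⟩) (h.B_iff.2 rfl) (h.R_iff.2 (Or.inr ⟨rfl, ht⟩))
    · intro h1 n hn
      obtain ⟨n, rfl⟩ := mem_omega_iff.1 hn
      obtain ⟨c, hc⟩ := Filter.mem_atBot_sets.1 (h1 n)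
      refine ⟨pt (.atm (n, c)), (h.mK _).2 ⟨_, rfl⟩, h.B_iff.2 rfl, fun t ht htn hct => ?_⟩
      obtain ⟨⟨m, t⟩, rfl⟩ := (h.mK t).1 ht
      rw [h.B_iff] at htn
      dsimp only at htn
      subst htn
      rw [h.R_iff] at hct
      refine hc t ?_
      rcases hct with h3 | h3
      · exact absurd h3 (lt_irrefl _)
      · exact h3.2

/-- The product of the two spaces is not a `P`-space. -/
theorem prod_not_P {τ σ T : ZFSet.{0}} (hτM : τ ∈ M) (hσM : σ ∈ M)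
    (hτ : h.FT Filter.atTop τ) (hσ : h.FT Filter.atBot σ)
    (hT : IsProdTop M (X1 X) τ (X1 X) σ T) : ¬ IsPSpace M (ZFSet.prod (X1 X) (X1 X)) T := by
  classical
  intro hP
  have hM := h.zf
  have hB := hM.base
  have hom : ZFSet.omega ∈ M := hM.infinity
  have hX := h.X1_mem
  have hKM := h.KM
  have hBM := h.BM
  have hRM := h.RM
  have hXX := hM.prod_mem hX hX
  have hPM := PM_mem hM hXX
  -- the open sets
  have hRn : ∀ n : ℕ, ∀ z, z ∈ ZFSet.sep (fun z => ∀ a ∈ K, ∀ b ∈ K, z = pair a b →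
      pair (nat n) a ∈ BL → pair (nat n) b ∈ BL → pair a b ∉ R)
      (ZFSet.prod (X1 X) (X1 X)) ↔ z ∈ ZFSet.prod (X1 X) (X1 X) ∧
      ∀ s t : ℚ, z = pair (pt (.atm (n, s))) (pt (.atm (n, t))) → t < s := by
    intro n z
    rw [ZFSet.mem_sep]
    refine and_congr_right fun hz => ?_
    constructor
    · intro h1 s t hst
      by_contra h2
      exact h1 _ ((h.mK _).2 ⟨_, rfl⟩) _ ((h.mK _).2 ⟨_, rfl⟩) hst (h.B_iff.2 rfl)
        (h.B_iff.2 rfl) (h.R_iff.2 (Or.inr ⟨rfl, not_lt.1 h2⟩))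
    · intro h1 a ha b hb hab han hbn h2
      obtain ⟨⟨m, s⟩, rfl⟩ := (h.mK a).1 ha
      obtain ⟨⟨m', t⟩, rfl⟩ := (h.mK b).1 hb
      rw [h.B_iff] at han hbn
      dsimp only at han hbn
      subst han
      subst hbn
      have h3 := h1 s t hab
      rw [h.R_iff] at h2
      rcases h2 with h4 | h4
      · exact absurd h4 (lt_irrefl _)
      · exact absurd h3 (not_lt.2 h4.2)
  have hRM' : ∀ n : ℕ, ZFSet.sep (fun z => ∀ a ∈ K, ∀ b ∈ K, z = pair a b →
      pair (nat n) a ∈ BL → pair (nat n) b ∈ BL → pair a b ∉ R)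
      (ZFSet.prod (X1 X) (X1 X)) ∈ M := by
    intro n
    have hn := hM.nat_mem n
    generalize nat n = m at hn
    refine hM.sep_mem (Q := fun z => ∀ a ∈ K, ∀ b ∈ K, z = pair a b →
      pair m a ∈ BL → pair m b ∈ BL → pair a b ∉ R) ?_ hXX
    (repeat' first
      | assumption
      | exact DfnF.proj _
      | exact DfnF.const (by assumption)
      | exact DfnF.const' (by first | assumption | trivial) (by first | assumption | trivial)
      | exact Dfn.prop _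
      | apply hB.isFunc' | apply hB.isInj' | apply hB.isBij' | apply hB.isOrdinal'
      | apply hB.subset' | apply hB.pair' | apply hB.insert'
      | apply Dfn.not | apply Dfn.and | apply Dfn.or | apply Dfn.imp | apply Dfn.iff
      | apply hB.bex | apply hB.ball | apply Dfn.ex | apply Dfn.all
      | apply Dfn.eq | apply Dfn.mem)
  have hRT : ∀ n : ℕ, ZFSet.sep (fun z => ∀ a ∈ K, ∀ b ∈ K, z = pair a b →
      pair (nat n) a ∈ BL → pair (nat n) b ∈ BL → pair a b ∉ R)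
      (ZFSet.prod (X1 X) (X1 X)) ∈ T := by
    intro n
    refine (hT _).2 ⟨hRM' n, fun z hz => (ZFSet.mem_sep.1 hz).1, fun x y hxy => ?_⟩
    obtain ⟨hxyX, h1⟩ := (hRn n _).1 hxy
    obtain ⟨hx, hy⟩ := ZFSet.pair_mem_prod.1 hxyX
    have hsing : ∀ z ∈ X1 X, z ≠ pt .inf → ∀ {F : Filter ℚ} {ρ : ZFSet.{0}}, h.FT F ρ →
        ({z} : ZFSet.{0}) ∈ ρ := by
      intro z hz hzi F ρ hρ
      refine (hρ _).2 ⟨hM.single_mem (hM.trans _ hX _ hz), fun w hw => ?_, fun h2 => ?_⟩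
      · rwa [ZFSet.mem_singleton.1 hw]
      · exact absurd (ZFSet.mem_singleton.1 h2).symm hzi
    -- the cut sets
    have hcutU : ∀ c : ℚ, ∃ U ∈ τ, pt .inf ∈ U ∧ ∀ s : ℚ, pt (.atm (n, s)) ∈ U → c < s := by
      intro c
      have hcM : pt (.atm (n, c)) ∈ M := hM.trans _ hKM _ ((h.mK _).2 ⟨_, rfl⟩)
      have hnM := hM.nat_mem n
      have h2 : ZFSet.sep (fun z => pair (nat n) z ∈ BL → (pair (pt (.atm (n, c))) z ∈ R ∧
          z ≠ pt (.atm (n, c)))) (X1 X) ∈ M := by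
        generalize pt (.atm (n, c)) = c' at hcM
        generalize nat n = n' at hnM
        refine hM.sep_mem (Q := fun z => pair n' z ∈ BL → (pair c' z ∈ R ∧ z ≠ c')) ?_ hX
        (repeat' first
          | assumption
          | exact DfnF.proj _
          | exact DfnF.const (by assumption)
          | exact DfnF.const' (by first | assumption | trivial) (by first | assumption | trivial)
          | exact Dfn.prop _
          | apply hB.isFunc' | apply hB.isInj' | apply hB.isBij' | apply hB.isOrdinal'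
          | apply hB.subset' | apply hB.pair' | apply hB.insert'
          | apply Dfn.not | apply Dfn.and | apply Dfn.or | apply Dfn.imp | apply Dfn.iff
          | apply hB.bex | apply hB.ball | apply Dfn.ex | apply Dfn.all
          | apply Dfn.eq | apply Dfn.mem)
      refine ⟨_, (hτ _).2 ⟨h2, fun z hz => (ZFSet.mem_sep.1 hz).1, fun _ m => ?_⟩,
        ZFSet.mem_sep.2 ⟨h.mem_X1.2 (Or.inr rfl), fun h3 => ?_⟩, fun s hs => ?_⟩
      · refine Filter.mem_of_superset (Filter.Ioi_mem_atTop c) fun t ht => ?_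
        refine ZFSet.mem_sep.2 ⟨h.mem_X1.2 (Or.inl ⟨_, rfl⟩), fun h3 => ?_⟩
        rw [h.B_iff] at h3
        dsimp only at h3
        subst h3
        refine ⟨h.R_iff.2 (Or.inr ⟨rfl, le_of_lt ht⟩), fun h4 => ?_⟩
        have h5 := h.inj h4
        injection h5 with h5
        exact absurd (Prod.ext_iff.1 h5).2 (ne_of_gt ht)
      · obtain ⟨x, hx⟩ := (h.mB _).1 h3
        exact absurd (h.inj (ZFSet.pair_inj.1 hx).2) (by simp)
      · obtain ⟨-, h3⟩ := ZFSet.mem_sep.1 hs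
        obtain ⟨h4, h5⟩ := h3 (h.B_iff.2 rfl)
        rw [h.R_iff] at h4
        rcases h4 with h6 | h6
        · exact absurd h6 (lt_irrefl _)
        · exact lt_of_le_of_ne h6.2 fun h7 => h5 (by rw [h7])
    have hcutV : ∀ c : ℚ, ∃ V ∈ σ, pt .inf ∈ V ∧ ∀ s : ℚ, pt (.atm (n, s)) ∈ V → s < c := by
      intro c
      have hcM : pt (.atm (n, c)) ∈ M := hM.trans _ hKM _ ((h.mK _).2 ⟨_, rfl⟩)
      have hnM := hM.nat_mem n
      have h2 : ZFSet.sep (fun z => pair (nat n) z ∈ BL → (pair z (pt (.atm (n, c))) ∈ R ∧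
          z ≠ pt (.atm (n, c)))) (X1 X) ∈ M := by
        generalize pt (.atm (n, c)) = c' at hcM
        generalize nat n = n' at hnM
        refine hM.sep_mem (Q := fun z => pair n' z ∈ BL → (pair z c' ∈ R ∧ z ≠ c')) ?_ hX
        (repeat' first
          | assumption
          | exact DfnF.proj _
          | exact DfnF.const (by assumption)
          | exact DfnF.const' (by first | assumption | trivial) (by first | assumption | trivial)
          | exact Dfn.prop _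
          | apply hB.isFunc' | apply hB.isInj' | apply hB.isBij' | apply hB.isOrdinal'
          | apply hB.subset' | apply hB.pair' | apply hB.insert'
          | apply Dfn.not | apply Dfn.and | apply Dfn.or | apply Dfn.imp | apply Dfn.iff
          | apply hB.bex | apply hB.ball | apply Dfn.ex | apply Dfn.all
          | apply Dfn.eq | apply Dfn.mem)
      refine ⟨_, (hσ _).2 ⟨h2, fun z hz => (ZFSet.mem_sep.1 hz).1, fun _ m => ?_⟩,
        ZFSet.mem_sep.2 ⟨h.mem_X1.2 (Or.inr rfl), fun h3 => ?_⟩, fun s hs => ?_⟩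
      · refine Filter.mem_of_superset (Filter.Iio_mem_atBot c) fun t ht => ?_
        refine ZFSet.mem_sep.2 ⟨h.mem_X1.2 (Or.inl ⟨_, rfl⟩), fun h3 => ?_⟩
        rw [h.B_iff] at h3
        dsimp only at h3
        subst h3
        refine ⟨h.R_iff.2 (Or.inr ⟨rfl, le_of_lt ht⟩), fun h4 => ?_⟩
        have h5 := h.inj h4
        injection h5 with h5
        exact absurd (Prod.ext_iff.1 h5).2 (ne_of_lt ht)
      · obtain ⟨x, hx⟩ := (h.mB _).1 h3
        exact absurd (h.inj (ZFSet.pair_inj.1 hx).2) (by simp)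
      · obtain ⟨-, h3⟩ := ZFSet.mem_sep.1 hs
        obtain ⟨h4, h5⟩ := h3 (h.B_iff.2 rfl)
        rw [h.R_iff] at h4
        rcases h4 with h6 | h6
        · exact absurd h6 (lt_irrefl _)
        · exact lt_of_le_of_ne h6.2 fun h7 => h5 (by rw [h7])
    have hprod : ∀ U ∈ τ, ∀ V ∈ σ, (∀ s t : ℚ, pt (.atm (n, s)) ∈ U → pt (.atm (n, t)) ∈ V →
        t < s) → ∀ x' ∈ U, ∀ y' ∈ V, pair x' y' ∈ ZFSet.sep (fun z => ∀ a ∈ K, ∀ b ∈ K,
        z = pair a b → pair (nat n) a ∈ BL → pair (nat n) b ∈ BL → pair a b ∉ R)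
        (ZFSet.prod (X1 X) (X1 X)) := by
      intro U hU V hV h2 x' hx' y' hy'
      refine (hRn n _).2 ⟨ZFSet.pair_mem_prod.2 ⟨((hτ U).1 hU).2.1 hx', ((hσ V).1 hV).2.1 hy'⟩,
        fun s t hst => ?_⟩
      obtain ⟨rfl, rfl⟩ := ZFSet.pair_inj.1 hst
      exact h2 s t hx' hy'
    by_cases hxi : x = pt .inf
    · by_cases hyi : y = pt .inf
      · obtain ⟨U, hU, hU1, hU2⟩ := hcutU 0
        obtain ⟨V, hV, hV1, hV2⟩ := hcutV 0
        exact ⟨U, hU, V, hV, hxi ▸ hU1, hyi ▸ hV1, hprod U hU V hV fun s t hs ht =>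
          (hV2 t ht).trans (hU2 s hs)⟩
      · by_cases hyn : ∃ t : ℚ, y = pt (.atm (n, t))
        · obtain ⟨t, rfl⟩ := hyn
          obtain ⟨U, hU, hU1, hU2⟩ := hcutU t
          refine ⟨U, hU, {pt (.atm (n, t))}, hsing _ hy hyi hσ, hxi ▸ hU1,
            ZFSet.mem_singleton.2 rfl, hprod U hU _ (hsing _ hy hyi hσ) fun s t' hs ht => ?_⟩
          have h3 := h.inj (ZFSet.mem_singleton.1 ht)
          injection h3 with h3
          have h4 : t' = t := (Prod.ext_iff.1 h3).2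
          rw [h4]
          exact hU2 s hs
        · obtain ⟨U, hU, hU1, hU2⟩ := hcutU 0
          refine ⟨U, hU, {y}, hsing _ hy hyi hσ, hxi ▸ hU1, ZFSet.mem_singleton.2 rfl,
            hprod U hU _ (hsing _ hy hyi hσ) fun s t' hs ht => ?_⟩
          exact absurd ⟨t', (ZFSet.mem_singleton.1 ht).symm⟩ hyn
    · by_cases hyi : y = pt .inf
      · by_cases hxn : ∃ t : ℚ, x = pt (.atm (n, t))
        · obtain ⟨t, rfl⟩ := hxn
          obtain ⟨V, hV, hV1, hV2⟩ := hcutV t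
          refine ⟨{pt (.atm (n, t))}, hsing _ hx hxi hτ, V, hV, ZFSet.mem_singleton.2 rfl,
            hyi ▸ hV1, hprod _ (hsing _ hx hxi hτ) V hV fun s t' hs ht => ?_⟩
          have h3 := h.inj (ZFSet.mem_singleton.1 hs)
          injection h3 with h3
          have h4 : s = t := (Prod.ext_iff.1 h3).2
          rw [h4]
          exact hV2 t' ht
        · obtain ⟨V, hV, hV1, hV2⟩ := hcutV 0
          refine ⟨{x}, hsing _ hx hxi hτ, V, hV, ZFSet.mem_singleton.2 rfl,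
            hyi ▸ hV1, hprod _ (hsing _ hx hxi hτ) V hV fun s t' hs ht => ?_⟩
          exact absurd ⟨s, (ZFSet.mem_singleton.1 hs).symm⟩ hxn
      · refine ⟨{x}, hsing _ hx hxi hτ, {y}, hsing _ hy hyi hσ, ZFSet.mem_singleton.2 rfl,
          ZFSet.mem_singleton.2 rfl, hprod _ (hsing _ hx hxi hτ) _ (hsing _ hy hyi hσ)
          fun s t hs ht => h1 s t ?_⟩
        rw [ZFSet.mem_singleton.1 hs, ZFSet.mem_singleton.1 ht]
  have hsM : ZFSet.sep (fun q => ∃ k ∈ ZFSet.omega, ∃ U ∈ PM M (ZFSet.prod (X1 X) (X1 X)),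
      q = pair k U ∧ ∀ z ∈ ZFSet.prod (X1 X) (X1 X), (z ∈ U ↔ ∀ a ∈ K, ∀ b ∈ K, z = pair a b →
      pair k a ∈ BL → pair k b ∈ BL → pair a b ∉ R))
      (ZFSet.prod ZFSet.omega (PM M (ZFSet.prod (X1 X) (X1 X)))) ∈ M := by
    generalize PM M (ZFSet.prod (X1 X) (X1 X)) = P at hPM
    generalize ZFSet.prod (X1 X) (X1 X) = XX at hXX
    refine hM.sep_mem (Q := fun q => ∃ k ∈ ZFSet.omega, ∃ U ∈ P,
      q = pair k U ∧ ∀ z ∈ XX, (z ∈ U ↔ ∀ a ∈ K, ∀ b ∈ K, z = pair a b →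
      pair k a ∈ BL → pair k b ∈ BL → pair a b ∉ R)) ?_ (hM.prod_mem hom hPM)
    (repeat' first
      | assumption
      | exact DfnF.proj _
      | exact DfnF.const (by assumption)
      | exact DfnF.const' (by first | assumption | trivial) (by first | assumption | trivial)
      | exact Dfn.prop _
      | apply hB.isFunc' | apply hB.isInj' | apply hB.isBij' | apply hB.isOrdinal'
      | apply hB.subset' | apply hB.pair' | apply hB.insert'
      | apply Dfn.not | apply Dfn.and | apply Dfn.or | apply Dfn.imp | apply Dfn.iff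
      | apply hB.bex | apply hB.ball | apply Dfn.ex | apply Dfn.all
      | apply Dfn.eq | apply Dfn.mem)
  obtain ⟨G, hG, hGz⟩ := hP _ hsM (fun n => ZFSet.sep (fun z => ∀ a ∈ K, ∀ b ∈ K, z = pair a b →
      pair (nat n) a ∈ BL → pair (nat n) b ∈ BL → pair a b ∉ R)
      (ZFSet.prod (X1 X) (X1 X))) (fun q => by
      rw [ZFSet.mem_sep]
      constructor
      · rintro ⟨-, k, hk, U, hU, rfl, h1⟩
        obtain ⟨k, rfl⟩ := mem_omega_iff.1 hk
        refine ⟨k, ?_⟩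
        congr 1
        ext z
        rw [ZFSet.mem_sep]
        exact ⟨fun hz => ⟨(mem_PM.1 hU).2 hz, (h1 z ((mem_PM.1 hU).2 hz)).1 hz⟩,
          fun hz => (h1 z hz.1).2 hz.2⟩
      · rintro ⟨k, rfl⟩
        have hU : ZFSet.sep (fun z => ∀ a ∈ K, ∀ b ∈ K, z = pair a b →
            pair (nat k) a ∈ BL → pair (nat k) b ∈ BL → pair a b ∉ R)
            (ZFSet.prod (X1 X) (X1 X)) ∈ PM M (ZFSet.prod (X1 X) (X1 X)) :=
          mem_PM.2 ⟨hRM' k, fun z hz => (ZFSet.mem_sep.1 hz).1⟩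
        refine ⟨ZFSet.pair_mem_prod.2 ⟨mem_omega_iff.2 ⟨k, rfl⟩, hU⟩, _,
          mem_omega_iff.2 ⟨k, rfl⟩, _, hU, rfl, fun z hz => ?_⟩
        rw [ZFSet.mem_sep]
        exact ⟨fun h1 => h1.2, fun h1 => ⟨hz, h1⟩⟩) hRT
  have hinfX : pt .inf ∈ X1 X := h.mem_X1.2 (Or.inr rfl)
  have hiiG : pair (pt .inf) (pt .inf) ∈ G := by
    rw [hGz]
    intro n
    rw [hRn]
    refine ⟨ZFSet.pair_mem_prod.2 ⟨hinfX, hinfX⟩, fun s t hst => ?_⟩
    exact absurd (h.inj (ZFSet.pair_inj.1 hst).1) (by simp)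
  obtain ⟨U, hU, V, hV, hiU, hiV, hUV⟩ := ((hT G).1 hG).2.2 _ _ hiiG
  obtain ⟨e1, he1⟩ := h.inv U (hM.trans _ hτM _ hU)
  obtain ⟨e2, he2⟩ := h.inv V (hM.trans _ hσM _ hV)
  obtain ⟨n, hn⟩ : ∃ n : ℕ, ∀ x ∈ e1 ∪ e2, x.1 < n := by
    refine ⟨(e1 ∪ e2).sup (fun x => x.1 + 1), fun x hx => ?_⟩
    exact Nat.lt_of_succ_le (Finset.le_sup (f := fun x : ℕ × ℚ => x.1 + 1) hx)
  obtain ⟨w, hw⟩ := Filter.nonempty_of_mem (((hτ U).1 hU).2.2 hiU n)
  obtain ⟨w', hw'⟩ := Filter.nonempty_of_mem (((hσ V).1 hV).2.2 hiV n)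
  have h1 : pt (.atm (n, (0 : ℚ))) ∈ U := h.move_any he1 (fun x hx =>
    (hn x (Finset.mem_union_left _ hx)).ne) (.nat 0) ud_mem3 hw
  have h2 : pt (.atm (n, (0 : ℚ))) ∈ V := h.move_any he2 (fun x hx =>
    (hn x (Finset.mem_union_right _ hx)).ne) (.nat 0) ud_mem3 hw'
  have h3 := ((hRn n _).1 ((hGz _).1 (hUV _ h1 _ h2) n)).2 0 0 rfl
  exact absurd h3 (lt_irrefl _)

end ChfM

end Pool.Agent.Q211.TP
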