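import Pool.Agent.Q211.TP.Ppp

/-!
# Existence of the product topology
-/

set_option autoImplicit false
set_option linter.unusedSectionVars false
set_option linter.unreachableTactic false
set_option linter.unusedTactic false

namespace Pool.Agent.Q211.TP

open Pool.Agent.W868 Pool.Agent.W868.PName Pool.Agent.Q211.SY Pool.Agent.Q211.FS
open ZFSet (pair)

theorem exists_prodTop {M : Set ZFSet.{0}} (hM : IsZF M) {X τ Y σ : ZFSet.{0}} (hX : X ∈ M)
    (hτ : τ ∈ M) (hY : Y ∈ M) (hσ : σ ∈ M) : ∃ T ∈ M, IsProdTop M X τ Y σ T := by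
  have hB := hM.base
  have hXY := hM.prod_mem hX hY
  refine ⟨ZFSet.sep (fun W => ∀ x ∈ M, ∀ y ∈ M, pair x y ∈ W → ∃ U ∈ τ, ∃ V ∈ σ, x ∈ U ∧ y ∈ V ∧
    ∀ x' ∈ U, ∀ y' ∈ V, pair x' y' ∈ W) (PM M (ZFSet.prod X Y)), hM.sep_mem
    (Q := fun W => ∀ x ∈ M, ∀ y ∈ M, pair x y ∈ W → ∃ U ∈ τ, ∃ V ∈ σ, x ∈ U ∧ y ∈ V ∧
    ∀ x' ∈ U, ∀ y' ∈ V, pair x' y' ∈ W) ?_ (PM_mem hM hXY), fun W => ?_⟩
  · (repeat' first
      | assumption
      | exact DfnF.proj _
      | exact DfnF.const (by assumption)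
      | exact DfnF.const' (by first | assumption | trivial) (by first | assumption | trivial)
      | exact Dfn.prop _
      | apply hB.isFunc' | apply hB.isInj' | apply hB.isBij' | apply hB.isOrdinal'
      | apply hB.subset' | apply hB.pair' | apply hB.insert'
      | apply Dfn.not | apply Dfn.and | apply Dfn.or | apply Dfn.imp | apply Dfn.iff
      | apply hB.bex | apply hB.ball | apply Dfn.ex | apply Dfn.all
      | apply Dfn.eq | apply Dfn.mem)
  · rw [ZFSet.mem_sep, mem_PM, and_assoc]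
    refine and_congr_right fun hW => and_congr_right fun _ => ?_
    constructor
    · intro h1 x y hxy
      obtain ⟨hx, hy⟩ := hM.of_pair_mem (hM.trans _ hW _ hxy)
      exact h1 x hx y hy hxy
    · intro h1 x _ y _ hxy
      exact h1 x y hxy

end Pool.Agent.Q211.TP
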