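import Pool.Agent.Q211.TP.Bai

/-!
# Countable pseudocharacter
-/

set_option autoImplicit false
set_option linter.unusedSectionVars false
set_option linter.unreachableTactic false
set_option linter.unusedTactic false

namespace Pool.Agent.Q211.TP

open Pool.Agent.W868 Pool.Agent.W868.PName Pool.Agent.Q211.SY Pool.Agent.Q211.FS
open Pool.Agent.Q211.PA
open ZFSet (pair)

/-- In `M`, the space `(X, τ)` has countable pseudocharacter: every point is the only element of
the intersection of some sequence of open sets. -/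
def CountPsi (M : Set ZFSet.{0}) (X τ : ZFSet.{0}) : Prop :=
  ∀ x ∈ X, ∃ s ∈ M, ∃ A : ℕ → ZFSet.{0}, IsSeq s A ∧ (∀ n, A n ∈ τ) ∧
    ∀ z, (∀ n, z ∈ A n) ↔ z = x

/-- In `M`, where `(R, σ)` is the real line, the set `U` is open for the topology on `X` that is
generated by the zero-sets of the space `(X, τ)`. -/
def InTauZ (M : Set ZFSet.{0}) (R σ X τ U : ZFSet.{0}) : Prop :=
  U ∈ M ∧ U ⊆ X ∧ ∀ x ∈ U, ∃ Z, IsZeroSet M R σ X τ Z ∧ x ∈ Z ∧ Z ⊆ U

namespace ChnM

variable {L : Type} [LinearOrder L] {Z0 M : Set ZFSet.{0}} {pt : Pt L → ZFSet.{0}}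
  {c : ℕ × L → ℕ} {X K R BL : ZFSet.{0}} (h : ChnM L Z0 M pt c X K R BL)

include h

theorem countPsi [Nonempty L] [NoMaxOrder L] {τ : ZFSet.{0}} (hτM : τ ∈ M)
    (hτ : GenBy M X τ K R) : CountPsi M X τ := by
  intro x hx
  have hM := h.zf
  have hB := hM.base
  have hXM := h.XM
  have hKM := h.KM
  have hR := h.RM
  have hom : ZFSet.omega ∈ M := hM.infinity
  have hPM := PM_mem hM hXM
  have z := Classical.arbitrary L
  have hS := h.subX
  obtain ⟨p, rfl⟩ := (h.mX x).1 hx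
  by_cases hp : p = .inf
  · subst hp
    obtain ⟨s, hs, A, hA, hsA⟩ := h.exists_seq
    have hAM : ∀ n, X \ A n ∈ M := by
      intro n
      have h1 := (hA n).1
      have h8 : X \ A n = ZFSet.sep (fun z => z ∉ A n) X := by
        ext z
        rw [ZFSet.mem_sdiff, ZFSet.mem_sep]
      rw [h8]
      exact hM.sep_mem (Q := fun z => z ∉ A n)
        (Dfn.not (Dfn.mem (DfnF.proj 0) (DfnF.const h1))) hXM
    have htM : ZFSet.sep (fun q => ∃ k ∈ ZFSet.omega, ∃ U ∈ PM M X, q = pair k U ∧ ∃ B ∈ M,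
        pair k B ∈ s ∧ ∀ z ∈ X, (z ∈ U ↔ z ∉ B)) (ZFSet.prod ZFSet.omega (PM M X)) ∈ M := by
      generalize PM M X = P at hPM
      refine hM.sep_mem (Q := fun q => ∃ k ∈ ZFSet.omega, ∃ U ∈ P, q = pair k U ∧ ∃ B ∈ M,
        pair k B ∈ s ∧ ∀ z ∈ X, (z ∈ U ↔ z ∉ B)) ?_ (hM.prod_mem hom hPM)
      (repeat' first
        | assumption
        | exact DfnF.proj _
        | exact DfnF.const (by assumption)
        | exact DfnF.const' (by first | assumption | trivial) (by first | assumption | trivial)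
        | exact Dfn.prop _
        | apply hB.isFunc' | apply hB.isInj' | apply hB.isBij' | apply hB.isOrdinal'
        | apply hB.subset' | apply hB.pair' | apply hB.insert'
        | apply Dfn.not | apply Dfn.and | apply Dfn.or | apply Dfn.imp | apply Dfn.iff
        | apply hB.bex | apply hB.ball | apply Dfn.ex | apply Dfn.all
        | apply Dfn.eq | apply Dfn.mem)
    refine ⟨_, htM, fun n => X \ A n, fun q => ?_, fun n => ?_, fun w => ?_⟩
    · rw [ZFSet.mem_sep]
      constructor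
      · rintro ⟨-, k, hk, U, hU, rfl, B, -, hB, h1⟩
        obtain ⟨k, h2⟩ := (hsA _).1 hB
        obtain ⟨rfl, rfl⟩ := ZFSet.pair_inj.1 h2
        refine ⟨k, ?_⟩
        congr 1
        ext z
        rw [ZFSet.mem_sdiff]
        exact ⟨fun hz => ⟨(mem_PM.1 hU).2 hz, (h1 z ((mem_PM.1 hU).2 hz)).1 hz⟩,
          fun hz => (h1 z hz.1).2 hz.2⟩
      · rintro ⟨k, rfl⟩
        have hU : X \ A k ∈ PM M X :=
          mem_PM.2 ⟨hAM k, fun z hz => (ZFSet.mem_sdiff.1 hz).1⟩
        refine ⟨ZFSet.pair_mem_prod.2 ⟨mem_omega_iff.2 ⟨k, rfl⟩, hU⟩, _,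
          mem_omega_iff.2 ⟨k, rfl⟩, _, hU, rfl, A k, (hA k).1, (hsA _).2 ⟨k, rfl⟩,
          fun z hz => ?_⟩
        rw [ZFSet.mem_sdiff]
        exact ⟨fun h1 => h1.2, fun h1 => ⟨hz, h1⟩⟩
    · refine (hτ _).2 ⟨hAM n, fun z hz => (ZFSet.mem_sdiff.1 hz).1, fun y hy => ?_⟩
      obtain ⟨hyX, hyA⟩ := ZFSet.mem_sdiff.1 hy
      obtain ⟨q, rfl⟩ := (h.mX y).1 hyX
      rw [(hA n).mem, Dn_iff] at hyA
      push Not at hyA
      obtain ⟨a, ha1, ha2⟩ := hyA
      refine (h.nr_pt hS).2 ⟨{a}, fun r _ hr => ZFSet.mem_sdiff.2 ⟨(h.mX _).2 ⟨r, rfl⟩, ?_⟩⟩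
      rw [(hA n).mem, Dn_iff]
      intro h1
      exact absurd (h1 a ((hr a (Finset.mem_singleton_self _)).1 ha1)) (not_lt.2 ha2)
    · constructor
      · intro hw
        obtain ⟨q, rfl⟩ := (h.mX w).1 (ZFSet.mem_sdiff.1 (hw 0)).1
        have h1 : q = .inf := by
          refine pt_sep fun a => ⟨fun _ => trivial, fun _ => ?_⟩
          have h2 := (ZFSet.mem_sdiff.1 (hw (a.1 + 1))).2
          rw [(hA _).mem, Dn_iff] at h2
          push Not at h2
          obtain ⟨b, hb1, hb2⟩ := h2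
          exact le_down (Or.inl (by omega)) hb1
        rw [h1]
      · rintro rfl n
        exact ZFSet.mem_sdiff.2 ⟨(h.mX _).2 ⟨_, rfl⟩, fun h1 => (hA n).mem.1 h1⟩
  · obtain ⟨n, hn⟩ : ∃ n, Dn n p := by
      cases p with
      | atm x => exact ⟨x.1 + 1, Nat.lt_succ_self _⟩
      | nd n => exact ⟨n, le_rfl⟩
      | inf => exact absurd rfl hp
    rw [Dn_iff] at hn
    obtain ⟨u, hu, hu'⟩ := h.en (n + 1)
    have hpM := hM.trans _ hXM _ hx
    have hUM : ∀ i : ℕ, ZFSet.sep (fun z => ∀ a ∈ K, pair a (nat i) ∈ u →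
        (pair a (pt p) ∈ R ↔ pair a z ∈ R)) X ∈ M := by
      intro i
      have hi := hM.nat_mem i
      generalize nat i = m at hi
      refine hM.sep_mem (Q := fun z => ∀ a ∈ K, pair a m ∈ u →
        (pair a (pt p) ∈ R ↔ pair a z ∈ R)) ?_ hXM
      (repeat' first
        | assumption
        | exact DfnF.proj _
        | exact DfnF.const (by assumption)
        | exact DfnF.const' (by first | assumption | trivial) (by first | assumption | trivial)
        | exact Dfn.prop _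
        | apply hB.isFunc' | apply hB.isInj' | apply hB.isBij' | apply hB.isOrdinal'
        | apply hB.subset' | apply hB.pair' | apply hB.insert'
        | apply Dfn.not | apply Dfn.and | apply Dfn.or | apply Dfn.imp | apply Dfn.iff
        | apply hB.bex | apply hB.ball | apply Dfn.ex | apply Dfn.all
        | apply Dfn.eq | apply Dfn.mem)
    have htM : ZFSet.sep (fun q => ∃ k ∈ ZFSet.omega, ∃ U ∈ PM M X, q = pair k U ∧
        ∀ z ∈ X, (z ∈ U ↔ ∀ a ∈ K, pair a k ∈ u → (pair a (pt p) ∈ R ↔ pair a z ∈ R)))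
        (ZFSet.prod ZFSet.omega (PM M X)) ∈ M := by
      generalize PM M X = P at hPM
      refine hM.sep_mem (Q := fun q => ∃ k ∈ ZFSet.omega, ∃ U ∈ P, q = pair k U ∧
        ∀ z ∈ X, (z ∈ U ↔ ∀ a ∈ K, pair a k ∈ u → (pair a (pt p) ∈ R ↔ pair a z ∈ R))) ?_
        (hM.prod_mem hom hPM)
      (repeat' first
        | assumption
        | exact DfnF.proj _
        | exact DfnF.const (by assumption)
        | exact DfnF.const' (by first | assumption | trivial) (by first | assumption | trivial)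
        | exact Dfn.prop _
        | apply hB.isFunc' | apply hB.isInj' | apply hB.isBij' | apply hB.isOrdinal'
        | apply hB.subset' | apply hB.pair' | apply hB.insert'
        | apply Dfn.not | apply Dfn.and | apply Dfn.or | apply Dfn.imp | apply Dfn.iff
        | apply hB.bex | apply hB.ball | apply Dfn.ex | apply Dfn.all
        | apply Dfn.eq | apply Dfn.mem)
    refine ⟨_, htM, fun i => ZFSet.sep (fun z => ∀ a ∈ K, pair a (nat i) ∈ u →
        (pair a (pt p) ∈ R ↔ pair a z ∈ R)) X, fun q => ?_, fun i => ?_, fun w => ?_⟩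
    · rw [ZFSet.mem_sep]
      constructor
      · rintro ⟨-, k, hk, U, hU, rfl, h1⟩
        obtain ⟨k, rfl⟩ := mem_omega_iff.1 hk
        refine ⟨k, ?_⟩
        congr 1
        ext z
        rw [ZFSet.mem_sep]
        exact ⟨fun hz => ⟨(mem_PM.1 hU).2 hz, (h1 z ((mem_PM.1 hU).2 hz)).1 hz⟩,
          fun hz => (h1 z hz.1).2 hz.2⟩
      · rintro ⟨k, rfl⟩
        have hU : ZFSet.sep (fun z => ∀ a ∈ K, pair a (nat k) ∈ u →
            (pair a (pt p) ∈ R ↔ pair a z ∈ R)) X ∈ PM M X :=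
          mem_PM.2 ⟨hUM k, fun z hz => (ZFSet.mem_sep.1 hz).1⟩
        refine ⟨ZFSet.pair_mem_prod.2 ⟨mem_omega_iff.2 ⟨k, rfl⟩, hU⟩, _,
          mem_omega_iff.2 ⟨k, rfl⟩, _, hU, rfl, fun z hz => ?_⟩
        rw [ZFSet.mem_sep]
        exact ⟨fun h1 => h1.2, fun h1 => ⟨hz, h1⟩⟩
    · refine (hτ _).2 ⟨hUM i, fun z hz => (ZFSet.mem_sep.1 hz).1, fun y hy => ?_⟩
      obtain ⟨hyX, hyA⟩ := ZFSet.mem_sep.1 hy
      obtain ⟨q, rfl⟩ := (h.mX y).1 hyX
      rw [h.nr_pt hS]
      by_cases hex : ∃ b : ℕ × L, b.1 < n + 1 ∧ c b = i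
      · obtain ⟨b, hb, rfl⟩ := hex
        refine ⟨{b}, fun r _ hr => ZFSet.mem_sep.2 ⟨(h.mX _).2 ⟨r, rfl⟩, fun a ha hau => ?_⟩⟩
        obtain ⟨b', -, h1⟩ := (hu' _).1 hau
        obtain ⟨rfl, h3⟩ := ZFSet.pair_inj.1 h1
        have h4 := h.cinj (nat_injective h3)
        subst h4
        rw [hyA _ ha hau, h.R_iff, h.R_iff]
        exact hr b (Finset.mem_singleton_self _)
      · refine ⟨∅, fun r _ hr => ZFSet.mem_sep.2 ⟨(h.mX _).2 ⟨r, rfl⟩, fun a ha hau => ?_⟩⟩
        obtain ⟨b', hb', h1⟩ := (hu' _).1 hau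
        exact absurd ⟨b', hb', (nat_injective (ZFSet.pair_inj.1 h1).2).symm⟩ hex
    · constructor
      · intro hw
        obtain ⟨q, rfl⟩ := (h.mX w).1 (ZFSet.mem_sep.1 (hw 0)).1
        have h1 : ∀ a : ℕ × L, a.1 < n + 1 → (le a p ↔ le a q) := by
          intro a ha
          have h2 := (ZFSet.mem_sep.1 (hw (c a))).2 (pt (.atm a)) ((h.mK _).2 ⟨a, rfl⟩)
            ((hu' _).2 ⟨a, ha, rfl⟩)
          rwa [h.R_iff, h.R_iff] at h2
        congr 1
        refine pt_sep fun a => ?_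
        by_cases ha : a.1 < n + 1
        · exact (h1 a ha).symm
        · constructor
          · intro h2
            have h3 : le (n, z) q := le_down (Or.inl (by omega)) h2
            exact absurd (hn _ ((h1 (n, z) (Nat.lt_succ_self _)).2 h3)) (lt_irrefl _)
          · intro h2
            have h3 := hn a h2
            omega
      · rintro rfl i
        exact ZFSet.mem_sep.2 ⟨hx, fun _ _ _ => Iff.rfl⟩

/-- The point at infinity is not a zero-set. -/
theorem inf_not_zero [Nonempty L] [NoMaxOrder L] [NoMinOrder L] {τ RR σ i : ZFSet.{0}}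
    (hτ : GenBy M X τ K R) (hRR : IsReals M RR σ) (hE : GoodE M RR σ i) {Z : ZFSet.{0}}
    (hZ : IsZeroSet M RR σ X τ Z) (hinf : pt .inf ∈ Z) : ∃ n, pt (.nd n) ∈ Z := by
  obtain ⟨f, hf, hfc, hfZ⟩ := hZ
  obtain ⟨k, e, he, h1⟩ := h.ev_const h.subX (fun _ _ => trivial) hτ (flat_real hRR) hE.haus hf hfc
  have h2 := h1 .inf trivial (fun h3 => h3)
  have h3 := (hfZ _).1 hinf
  have h4 := (hfc.1.2 _ ((h.mX _).2 ⟨_, rfl⟩)).unique h2 h3
  refine ⟨k + 1, (hfZ _).2 ?_⟩
  rw [← h4]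
  refine h1 (.nd (k + 1)) trivial fun h5 => ?_
  have h6 : k + 1 ≤ k := h5
  omega

end ChnM

end Pool.Agent.Q211.TP
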