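import Pool.Agent.Q211.TP.Chn6

/-!
# The chain of the integers: summary
-/

set_option autoImplicit false
set_option linter.unusedSectionVars false
set_option linter.unreachableTactic false
set_option linter.unusedTactic false

namespace Pool.Agent.Q211.TP

open Pool.Agent.W868 Pool.Agent.W868.PName Pool.Agent.Q211.SY Pool.Agent.Q211.FS
open Pool.Agent.Q211.PA
open ZFSet (pair)

theorem int_homog (a b : ℤ) : ∃ e : ℤ ≃o ℤ, e a = b :=
  ⟨OrderIso.addRight (b - a), by simp⟩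

/-- A space with countably many compact pieces. -/
structure UniIn (M : Set ZFSet.{0}) (X τ s : ZFSet.{0}) (A : ℕ → ZFSet.{0}) : Prop where
  zf : IsZF M
  cnt : M.Countable
  qc : Qc ∈ M
  lq : LQ ∈ M
  XM : X ∈ M
  τM : τ ∈ M
  sM : s ∈ M
  top : IsTopIn M X τ
  zd : ZeroDim X τ
  seq : IsSeq s A
  un : ∀ z, z ∈ X ↔ ∃ n, z ∈ A n
  cpt : ∀ n, ∀ E σ i, GoodE M E σ i → ECompactIn M E σ (A n) (subTop τ (A n))
  emb : ∀ n, ∀ E σ, E ∈ M → EmbIn M E σ X τ (A n)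
  cde : ∀ n, CdeltaEmb M X τ (A n)
  not : ∀ E σ i, ChnM.Flat E → GoodE M E σ i → ¬ ECompactIn M E σ X τ

theorem exists_uni : ∃ M X τ s A, UniIn M X τ s A := by
  obtain ⟨M, pt, c, X, K, R, BL, h⟩ := exists_chn ℤ int_homog ∅ Set.countable_empty
    (fun z hz => absurd hz (Set.notMem_empty z))
  have hM := h.zf
  have hB := h.exists_B
  obtain ⟨s, hs, A, hA, hsA⟩ := h.exists_seq
  obtain ⟨τ, hτM, hτ⟩ := exists_gen hM hB.1 h.KM h.RM
  have hD : ∀ n, ∀ p : Pt ℤ, Dn n p → p ≠ .inf := by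
    rintro n p hp rfl
    exact hp
  have hsub : ∀ n, A n ⊆ ZFSet.sep (fun z => z ≠ ZFSet.omega) X := by
    intro n z hz
    obtain ⟨p, hp, rfl⟩ := ((hA n).2 z).1 hz
    exact hB.mem.2 (hD n p hp)
  refine ⟨M, _, τ, s, A, hM, h.cnt, h.qc, h.lq, hB.1, hτM, hs, hτ.top hM hB.1,
    hτ.zeroDim hM hB.1 h.KM h.RM (h.hsep hB), hsA, fun z => ?_, fun n E σ i hE => ?_,
    fun n E σ hE => h.extend hB (hD n) (hA n) hτ hE, fun n => h.cdeltaEmb hB (hD n) (hA n) hτ,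
    fun E σ i hfl hE => h.not_ecompact hB hτM hτ hfl hE⟩
  · constructor
    · intro hz
      obtain ⟨p, hp, rfl⟩ := (hB.2 z).1 hz
      cases p with
      | atm x => exact ⟨x.1 + 1, (hA _).mem.2 (Nat.lt_succ_self _)⟩
      | nd n => exact ⟨n, (hA _).mem.2 le_rfl⟩
      | inf => exact absurd rfl hp
    · rintro ⟨n, hn⟩
      exact hsub n hn
  · exact h.ecompact (hA n) (Or.inr ⟨n, fun p hp => hp⟩) (subTop_mem hM hτM (hA n).1)
      (hτ.sub hM hB.1 h.KM h.RM (hA n).1 (hsub n)) hE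

end Pool.Agent.Q211.TP
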