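import Pool.Agent.Q211.TP.Evl
import Pool.Agent.Q211.TP.Ppp2

/-!
# A `P`-space whose Hewitt extension is not a `P`-space
-/

set_option autoImplicit false
set_option linter.unusedSectionVars false
set_option linter.unreachableTactic false
set_option linter.unusedTactic false

namespace Pool.Agent.Q211.TP

open Pool.Agent.W868 Pool.Agent.W868.PName Pool.Agent.Q211.SY Pool.Agent.Q211.FS
open Pool.Agent.Q211.PA
open ZFSet (pair)

/-- The point `p` is beyond the atom `a`. -/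
def lt' {L : Type} [LinearOrder L] (a : ℕ × L) (p : Pt L) : Prop := le a p ∧ p ≠ .atm a

theorem ud_val3 : UD fun M (v : Fin 3 → ZFSet.{0}) => ∃ e ∈ M, pair (v 1) e ∈ v 0 ∧ v 2 ∈ e := by
  (repeat' first
    | assumption
    | exact UF.proj _
    | exact UF.om
    | exact UD.prop _
    | apply UD.not | apply UD.and | apply UD.or | apply UD.imp | apply UD.iff
    | apply UD.bex | apply UD.ball | apply UD.ex | apply UD.all
    | apply UD.eq | apply UD.mem | apply UF.pair)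

namespace ChfM

variable {M : Set ZFSet.{0}} {pt : Pt ℚ → ZFSet.{0}} {X K R BL : ZFSet.{0}}
  (h : ChfM ℚ M pt X K R BL)

include h

/-- The set `S` is the set of the points with the property `D`. -/
def Sub (_ : ChfM ℚ M pt X K R BL) (D : Pt ℚ → Prop) (S : ZFSet.{0}) : Prop :=
  S ∈ M ∧ ∀ z, z ∈ S ↔ ∃ p, D p ∧ z = pt p

omit h in
theorem Sub.mem {h : ChfM ℚ M pt X K R BL} {D : Pt ℚ → Prop} {S : ZFSet.{0}}
    (hS : h.Sub D S) {p : Pt ℚ} : pt p ∈ S ↔ D p := by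
  rw [hS.2]
  constructor
  · rintro ⟨q, hq, h1⟩
    rw [h.inj h1]
    exact hq
  · intro h1
    exact ⟨p, h1, rfl⟩

theorem exists_B : h.Sub (fun p => p ≠ .inf) (ZFSet.sep (fun z => z ≠ ZFSet.omega) X) := by
  have hM := h.zf
  have hom : ZFSet.omega ∈ M := hM.infinity
  refine ⟨hM.sep_mem (Q := fun z => z ≠ ZFSet.omega)
    (Dfn.not (Dfn.eq (DfnF.proj 0) (DfnF.const hom))) h.XM, fun z => ?_⟩
  rw [ZFSet.mem_sep, h.mX, ← h.inf]
  constructor
  · rintro ⟨⟨p, rfl⟩, hp⟩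
    exact ⟨p, fun h1 => hp (by rw [h1]), rfl⟩
  · rintro ⟨p, hp, rfl⟩
    exact ⟨⟨p, rfl⟩, fun h1 => hp (h.inj h1)⟩

/-- The generating relations. -/
theorem exists_K2 : ∃ K2 ∈ M, ∃ R2 ∈ M,
    (∀ z, z ∈ K2 ↔ ∃ a : ℕ × ℚ, z = pair (pt (.atm a)) (nat 0) ∨ z = pair (pt (.atm a)) (nat 1)) ∧
    ∀ (a : ℕ × ℚ) (p : Pt ℚ), (pair (pair (pt (.atm a)) (nat 0)) (pt p) ∈ R2 ↔ le a p) ∧
      (pair (pair (pt (.atm a)) (nat 1)) (pt p) ∈ R2 ↔ lt' a p) := by
  have hM := h.zf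
  have hB := hM.base
  have hKM := h.KM
  have hXM := h.XM
  have hRM := h.RM
  have h0 := hM.nat_mem 0
  have h1 := hM.nat_mem 1
  have h2 := hM.nat_mem 2
  have h01 : nat 0 ≠ nat 1 := fun h => absurd (nat_injective h) (by norm_num)
  have hK2 := hM.prod_mem hKM h2
  refine ⟨_, hK2, ZFSet.sep (fun q => ∃ a ∈ K, ∃ x ∈ X, pair a x ∈ R ∧
    (q = pair (pair a (nat 0)) x ∨ (q = pair (pair a (nat 1)) x ∧ x ≠ a)))
    (ZFSet.prod (ZFSet.prod K (nat 2)) X), ?_, fun z => ?_, fun a p => ?_⟩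
  · generalize nat 0 = n0 at h0
    generalize nat 1 = n1 at h1
    generalize ZFSet.prod K (nat 2) = K2 at hK2
    refine hM.sep_mem (Q := fun q => ∃ a ∈ K, ∃ x ∈ X, pair a x ∈ R ∧
      (q = pair (pair a n0) x ∨ (q = pair (pair a n1) x ∧ x ≠ a))) ?_ (hM.prod_mem hK2 hXM)
    (repeat' first
      | assumption
      | exact DfnF.proj _
      | exact DfnF.const (by assumption)
      | exact DfnF.const' (by first | assumption | trivial) (by first | assumption | trivial)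
      | exact Dfn.prop _
      | apply hB.isFunc' | apply hB.isInj' | apply hB.isBij' | apply hB.isOrdinal'
      | apply hB.subset' | apply hB.pair' | apply hB.insert'
      | apply Dfn.not | apply Dfn.and | apply Dfn.or | apply Dfn.imp | apply Dfn.iff
      | apply hB.bex | apply hB.ball | apply Dfn.ex | apply Dfn.all
      | apply Dfn.eq | apply Dfn.mem)
  · rw [ZFSet.mem_prod]
    constructor
    · rintro ⟨k, hk, j, hj, rfl⟩
      obtain ⟨a, rfl⟩ := (h.mK k).1 hk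
      obtain ⟨j, hj, rfl⟩ := mem_nat_iff.1 hj
      refine ⟨a, ?_⟩
      interval_cases j
      · exact Or.inl rfl
      · exact Or.inr rfl
    · rintro ⟨a, rfl | rfl⟩
      · exact ⟨_, (h.mK _).2 ⟨a, rfl⟩, _, nat_mem_nat.2 (by norm_num), rfl⟩
      · exact ⟨_, (h.mK _).2 ⟨a, rfl⟩, _, nat_mem_nat.2 (by norm_num), rfl⟩
  · have hk : pt (.atm a) ∈ K := (h.mK _).2 ⟨a, rfl⟩
    have hp : pt p ∈ X := (h.mX _).2 ⟨p, rfl⟩
    constructor
    · rw [ZFSet.mem_sep, ZFSet.pair_mem_prod, ZFSet.pair_mem_prod, ← h.R_iff]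
      constructor
      · rintro ⟨-, a', -, x', -, h3, h4 | h4⟩
        · obtain ⟨h5, rfl⟩ := ZFSet.pair_inj.1 h4
          rw [(ZFSet.pair_inj.1 h5).1]
          exact h3
        · obtain ⟨h5, rfl⟩ := ZFSet.pair_inj.1 h4.1
          exact absurd (ZFSet.pair_inj.1 h5).2 h01
      · intro h3
        exact ⟨⟨⟨hk, nat_mem_nat.2 (by norm_num)⟩, hp⟩, _, hk, _, hp, h3, Or.inl rfl⟩
    · unfold lt'
      rw [ZFSet.mem_sep, ZFSet.pair_mem_prod, ZFSet.pair_mem_prod, ← h.R_iff]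
      constructor
      · rintro ⟨-, a', -, x', -, h3, h4 | h4⟩
        · obtain ⟨h5, rfl⟩ := ZFSet.pair_inj.1 h4
          exact absurd (ZFSet.pair_inj.1 h5).2.symm h01
        · obtain ⟨h5, rfl⟩ := ZFSet.pair_inj.1 h4.1
          have h6 := (ZFSet.pair_inj.1 h5).1
          rw [h6]
          refine ⟨h3, fun h7 => h4.2 ?_⟩
          rw [h7]
          exact h6
      · rintro ⟨h3, h4⟩
        exact ⟨⟨⟨hk, nat_mem_nat.2 (by norm_num)⟩, hp⟩, _, hk, _, hp, h3,
          Or.inr ⟨rfl, fun h5 => h4 (h.inj h5)⟩⟩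

end ChfM

/-- The properties of the generating relations. -/
structure K2M {M : Set ZFSet.{0}} {pt : Pt ℚ → ZFSet.{0}} {X K R BL : ZFSet.{0}}
    (h : ChfM ℚ M pt X K R BL) (K2 R2 : ZFSet.{0}) : Prop where
  KM : K2 ∈ M
  RM : R2 ∈ M
  mK : ∀ z, z ∈ K2 ↔ ∃ a : ℕ × ℚ, z = pair (pt (.atm a)) (nat 0) ∨
    z = pair (pt (.atm a)) (nat 1)
  mR : ∀ (a : ℕ × ℚ) (p : Pt ℚ), (pair (pair (pt (.atm a)) (nat 0)) (pt p) ∈ R2 ↔ le a p) ∧
    (pair (pair (pt (.atm a)) (nat 1)) (pt p) ∈ R2 ↔ lt' a p)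

namespace K2M

variable {M : Set ZFSet.{0}} {pt : Pt ℚ → ZFSet.{0}} {X K R BL : ZFSet.{0}}
  {h : ChfM ℚ M pt X K R BL} {K2 R2 : ZFSet.{0}} (h2 : K2M h K2 R2)

include h2

theorem hsep {D : Pt ℚ → Prop} {S : ZFSet.{0}} (hS : h.Sub D S) :
    ∀ x ∈ S, ∀ y ∈ S, (∀ k ∈ K2, (pair k x ∈ R2 ↔ pair k y ∈ R2)) → x = y := by
  intro x hx y hy h1
  obtain ⟨p, -, rfl⟩ := (hS.2 x).1 hx
  obtain ⟨q, -, rfl⟩ := (hS.2 y).1 hy
  congr 1
  refine pt_sep fun a => ?_
  rw [← (h2.mR a p).1, ← (h2.mR a q).1]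
  exact h1 _ ((h2.mK _).2 ⟨a, Or.inl rfl⟩)

theorem nr_pt {D : Pt ℚ → Prop} {S : ZFSet.{0}} (hS : h.Sub D S) {p : Pt ℚ} {U : ZFSet.{0}} :
    Nr S K2 R2 (pt p) U ↔ ∃ F : Finset (ℕ × ℚ), ∀ q, D q →
      (∀ a ∈ F, (le a p ↔ le a q) ∧ (lt' a p ↔ lt' a q)) → pt q ∈ U := by
  classical
  constructor
  · rintro ⟨F, hF, h1⟩
    have h3 : ∀ k : {k // k ∈ F}, ∃ a : ℕ × ℚ, k.1 = pair (pt (.atm a)) (nat 0) ∨
        k.1 = pair (pt (.atm a)) (nat 1) :=
      fun k => (h2.mK k.1).1 (hF k.1 k.2)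
    choose a ha using h3
    refine ⟨F.attach.image a, fun q hq h3 => h1 _ (hS.mem.2 hq) fun k hk => ?_⟩
    have h4 := h3 (a ⟨k, hk⟩) (Finset.mem_image_of_mem _ (Finset.mem_attach _ _))
    rcases ha ⟨k, hk⟩ with h5 | h5
    · have h6 : k = pair (pt (.atm (a ⟨k, hk⟩))) (nat 0) := h5
      rw [h6, (h2.mR _ _).1, (h2.mR _ _).1]
      exact h4.1
    · have h6 : k = pair (pt (.atm (a ⟨k, hk⟩))) (nat 1) := h5
      rw [h6, (h2.mR _ _).2, (h2.mR _ _).2]
      exact h4.2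
  · rintro ⟨F, hF⟩
    refine ⟨(F.image fun a => pair (pt (.atm a)) (nat 0)) ∪
      F.image fun a => pair (pt (.atm a)) (nat 1), fun k hk => ?_, fun y hy h1 => ?_⟩
    · rcases Finset.mem_union.1 hk with hk | hk
      · obtain ⟨a, -, rfl⟩ := Finset.mem_image.1 hk
        exact (h2.mK _).2 ⟨a, Or.inl rfl⟩
      · obtain ⟨a, -, rfl⟩ := Finset.mem_image.1 hk
        exact (h2.mK _).2 ⟨a, Or.inr rfl⟩
    · obtain ⟨q, hq, rfl⟩ := (hS.2 y).1 hy
      refine hF q hq fun a ha => ⟨?_, ?_⟩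
      · rw [← (h2.mR a p).1, ← (h2.mR a q).1]
        exact h1 _ (Finset.mem_union_left _ (Finset.mem_image_of_mem _ ha))
      · rw [← (h2.mR a p).2, ← (h2.mR a q).2]
        exact h1 _ (Finset.mem_union_right _ (Finset.mem_image_of_mem _ ha))

omit h2 in
/-- Atoms of the block before a node that are close to the node. -/
theorem near_before {n : ℕ} {w : ℚ} {F : Finset (ℕ × ℚ)} (hw : ∀ a ∈ F, a.2 < w) :
    ∀ a ∈ F, (le a (Pt.nd (n + 1) : Pt ℚ) ↔ le a (.atm (n, w))) ∧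
      (lt' a (Pt.nd (n + 1) : Pt ℚ) ↔ lt' a (.atm (n, w))) := by
  intro a ha
  have h1 : le a (Pt.nd (n + 1) : Pt ℚ) ↔ le a (.atm (n, w)) := by
    constructor
    · intro h4
      have h5 : a.1 < n + 1 := h4
      rcases Nat.lt_succ_iff_lt_or_eq.1 h5 with h6 | h6
      · exact Or.inl h6
      · exact Or.inr ⟨h6, (hw a ha).le⟩
    · rintro (h4 | h4)
      · exact h4.trans (Nat.lt_succ_self _)
      · change a.1 < n + 1
        rw [h4.1]
        exact Nat.lt_succ_self _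
  refine ⟨h1, ?_⟩
  unfold lt'
  rw [h1]
  refine and_congr_right fun _ => ⟨fun _ h3 => ?_, fun _ => by simp⟩
  injection h3 with h3
  have h4 := hw a ha
  rw [← h3] at h4
  exact lt_irrefl _ h4

omit h2 in
/-- Atoms of the block after a node that are close to the node. -/
theorem near_after {n : ℕ} {w : ℚ} {F : Finset (ℕ × ℚ)} (hw : ∀ a ∈ F, w < a.2) :
    ∀ a ∈ F, (le a (Pt.nd n : Pt ℚ) ↔ le a (.atm (n, w))) ∧
      (lt' a (Pt.nd n : Pt ℚ) ↔ lt' a (.atm (n, w))) := by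
  intro a ha
  have h1 : le a (Pt.nd n : Pt ℚ) ↔ le a (.atm (n, w)) := by
    constructor
    · intro h4
      exact Or.inl h4
    · rintro (h4 | h4)
      · exact h4
      · exact absurd h4.2 (not_le.2 (hw a ha))
  refine ⟨h1, ?_⟩
  unfold lt'
  rw [h1]
  refine and_congr_right fun _ => ⟨fun _ h3 => ?_, fun _ => by simp⟩
  injection h3 with h3
  have h4 := hw a ha
  rw [← h3] at h4
  exact lt_irrefl _ h4

/-- The space of all points except the point at infinity is a `P`-space. -/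
theorem pSpace {S : ZFSet.{0}} (hS : h.Sub (fun p => p ≠ .inf) S) {τ : ZFSet.{0}}
    (hτ : GenBy M S τ K2 R2) : IsPSpace M S τ := by
  classical
  intro s hs A hA hAτ
  have hM := h.zf
  have hAS : ∀ n, A n ⊆ S := fun n => ((hτ _).1 (hAτ n)).2.1
  refine ⟨seqInter M S s, (hτ _).2 ⟨seqInter_mem hM hS.1 hs, fun z hz =>
    (ZFSet.mem_sep.1 hz).1, fun x hx => ?_⟩, fun z => mem_seqInter hM hs hA hAS⟩
  obtain ⟨p, hp, rfl⟩ := (hS.2 x).1 (ZFSet.mem_sep.1 hx).1
  rw [mem_seqInter hM hs hA hAS] at hx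
  rw [h2.nr_pt hS]
  cases p with
  | atm y =>
    refine ⟨{y}, fun q _ h3 => ?_⟩
    obtain ⟨h4, h5⟩ := h3 y (Finset.mem_singleton_self _)
    have h6 : q = .atm y := by
      by_contra hq
      exact (h5.2 ⟨h4.1 (Or.inr ⟨rfl, le_rfl⟩), hq⟩).2 rfl
    rw [h6, mem_seqInter hM hs hA hAS]
    exact hx
  | inf => exact absurd rfl hp
  | nd n =>
    obtain ⟨e, he⟩ := h.inv s hs
    obtain ⟨m0, hm0⟩ := exists_above (e.image Prod.snd)
    obtain ⟨m1, hm1⟩ := exists_below (e.image Prod.snd)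
    have hnb : ∀ i, ∃ F : Finset (ℕ × ℚ), ∀ q, q ≠ .inf →
        (∀ a ∈ F, (le a (.nd n) ↔ le a q) ∧ (lt' a (.nd n) ↔ lt' a q)) → pt q ∈ A i := by
      intro i
      exact (h2.nr_pt hS).1 (((hτ _).1 (hAτ i)).2.2 _ (hx i))
    have hseq : ∀ i (q : Pt ℚ), pt q ∈ A i ↔ ∃ T ∈ M, pair (nat i) T ∈ s ∧ pt q ∈ T := by
      intro i q
      constructor
      · intro h3
        exact ⟨A i, ((hτ _).1 (hAτ i)).1, (hA _).2 ⟨i, rfl⟩, h3⟩
      · rintro ⟨T, -, h3, h4⟩
        rw [← (seq_fun hA).1 h3]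
        exact h4
    refine ⟨{(n - 1, m0), (n, m1)}, fun q hq h3 => ?_⟩
    rw [mem_seqInter hM hs hA hAS]
    obtain ⟨h4, h5⟩ := h3 _ (Finset.mem_insert_self _ _)
    obtain ⟨h6, -⟩ := h3 (n, m1) (Finset.mem_insert_of_mem (Finset.mem_singleton_self _))
    have h7 : ¬ le (n, m1) q := fun h8 => lt_irrefl n (h6.2 h8)
    cases q with
    | inf => exact absurd rfl hq
    | nd m =>
      have h8 : m ≤ n := by
        by_contra h9
        exact h7 (not_le.1 h9)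
      have h9 : n ≤ m := by
        rcases Nat.eq_zero_or_pos n with h10 | h10
        · omega
        · have h11 : n - 1 < m := h4.1 (show n - 1 < n by omega)
          omega
      rw [le_antisymm h8 h9]
      exact hx
    | atm y =>
      obtain ⟨k, t⟩ := y
      have h8 : k ≤ n := by
        by_contra h9
        exact h7 (Or.inl (not_le.1 h9))
      rcases lt_or_eq_of_le h8 with h9 | h9
      · -- the block before the node
        have h10 : le (n - 1, m0) (Pt.nd n : Pt ℚ) := show n - 1 < n by omega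
        have h11 := h4.1 h10
        have h12 := (h5.1 ⟨h10, by simp⟩).2
        have h13 : n - 1 = k ∧ m0 ≤ t := by
          rcases h11 with h11 | h11
          · have h14 : n - 1 < k := h11
            omega
          · exact h11
        obtain ⟨h13, h14⟩ := h13
        have h15 : m0 < t := by
          refine lt_of_le_of_ne h14 fun h16 => h12 ?_
          rw [h13, h16]
        obtain ⟨n', rfl⟩ : ∃ n', n = n' + 1 := ⟨n - 1, by omega⟩
        have h16 : n' = k := by omega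
        subst h16
        intro i
        obtain ⟨F, hF⟩ := hnb i
        obtain ⟨w, hw⟩ := exists_above (insert m0 (F.image Prod.snd))
        have hw0 : m0 < w + 1 := by
          have := hw m0 (Finset.mem_insert_self _ _)
          linarith
        have hwF : ∀ a ∈ F, a.2 < w + 1 := by
          intro a ha
          have := hw a.2 (Finset.mem_insert_of_mem (Finset.mem_image_of_mem _ ha))
          linarith
        have h17 := hF (.atm (n', w + 1)) (by simp) (near_before hwF)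
        rw [hseq] at h17 ⊢
        exact h.move_up he (fun x hx _ => hm0 _ (Finset.mem_image_of_mem _ hx)) hw0 h15
          (.nat i) ud_seq3 h17
      · -- the block after the node
        subst h9
        have h10 : t < m1 := by
          by_contra h11
          exact h7 (Or.inr ⟨rfl, not_lt.1 h11⟩)
        intro i
        obtain ⟨F, hF⟩ := hnb i
        obtain ⟨w, hw⟩ := exists_below (insert m1 (F.image Prod.snd))
        have hw0 : w < m1 := hw m1 (Finset.mem_insert_self _ _)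
        have hwF : ∀ a ∈ F, w < a.2 := fun a ha =>
          hw a.2 (Finset.mem_insert_of_mem (Finset.mem_image_of_mem _ ha))
        have h17 := hF (.atm (k, w)) (by simp) (near_after hwF)
        rw [hseq] at h17 ⊢
        exact h.move_down he (fun x hx _ => (hm1 _ (Finset.mem_image_of_mem _ hx)).le) hw0 h10
          (.nat i) ud_seq3 h17

/-! ### Eventual constancy -/

/-- Limits of values. -/
theorem val_limit {D : Pt ℚ → Prop} {S : ZFSet.{0}} (hS : h.Sub D S) {τ E σ f : ZFSet.{0}}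
    (hτ : GenBy M S τ K2 R2)
    (haus : ∀ a ∈ E, ∀ b ∈ E, a ≠ b → ∃ V ∈ σ, ∃ W ∈ σ, a ∈ V ∧ b ∈ W ∧ ∀ c ∈ V, c ∉ W)
    (hf : IsCont S τ E σ f) {p : Pt ℚ} (hp : D p) {e : ZFSet.{0}} (he : e ∈ E)
    (hlim : ∀ F : Finset (ℕ × ℚ), ∃ q, D q ∧ (∀ a ∈ F, (le a p ↔ le a q) ∧
      (lt' a p ↔ lt' a q)) ∧ pair (pt q) e ∈ f) :
    pair (pt p) e ∈ f := by
  obtain ⟨v, hv, hv'⟩ := hf.1.2 (pt p) (hS.mem.2 hp)
  have hvE := (ZFSet.pair_mem_prod.1 (hf.1.1 hv)).2
  by_cases hve : v = e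
  · rw [← hve]
    exact hv
  · exfalso
    obtain ⟨V, hV, W, hW, h1, h3, h4⟩ := haus v hvE e he hve
    have h5 := ((hτ _).1 (hf.2 V hV)).2.2 (pt p) (mem_pre.2 ⟨hS.mem.2 hp, v, h1, hv⟩)
    obtain ⟨F, hF⟩ := (h2.nr_pt hS).1 h5
    obtain ⟨q, hq, h6, h7⟩ := hlim F
    obtain ⟨-, w, hw, h8⟩ := mem_pre.1 (hF q hq h6)
    have h9 := (hf.1.2 (pt q) (hS.mem.2 hq)).unique h8 h7
    rw [h9] at hw
    exact h4 _ hw h3

end K2M

/-- Functions are constant on all blocks except finitely many. -/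
theorem ChfM.block_const {M : Set ZFSet.{0}} {pt : Pt ℚ → ZFSet.{0}} {X K R BL : ZFSet.{0}}
    (h : ChfM ℚ M pt X K R BL) {f : ZFSet.{0}} (hf : f ∈ M) : ∃ k, ∀ n, k ≤ n → ∀ a b : ℚ,
    ∀ E, ChnM.Flat E → (∀ x e e', pair x e ∈ f → pair x e' ∈ f → e = e') →
    ∀ e e', e ∈ E → e' ∈ E → pair (pt (.atm (n, a))) e ∈ f →
      pair (pt (.atm (n, b))) e' ∈ f → e = e' := by
  have hM := h.zf
  obtain ⟨e0, he0⟩ := h.inv f hf
  refine ⟨e0.sup (fun x => x.1 + 1), fun n hn a b E hE hfun e e' he he' h1 h2 => ?_⟩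
  have h3 : ∀ a b : ℚ, ∀ e e', e ∈ E → e' ∈ E → pair (pt (.atm (n, a))) e ∈ f →
      pair (pt (.atm (n, b))) e' ∈ f → e ⊆ e' := by
    intro a b e e' he he' h1 h2 r hr
    have heM : e ∈ M := (hM.of_pair_mem (hM.trans _ hf _ h1)).2
    obtain ⟨e'', -, h4, h5⟩ := h.move_any he0 (n := n) (w := a) (t := b) (fun x hx hxn => by
      have h6 : x.1 + 1 ≤ e0.sup fun x => x.1 + 1 :=
        Finset.le_sup (f := fun x : ℕ × ℚ => x.1 + 1) hx
      omega) (hE e he r hr) ud_val3 ⟨e, heM, h1, hr⟩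
    have h6 := hfun _ _ _ h4 h2
    rw [← h6]
    exact h5
  ext r
  exact ⟨fun hr => h3 a b e e' he he' h1 h2 hr, fun hr => h3 b a e' e he' he h2 h1 hr⟩

namespace K2M

variable {M : Set ZFSet.{0}} {pt : Pt ℚ → ZFSet.{0}} {X K R BL : ZFSet.{0}}
  {h : ChfM ℚ M pt X K R BL} {K2 R2 : ZFSet.{0}} (h2 : K2M h K2 R2)

include h2

/-- Continuous functions are constant on a final segment of the sequence of the nodes. -/
theorem ev_const {S : ZFSet.{0}} (hS : h.Sub (fun p => p ≠ .inf) S) {τ E σ f : ZFSet.{0}}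
    (hτ : GenBy M S τ K2 R2) (hE : ChnM.Flat E)
    (haus : ∀ a ∈ E, ∀ b ∈ E, a ≠ b → ∃ V ∈ σ, ∃ W ∈ σ, a ∈ V ∧ b ∈ W ∧ ∀ c ∈ V, c ∉ W)
    (hfM : f ∈ M) (hf : IsCont S τ E σ f) :
    ∃ k, ∃ e ∈ E, ∀ n, k ≤ n → pair (nat n) e ∈ f := by
  classical
  have hfun : ∀ x e e', pair x e ∈ f → pair x e' ∈ f → e = e' := by
    intro x e e' h1 h3
    exact (hf.1.2 x (ZFSet.pair_mem_prod.1 (hf.1.1 h1)).1).unique h1 h3
  obtain ⟨k, hk⟩ := h.block_const hfM
  have hval : ∀ p, p ≠ Pt.inf → ∃ e ∈ E, pair (pt p) e ∈ f := by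
    intro p hp
    obtain ⟨e, he, -⟩ := hf.1.2 (pt p) (hS.mem.2 hp)
    exact ⟨e, (ZFSet.pair_mem_prod.1 (hf.1.1 he)).2, he⟩
  have hblk : ∀ n, k ≤ n → ∃ e ∈ E,
      pair (pt (.nd n)) e ∈ f ∧ pair (pt (.nd (n + 1))) e ∈ f := by
    intro n hn
    obtain ⟨e, he, h1⟩ := hval (.atm (n, 0)) (by simp)
    have h3 : ∀ a, pair (pt (.atm (n, a))) e ∈ f := by
      intro a
      obtain ⟨e', he', h3⟩ := hval (.atm (n, a)) (by simp)
      rw [hk n hn 0 a E hE hfun e e' he he' h1 h3]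
      exact h3
    refine ⟨e, he, ?_, ?_⟩
    · refine h2.val_limit hS hτ haus hf (p := .nd n) (by simp) he fun F => ?_
      obtain ⟨w, hw⟩ := exists_below (F.image Prod.snd)
      exact ⟨.atm (n, w), by simp, near_after fun a ha => hw _ (Finset.mem_image_of_mem _ ha),
        h3 w⟩
    · refine h2.val_limit hS hτ haus hf (p := .nd (n + 1)) (by simp) he fun F => ?_
      obtain ⟨w, hw⟩ := exists_above (F.image Prod.snd)
      refine ⟨.atm (n, w + 1), by simp, near_before fun a ha => ?_, h3 _⟩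
      have := hw _ (Finset.mem_image_of_mem Prod.snd ha)
      linarith
  obtain ⟨e, he, hek, -⟩ := hblk k le_rfl
  refine ⟨k, e, he, fun n hn => ?_⟩
  rw [← h.nd]
  induction n, hn using Nat.le_induction with
  | base => exact hek
  | succ n hn ih =>
    obtain ⟨e1, he1, h1, h3⟩ := hblk n hn
    rw [hfun _ _ _ ih h1]
    exact h3

end K2M

end Pool.Agent.Q211.TP
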