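import Pool.Agent.Q211.TP.Vex

/-!
# A `P`-space whose Hewitt extension is not a `P`-space: the main step
-/

set_option autoImplicit false
set_option linter.unusedSectionVars false
set_option linter.unreachableTactic false
set_option linter.unusedTactic false

namespace Pool.Agent.Q211.TP

open Pool.Agent.W868 Pool.Agent.W868.PName Pool.Agent.Q211.SY Pool.Agent.Q211.FS
open Pool.Agent.Q211.PA
open ZFSet (pair)

namespace K2M

variable {M : Set ZFSet.{0}} {pt : Pt ℚ → ZFSet.{0}} {X K R BL : ZFSet.{0}}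
  {h : ChfM ℚ M pt X K R BL} {K2 R2 : ZFSet.{0}} (h2 : K2M h K2 R2)

include h2

theorem hewitt {S : ZFSet.{0}} (hS : h.Sub (fun p => p ≠ .inf) S) {τ E σ i : ZFSet.{0}}
    (hτM : τ ∈ M) (hτ : GenBy M S τ K2 R2) (hfl : ChnM.Flat E) (hE : GoodE M E σ i) :
    ERegIn M E σ S τ ∧ ∃ V ∈ M, ∃ υ ∈ M, IsHewitt M E σ S τ V υ ∧ ¬ IsPSpace M V υ := by
  classical
  have hM := h.zf
  have hB := hM.base
  have hSM := hS.1
  have hEM := hE.EM
  have hσM := hE.σM
  have hK2M := h2.KM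
  have hR2M := h2.RM
  have hKM := h.KM
  have hBLM := h.BM
  have hRM := h.RM
  have hom : ZFSet.omega ∈ M := hM.infinity
  obtain ⟨J, hJM, N, hNM, ν, hνM, C, hCM, u, huM, hJ, hN, hν, hCN, hC, hhom⟩ :=
    exists_eval hM hE hSM hτM hK2M hR2M hτ (h2.hsep hS)
  refine ⟨⟨J, hJM, N, hNM, ν, hνM, C, hCM, u, huM, hN, hν, hCN, hhom⟩, ?_⟩
  -- the closure of the set of the evaluations
  have hVM : ZFSet.sep (fun g => ∀ W ∈ ν, g ∈ W → ∃ g' ∈ W, g' ∈ C) N ∈ M := by
    refine hM.sep_mem (Q := fun g => ∀ W ∈ ν, g ∈ W → ∃ g' ∈ W, g' ∈ C) ?_ hNM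
    (repeat' first
      | assumption
      | exact DfnF.proj _
      | exact DfnF.const (by assumption)
      | exact DfnF.const' (by first | assumption | trivial) (by first | assumption | trivial)
      | exact Dfn.prop _
      | apply hB.isFunc' | apply hB.isInj' | apply hB.isBij' | apply hB.isOrdinal'
      | apply hB.subset' | apply hB.pair' | apply hB.insert'
      | apply Dfn.not | apply Dfn.and | apply Dfn.or | apply Dfn.imp | apply Dfn.iff
      | apply hB.bex | apply hB.ball | apply Dfn.ex | apply Dfn.all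
      | apply Dfn.eq | apply Dfn.mem)
  obtain ⟨V, hV⟩ : ∃ V, V = ZFSet.sep (fun g => ∀ W ∈ ν, g ∈ W → ∃ g' ∈ W, g' ∈ C) N := ⟨_, rfl⟩
  rw [← hV] at hVM
  have hmV : ∀ g, g ∈ V ↔ g ∈ N ∧ ∀ W ∈ ν, g ∈ W → ∃ g' ∈ W, g' ∈ C := by
    intro g
    rw [hV, ZFSet.mem_sep]
  have hVN : V ⊆ N := fun g hg => ((hmV g).1 hg).1
  have hυM : subTop ν V ∈ M := by
    have h3 : subTop ν V = ZFSet.sep (fun A => ∃ W ∈ ν, ∀ z ∈ V, (z ∈ A ↔ z ∈ W)) (PM M V) := by
      ext A
      rw [mem_subTop, ZFSet.mem_sep, mem_PM]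
      constructor
      · rintro ⟨W, hW, rfl⟩
        have hWM := hM.trans _ hνM _ hW
        have h8 : W ∩ V = ZFSet.sep (fun z => z ∈ V) W := by
          ext z
          rw [ZFSet.mem_inter, ZFSet.mem_sep]
        refine ⟨⟨?_, fun z hz => (ZFSet.mem_inter.1 hz).2⟩, W, hW, fun z hz => ?_⟩
        · rw [h8]
          exact hM.sep_mem (Q := fun z => z ∈ V) (Dfn.mem (DfnF.proj 0) (DfnF.const hVM)) hWM
        · rw [ZFSet.mem_inter]
          exact ⟨fun h9 => h9.1, fun h9 => ⟨h9, hz⟩⟩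
      · rintro ⟨⟨-, hA⟩, W, hW, h4⟩
        refine ⟨W, hW, ?_⟩
        ext z
        rw [ZFSet.mem_inter]
        constructor
        · intro hz
          exact ⟨(h4 z (hA hz)).1 hz, hA hz⟩
        · rintro ⟨h5, h6⟩
          exact (h4 z h6).2 h5
    have hP := PM_mem hM hVM
    rw [h3]
    refine hM.sep_mem (Q := fun A => ∃ W ∈ ν, ∀ z ∈ V, (z ∈ A ↔ z ∈ W)) ?_ hP
    (repeat' first
      | assumption
      | exact DfnF.proj _
      | exact DfnF.const (by assumption)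
      | exact DfnF.const' (by first | assumption | trivial) (by first | assumption | trivial)
      | exact Dfn.prop _
      | apply hB.isFunc' | apply hB.isInj' | apply hB.isBij' | apply hB.isOrdinal'
      | apply hB.subset' | apply hB.pair' | apply hB.insert'
      | apply Dfn.not | apply Dfn.and | apply Dfn.or | apply Dfn.imp | apply Dfn.iff
      | apply hB.bex | apply hB.ball | apply Dfn.ex | apply Dfn.all
      | apply Dfn.eq | apply Dfn.mem)
  refine ⟨V, hVM, _, hυM, ⟨J, hJM, N, hNM, ν, hνM, hJ, hN, hν, fun g => ?_, rfl⟩, ?_⟩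
  · rw [hmV]
    refine and_congr_right fun _ => forall_congr' fun W => forall_congr' fun _ =>
      forall_congr' fun _ => exists_congr fun g' => and_congr_right fun _ => ?_
    exact hC g'
  -- the limit of the evaluations at the nodes
  have hGM : ZFSet.sep (fun q => ∃ f ∈ J, ∃ e ∈ E, q = pair f e ∧ ∃ k ∈ ZFSet.omega,
      ∀ n ∈ ZFSet.omega, n ∉ k → pair n e ∈ f) (ZFSet.prod J E) ∈ M := by
    refine hM.sep_mem (Q := fun q => ∃ f ∈ J, ∃ e ∈ E, q = pair f e ∧ ∃ k ∈ ZFSet.omega,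
      ∀ n ∈ ZFSet.omega, n ∉ k → pair n e ∈ f) ?_ (hM.prod_mem hJM hEM)
    (repeat' first
      | assumption
      | exact DfnF.proj _
      | exact DfnF.const (by assumption)
      | exact DfnF.const' (by first | assumption | trivial) (by first | assumption | trivial)
      | exact Dfn.prop _
      | apply hB.isFunc' | apply hB.isInj' | apply hB.isBij' | apply hB.isOrdinal'
      | apply hB.subset' | apply hB.pair' | apply hB.insert'
      | apply Dfn.not | apply Dfn.and | apply Dfn.or | apply Dfn.imp | apply Dfn.iff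
      | apply hB.bex | apply hB.ball | apply Dfn.ex | apply Dfn.all
      | apply Dfn.eq | apply Dfn.mem)
  obtain ⟨G, hG⟩ : ∃ G, G = ZFSet.sep (fun q => ∃ f ∈ J, ∃ e ∈ E, q = pair f e ∧
      ∃ k ∈ ZFSet.omega, ∀ n ∈ ZFSet.omega, n ∉ k → pair n e ∈ f) (ZFSet.prod J E) := ⟨_, rfl⟩
  rw [← hG] at hGM
  have hmG : ∀ f e, pair f e ∈ G ↔ f ∈ J ∧ e ∈ E ∧ ∃ k : ℕ, ∀ n, k ≤ n → pair (nat n) e ∈ f := by
    intro f e
    rw [hG, ZFSet.mem_sep, ZFSet.pair_mem_prod]
    constructor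
    · rintro ⟨⟨hf, he⟩, f', -, e', -, hp, k, hk, h3⟩
      obtain ⟨rfl, rfl⟩ := ZFSet.pair_inj.1 hp
      obtain ⟨k, rfl⟩ := mem_omega_iff.1 hk
      exact ⟨hf, he, k, fun n hn => h3 _ (mem_omega_iff.2 ⟨n, rfl⟩) fun h4 =>
        absurd (nat_mem_nat.1 h4) (not_lt.2 hn)⟩
    · rintro ⟨hf, he, k, h3⟩
      refine ⟨⟨hf, he⟩, f, hf, e, he, rfl, nat k, mem_omega_iff.2 ⟨k, rfl⟩, fun n hn hnk => ?_⟩
      obtain ⟨n, rfl⟩ := mem_omega_iff.1 hn
      exact h3 n (not_lt.1 fun h4 => hnk (nat_mem_nat.2 h4))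
  have hfun : ∀ f ∈ J, ∀ x e e', pair x e ∈ f → pair x e' ∈ f → e = e' := by
    intro f hf x e e' h3 h4
    have hc := ((hJ f).1 hf).2
    exact (hc.1.2 x (ZFSet.pair_mem_prod.1 (hc.1.1 h3)).1).unique h3 h4
  have hGN : G ∈ N := by
    refine (hN G).2 ⟨hGM, fun q hq => ?_, fun f hf => ?_⟩
    · rw [hG] at hq
      exact (ZFSet.mem_sep.1 hq).1
    · obtain ⟨k, e, he, h3⟩ := h2.ev_const hS hτ hfl hE.haus ((hJ f).1 hf).1 ((hJ f).1 hf).2
      refine ⟨e, (hmG _ _).2 ⟨hf, he, k, h3⟩, fun e' he' => ?_⟩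
      obtain ⟨-, -, k', h4⟩ := (hmG _ _).1 he'
      exact hfun f hf _ _ _ (h4 _ (le_max_right k k')) (h3 _ (le_max_left k k'))
  have hnd : ∀ n : ℕ, nat n ∈ S := by
    intro n
    rw [← h.nd]
    exact hS.mem.2 (by simp)
  -- the evaluations
  have hev : ∀ x ∈ S, ∃ g ∈ C, IsEval J x g := by
    intro x hx
    obtain ⟨g, hg, -⟩ := hhom.1.1.1.2 x hx
    have hxM := hM.trans _ hSM _ hx
    have h3 : ZFSet.sep (fun q => ∃ f ∈ J, ∃ e ∈ E, q = pair f e ∧ pair x e ∈ f)
        (ZFSet.prod J E) ∈ M := by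
      refine hM.sep_mem (Q := fun q => ∃ f ∈ J, ∃ e ∈ E, q = pair f e ∧ pair x e ∈ f) ?_
        (hM.prod_mem hJM hEM)
      (repeat' first
        | assumption
        | exact DfnF.proj _
        | exact DfnF.const (by assumption)
        | exact DfnF.const' (by first | assumption | trivial) (by first | assumption | trivial)
        | exact Dfn.prop _
        | apply hB.isFunc' | apply hB.isInj' | apply hB.isBij' | apply hB.isOrdinal'
        | apply hB.subset' | apply hB.pair' | apply hB.insert'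
        | apply Dfn.not | apply Dfn.and | apply Dfn.or | apply Dfn.imp | apply Dfn.iff
        | apply hB.bex | apply hB.ball | apply Dfn.ex | apply Dfn.all
        | apply Dfn.eq | apply Dfn.mem)
    have h4 : IsEval J x (ZFSet.sep (fun q => ∃ f ∈ J, ∃ e ∈ E, q = pair f e ∧ pair x e ∈ f)
        (ZFSet.prod J E)) := by
      intro z
      rw [ZFSet.mem_sep]
      constructor
      · rintro ⟨-, f, hf, e, he, rfl, h5⟩
        exact ⟨f, hf, e, h5, rfl⟩
      · rintro ⟨f, hf, e, h5, rfl⟩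
        have he := (ZFSet.pair_mem_prod.1 (((hJ f).1 hf).2.1.1 h5)).2
        exact ⟨ZFSet.pair_mem_prod.2 ⟨hf, he⟩, f, hf, e, he, rfl, h5⟩
    exact ⟨_, (hC _).2 ⟨x, hx, h4⟩, h4⟩
  choose! ev hevC hevE using hev
  have hmev : ∀ x ∈ S, ∀ f e, pair f e ∈ ev x ↔ f ∈ J ∧ pair x e ∈ f := by
    intro x hx f e
    rw [hevE x hx]
    constructor
    · rintro ⟨f', hf', e', h3, h4⟩
      obtain ⟨rfl, rfl⟩ := ZFSet.pair_inj.1 h4
      exact ⟨hf', h3⟩
    · rintro ⟨hf, h3⟩
      exact ⟨f, hf, e, h3, rfl⟩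
  have hCV : C ⊆ V := fun g hg => (hmV g).2 ⟨hCN hg, fun W _ hgW => ⟨g, hgW, hg⟩⟩
  -- the evaluations at the late nodes satisfy the conditions
  have hlate : ∀ F : Finset (ZFSet.{0} × ZFSet.{0}),
      (∀ d ∈ F, d.1 ∈ J ∧ d.2 ∈ σ ∧ ∃ y ∈ d.2, pair d.1 y ∈ G) →
      ∃ k : ℕ, ∀ n, k ≤ n → ∀ d ∈ F, ∃ y ∈ d.2, pair d.1 y ∈ ev (nat n) := by
    intro F
    refine Finset.induction_on F (fun _ => ⟨0, fun n _ d hd => absurd hd (by simp)⟩) ?_
    intro d F _ ih hF
    obtain ⟨k, hk⟩ := ih fun d' hd' => hF d' (Finset.mem_insert_of_mem hd')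
    obtain ⟨-, -, y, hy, h1⟩ := hF d (Finset.mem_insert_self _ _)
    obtain ⟨hdJ, -, k', h3⟩ := (hmG _ _).1 h1
    refine ⟨max k k', fun n hn d' hd' => ?_⟩
    rcases Finset.mem_insert.1 hd' with rfl | hd'
    · exact ⟨y, hy, (hmev _ (hnd n) _ _).2 ⟨hdJ, h3 n ((le_max_right _ _).trans hn)⟩⟩
    · exact hk n ((le_max_left _ _).trans hn) d' hd'
  have hGV : G ∈ V := by
    refine (hmV G).2 ⟨hGN, fun W hW hGW => ?_⟩
    obtain ⟨F, hF, h3⟩ := ((hν W).1 hW).2.2 G hGW
    obtain ⟨k, hk⟩ := hlate F hF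
    exact ⟨_, h3 _ (hCN (hevC _ (hnd k))) (hk k le_rfl), hevC _ (hnd k)⟩
  -- the values of the characteristic functions
  obtain ⟨e0, he0, he0'⟩ := hE.inj.1.2 (nat 0) (mem_omega_iff.2 ⟨0, rfl⟩)
  obtain ⟨e1, he1, he1'⟩ := hE.inj.1.2 (nat 1) (mem_omega_iff.2 ⟨1, rfl⟩)
  have he0E : e0 ∈ E := (ZFSet.pair_mem_prod.1 (hE.inj.1.1 he0)).2
  have he1E : e1 ∈ E := (ZFSet.pair_mem_prod.1 (hE.inj.1.1 he1)).2
  have he0M := hM.trans _ hEM _ he0E
  have he1M := hM.trans _ hEM _ he1E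
  have hne : e0 ≠ e1 := by
    rintro h3
    have h4 := hE.inj.2 _ _ _ (h3 ▸ he0) he1
    exact absurd (nat_injective h4) (by norm_num)
  have hchi : ∀ a : ℕ × ℚ, ∃ f ∈ J, ∀ x ∈ S, (pair x e1 ∈ f ↔ pair (pt (.atm a)) x ∈ R) ∧
      (pair x e0 ∈ f ↔ pair (pt (.atm a)) x ∉ R) := by
    intro a
    obtain ⟨f, hf, hc, h3⟩ := chi_fun hM hE hSM hK2M hR2M hτ ((h2.mK _).2 ⟨a, Or.inl rfl⟩)
    refine ⟨f, (hJ f).2 ⟨hf, hc⟩, fun x hx => ?_⟩
    obtain ⟨p, -, rfl⟩ := (hS.2 x).1 hx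
    rw [(h3 _ hx).1 e1 he1, (h3 _ hx).2 e0 he0, (h2.mR a p).1, h.R_iff]
    exact ⟨Iff.rfl, Iff.rfl⟩
  -- the sequence of the open sets
  let Q : ZFSet.{0} → ZFSet.{0} → Prop := fun n g => ∃ a ∈ K, pair n a ∈ BL ∧ ∃ f ∈ J,
    pair f e1 ∈ g ∧ ∀ x ∈ S, (pair x e1 ∈ f ↔ pair a x ∈ R) ∧ (pair x e0 ∈ f ↔ pair a x ∉ R)
  have hQ : Dfn M M fun w : Fin 2 → ZFSet.{0} => Q (w 0) (w 1) := by
    simp only [Q]
    (repeat' first
      | assumption
      | exact DfnF.proj _
      | exact DfnF.const (by assumption)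
      | exact DfnF.const' (by first | assumption | trivial) (by first | assumption | trivial)
      | exact Dfn.prop _
      | apply hB.isFunc' | apply hB.isInj' | apply hB.isBij' | apply hB.isOrdinal'
      | apply hB.subset' | apply hB.pair' | apply hB.insert'
      | apply Dfn.not | apply Dfn.and | apply Dfn.or | apply Dfn.imp | apply Dfn.iff
      | apply hB.bex | apply hB.ball | apply Dfn.ex | apply Dfn.all
      | apply Dfn.eq | apply Dfn.mem)
  have hUM : ∀ n : ℕ, ZFSet.sep (fun g => Q (nat n) g) V ∈ M := by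
    intro n
    have hn := hM.nat_mem n
    refine hM.sep_mem (Q := fun g => Q (nat n) g) ?_ hVM
    generalize nat n = m at hn
    (repeat' first
      | first | apply Dfn.comp2 (Q := fun a b => Q a b) hQ
      | assumption
      | exact DfnF.proj _
      | exact DfnF.const (by assumption)
      | exact DfnF.const' (by first | assumption | trivial) (by first | assumption | trivial)
      | exact Dfn.prop _
      | apply hB.isFunc' | apply hB.isInj' | apply hB.isBij' | apply hB.isOrdinal'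
      | apply hB.subset' | apply hB.pair' | apply hB.insert'
      | apply Dfn.not | apply Dfn.and | apply Dfn.or | apply Dfn.imp | apply Dfn.iff
      | apply hB.bex | apply hB.ball | apply Dfn.ex | apply Dfn.all
      | apply Dfn.eq | apply Dfn.mem)
  have hP := PM_mem hM hVM
  have hsM : ZFSet.sep (fun q => ∃ n ∈ ZFSet.omega, ∃ A ∈ PM M V, q = pair n A ∧
      ∀ z ∈ V, (z ∈ A ↔ Q n z)) (ZFSet.prod ZFSet.omega (PM M V)) ∈ M := by
    refine hM.sep_mem (Q := fun q => ∃ n ∈ ZFSet.omega, ∃ A ∈ PM M V, q = pair n A ∧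
      ∀ z ∈ V, (z ∈ A ↔ Q n z)) ?_ (hM.prod_mem hom hP)
    generalize PM M V = P at hP
    (repeat' first
      | first | apply Dfn.comp2 (Q := fun a b => Q a b) hQ
      | assumption
      | exact DfnF.proj _
      | exact DfnF.const (by assumption)
      | exact DfnF.const' (by first | assumption | trivial) (by first | assumption | trivial)
      | exact Dfn.prop _
      | apply hB.isFunc' | apply hB.isInj' | apply hB.isBij' | apply hB.isOrdinal'
      | apply hB.subset' | apply hB.pair' | apply hB.insert'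
      | apply Dfn.not | apply Dfn.and | apply Dfn.or | apply Dfn.imp | apply Dfn.iff
      | apply hB.bex | apply hB.ball | apply Dfn.ex | apply Dfn.all
      | apply Dfn.eq | apply Dfn.mem)
  intro hcon
  obtain ⟨U, hU, hmU⟩ := hcon _ hsM (fun n => ZFSet.sep (fun g => Q (nat n) g) V) (by
    intro q
    rw [ZFSet.mem_sep]
    constructor
    · rintro ⟨-, n, hn, A, hA, rfl, h3⟩
      obtain ⟨n, rfl⟩ := mem_omega_iff.1 hn
      refine ⟨n, ?_⟩
      congr 1
      ext z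
      rw [ZFSet.mem_sep]
      constructor
      · intro hz
        exact ⟨(mem_PM.1 hA).2 hz, (h3 z ((mem_PM.1 hA).2 hz)).1 hz⟩
      · rintro ⟨hz, hz'⟩
        exact (h3 z hz).2 hz'
    · rintro ⟨n, rfl⟩
      have hA : ZFSet.sep (fun g => Q (nat n) g) V ∈ PM M V :=
        mem_PM.2 ⟨hUM n, fun z hz => (ZFSet.mem_sep.1 hz).1⟩
      refine ⟨ZFSet.pair_mem_prod.2 ⟨mem_omega_iff.2 ⟨n, rfl⟩, hA⟩, _, mem_omega_iff.2 ⟨n, rfl⟩,
        _, hA, rfl, fun z hz => ?_⟩
      rw [ZFSet.mem_sep]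
      exact ⟨fun h1 => h1.2, fun h1 => ⟨hz, h1⟩⟩) (by
    intro n
    rw [sub_pow hM hσM hJM hNM hν hVM hVN]
    refine ⟨hUM n, fun z hz => (ZFSet.mem_sep.1 hz).1, fun g hg => ?_⟩
    obtain ⟨hgV, a, ha, hab, f, hf, h3, h4⟩ := ZFSet.mem_sep.1 hg
    obtain ⟨V0, hV0, V1, hV1, heV0, heV1, hV01⟩ := hE.haus e0 he0E e1 he1E hne
    refine ⟨{(f, V1)}, fun c hc => ?_, fun g' hg' h5 => ?_⟩
    · rw [Finset.mem_singleton.1 hc]
      exact ⟨hf, hV1, e1, heV1, h3⟩
    · obtain ⟨y, hy, h6⟩ := h5 _ (Finset.mem_singleton_self _)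
      dsimp only at hy h6
      refine ZFSet.mem_sep.2 ⟨hg', a, ha, hab, f, hf, ?_, h4⟩
      -- the value of `g'` at `f` is `e1`
      have hyE := (ZFSet.pair_mem_prod.1 (((hN g').1 (hVN hg')).2.1 h6)).2
      by_cases hye : y = e1
      · rw [← hye]
        exact h6
      · exfalso
        obtain ⟨W, hW, W', hW', h7, h8, h9⟩ := hE.haus y hyE e1 he1E hye
        have hWf : ZFSet.sep (fun g => ∃ v ∈ W ∩ V1, pair f v ∈ g) N ∈ ν := by
          have hWV := hE.top.inter _ hW _ hV1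
          have hWVM := hM.trans _ hσM _ hWV
          have hfM := hM.trans _ hJM _ hf
          refine (hν _).2 ⟨?_, fun z hz => (ZFSet.mem_sep.1 hz).1, fun g hg => ?_⟩
          · generalize W ∩ V1 = T at hWVM
            refine hM.sep_mem (Q := fun g => ∃ v ∈ T, pair f v ∈ g) ?_ hNM
            (repeat' first
              | assumption
              | exact DfnF.proj _
              | exact DfnF.const (by assumption)
              | exact DfnF.const' (by first | assumption | trivial) (by first | assumption | trivial)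
              | exact Dfn.prop _
              | apply hB.isFunc' | apply hB.isInj' | apply hB.isBij' | apply hB.isOrdinal'
              | apply hB.subset' | apply hB.pair' | apply hB.insert'
              | apply Dfn.not | apply Dfn.and | apply Dfn.or | apply Dfn.imp | apply Dfn.iff
              | apply hB.bex | apply hB.ball | apply Dfn.ex | apply Dfn.all
              | apply Dfn.eq | apply Dfn.mem)
          · refine ⟨{(f, W ∩ V1)}, fun c hc => ?_, fun g'' hg'' h10 => ZFSet.mem_sep.2 ⟨hg'',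
              h10 _ (Finset.mem_singleton_self _)⟩⟩
            rw [Finset.mem_singleton.1 hc]
            exact ⟨hf, hWV, (ZFSet.mem_sep.1 hg).2⟩
        obtain ⟨g'', h10, h11⟩ := ((hmV g').1 hg').2 _ hWf (ZFSet.mem_sep.2 ⟨hVN hg', y,
          ZFSet.mem_inter.2 ⟨h7, hy⟩, h6⟩)
        obtain ⟨x, hx, h12⟩ := (hC g'').1 h11
        obtain ⟨-, v, hv, h13⟩ := ZFSet.mem_sep.1 h10
        obtain ⟨f', -, v', h14, h15⟩ := (h12 _).1 h13
        obtain ⟨rfl, rfl⟩ := ZFSet.pair_inj.1 h15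
        obtain ⟨h16, h17⟩ := ZFSet.mem_inter.1 hv
        by_cases hax : pair a x ∈ R
        · have h18 := hfun _ hf _ _ _ h14 ((h4 x hx).1.2 hax)
          rw [h18] at h16
          exact h9 _ h16 h8
        · have h18 := hfun _ hf _ _ _ h14 ((h4 x hx).2.2 hax)
          rw [h18] at h17
          exact hV01 _ heV0 h17)
  have hGU : G ∈ U := by
    refine (hmU G).2 fun n => ZFSet.mem_sep.2 ⟨hGV, ?_⟩
    obtain ⟨f, hf, h3⟩ := hchi (n, 0)
    refine ⟨_, (h.mK _).2 ⟨(n, 0), rfl⟩, h.B_iff.2 rfl, f, hf, ?_, h3⟩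
    refine (hmG _ _).2 ⟨hf, he1E, n + 1, fun m hm => ?_⟩
    rw [(h3 _ (hnd m)).1, ← h.nd, h.R_iff]
    change n < m
    omega
  rw [sub_pow hM hσM hJM hNM hν hVM hVN] at hU
  obtain ⟨F, hF, h3⟩ := hU.2.2 G hGU
  obtain ⟨k, hk⟩ := hlate F hF
  have h4 := h3 _ (hCV (hevC _ (hnd k))) (hk k le_rfl)
  obtain ⟨-, a, ha, hab, f, hf, h5, h6⟩ := ZFSet.mem_sep.1 ((hmU _).1 h4 k)
  obtain ⟨a, rfl⟩ := (h.mK _).1 ha
  rw [h.B_iff] at hab
  have h7 := ((hmev _ (hnd k) _ _).1 h5).2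
  rw [(h6 _ (hnd k)).1, ← h.nd, h.R_iff] at h7
  have h8 : a.1 < k := h7
  omega

end K2M

end Pool.Agent.Q211.TP
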