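import Pool.Agent.Q211.TP.Cdl

/-!
# The family of the zero-sets
-/

set_option autoImplicit false
set_option linter.unusedSectionVars false
set_option linter.unreachableTactic false
set_option linter.unusedTactic false

namespace Pool.Agent.Q211.TP

open Pool.Agent.W868 Pool.Agent.W868.PName Pool.Agent.Q211.SY Pool.Agent.Q211.FS
open Pool.Agent.Q211.PA
open ZFSet (pair)

/-- The rational number `q` is less than the negative of the real number `y`. -/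
def LtN (y q : ZFSet.{0}) : Prop := ∃ a ∈ ZFSet.omega, ∃ b ∈ ZFSet.omega, ∃ c ∈ ZFSet.omega,
  q = pair (pair a b) c ∧ LtC y (pair (pair b a) c)

theorem ltN_iff {y : ℝ} {t : ℕ × ℕ × ℕ} : LtN (cutS y) (qc t) ↔ qv t < -y := by
  have hsw : ∀ a b c : ℕ, qv (b, a, c) = -qv (a, b, c) := by
    intro a b c
    simp only [qv]
    ring
  constructor
  · rintro ⟨a, ha, b, hb, c, hc, h1, h2⟩
    obtain ⟨a, rfl⟩ := mem_omega_iff.1 ha
    obtain ⟨b, rfl⟩ := mem_omega_iff.1 hb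
    obtain ⟨c, rfl⟩ := mem_omega_iff.1 hc
    have h3 : t = (a, b, c) := qc_injective h1
    have h4 : LtC (cutS y) (qc (b, a, c)) := h2
    rw [ltC_iff, hsw] at h4
    rw [h3]
    linarith
  · obtain ⟨a, b, c⟩ := t
    intro h
    refine ⟨nat a, mem_omega_iff.2 ⟨a, rfl⟩, nat b, mem_omega_iff.2 ⟨b, rfl⟩, nat c,
      mem_omega_iff.2 ⟨c, rfl⟩, rfl, ?_⟩
    change LtC (cutS y) (qc (b, a, c))
    rw [ltC_iff, hsw]
    linarith

theorem ltN_Qc {y q : ZFSet.{0}} (h : LtN y q) : q ∈ Qc := by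
  obtain ⟨a, ha, b, hb, c, hc, h1, h2⟩ := h
  obtain ⟨a, rfl⟩ := mem_omega_iff.1 ha
  obtain ⟨b, rfl⟩ := mem_omega_iff.1 hb
  obtain ⟨c, rfl⟩ := mem_omega_iff.1 hc
  exact mem_Qc.2 ⟨(a, b, c), h1⟩

theorem abs_max_lt {a b c d ε : ℝ} (h1 : |a - c| < ε) (h2 : |b - d| < ε) :
    |(max (|a|) (|b|)) - (max (|c|) (|d|))| < ε := by
  have h3 := abs_max_sub_max_le_max (|a|) (|b|) (|c|) (|d|)
  refine lt_of_le_of_lt h3 (max_lt ?_ ?_)
  · exact lt_of_le_of_lt (abs_abs_sub_abs_le_abs_sub _ _) h1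
  · exact lt_of_le_of_lt (abs_abs_sub_abs_le_abs_sub _ _) h2

section

variable {M : Set ZFSet.{0}} (hM : IsZF M) (hQ : Qc ∈ M) (hL : LQ ∈ M)

include hM hQ hL

theorem dfn_LtN : Dfn M M fun w : Fin 2 → ZFSet.{0} => LtN (w 0) (w 1) := by
  have hB := hM.base
  have hlt := dfn_LtC hM hQ hL
  have hom : ZFSet.omega ∈ M := hM.infinity
  unfold LtN
  (repeat' first
    | first | apply Dfn.comp2 (Q := fun a b => LtC a b) hlt
    | assumption
    | exact DfnF.proj _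
    | exact DfnF.const (by assumption)
    | exact DfnF.const' (by first | assumption | trivial) (by first | assumption | trivial)
    | exact Dfn.prop _
    | apply hB.isFunc' | apply hB.isInj' | apply hB.isBij' | apply hB.isOrdinal'
    | apply hB.subset' | apply hB.pair' | apply hB.insert'
    | apply Dfn.not | apply Dfn.and | apply Dfn.or | apply Dfn.imp | apply Dfn.iff
    | apply hB.bex | apply hB.ball | apply Dfn.ex | apply Dfn.all
    | apply Dfn.eq | apply Dfn.mem)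

/-- Rational intervals. -/
theorem interval_mem {R σ : ZFSet.{0}} (hRM : R ∈ M) (hR : IsReals M R σ)
    (s t : ℕ × ℕ × ℕ) : ZFSet.sep (fun z => qc s ∈ z ∧ LtC z (qc t)) R ∈ σ := by
  have hlt := dfn_LtC hM hQ hL
  have h1 : qc t ∈ M := hM.trans _ hQ _ (mem_Qc.2 ⟨_, rfl⟩)
  have h2 : qc s ∈ M := hM.trans _ hQ _ (mem_Qc.2 ⟨_, rfl⟩)
  refine open_of hM hRM (fun z hz => ((hR.1 z).1 hz).2) hR.2
    (P := fun z => qc s ∈ z ∧ LtC z (qc t)) ?_ fun x hx h3 => ?_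
  · exact (Dfn.mem (DfnF.const h2) (DfnF.proj 0)).and
      (Dfn.comp2 (Q := fun a b => LtC a b) hlt (DfnF.proj 0) (DfnF.const h1))
  · obtain ⟨h4, h5⟩ := h3
    rw [qc_mem_cutS] at h4
    rw [ltC_iff] at h5
    refine ⟨min (x - qv s) (qv t - x), lt_min (by linarith) (by linarith), fun y hy hxy => ?_⟩
    rw [lt_min_iff, abs_lt, abs_lt] at hxy
    rw [qc_mem_cutS, ltC_iff]
    constructor <;> linarith

theorem exists_interval {R σ : ZFSet.{0}} (hRM : R ∈ M) (hR : IsReals M R σ) {x ε : ℝ}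
    (hε : 0 < ε) (hx : cutS x ∈ R) : ∃ V ∈ σ, cutS x ∈ V ∧ ∀ y, cutS y ∈ V → |x - y| < ε := by
  obtain ⟨s, h1, h2⟩ := exists_qv_btwn (show x - ε < x by linarith)
  obtain ⟨t, h3, h4⟩ := exists_qv_btwn (show x < x + ε by linarith)
  refine ⟨_, interval_mem hM hQ hL hRM hR s t, ZFSet.mem_sep.2 ⟨hx, qc_mem_cutS.2 h2,
    ltC_iff.2 h3⟩, fun y hy => ?_⟩
  obtain ⟨-, h5, h6⟩ := ZFSet.mem_sep.1 hy
  rw [qc_mem_cutS] at h5
  rw [ltC_iff] at h6
  rw [abs_lt]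
  constructor <;> linarith

end

section

variable {M : Set ZFSet.{0}} (hM : IsZF M) (hQ : Qc ∈ M) (hL : LQ ∈ M)
  {RR σ : ZFSet.{0}} (hRRM : RR ∈ M) (hσM : σ ∈ M) (hRR : IsReals M RR σ)
  {X τ K R : ZFSet.{0}} (hX : X ∈ M) (hτM : τ ∈ M) (hK : K ∈ M) (hR : R ∈ M)
  (hτ : GenBy M X τ K R)

include hM hQ hL hRRM hσM hRR hX hτM hK hR hτ

/-- A function to the real line is continuous if it is continuous at all points. -/
theorem cont_of {f : ZFSet.{0}} (hf : f ∈ M) (hfun : ZFSet.IsFunc X RR f)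
    (hc : ∀ x ∈ X, ∀ s : ℝ, pair x (cutS s) ∈ f → ∀ ε : ℝ, 0 < ε →
      ∃ U, Nr X K R x U ∧ ∀ y ∈ X, y ∈ U → ∀ t : ℝ, pair y (cutS t) ∈ f → |s - t| < ε) :
    IsCont X τ RR σ f := by
  have hB := hM.base
  refine ⟨hfun, fun V hV => ?_⟩
  have hVM := hM.trans _ hσM _ hV
  refine (hτ _).2 ⟨hM.sep_mem (Q := fun x => ∃ y ∈ V, pair x y ∈ f) ?_ hX, fun z hz =>
    (mem_pre.1 hz).1, fun x hx => ?_⟩
  · (repeat' first
      | assumption
      | exact DfnF.proj _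
      | exact DfnF.const (by assumption)
      | exact DfnF.const' (by first | assumption | trivial) (by first | assumption | trivial)
      | exact Dfn.prop _
      | apply hB.isFunc' | apply hB.isInj' | apply hB.isBij' | apply hB.isOrdinal'
      | apply hB.subset' | apply hB.pair' | apply hB.insert'
      | apply Dfn.not | apply Dfn.and | apply Dfn.or | apply Dfn.imp | apply Dfn.iff
      | apply hB.bex | apply hB.ball | apply Dfn.ex | apply Dfn.all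
      | apply Dfn.eq | apply Dfn.mem)
  · obtain ⟨hx, e, he, h1⟩ := mem_pre.1 hx
    obtain ⟨-, s, rfl⟩ := (hRR.1 e).1 (ZFSet.pair_mem_prod.1 (hfun.1 h1)).2
    obtain ⟨-, -, h2⟩ := (hRR.2 V).1 hV
    obtain ⟨ε, hε, h3⟩ := h2 s he
    obtain ⟨U, hU, h4⟩ := hc x hx s h1 ε hε
    refine hU.mono fun y hy hyU => ?_
    obtain ⟨e', he', -⟩ := hfun.2 y hy
    have he'R := (ZFSet.pair_mem_prod.1 (hfun.1 he')).2
    obtain ⟨-, t, rfl⟩ := (hRR.1 e').1 he'R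
    exact mem_pre.2 ⟨hy, _, h3 t he'R (h4 y hy hyU t he'), he'⟩

/-- The intersection of two zero-sets is a zero-set. -/
theorem zero_inter {Z Z' : ZFSet.{0}} (hZ : IsZeroSet M RR σ X τ Z)
    (hZ' : IsZeroSet M RR σ X τ Z') : IsZeroSet M RR σ X τ (Z ∩ Z') := by
  have hB := hM.base
  have hltN := dfn_LtN hM hQ hL
  obtain ⟨f, hf, hfc, hfZ⟩ := hZ
  obtain ⟨g, hg, hgc, hgZ⟩ := hZ'
  have hval : ∀ {f}, IsCont X τ RR σ f → ∀ x ∈ X, ∃ s : ℝ, pair x (cutS s) ∈ f ∧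
      cutS s ∈ RR ∧ ∀ t : ℝ, pair x (cutS t) ∈ f → t = s := by
    intro f hfc x hx
    obtain ⟨e, he, he'⟩ := hfc.1.2 x hx
    have heR := (ZFSet.pair_mem_prod.1 (hfc.1.1 he)).2
    obtain ⟨-, s, rfl⟩ := (hRR.1 e).1 heR
    exact ⟨s, he, heR, fun t ht => cutS_injective (he' _ ht)⟩
  have hmax : ∀ s t : ℝ, ∀ e, (∀ q, q ∈ e ↔ q ∈ Qc ∧ (q ∈ cutS s ∨ q ∈ cutS t ∨
      LtN (cutS s) q ∨ LtN (cutS t) q)) ↔ e = cutS (max |s| |t|) := by
    intro s t e
    have h1 : ∀ q, q ∈ cutS (max |s| |t|) ↔ q ∈ Qc ∧ (q ∈ cutS s ∨ q ∈ cutS t ∨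
        LtN (cutS s) q ∨ LtN (cutS t) q) := by
      intro q
      constructor
      · intro hq
        obtain ⟨r, hr, rfl⟩ := mem_cutS.1 hq
        refine ⟨mem_Qc.2 ⟨r, rfl⟩, ?_⟩
        rw [qc_mem_cutS, qc_mem_cutS, ltN_iff, ltN_iff]
        rw [lt_max_iff, lt_abs, lt_abs] at hr
        tauto
      · rintro ⟨hq, h2⟩
        obtain ⟨r, rfl⟩ := mem_Qc.1 hq
        rw [qc_mem_cutS, qc_mem_cutS, ltN_iff, ltN_iff] at h2
        rw [qc_mem_cutS, lt_max_iff, lt_abs, lt_abs]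
        tauto
    constructor
    · intro h2
      ext q
      rw [h2, h1]
    · rintro rfl
      exact h1
  have hmaxR : ∀ s t : ℝ, cutS s ∈ RR → cutS t ∈ RR → cutS (max |s| |t|) ∈ RR := by
    intro s t hs ht
    have hsM := hM.trans _ hRRM _ hs
    have htM := hM.trans _ hRRM _ ht
    have h1 : cutS (max |s| |t|) = ZFSet.sep (fun q => q ∈ cutS s ∨ q ∈ cutS t ∨
        LtN (cutS s) q ∨ LtN (cutS t) q) Qc := by
      refine ((hmax s t _).1 fun q => ?_).symm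
      rw [ZFSet.mem_sep]
    refine (hRR.1 _).2 ⟨?_, _, rfl⟩
    rw [h1]
    generalize cutS s = a at hsM
    generalize cutS t = b at htM
    refine hM.sep_mem (Q := fun q => q ∈ a ∨ q ∈ b ∨ LtN a q ∨ LtN b q) ?_ hQ
    (repeat' first
      | first | apply Dfn.comp2 (Q := fun a b => LtN a b) hltN
      | assumption
      | exact DfnF.proj _
      | exact DfnF.const (by assumption)
      | exact DfnF.const' (by first | assumption | trivial) (by first | assumption | trivial)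
      | exact Dfn.prop _
      | apply hB.isFunc' | apply hB.isInj' | apply hB.isBij' | apply hB.isOrdinal'
      | apply hB.subset' | apply hB.pair' | apply hB.insert'
      | apply Dfn.not | apply Dfn.and | apply Dfn.or | apply Dfn.imp | apply Dfn.iff
      | apply hB.bex | apply hB.ball | apply Dfn.ex | apply Dfn.all
      | apply Dfn.eq | apply Dfn.mem)
  obtain ⟨u, hu⟩ : ∃ u, u = ZFSet.sep (fun p => ∃ x ∈ X, ∃ e ∈ RR, p = pair x e ∧
      ∃ a ∈ RR, ∃ b ∈ RR, pair x a ∈ f ∧ pair x b ∈ g ∧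
      (∀ q ∈ e, q ∈ a ∨ q ∈ b ∨ LtN a q ∨ LtN b q) ∧
      ∀ q ∈ Qc, (q ∈ a ∨ q ∈ b ∨ LtN a q ∨ LtN b q) → q ∈ e) (ZFSet.prod X RR) := ⟨_, rfl⟩
  have huM : u ∈ M := by
    rw [hu]
    refine hM.sep_mem (Q := fun p => ∃ x ∈ X, ∃ e ∈ RR, p = pair x e ∧
      ∃ a ∈ RR, ∃ b ∈ RR, pair x a ∈ f ∧ pair x b ∈ g ∧
      (∀ q ∈ e, q ∈ a ∨ q ∈ b ∨ LtN a q ∨ LtN b q) ∧
      ∀ q ∈ Qc, (q ∈ a ∨ q ∈ b ∨ LtN a q ∨ LtN b q) → q ∈ e) ?_ (hM.prod_mem hX hRRM)
    (repeat' first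
      | first | apply Dfn.comp2 (Q := fun a b => LtN a b) hltN
      | assumption
      | exact DfnF.proj _
      | exact DfnF.const (by assumption)
      | exact DfnF.const' (by first | assumption | trivial) (by first | assumption | trivial)
      | exact Dfn.prop _
      | apply hB.isFunc' | apply hB.isInj' | apply hB.isBij' | apply hB.isOrdinal'
      | apply hB.subset' | apply hB.pair' | apply hB.insert'
      | apply Dfn.not | apply Dfn.and | apply Dfn.or | apply Dfn.imp | apply Dfn.iff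
      | apply hB.bex | apply hB.ball | apply Dfn.ex | apply Dfn.all
      | apply Dfn.eq | apply Dfn.mem)
  have hmem : ∀ x r, pair x (cutS r) ∈ u ↔ x ∈ X ∧ cutS r ∈ RR ∧ ∃ s t : ℝ,
      pair x (cutS s) ∈ f ∧ pair x (cutS t) ∈ g ∧ r = max |s| |t| := by
    intro x r
    rw [hu, ZFSet.mem_sep, ZFSet.pair_mem_prod]
    constructor
    · rintro ⟨⟨hx, hr⟩, x', -, e', -, hp, a, ha, b, hb, h1, h2, h3, h4⟩
      obtain ⟨rfl, rfl⟩ := ZFSet.pair_inj.1 hp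
      obtain ⟨-, s, rfl⟩ := (hRR.1 a).1 ha
      obtain ⟨-, t, rfl⟩ := (hRR.1 b).1 hb
      refine ⟨hx, hr, s, t, h1, h2, cutS_injective ((hmax s t _).1 fun q => ?_)⟩
      constructor
      · intro hq
        obtain ⟨w, hw, rfl⟩ := mem_cutS.1 hq
        exact ⟨mem_Qc.2 ⟨w, rfl⟩, h3 _ hq⟩
      · rintro ⟨hq, h5⟩
        exact h4 q hq h5
    · rintro ⟨hx, hr, s, t, h1, h2, rfl⟩
      have h3 := (hmax s t _).2 rfl
      exact ⟨⟨hx, hr⟩, x, hx, _, hr, rfl, _, (ZFSet.pair_mem_prod.1 (hfc.1.1 h1)).2, _,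
        (ZFSet.pair_mem_prod.1 (hgc.1.1 h2)).2, h1, h2, fun q hq => ((h3 q).1 hq).2,
        fun q hq h4 => (h3 q).2 ⟨hq, h4⟩⟩
  have hufun : ZFSet.IsFunc X RR u := by
    refine ⟨fun q hq => ?_, fun x hx => ?_⟩
    · rw [hu] at hq
      exact (ZFSet.mem_sep.1 hq).1
    · obtain ⟨s, h1, h2, h3⟩ := hval hfc x hx
      obtain ⟨t, h4, h5, h6⟩ := hval hgc x hx
      refine ⟨cutS (max |s| |t|), (hmem _ _).2 ⟨hx, hmaxR s t h2 h5, s, t, h1, h4, rfl⟩,
        fun e he => ?_⟩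
      have heR : e ∈ RR := by
        rw [hu] at he
        exact (ZFSet.pair_mem_prod.1 (ZFSet.mem_sep.1 he).1).2
      obtain ⟨-, r, rfl⟩ := (hRR.1 e).1 heR
      obtain ⟨-, -, s', t', h7, h8, rfl⟩ := (hmem _ _).1 he
      rw [h3 s' h7, h6 t' h8]
  refine ⟨u, huM, cont_of hM hQ hL hRRM hσM hRR hX hτM hK hR hτ huM hufun fun x hx r hr ε hε => ?_,
    fun z => ?_⟩
  · obtain ⟨-, -, s, t, h1, h2, rfl⟩ := (hmem _ _).1 hr
    obtain ⟨V, hV, h3, h4⟩ := exists_interval hM hQ hL hRRM hRR hε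
      (ZFSet.pair_mem_prod.1 (hfc.1.1 h1)).2
    obtain ⟨W, hW, h5, h6⟩ := exists_interval hM hQ hL hRRM hRR hε
      (ZFSet.pair_mem_prod.1 (hgc.1.1 h2)).2
    have h7 := ((hτ _).1 (hfc.2 V hV)).2.2 x (mem_pre.2 ⟨hx, _, h3, h1⟩)
    have h8 := ((hτ _).1 (hgc.2 W hW)).2.2 x (mem_pre.2 ⟨hx, _, h5, h2⟩)
    refine ⟨_, h7.inter h8, fun y hy hyU r' hr' => ?_⟩
    obtain ⟨h9, h10⟩ := ZFSet.mem_inter.1 hyU
    obtain ⟨-, -, s', t', h11, h12, rfl⟩ := (hmem _ _).1 hr'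
    obtain ⟨-, e, he, h13⟩ := mem_pre.1 h9
    obtain ⟨-, e', he', h14⟩ := mem_pre.1 h10
    have h15 := (hfc.1.2 y hy).unique h13 h11
    have h16 := (hgc.1.2 y hy).unique h14 h12
    rw [h15] at he
    rw [h16] at he'
    exact abs_max_lt (h4 s' he) (h6 t' he')
  · rw [ZFSet.mem_inter, hfZ, hgZ, hmem]
    constructor
    · rintro ⟨h1, h2⟩
      obtain ⟨hx, h0⟩ := ZFSet.pair_mem_prod.1 (hfc.1.1 h1)
      exact ⟨hx, h0, 0, 0, h1, h2, by simp⟩
    · rintro ⟨hx, h0, s, t, h1, h2, h3⟩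
      have h4 : |s| ≤ 0 := h3 ▸ le_max_left _ _
      have h5 : |t| ≤ 0 := h3 ▸ le_max_right _ _
      rw [abs_nonpos_iff.1 h4] at h1
      rw [abs_nonpos_iff.1 h5] at h2
      exact ⟨h1, h2⟩

/-- Zero-sets are closed. -/
theorem zero_closed {Z : ZFSet.{0}} (hZ : IsZeroSet M RR σ X τ Z) : X \ Z ∈ τ := by
  have hB := hM.base
  obtain ⟨f, hf, hfc, hfZ⟩ := hZ
  have h0 : cutS 0 ∈ M := cut0_mem hM hQ hL
  have hW : ZFSet.sep (fun z => z ≠ cutS 0) RR ∈ σ := by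
    refine open_of hM hRRM (fun z hz => ((hRR.1 z).1 hz).2) hRR.2
      (P := fun z => z ≠ cutS 0) ?_ fun x hx h3 => ?_
    · exact Dfn.not (Dfn.eq (DfnF.proj 0) (DfnF.const h0))
    · have hx0 : x ≠ 0 := fun h => h3 (by rw [h])
      refine ⟨|x|, abs_pos.2 hx0, fun y hy hxy h4 => ?_⟩
      rw [cutS_injective h4, sub_zero] at hxy
      exact absurd hxy (lt_irrefl _)
  have h1 : X \ Z = pre X f (ZFSet.sep (fun z => z ≠ cutS 0) RR) := by
    ext z
    rw [ZFSet.mem_sdiff, mem_pre, hfZ]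
    refine and_congr_right fun hz => ?_
    obtain ⟨e, he, he'⟩ := hfc.1.2 z hz
    have heR := (ZFSet.pair_mem_prod.1 (hfc.1.1 he)).2
    constructor
    · intro h2
      exact ⟨e, ZFSet.mem_sep.2 ⟨heR, fun h3 => h2 (h3 ▸ he)⟩, he⟩
    · rintro ⟨e', h2, h3⟩ h4
      exact (ZFSet.mem_sep.1 h2).2 ((he' _ h3).trans (he' _ h4).symm)
  rw [h1]
  exact hfc.2 _ hW

theorem fam_zero (hE : ∃ i, GoodE M RR σ i) : FamOK M X τ (IsZeroSet M RR σ X τ) := by
  have hB := hM.base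
  have h0 : cutS 0 ∈ M := cut0_mem hM hQ hL
  obtain ⟨i, hi⟩ := hE
  have hsub : ∀ C, IsZeroSet M RR σ X τ C → C ⊆ X := by
    rintro C ⟨f, hf, hfc, hfZ⟩ z hz
    exact (ZFSet.pair_mem_prod.1 (hfc.1.1 ((hfZ z).1 hz))).1
  refine ⟨hsub, fun C D hC hD => zero_inter hM hQ hL hRRM hσM hRR hX hτM hK hR hτ hC hD,
    fun V hV hV' => zero_of_clopen hM hQ hL hRRM hRR hX (hτ.top hM hX) hV
      (hM.trans _ hτM _ hV) hV', fun C hC => zero_closed hM hQ hL hRRM hσM hRR hX hτM hK hR hτ hC,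
    ?_⟩
  obtain ⟨J, hJM, hJ⟩ := exists_funs hM hi hX hτM hK hR hτ
  refine ⟨ZFSet.sep (fun C => ∃ f ∈ J, ∀ z ∈ X, (z ∈ C ↔ pair z (cutS 0) ∈ f)) (PM M X),
    hM.sep_mem (Q := fun C => ∃ f ∈ J, ∀ z ∈ X, (z ∈ C ↔ pair z (cutS 0) ∈ f)) ?_
    (PM_mem hM hX), fun C => ?_⟩
  · generalize cutS 0 = o at h0
    (repeat' first
      | assumption
      | exact DfnF.proj _
      | exact DfnF.const (by assumption)
      | exact DfnF.const' (by first | assumption | trivial) (by first | assumption | trivial)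
      | exact Dfn.prop _
      | apply hB.isFunc' | apply hB.isInj' | apply hB.isBij' | apply hB.isOrdinal'
      | apply hB.subset' | apply hB.pair' | apply hB.insert'
      | apply Dfn.not | apply Dfn.and | apply Dfn.or | apply Dfn.imp | apply Dfn.iff
      | apply hB.bex | apply hB.ball | apply Dfn.ex | apply Dfn.all
      | apply Dfn.eq | apply Dfn.mem)
  · rw [ZFSet.mem_sep, mem_PM]
    constructor
    · rintro ⟨⟨h1, h2⟩, f, hf, h3⟩
      obtain ⟨hfM, hfc⟩ := (hJ f).1 hf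
      refine ⟨f, hfM, hfc, fun z => ⟨fun hz => (h3 z (h2 hz)).1 hz, fun hz => ?_⟩⟩
      exact (h3 z (ZFSet.pair_mem_prod.1 (hfc.1.1 hz)).1).2 hz
    · intro h1
      have hCX := hsub C h1
      obtain ⟨f, hf, hfc, hfZ⟩ := h1
      have hCM : C ∈ M := by
        have h5 : C = ZFSet.sep (fun z => pair z (cutS 0) ∈ f) X := by
          ext z
          rw [ZFSet.mem_sep]
          exact ⟨fun hz => ⟨hCX hz, (hfZ z).1 hz⟩, fun hz => (hfZ z).2 hz.2⟩
        rw [h5]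
        generalize cutS 0 = o at h0
        refine hM.sep_mem (Q := fun z => pair z o ∈ f) ?_ hX
        (repeat' first
          | assumption
          | exact DfnF.proj _
          | exact DfnF.const (by assumption)
          | exact DfnF.const' (by first | assumption | trivial) (by first | assumption | trivial)
          | exact Dfn.prop _
          | apply hB.isFunc' | apply hB.isInj' | apply hB.isBij' | apply hB.isOrdinal'
          | apply hB.subset' | apply hB.pair' | apply hB.insert'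
          | apply Dfn.not | apply Dfn.and | apply Dfn.or | apply Dfn.imp | apply Dfn.iff
          | apply hB.bex | apply hB.ball | apply Dfn.ex | apply Dfn.all
          | apply Dfn.eq | apply Dfn.mem)
      exact ⟨⟨hCM, hCX⟩, f, (hJ f).2 ⟨hf, hfc⟩, fun z _ => hfZ z⟩

/-- Countable intersections of clopen sets are zero-sets. -/
theorem zero_of_cdelta {C : ZFSet.{0}} (hC : IsCdelta M X τ C) : IsZeroSet M RR σ X τ C := by
  classical
  have hB := hM.base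
  have hom : ZFSet.omega ∈ M := hM.infinity
  have he := hM.empty_mem
  have hn1 : nat 1 ∈ M := hM.nat_mem 1
  have hn1' : nat 1 ∈ ZFSet.omega := mem_omega_iff.2 ⟨1, rfl⟩
  obtain ⟨s, hs, A, hA, hcl, hCA⟩ := hC
  have hqv : ∀ i : ℕ, qv (1, 0, i) = 1 / (i + 1) := fun i => by simp [qv]
  have hq0 : qv (0, 0, 0) = 0 := by simp [qv]
  have hqcM : ∀ t, qc t ∈ M := fun t => hM.trans _ hQ _ (mem_Qc.2 ⟨t, rfl⟩)
  have hz0 := hqcM (0, 0, 0)
  -- the value at a point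
  have hval : ∀ x ∈ X, ∃ r : ℝ, cutS r ∈ RR ∧ (x ∈ C → r = 0) ∧ (x ∉ C → ∃ m : ℕ, x ∉ A m ∧
      (∀ j < m, x ∈ A j) ∧ r = 1 / (m + 1)) ∧ ∀ q, q ∈ cutS r ↔ q ∈ Qc ∧
      (pair q (qc (0, 0, 0)) ∈ LQ ∨ ∃ i : ℕ, x ∉ A i ∧ pair q (qc (1, 0, i)) ∈ LQ) := by
    intro x hx
    by_cases hxC : x ∈ C
    · refine ⟨0, (real_mem hRR).2 (cut0_mem hM hQ hL), fun _ => rfl, fun h => absurd hxC h,
        fun q => ?_⟩
      constructor
      · intro hq
        obtain ⟨t, ht, rfl⟩ := mem_cutS.1 hq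
        exact ⟨mem_Qc.2 ⟨t, rfl⟩, Or.inl (mem_LQ.2 (by rw [hq0]; exact ht))⟩
      · rintro ⟨hq, h1 | ⟨i, hi, -⟩⟩
        · obtain ⟨t, rfl⟩ := mem_Qc.1 hq
          have h2 := mem_LQ.1 h1
          rw [hq0] at h2
          exact qc_mem_cutS.2 h2
        · exact absurd (((hCA x).1 hxC).2 i) hi
    · have hex : ∃ i, x ∉ A i := by
        by_contra h1
        push Not at h1
        exact hxC ((hCA x).2 ⟨hx, h1⟩)
      have hpos : (0 : ℝ) < 1 / ((Nat.find hex : ℕ) + 1) := by positivity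
      refine ⟨1 / ((Nat.find hex : ℕ) + 1), (real_mem hRR).2 ?_, fun h => absurd h hxC,
        fun _ => ⟨Nat.find hex, Nat.find_spec hex, fun j hj => ?_, rfl⟩, fun q => ?_⟩
      · have h1 := cut_mem hM hQ hL (1, 0, Nat.find hex)
        rwa [hqv] at h1
      · by_contra h1
        exact Nat.find_min hex hj h1
      · constructor
        · intro hq
          obtain ⟨t, ht, rfl⟩ := mem_cutS.1 hq
          exact ⟨mem_Qc.2 ⟨t, rfl⟩, Or.inr ⟨Nat.find hex, Nat.find_spec hex,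
            mem_LQ.2 (by rw [hqv]; exact ht)⟩⟩
        · rintro ⟨hq, h1 | ⟨i, hi, h1⟩⟩
          · obtain ⟨t, rfl⟩ := mem_Qc.1 hq
            have h2 := mem_LQ.1 h1
            rw [hq0] at h2
            exact qc_mem_cutS.2 (h2.trans hpos)
          · obtain ⟨t, rfl⟩ := mem_Qc.1 hq
            have h2 := mem_LQ.1 h1
            rw [hqv] at h2
            have h3 : Nat.find hex ≤ i := Nat.find_min' hex hi
            have h4 : (1 : ℝ) / (i + 1) ≤ 1 / ((Nat.find hex : ℕ) + 1) := by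
              have h5 : ((Nat.find hex : ℕ) : ℝ) ≤ i := by exact_mod_cast h3
              exact one_div_le_one_div_of_le (by positivity) (by linarith)
            exact qc_mem_cutS.2 (h2.trans_le h4)
  have huM : ZFSet.sep (fun p => ∃ x ∈ X, ∃ e ∈ RR, p = pair x e ∧
      (∀ q ∈ e, pair q (qc (0, 0, 0)) ∈ LQ ∨ ∃ i ∈ ZFSet.omega, ∃ V ∈ M, pair i V ∈ s ∧ x ∉ V ∧
        pair q (pair (pair (nat 1) ∅) i) ∈ LQ) ∧
      ∀ q ∈ Qc, (pair q (qc (0, 0, 0)) ∈ LQ ∨ ∃ i ∈ ZFSet.omega, ∃ V ∈ M, pair i V ∈ s ∧ x ∉ V ∧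
        pair q (pair (pair (nat 1) ∅) i) ∈ LQ) → q ∈ e) (ZFSet.prod X RR) ∈ M := by
    generalize qc (0, 0, 0) = o at hz0
    generalize nat 1 = o1 at hn1
    refine hM.sep_mem (Q := fun p => ∃ x ∈ X, ∃ e ∈ RR, p = pair x e ∧
      (∀ q ∈ e, pair q o ∈ LQ ∨ ∃ i ∈ ZFSet.omega, ∃ V ∈ M, pair i V ∈ s ∧ x ∉ V ∧
        pair q (pair (pair o1 ∅) i) ∈ LQ) ∧
      ∀ q ∈ Qc, (pair q o ∈ LQ ∨ ∃ i ∈ ZFSet.omega, ∃ V ∈ M, pair i V ∈ s ∧ x ∉ V ∧
        pair q (pair (pair o1 ∅) i) ∈ LQ) → q ∈ e) ?_ (hM.prod_mem hX hRRM)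
    (repeat' first
      | assumption
      | exact DfnF.proj _
      | exact DfnF.const (by assumption)
      | exact DfnF.const' (by first | assumption | trivial) (by first | assumption | trivial)
      | exact Dfn.prop _
      | apply hB.isFunc' | apply hB.isInj' | apply hB.isBij' | apply hB.isOrdinal'
      | apply hB.subset' | apply hB.pair' | apply hB.insert'
      | apply Dfn.not | apply Dfn.and | apply Dfn.or | apply Dfn.imp | apply Dfn.iff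
      | apply hB.bex | apply hB.ball | apply Dfn.ex | apply Dfn.all
      | apply Dfn.eq | apply Dfn.mem)
  obtain ⟨u, hu⟩ : ∃ u, u = ZFSet.sep (fun p => ∃ x ∈ X, ∃ e ∈ RR, p = pair x e ∧
      (∀ q ∈ e, pair q (qc (0, 0, 0)) ∈ LQ ∨ ∃ i ∈ ZFSet.omega, ∃ V ∈ M, pair i V ∈ s ∧ x ∉ V ∧
        pair q (pair (pair (nat 1) ∅) i) ∈ LQ) ∧
      ∀ q ∈ Qc, (pair q (qc (0, 0, 0)) ∈ LQ ∨ ∃ i ∈ ZFSet.omega, ∃ V ∈ M, pair i V ∈ s ∧ x ∉ V ∧
        pair q (pair (pair (nat 1) ∅) i) ∈ LQ) → q ∈ e) (ZFSet.prod X RR) := ⟨_, rfl⟩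
  rw [← hu] at huM
  have hAM : ∀ n, A n ∈ M := fun n => hM.trans _ hτM _ (hcl n).1
  have hcond : ∀ x q, (pair q (qc (0, 0, 0)) ∈ LQ ∨ ∃ i ∈ ZFSet.omega, ∃ V ∈ M, pair i V ∈ s ∧
      x ∉ V ∧ pair q (pair (pair (nat 1) ∅) i) ∈ LQ) ↔
      (pair q (qc (0, 0, 0)) ∈ LQ ∨ ∃ i : ℕ, x ∉ A i ∧ pair q (qc (1, 0, i)) ∈ LQ) := by
    intro x q
    refine or_congr Iff.rfl ?_
    constructor
    · rintro ⟨i, hi, V, -, h1, h2, h3⟩
      obtain ⟨i, rfl⟩ := mem_omega_iff.1 hi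
      rw [(seq_fun hA).1 h1] at h2
      exact ⟨i, h2, h3⟩
    · rintro ⟨i, h1, h2⟩
      exact ⟨nat i, mem_omega_iff.2 ⟨i, rfl⟩, A i, hAM i, (hA _).2 ⟨i, rfl⟩, h1, h2⟩
  have hmem : ∀ x e, pair x e ∈ u ↔ x ∈ X ∧ e ∈ RR ∧ ∀ q, q ∈ e ↔ q ∈ Qc ∧
      (pair q (qc (0, 0, 0)) ∈ LQ ∨ ∃ i : ℕ, x ∉ A i ∧ pair q (qc (1, 0, i)) ∈ LQ) := by
    intro x e
    rw [hu, ZFSet.mem_sep, ZFSet.pair_mem_prod]
    constructor
    · rintro ⟨⟨hx, hr⟩, x', -, e', -, hp, h1, h2⟩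
      obtain ⟨rfl, rfl⟩ := ZFSet.pair_inj.1 hp
      refine ⟨hx, hr, fun q => ⟨fun hq => ?_, fun hq => h2 q hq.1 ((hcond x q).2 hq.2)⟩⟩
      obtain ⟨-, r, rfl⟩ := (hRR.1 e).1 hr
      obtain ⟨t, -, rfl⟩ := mem_cutS.1 hq
      exact ⟨mem_Qc.2 ⟨t, rfl⟩, (hcond x _).1 (h1 _ hq)⟩
    · rintro ⟨hx, hr, h1⟩
      exact ⟨⟨hx, hr⟩, x, hx, e, hr, rfl, fun q hq => (hcond x q).2 ((h1 q).1 hq).2,
        fun q hq h2 => (h1 q).2 ⟨hq, (hcond x q).1 h2⟩⟩
  have huniq : ∀ x e e', pair x e ∈ u → pair x e' ∈ u → e = e' := by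
    intro x e e' h1 h2
    ext q
    rw [((hmem _ _).1 h1).2.2, ((hmem _ _).1 h2).2.2]
  have hufun : ZFSet.IsFunc X RR u := by
    refine ⟨fun q hq => ?_, fun x hx => ?_⟩
    · rw [hu] at hq
      exact (ZFSet.mem_sep.1 hq).1
    · obtain ⟨r, h1, h2, h3, h4⟩ := hval x hx
      have h5 : pair x (cutS r) ∈ u := (hmem _ _).2 ⟨hx, h1, h4⟩
      exact ⟨cutS r, h5, fun e he => huniq _ _ _ he h5⟩
  have huv : ∀ x ∈ X, ∀ r, pair x (cutS r) ∈ u → (x ∈ C → r = 0) ∧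
      (x ∉ C → ∃ m : ℕ, x ∉ A m ∧ (∀ j < m, x ∈ A j) ∧ r = 1 / (m + 1)) := by
    intro x hx r hr
    obtain ⟨r', h1, h2, h3, h4⟩ := hval x hx
    have h5 : pair x (cutS r') ∈ u := (hmem _ _).2 ⟨hx, h1, h4⟩
    rw [cutS_injective (huniq _ _ _ hr h5)]
    exact ⟨h2, h3⟩
  -- the neighbourhoods
  have hnb : ∀ x ∈ X, ∀ m : ℕ, ∃ U, Nr X K R x U ∧ ∀ y ∈ X, y ∈ U → ∀ j ≤ m,
      (x ∈ A j ↔ y ∈ A j) := by
    intro x hx m
    induction m with
    | zero =>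
      by_cases hxA : x ∈ A 0
      · refine ⟨A 0, ((hτ _).1 (hcl 0).1).2.2 x hxA, fun y hy hyU j hj => ?_⟩
        rw [Nat.le_zero.1 hj]
        exact ⟨fun _ => hyU, fun _ => hxA⟩
      · refine ⟨X \ A 0, ((hτ _).1 (hcl 0).2).2.2 x (ZFSet.mem_sdiff.2 ⟨hx, hxA⟩),
          fun y hy hyU j hj => ?_⟩
        rw [Nat.le_zero.1 hj]
        exact ⟨fun h => absurd h hxA, fun h => absurd h (ZFSet.mem_sdiff.1 hyU).2⟩
    | succ m ih =>
      obtain ⟨U, hU, hU'⟩ := ih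
      by_cases hxA : x ∈ A (m + 1)
      · refine ⟨_, hU.inter (((hτ _).1 (hcl (m + 1)).1).2.2 x hxA), fun y hy hyU j hj => ?_⟩
        obtain ⟨h1, h2⟩ := ZFSet.mem_inter.1 hyU
        rcases Nat.le_succ_iff.1 hj with hj | hj
        · exact hU' y hy h1 j hj
        · rw [hj]
          exact ⟨fun _ => h2, fun _ => hxA⟩
      · refine ⟨_, hU.inter (((hτ _).1 (hcl (m + 1)).2).2.2 x (ZFSet.mem_sdiff.2 ⟨hx, hxA⟩)),
          fun y hy hyU j hj => ?_⟩
        obtain ⟨h1, h2⟩ := ZFSet.mem_inter.1 hyU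
        rcases Nat.le_succ_iff.1 hj with hj | hj
        · exact hU' y hy h1 j hj
        · rw [hj]
          exact ⟨fun h => absurd h hxA, fun h => absurd h (ZFSet.mem_sdiff.1 h2).2⟩
  refine ⟨u, huM, cont_of hM hQ hL hRRM hσM hRR hX hτM hK hR hτ huM hufun fun x hx r hr ε hε => ?_,
    fun z => ?_⟩
  · obtain ⟨h1, h2⟩ := huv x hx r hr
    by_cases hxC : x ∈ C
    · obtain ⟨m, hm⟩ := exists_nat_one_div_lt hε
      obtain ⟨U, hU, hU'⟩ := hnb x hx m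
      refine ⟨U, hU, fun y hy hyU t ht => ?_⟩
      rw [h1 hxC, zero_sub, abs_neg]
      obtain ⟨h3, h4⟩ := huv y hy t ht
      by_cases hyC : y ∈ C
      · rw [h3 hyC, abs_zero]
        exact hε
      · obtain ⟨m', h5, -, h6⟩ := h4 hyC
        have h7 : m < m' := by
          by_contra h8
          exact h5 ((hU' y hy hyU m' (not_lt.1 h8)).1 (((hCA x).1 hxC).2 m'))
        have h8 : (1 : ℝ) / (m' + 1) < 1 / (m + 1) := by
          have h9 : (m : ℝ) < m' := by exact_mod_cast h7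
          exact one_div_lt_one_div_of_lt (by positivity) (by linarith)
        rw [h6, abs_of_pos (by positivity)]
        exact h8.trans hm
    · obtain ⟨m, h3, h4, h5⟩ := h2 hxC
      obtain ⟨U, hU, hU'⟩ := hnb x hx m
      refine ⟨U, hU, fun y hy hyU t ht => ?_⟩
      have hyC : y ∉ C := fun h6 => h3 ((hU' y hy hyU m le_rfl).2 (((hCA y).1 h6).2 m))
      obtain ⟨m', h6, h7, h8⟩ := (huv y hy t ht).2 hyC
      have h9 : m' = m := by
        rcases lt_trichotomy m' m with h10 | h10 | h10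
        · exact absurd ((hU' y hy hyU m' h10.le).1 (h4 m' h10)) h6
        · exact h10
        · exact absurd ((hU' y hy hyU m le_rfl).2 (h7 m h10)) h3
      rw [h5, h8, h9, sub_self, abs_zero]
      exact hε
  · constructor
    · intro hz
      have hzX := ((hCA z).1 hz).1
      obtain ⟨r, h1, h2, h3, h4⟩ := hval z hzX
      rw [h2 hz] at h1 h4
      exact (hmem _ _).2 ⟨hzX, h1, h4⟩
    · intro hz
      have hzX := ((hmem _ _).1 hz).1
      by_contra hzC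
      obtain ⟨m, -, -, h1⟩ := (huv z hzX 0 hz).2 hzC
      have h2 : (0 : ℝ) < 1 / (m + 1) := by positivity
      linarith

end

end Pool.Agent.Q211.TP
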